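import Pool.Agent.Q46.MH.Graph
import Pool.Agent.H498R2.SM_T8

set_option autoImplicit false

/-! # Modular hyperbolas and modular exponential functions -/

namespace Pool.Agent.Q46.MH

open Finset Filter
open Pool.Agent.H469R2.NK (e norm_e e_add)
open Pool.Agent.W147.PS (ff ff_compare ev_pow)

section chars

variable {p : ℕ} [Fact p.Prime]

lemma e_val (h : ℕ) (z : ZMod p) :
    e ((h : ℝ) * z.val / p) = (ZMod.stdAddChar ((h : ZMod p) * z) : ℂ) := by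
  have hp : (p : ℂ) ≠ 0 := by exact_mod_cast (Fact.out : p.Prime).ne_zero
  have h1 : ((h : ZMod p) * z) = (((h : ℤ) * (z.val : ℤ) : ℤ) : ZMod p) := by
    push_cast
    rw [ZMod.natCast_zmod_val]
  rw [h1, ZMod.stdAddChar_coe]
  unfold e
  congr 1
  push_cast
  field_simp

lemma sum_char_all {a : ZMod p} (ha : a ≠ 0) : ∑ x : ZMod p, (ZMod.stdAddChar (a * x) : ℂ) = 0 := by
  have h1 := AddChar.sum_mulShift (R := ZMod p) (R' := ℂ) (ψ := ZMod.stdAddChar) a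
    (ZMod.isPrimitive_stdAddChar p)
  rw [if_neg ha, Nat.cast_zero] at h1
  rw [← h1]
  exact sum_congr rfl fun x _ => by rw [mul_comm]

lemma sum_units (f : ZMod p → ℂ) : ∑ u : (ZMod p)ˣ, f (u : ZMod p) = ∑ x : ZMod p, f x - f 0 := by
  classical
  have h1 : ∑ u : (ZMod p)ˣ, f (u : ZMod p) = ∑ x ∈ univ.erase (0 : ZMod p), f x := by
    refine sum_bij (fun (u : (ZMod p)ˣ) _ => (u : ZMod p)) ?_ ?_ ?_ ?_
    · intro u _
      rw [mem_erase]
      exact ⟨u.ne_zero, mem_univ _⟩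
    · intro u _ v _ h
      exact Units.ext h
    · intro x hx
      rw [mem_erase] at hx
      exact ⟨Units.mk0 x hx.1, mem_univ _, rfl⟩
    · intro u _
      rfl
  rw [h1, ← add_sum_erase univ f (mem_univ (0 : ZMod p))]
  ring

lemma sum_units_char {a : ZMod p} (ha : a ≠ 0) :
    ‖∑ u : (ZMod p)ˣ, (ZMod.stdAddChar (a * (u : ZMod p)) : ℂ)‖ ≤ 2 * Real.sqrt p := by
  rw [sum_units (fun x => (ZMod.stdAddChar (a * x) : ℂ)), sum_char_all ha]
  have h1 : (1 : ℝ) ≤ Real.sqrt p := by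
    rw [Real.one_le_sqrt]
    exact_mod_cast (Fact.out : p.Prime).one_lt.le
  simp
  linarith

/-- the sums of the modular hyperbola -/
lemma hyp_sum (c : (ZMod p)ˣ) (h k : ℕ) (hh : h < p) (hk : k < p) (h0 : h ≠ 0 ∨ k ≠ 0) :
    ‖∑ u : (ZMod p)ˣ, e ((h : ℝ) * (u : ZMod p).val / p) * e ((k : ℝ) * ((c * u⁻¹ : (ZMod p)ˣ) : ZMod p).val / p)‖
      ≤ 2 * Real.sqrt p := by
  have hz : ∀ n : ℕ, n < p → n ≠ 0 → (n : ZMod p) ≠ 0 := by
    intro n hn hn0 h1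
    rw [ZMod.natCast_eq_zero_iff] at h1
    exact absurd (Nat.le_of_dvd (by omega) h1) (by omega)
  have e1 : ∀ u : (ZMod p)ˣ, e ((h : ℝ) * (u : ZMod p).val / p) *
      e ((k : ℝ) * ((c * u⁻¹ : (ZMod p)ˣ) : ZMod p).val / p) =
      (ZMod.stdAddChar ((h : ZMod p) * (u : ZMod p) + ((k : ZMod p) * (c : ZMod p)) * ((u⁻¹ : (ZMod p)ˣ) : ZMod p)) : ℂ) := by
    intro u
    rw [e_val, e_val, ← AddChar.map_add_eq_mul]
    congr 2
    rw [Units.val_mul]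
    ring
  rw [sum_congr rfl (fun u _ => e1 u)]
  by_cases hh0 : h = 0
  · have hk0 : k ≠ 0 := by tauto
    subst hh0
    have e2 : ∑ u : (ZMod p)ˣ, (ZMod.stdAddChar (((0 : ℕ) : ZMod p) * (u : ZMod p) +
        ((k : ZMod p) * (c : ZMod p)) * ((u⁻¹ : (ZMod p)ˣ) : ZMod p)) : ℂ) =
        ∑ u : (ZMod p)ˣ, (ZMod.stdAddChar (((k : ZMod p) * (c : ZMod p)) * (u : ZMod p)) : ℂ) := by
      rw [← Equiv.sum_comp (Equiv.inv (ZMod p)ˣ)
        (fun u : (ZMod p)ˣ => (ZMod.stdAddChar (((k : ZMod p) * (c : ZMod p)) * (u : ZMod p)) : ℂ))]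
      refine sum_congr rfl fun u _ => ?_
      rw [Nat.cast_zero, zero_mul, zero_add, Equiv.inv_apply]
    rw [e2]
    exact sum_units_char (mul_ne_zero (hz k hk hk0) c.ne_zero)
  · by_cases hk0 : k = 0
    · subst hk0
      have e2 : ∑ u : (ZMod p)ˣ, (ZMod.stdAddChar ((h : ZMod p) * (u : ZMod p) +
          (((0 : ℕ) : ZMod p) * (c : ZMod p)) * ((u⁻¹ : (ZMod p)ˣ) : ZMod p)) : ℂ) =
          ∑ u : (ZMod p)ˣ, (ZMod.stdAddChar ((h : ZMod p) * (u : ZMod p)) : ℂ) := by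
        refine sum_congr rfl fun u _ => ?_
        rw [Nat.cast_zero, zero_mul, zero_mul, add_zero]
      rw [e2]
      exact sum_units_char (hz h hh hh0)
    · exact Pool.Agent.H498R2.kloosterman_prime p _ _ (hz h hh hh0)
        (mul_ne_zero (hz k hk hk0) c.ne_zero)

end chars

/-- **modular hyperbolas** -/
theorem hyperbola (ε : ℝ) (hε : 0 < ε) (hε1 : ε ≤ 1) : ∃ κ : ℝ, 0 < κ ∧ ∃ p₀ : ℕ, ∀ p : ℕ, p₀ ≤ p →
    p.Prime → ∀ c : ℤ, ¬ (p : ℤ) ∣ c → ∀ A1 N1 A2 N2 : ℕ, A1 + N1 ≤ p → A2 + N2 ≤ p →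
      (p : ℝ) ^ (3 / 2 + ε) ≤ (N1 : ℝ) * N2 →
      ∃ G : Finset (ℕ × ℕ), (N1 : ℝ) * N2 / p * (p : ℝ) ^ (-ε) ≤ G.card ∧
        ∀ z ∈ G, (A1 ≤ z.1 ∧ z.1 < A1 + N1) ∧ (A2 ≤ z.2 ∧ z.2 < A2 + N2) ∧
          (p : ℤ) ∣ z.1 * z.2 - c ∧
          (∀ q : ℕ, q.Prime → κ * ff p < |(q : ℝ) - z.1|) ∧ ∀ q : ℕ, q.Prime → κ * ff p < |(q : ℝ) - z.2| := by
  classical
  obtain ⟨κ, hκ, hg⟩ := graph (ε / 2) (by positivity) (by linarith)
  have e1 := (tendsto_natCast_atTop_atTop (R := ℝ)).eventually hg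
  have e2 := (tendsto_natCast_atTop_atTop (R := ℝ)).eventually
    ((tendsto_rpow_atTop (show (0 : ℝ) < ε / 2 by positivity)).eventually_ge_atTop 4)
  obtain ⟨p₀, hp₀⟩ := (e1.and (e2.and (eventually_ge_atTop 2))).exists_forall_of_atTop
  refine ⟨κ, hκ, p₀, ?_⟩
  intro p hp0 hp c hc A1 N1 A2 N2 hA1 hA2 hN
  obtain ⟨g1, g2, g3⟩ := hp₀ p hp0
  have : Fact p.Prime := ⟨hp⟩
  have hpr : (2 : ℝ) ≤ p := by exact_mod_cast g3
  have hp0' : (0 : ℝ) < p := by linarith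
  have hN2p : (N2 : ℝ) ≤ p := by exact_mod_cast (by omega : N2 ≤ p)
  have hN1p : (N1 : ℝ) ≤ p := by exact_mod_cast (by omega : N1 ≤ p)
  have hN10 : (0 : ℝ) ≤ N1 := Nat.cast_nonneg _
  have hN20 : (0 : ℝ) ≤ N2 := Nat.cast_nonneg _
  have hcu : (c : ZMod p) ≠ 0 := by
    rw [Ne, ZMod.intCast_zmod_eq_zero_iff_dvd]
    exact hc
  set cu : (ZMod p)ˣ := Units.mk0 (c : ZMod p) hcu with hcud
  have hmono : ∀ x y : ℝ, x ≤ y → (p : ℝ) ^ x ≤ (p : ℝ) ^ y := fun x y h =>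
    Real.rpow_le_rpow_of_exponent_le (by linarith) h
  have hsplit : (p : ℝ) ^ (3 / 2 + ε) = (p : ℝ) ^ (1 / 2 + ε) * p := by
    have : (3 / 2 + ε) = (1 / 2 + ε) + 1 := by ring
    rw [this, Real.rpow_add_one hp0'.ne']
  have hN1 : (p : ℝ) ^ (1 / 2 + ε) ≤ N1 := by
    rw [hsplit] at hN
    have : (N1 : ℝ) * N2 ≤ N1 * p := mul_le_mul_of_nonneg_left hN2p hN10
    exact le_of_mul_le_mul_right (hN.trans this) hp0'
  have hN2 : (p : ℝ) ^ (1 / 2 + ε) ≤ N2 := by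
    rw [hsplit] at hN
    have : (N1 : ℝ) * N2 ≤ N2 * p := by
      rw [mul_comm]
      exact mul_le_mul_of_nonneg_left hN1p hN20
    exact le_of_mul_le_mul_right (hN.trans this) hp0'
  have hcardU : ((univ : Finset (ZMod p)ˣ).card : ℝ) = (p : ℝ) - 1 := by
    rw [card_univ, ZMod.card_units_eq_totient, Nat.totient_prime hp, Nat.cast_sub hp.one_lt.le]
    simp
  have hW : (N1 : ℝ) * N2 / (2 * p) ≤ (N1 : ℝ) * N2 * (univ : Finset (ZMod p)ˣ).card / (p * p) := by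
    rw [hcardU, div_le_div_iff₀ (by positivity) (by positivity)]
    have h1 : (p : ℝ) ≤ 2 * (p - 1) := by linarith
    have h2 : 0 ≤ (N1 : ℝ) * N2 * p := by positivity
    nlinarith
  have hBW : 2 * Real.sqrt p * (p : ℝ) ^ (ε / 2) ≤
      (N1 : ℝ) * N2 * (univ : Finset (ZMod p)ˣ).card / (p * p) := by
    refine le_trans ?_ hW
    rw [le_div_iff₀ (by positivity)]
    have h5 : 2 * Real.sqrt p * (p : ℝ) ^ (ε / 2) * (2 * p) = 4 * ((p : ℝ) ^ (1 / 2 + ε / 2) * p) := by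
      rw [Real.sqrt_eq_rpow, Real.rpow_add hp0']
      ring
    rw [h5]
    refine le_trans ?_ hN
    rw [hsplit, ← mul_assoc]
    apply mul_le_mul_of_nonneg_right _ hp0'.le
    have : (p : ℝ) ^ (1 / 2 + ε) = (p : ℝ) ^ (ε / 2) * (p : ℝ) ^ (1 / 2 + ε / 2) := by
      rw [← Real.rpow_add hp0']
      congr 1
      ring
    rw [this]
    exact mul_le_mul_of_nonneg_right g2 (by positivity)
  have key := g1 p p hp.one_lt.le hp.one_lt.le le_rfl le_rfl (ZMod p)ˣ univ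
    (fun u => (u : ZMod p).val) (fun u => ((cu * u⁻¹ : (ZMod p)ˣ) : ZMod p).val)
    (fun u _ => ZMod.val_lt _) (fun u _ => ZMod.val_lt _) (2 * Real.sqrt p) (by positivity)
    (fun h hh k hk h0 => hyp_sum cu h k hh hk h0) A1 N1 A2 N2 hA1 hA2
    ((hmono _ _ (by linarith)).trans hN1) ((hmono _ _ (by linarith)).trans hN2) hBW
  set G0 := good (κ * ff p) (univ : Finset (ZMod p)ˣ) (fun u => (u : ZMod p).val)
    (fun u => ((cu * u⁻¹ : (ZMod p)ˣ) : ZMod p).val) A1 N1 A2 N2 with hG0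
  refine ⟨G0.image (fun u : (ZMod p)ˣ => ((u : ZMod p).val, ((cu * u⁻¹ : (ZMod p)ˣ) : ZMod p).val)), ?_, ?_⟩
  · rw [card_image_of_injective]
    · refine le_trans ?_ key
      have h1 : (p : ℝ) ^ (-ε) * 2 ≤ (p : ℝ) ^ (-(ε / 2)) := by
        have : (p : ℝ) ^ (-(ε / 2)) = (p : ℝ) ^ (-ε) * (p : ℝ) ^ (ε / 2) := by
          rw [← Real.rpow_add hp0']
          congr 1
          ring
        rw [this]
        apply mul_le_mul_of_nonneg_left _ (by positivity)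
        linarith
      calc (N1 : ℝ) * N2 / p * (p : ℝ) ^ (-ε) = (N1 : ℝ) * N2 / (2 * p) * ((p : ℝ) ^ (-ε) * 2) := by
            field_simp
        _ ≤ _ := mul_le_mul hW h1 (by positivity) (by positivity)
    · intro u v huv
      have h1 : (u : ZMod p).val = (v : ZMod p).val := (Prod.ext_iff.1 huv).1
      exact Units.ext (ZMod.val_injective p h1)
  · intro z hz
    obtain ⟨u, hu, rfl⟩ := mem_image.1 hz
    rw [hG0] at hu
    unfold good at hu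
    rw [mem_filter, mem_Ico, mem_Ico] at hu
    obtain ⟨-, h1, h2, h3, h4⟩ := hu
    refine ⟨h1, h2, ?_, h3, h4⟩
    rw [← ZMod.intCast_zmod_eq_zero_iff_dvd, Int.cast_sub, Int.cast_mul, Int.cast_natCast, Int.cast_natCast,
      ZMod.natCast_zmod_val, ZMod.natCast_zmod_val, ← Units.val_mul]
    have : u * (cu * u⁻¹) = cu := by
      rw [mul_comm cu, ← mul_assoc, mul_inv_cancel, one_mul]
    rw [this, hcud, Units.val_mk0, sub_self]

end Pool.Agent.Q46.MH
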