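import Pool.Agent.Q46.MH.One
import Pool.Agent.Q46.MH.Hyp

set_option autoImplicit false

/-! # Bilinear forms and distances over prime fields -/

namespace Pool.Agent.Q46.MH

open Finset Filter
open Pool.Agent.H469R2.NK (e norm_e e_add)
open Pool.Agent.W147.PS (ff ff_compare ev_pow)

section bil

variable {p : ℕ} [Fact p.Prime]

lemma char_ne_one {z : ZMod p} (hz : z ≠ 0) : (ZMod.stdAddChar z : ℂ) ≠ 1 := by
  intro h
  apply hz
  apply ZMod.injective_stdAddChar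
  rw [h, AddChar.map_zero_eq_one]

lemma norm_char (z : ZMod p) : ‖(ZMod.stdAddChar z : ℂ)‖ = 1 := AddChar.norm_apply _ _

lemma conj_char' (z : ZMod p) : (starRingEnd ℂ) (ZMod.stdAddChar z : ℂ) = ZMod.stdAddChar (-z) := by
  rw [AddChar.map_neg_eq_conj]

lemma sum_dot {d : ℕ} {t : ZMod p} (ht : t ≠ 0) {w : Fin d → ZMod p} (hw : w ≠ 0) :
    ∑ a : Fin d → ZMod p, (ZMod.stdAddChar (t * (a ⬝ᵥ w)) : ℂ) = 0 := by
  classical
  obtain ⟨i, hi⟩ := Function.ne_iff.1 hw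
  set v : Fin d → ZMod p := Pi.single i 1 with hv
  have h1 : ∑ a : Fin d → ZMod p, (ZMod.stdAddChar (t * (a ⬝ᵥ w)) : ℂ) =
      (ZMod.stdAddChar (t * w i) : ℂ) * ∑ a : Fin d → ZMod p, (ZMod.stdAddChar (t * (a ⬝ᵥ w)) : ℂ) := by
    rw [mul_sum, ← Equiv.sum_comp (Equiv.addRight v)]
    refine sum_congr rfl fun a _ => ?_
    rw [← AddChar.map_add_eq_mul, Equiv.coe_addRight, add_dotProduct, hv, single_dotProduct, one_mul]
    congr 1
    ring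
  have h2 : (ZMod.stdAddChar (t * w i) : ℂ) ≠ 1 := char_ne_one (mul_ne_zero ht hi)
  have h3 : (1 - (ZMod.stdAddChar (t * w i) : ℂ)) *
      ∑ a : Fin d → ZMod p, (ZMod.stdAddChar (t * (a ⬝ᵥ w)) : ℂ) = 0 := by
    rw [sub_mul, one_mul, ← h1, sub_self]
  rcases mul_eq_zero.1 h3 with h4 | h4
  · exact absurd (sub_eq_zero.1 h4).symm h2
  · exact h4

lemma bil_parseval {d : ℕ} {t : ZMod p} (ht : t ≠ 0) (B : Finset (Fin d → ZMod p))
    (v : (Fin d → ZMod p) → ℂ) (hv : ∀ b, ‖v b‖ = 1) :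
    ∑ a : Fin d → ZMod p, ‖∑ b ∈ B, v b * (ZMod.stdAddChar (t * (a ⬝ᵥ b)) : ℂ)‖ ^ 2 = p ^ d * B.card := by
  classical
  have h1 : ∀ a : Fin d → ZMod p, ((‖∑ b ∈ B, v b * (ZMod.stdAddChar (t * (a ⬝ᵥ b)) : ℂ)‖ ^ 2 : ℝ) : ℂ) =
      ∑ b ∈ B, ∑ b' ∈ B, v b * (starRingEnd ℂ) (v b') * (ZMod.stdAddChar (t * (a ⬝ᵥ (b - b'))) : ℂ) := by
    intro a
    have h2 : ((‖∑ b ∈ B, v b * (ZMod.stdAddChar (t * (a ⬝ᵥ b)) : ℂ)‖ ^ 2 : ℝ) : ℂ) =
        (∑ b ∈ B, v b * (ZMod.stdAddChar (t * (a ⬝ᵥ b)) : ℂ)) *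
        (starRingEnd ℂ) (∑ b ∈ B, v b * (ZMod.stdAddChar (t * (a ⬝ᵥ b)) : ℂ)) := by
      rw [Complex.mul_conj, Complex.normSq_eq_norm_sq]
    rw [h2, map_sum, sum_mul_sum]
    refine sum_congr rfl fun b _ => sum_congr rfl fun b' _ => ?_
    rw [map_mul (starRingEnd ℂ), conj_char', dotProduct_sub, mul_sub, sub_eq_add_neg,
      AddChar.map_add_eq_mul]
    ring
  have h2 : ((∑ a : Fin d → ZMod p, ‖∑ b ∈ B, v b * (ZMod.stdAddChar (t * (a ⬝ᵥ b)) : ℂ)‖ ^ 2 : ℝ) : ℂ) =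
      ((p ^ d * B.card : ℝ) : ℂ) := by
    rw [Complex.ofReal_sum, sum_congr rfl fun a _ => h1 a, sum_comm]
    have h4 : ∀ b ∈ B, ∑ a : Fin d → ZMod p, ∑ b' ∈ B, v b * (starRingEnd ℂ) (v b') *
        (ZMod.stdAddChar (t * (a ⬝ᵥ (b - b'))) : ℂ) = p ^ d := by
      intro b hb
      rw [sum_comm, sum_eq_single b]
      · rw [sub_self]
        have h5 : v b * (starRingEnd ℂ) (v b) = 1 := by
          rw [Complex.mul_conj, Complex.normSq_eq_norm_sq, hv]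
          simp
        simp [h5, ZMod.card]
      · intro b' _ hne
        rw [← mul_sum, sum_dot ht (sub_ne_zero.2 hne.symm), mul_zero]
      · intro h
        exact absurd hb h
    rw [sum_congr rfl h4, sum_const, nsmul_eq_mul]
    push_cast
    ring
  exact_mod_cast h2

lemma bil_sum {d : ℕ} (A B : Finset (Fin d → ZMod p)) (f g : (Fin d → ZMod p) → ZMod p) {c k : ZMod p}
    (hc : c ≠ 0) (hk : k ≠ 0) :
    ‖∑ z ∈ A ×ˢ B, (ZMod.stdAddChar (k * (c * (z.1 ⬝ᵥ z.2) + f z.1 + g z.2)) : ℂ)‖ ≤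
      Real.sqrt ((p : ℝ) ^ d * A.card * B.card) := by
  classical
  set v : (Fin d → ZMod p) → ℂ := fun b => ZMod.stdAddChar (k * g b) with hv
  have h1 : ∑ z ∈ A ×ˢ B, (ZMod.stdAddChar (k * (c * (z.1 ⬝ᵥ z.2) + f z.1 + g z.2)) : ℂ) =
      ∑ a ∈ A, (ZMod.stdAddChar (k * f a) : ℂ) *
        ∑ b ∈ B, v b * (ZMod.stdAddChar ((k * c) * (a ⬝ᵥ b)) : ℂ) := by
    rw [sum_product]
    refine sum_congr rfl fun a _ => ?_
    rw [mul_sum]
    refine sum_congr rfl fun b _ => ?_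
    rw [hv]
    simp only
    rw [← AddChar.map_add_eq_mul, ← AddChar.map_add_eq_mul]
    congr 1
    ring
  set T : (Fin d → ZMod p) → ℝ := fun a => ‖∑ b ∈ B, v b * (ZMod.stdAddChar ((k * c) * (a ⬝ᵥ b)) : ℂ)‖ with hT
  have h2 : ‖∑ z ∈ A ×ˢ B, (ZMod.stdAddChar (k * (c * (z.1 ⬝ᵥ z.2) + f z.1 + g z.2)) : ℂ)‖ ≤
      ∑ a ∈ A, T a := by
    rw [h1]
    refine (norm_sum_le _ _).trans (sum_le_sum fun a _ => ?_)
    rw [norm_mul, norm_char, one_mul]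
  have h3 : (∑ a ∈ A, T a) ^ 2 ≤ A.card * ∑ a ∈ A, T a ^ 2 := sq_sum_le_card_mul_sum_sq
  have h4 : ∑ a ∈ A, T a ^ 2 ≤ ∑ a, T a ^ 2 :=
    sum_le_sum_of_subset_of_nonneg (subset_univ _) (fun _ _ _ => by positivity)
  have h5 : ∑ a, T a ^ 2 = p ^ d * B.card :=
    bil_parseval (mul_ne_zero hk hc) B v (fun b => norm_char _)
  have h6 : (∑ a ∈ A, T a) ^ 2 ≤ (p : ℝ) ^ d * A.card * B.card := by
    calc (∑ a ∈ A, T a) ^ 2 ≤ A.card * ∑ a, T a ^ 2 :=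
          h3.trans (mul_le_mul_of_nonneg_left h4 (Nat.cast_nonneg _))
      _ = (p : ℝ) ^ d * A.card * B.card := by
          rw [h5]
          ring
  exact h2.trans (Real.le_sqrt_of_sq_le h6)

end bil

/-- **bilinear forms with arbitrary functions of the two vectors** -/
theorem bilinear (ε : ℝ) (hε : 0 < ε) (hε1 : ε ≤ 1) : ∃ κ : ℝ, 0 < κ ∧ ∃ p₀ : ℕ, ∀ p : ℕ, p₀ ≤ p →
    p.Prime → ∀ (d : ℕ) (A B : Finset (Fin d → ZMod p)) (f g : (Fin d → ZMod p) → ZMod p) (c : ZMod p), c ≠ 0 →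
    ∀ u N : ℕ, u + N ≤ p → (p : ℝ) ^ ε ≤ N → (p : ℝ) ^ (d + 2 + ε) ≤ (N : ℝ) ^ 2 * A.card * B.card →
      (N : ℝ) * A.card * B.card / p * (p : ℝ) ^ (-ε) ≤ (good1 (κ * ff p) (A ×ˢ B)
        (fun z => (c * (z.1 ⬝ᵥ z.2) + f z.1 + g z.2).val) u N).card := by
  classical
  obtain ⟨κ, hκ, hg⟩ := graph1 (ε / 2) (by positivity) (by linarith)
  have e1 := (tendsto_natCast_atTop_atTop (R := ℝ)).eventually hg
  obtain ⟨p₀, hp₀⟩ := (e1.and (eventually_ge_atTop 2)).exists_forall_of_atTop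
  refine ⟨κ, hκ, p₀, ?_⟩
  intro p hp0 hp d A B f g c hc u N hu hN1 hN2
  obtain ⟨g1, g3⟩ := hp₀ p hp0
  have : Fact p.Prime := ⟨hp⟩
  have hpr : (2 : ℝ) ≤ p := by exact_mod_cast g3
  have hp0' : (0 : ℝ) < p := by linarith
  have hmono : ∀ x y : ℝ, x ≤ y → (p : ℝ) ^ x ≤ (p : ℝ) ^ y := fun x y h =>
    Real.rpow_le_rpow_of_exponent_le (by linarith) h
  have hcard : ((A ×ˢ B).card : ℝ) = A.card * B.card := by
    rw [card_product]
    push_cast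
    ring
  set a : ℝ := (A.card : ℝ) with ha
  set b : ℝ := (B.card : ℝ) with hb
  have ha0 : 0 ≤ a := Nat.cast_nonneg _
  have hb0 : 0 ≤ b := Nat.cast_nonneg _
  have key := g1 p hp.one_lt.le le_rfl ((Fin d → ZMod p) × (Fin d → ZMod p)) (A ×ˢ B)
    (fun z => (c * (z.1 ⬝ᵥ z.2) + f z.1 + g z.2).val) (fun z _ => ZMod.val_lt _)
    (Real.sqrt ((p : ℝ) ^ d * a * b)) (Real.sqrt_nonneg _)
    (by
      intro h hh h0
      have hz : (h : ZMod p) ≠ 0 := by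
        intro h1
        rw [ZMod.natCast_eq_zero_iff] at h1
        exact absurd (Nat.le_of_dvd (by omega) h1) (by omega)
      have h1 := bil_sum A B f g hc hz
      refine le_trans (le_of_eq ?_) h1
      congr 1
      refine sum_congr rfl fun z _ => ?_
      rw [e_val])
    u N hu ((hmono _ _ (by linarith)).trans hN1)
    (by
      rw [hcard, le_div_iff₀ hp0']
      have h1 : Real.sqrt ((p : ℝ) ^ d * a * b) * (p : ℝ) ^ (ε / 2) * p =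
          Real.sqrt ((p : ℝ) ^ d * a * b * ((p : ℝ) ^ ε * p ^ 2)) := by
        rw [Real.sqrt_mul (show (0 : ℝ) ≤ (p : ℝ) ^ d * a * b by positivity) ((p : ℝ) ^ ε * p ^ 2),
          Real.sqrt_mul (show (0 : ℝ) ≤ (p : ℝ) ^ ε by positivity) ((p : ℝ) ^ 2),
          Real.sqrt_sq hp0'.le, Real.sqrt_eq_rpow ((p : ℝ) ^ ε), ← Real.rpow_mul hp0'.le]
        have : ε * (1 / 2) = ε / 2 := by ring
        rw [this]
        ring
      rw [h1]
      apply Real.sqrt_le_iff.2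
      refine ⟨by positivity, ?_⟩
      have h2 : (p : ℝ) ^ (d + 2 + ε) = (p : ℝ) ^ d * ((p : ℝ) ^ ε * p ^ 2) := by
        rw [Real.rpow_add hp0', Real.rpow_add hp0', Real.rpow_natCast, Real.rpow_two]
        ring
      rw [h2] at hN2
      calc (p : ℝ) ^ d * a * b * ((p : ℝ) ^ ε * p ^ 2) = (p : ℝ) ^ d * ((p : ℝ) ^ ε * p ^ 2) * (a * b) := by ring
        _ ≤ (N : ℝ) ^ 2 * a * b * (a * b) := mul_le_mul_of_nonneg_right hN2 (by positivity)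
        _ = ((N : ℝ) * (a * b)) ^ 2 := by ring)
  refine le_trans ?_ key
  rw [hcard]
  calc (N : ℝ) * a * b / p * (p : ℝ) ^ (-ε) = (N : ℝ) * (a * b) / p * (p : ℝ) ^ (-ε) := by ring
    _ ≤ _ := mul_le_mul_of_nonneg_left (hmono _ _ (by linarith)) (by positivity)

end Pool.Agent.Q46.MH
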