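import Pool.Agent.Q46.MH.Graph

set_option autoImplicit false

/-! # Record prime gaps around all coordinates of equidistributed points of the space -/

namespace Pool.Agent.Q46.MH

open Finset Filter
open Pool.Agent.H469R2.NK (e norm_e e_add)
open Pool.Agent.TH915.PW (e_int sum_char)
open Pool.Agent.W147.PS (ff ff_compare ev_pow)

/-- **points in boxes** -/
theorem completeR {ι : Type*} {r : ℕ} (Ω : Finset ι) (x : ι → Fin r → ℕ) (m : Fin r → ℕ) (hm : ∀ j, 1 ≤ m j)
    (hx : ∀ i ∈ Ω, ∀ j, x i j < m j) (B : ℝ) (hB : 0 ≤ B)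
    (hS : ∀ h : Fin r → ℕ, (∀ j, h j < m j) → h ≠ 0 → ‖∑ i ∈ Ω, ∏ j, e ((h j : ℝ) * x i j / m j)‖ ≤ B)
    (A N : Fin r → ℕ) (hA : ∀ j, A j + N j ≤ m j) (θ : Fin r → ℝ) :
    ‖∑ i ∈ Ω.filter (fun i => ∀ j, x i j ∈ Ico (A j) (A j + N j)), ∏ j, e (θ j * x i j) -
      (∏ j, FF (A j) (N j) (θ j) / (m j : ℂ)) * Ω.card‖ ≤ B * ∏ j, (3 + Real.log (m j)) := by
  classical
  have hmr : ∀ j, (0 : ℝ) < m j := fun j => by exact_mod_cast hm j
  set c : Fin r → ℕ → ℂ := fun j h => (1 / (m j : ℂ)) * FF (A j) (N j) (θ j - h / m j) with hc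
  set S : (Fin r → ℕ) → ℂ := fun h => ∑ i ∈ Ω, ∏ j, e ((h j : ℝ) * x i j / m j) with hSd
  set P : Finset (Fin r → ℕ) := Fintype.piFinset (fun j => range (m j)) with hP
  have e1 : ∑ i ∈ Ω.filter (fun i => ∀ j, x i j ∈ Ico (A j) (A j + N j)), ∏ j, e (θ j * x i j) =
      ∑ h ∈ P, (∏ j, c j (h j)) * S h := by
    rw [sum_filter]
    have e2 : ∀ i ∈ Ω, (if ∀ j, x i j ∈ Ico (A j) (A j + N j) then ∏ j, e (θ j * x i j) else 0) =
        ∑ h ∈ P, (∏ j, c j (h j)) * ∏ j, e ((h j : ℝ) * x i j / m j) := by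
      intro i hi
      have e3 : (if ∀ j, x i j ∈ Ico (A j) (A j + N j) then ∏ j, e (θ j * x i j) else 0) =
          ∏ j, (if x i j ∈ Ico (A j) (A j + N j) then e (θ j * x i j) else 0) := by
        split_ifs with hcase
        · exact prod_congr rfl fun j _ => by rw [if_pos (hcase j)]
        · push Not at hcase
          obtain ⟨j, hj⟩ := hcase
          exact (prod_eq_zero (mem_univ j) (if_neg hj)).symm
      rw [e3]
      have e4 : ∀ j, (if x i j ∈ Ico (A j) (A j + N j) then e (θ j * x i j) else 0) =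
          ∑ h ∈ range (m j), c j h * e ((h : ℝ) * x i j / m j) := by
        intro j
        rw [complete1 (A j) (N j) (m j) (hm j) (hA j) (θ j) (x i j) (hx i hi j), mul_sum]
        refine sum_congr rfl fun h _ => ?_
        rw [hc]
        simp only
        ring
      simp_rw [e4]
      rw [prod_univ_sum]
      refine sum_congr rfl fun h _ => ?_
      rw [prod_mul_distrib]
    rw [sum_congr rfl e2, sum_comm]
    refine sum_congr rfl fun h _ => ?_
    rw [hSd, mul_sum]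
  have h0mem : (0 : Fin r → ℕ) ∈ P := by
    rw [hP, Fintype.mem_piFinset]
    intro j
    rw [mem_range]
    exact hm j
  have hS0 : S 0 = Ω.card := by
    have h0 : e 0 = 1 := by simpa using e_int 0
    simp [hSd, h0]
  have e5 : ∑ h ∈ P, (∏ j, c j (h j)) * S h - (∏ j, FF (A j) (N j) (θ j) / (m j : ℂ)) * Ω.card =
      ∑ h ∈ P.erase 0, (∏ j, c j (h j)) * S h := by
    rw [← add_sum_erase P _ h0mem, hS0]
    have e6 : ∏ j, c j ((0 : Fin r → ℕ) j) = ∏ j, FF (A j) (N j) (θ j) / (m j : ℂ) := by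
      refine prod_congr rfl fun j _ => ?_
      rw [hc]
      simp only [Pi.zero_apply, Nat.cast_zero, zero_div, sub_zero]
      ring
    rw [e6]
    ring
  rw [e1, e5]
  refine (norm_sum_le _ _).trans ?_
  have e7 : ∀ h ∈ P.erase 0, ‖(∏ j, c j (h j)) * S h‖ ≤ (∏ j, ‖c j (h j)‖) * B := by
    intro h hh
    rw [mem_erase, hP, Fintype.mem_piFinset] at hh
    rw [norm_mul, norm_prod]
    exact mul_le_mul_of_nonneg_left (hS h (fun j => mem_range.1 (hh.2 j)) hh.1)
      (prod_nonneg fun _ _ => norm_nonneg _)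
  refine (sum_le_sum e7).trans ?_
  refine (sum_le_sum_of_subset_of_nonneg (erase_subset _ _)
    (fun _ _ _ => mul_nonneg (prod_nonneg fun _ _ => norm_nonneg _) hB)).trans ?_
  rw [← sum_mul, ← prod_univ_sum (fun j => range (m j)) (fun j h => ‖c j h‖), mul_comm]
  apply mul_le_mul_of_nonneg_left _ hB
  apply prod_le_prod (fun j _ => sum_nonneg fun _ _ => norm_nonneg _)
  intro j _
  have e8 : ∀ h ∈ range (m j), ‖c j h‖ = (1 / (m j : ℝ)) * ‖FF (A j) (N j) (θ j - h / m j)‖ := by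
    intro h _
    rw [hc]
    simp only
    rw [norm_mul, norm_div, norm_one, Complex.norm_natCast]
  rw [sum_congr rfl e8, ← mul_sum]
  have e9 := L1_bound (A j) (N j) (m j) (hm j) (by have := hA j; omega) (θ j)
  calc (1 / (m j : ℝ)) * _ ≤ (1 / (m j : ℝ)) * (m j * (3 + Real.log (m j))) :=
        mul_le_mul_of_nonneg_left e9 (by have := hmr j; positivity)
    _ = 3 + Real.log (m j) := by
        have := (hmr j).ne'
        field_simp

open Classical in
/-- the members of `Ω` with `A j ≤ x j < A j + N j` for all `j`, and no primes within `K` of the `x j` -/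
noncomputable def goodR {ι : Type*} {r : ℕ} (K : ℝ) (Ω : Finset ι) (x : ι → Fin r → ℕ) (A N : Fin r → ℕ) : Finset ι :=
  Ω.filter (fun i => (∀ j, x i j ∈ Ico (A j) (A j + N j)) ∧ ∀ j, ∀ q : ℕ, q.Prime → K < |(q : ℝ) - x i j|)

lemma ev_logR (r : ℕ) (ε : ℝ) (hε : 0 < ε) : ∀ᶠ M : ℝ in atTop, 2 ^ r * (3 + Real.log M) ^ r ≤ M ^ (ε / 2) := by
  set δ : ℝ := ε / (2 * (r + 1)) with hδ
  have hδ0 : 0 < δ := by positivity
  have h1 := (isLittleO_log_rpow_atTop hδ0).def (show (0 : ℝ) < 1 / 4 by norm_num)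
  have h2 := (tendsto_rpow_atTop hδ0).eventually_ge_atTop 12
  filter_upwards [h1, h2, eventually_ge_atTop (1 : ℝ)] with M h3 h4 h5
  have h0 : 0 < M := by linarith
  rw [Real.norm_eq_abs, Real.norm_eq_abs, abs_of_nonneg (Real.log_nonneg h5),
    abs_of_nonneg (Real.rpow_nonneg h0.le _)] at h3
  have h6 : 2 * (3 + Real.log M) ≤ M ^ δ := by linarith
  have h8 : 0 ≤ 3 + Real.log M := by have := Real.log_nonneg h5; linarith
  rw [← mul_pow]
  calc (2 * (3 + Real.log M)) ^ r ≤ (M ^ δ) ^ r := pow_le_pow_left₀ (by positivity) h6 r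
    _ ≤ (M ^ δ) ^ (r + 1) := pow_le_pow_right₀ (by linarith) (Nat.le_succ r)
    _ = M ^ (ε / 2) := by
        rw [← Real.rpow_natCast, ← Real.rpow_mul h0.le]
        congr 1
        rw [hδ]
        push_cast
        field_simp

/-- **equidistributed points of the space** -/
theorem graphR (r : ℕ) (hr : 1 ≤ r) (ε : ℝ) (hε : 0 < ε) (hε1 : ε ≤ 1) : ∃ κ : ℝ, 0 < κ ∧ ∀ᶠ M : ℝ in atTop,
    ∀ m : Fin r → ℕ, (∀ j, 1 ≤ m j) → (∀ j, (m j : ℝ) ≤ M) →
    ∀ (ι : Type) (Ω : Finset ι) (x : ι → Fin r → ℕ), (∀ i ∈ Ω, ∀ j, x i j < m j) →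
    ∀ B : ℝ, 0 ≤ B → (∀ h : Fin r → ℕ, (∀ j, h j < m j) → h ≠ 0 →
      ‖∑ i ∈ Ω, ∏ j, e ((h j : ℝ) * x i j / m j)‖ ≤ B) →
    ∀ A N : Fin r → ℕ, (∀ j, A j + N j ≤ m j) → (∀ j, M ^ ε ≤ N j) →
      B * M ^ ε ≤ (∏ j, (N j : ℝ) / m j) * Ω.card →
      (∏ j, (N j : ℝ) / m j) * Ω.card * M ^ (-ε) ≤ (goodR (κ * ff M) Ω x A N).card := by
  classical
  obtain ⟨κ, hκ, hcr⟩ := crit_many r hr (ε / 8) (by positivity) (by linarith)
  refine ⟨κ, hκ, ?_⟩
  filter_upwards [hcr, eventually_ge_atTop (1 : ℝ), ev_logR r ε hε,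
    (tendsto_rpow_atTop (show (0 : ℝ) < 3 * ε / 8 by positivity)).eventually_ge_atTop (8 * 2 ^ r)] with M hM hM1 hlg h8
  intro m hm hmM ι Ω x hx B hB hS A N hA hN hW
  have hM0 : 0 < M := by linarith
  have hmr : ∀ j, (0 : ℝ) < m j := fun j => by exact_mod_cast hm j
  have h2r : (1 : ℝ) ≤ 2 ^ r := one_le_pow₀ (by norm_num)
  set η : ℝ := ε / 8 with hη
  set L : ℕ := ⌈M ^ η⌉₊ with hL
  have hLge : M ^ η ≤ L := Nat.le_ceil _
  have hη1 : 1 ≤ M ^ η := Real.one_le_rpow hM1 (by positivity)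
  have hLle : (L : ℝ) ≤ 2 * M ^ η := by
    have := (Nat.ceil_lt_add_one (show 0 ≤ M ^ η by positivity)).le
    linarith
  have hηε : 8 * M ^ η ≤ M ^ (ε / 2) := by
    have e1 : M ^ (ε / 2) = M ^ (3 * ε / 8) * M ^ η := by
      rw [← Real.rpow_add hM0]
      congr 1
      rw [hη]
      ring
    rw [e1]
    exact mul_le_mul_of_nonneg_right (by linarith) (by positivity)
  have hε2 : M ^ ε = M ^ (ε / 2) * M ^ (ε / 2) := by
    rw [← Real.rpow_add hM0]
    congr 1
    ring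
  set D : ℝ := M ^ (ε / 2) with hD
  have hD1 : 1 ≤ D := Real.one_le_rpow hM1 (by positivity)
  have hD8 : 8 ≤ D := by linarith
  have hLN : ∀ j, 2 * (L : ℝ) ≤ N j := by
    intro j
    have := hN j
    nlinarith
  have hLN' : ∀ j, L ≤ N j := by
    intro j
    have : (L : ℝ) ≤ N j := by linarith [(Nat.cast_nonneg L : (0 : ℝ) ≤ L), hLN j]
    exact_mod_cast this
  set n : Fin r → ℕ := fun j => N j - L with hn
  have hnr : ∀ j, (n j : ℝ) = N j - L := fun j => by rw [hn]; simp only; rw [Nat.cast_sub (hLN' j)]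
  have hnh : ∀ j, (N j : ℝ) ≤ 2 * n j := fun j => by rw [hnr]; linarith [hLN j]
  have hnD : ∀ j, D * D / 2 ≤ n j := fun j => by rw [← hε2]; linarith [hN j, hnh j]
  have hn0 : ∀ j, (0 : ℝ) < n j := fun j => by nlinarith [hnD j]
  set s : Finset ι := Ω.filter (fun i => ∀ j, x i j ∈ Ico (A j + L) (A j + L + n j)) with hs
  set W0 : ℝ := (∏ j, (N j : ℝ) / m j) * Ω.card with hW0
  set W : ℝ := (∏ j, (n j : ℝ) / m j) * Ω.card with hWd
  have hΩ0 : (0 : ℝ) ≤ Ω.card := Nat.cast_nonneg _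
  have hWp : 0 ≤ ∏ j, (n j : ℝ) / m j := prod_nonneg fun j _ => div_nonneg (hn0 j).le (hmr j).le
  have hW00 : 0 ≤ W := mul_nonneg hWp hΩ0
  have hWW : W0 ≤ 2 ^ r * W := by
    rw [hW0, hWd, ← mul_assoc]
    apply mul_le_mul_of_nonneg_right _ hΩ0
    have h1 : (2 : ℝ) ^ r * ∏ j, (n j : ℝ) / m j = ∏ j : Fin r, 2 * ((n j : ℝ) / m j) := by
      rw [prod_mul_distrib, prod_const, card_univ, Fintype.card_fin]
    rw [h1]
    apply prod_le_prod (fun j _ => div_nonneg (Nat.cast_nonneg _) (hmr j).le)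
    intro j _
    rw [← mul_div_assoc]
    exact div_le_div_of_nonneg_right (hnh j) (hmr j).le
  -- the error term
  set Λ : ℝ := ∏ j, (3 + Real.log (m j)) with hΛ
  have hlog0 : ∀ j, 0 ≤ 3 + Real.log (m j) := fun j => by
    have := Real.log_natCast_nonneg (m j)
    linarith
  have hΛ0 : 0 ≤ Λ := prod_nonneg fun j _ => hlog0 j
  have hΛM : 2 ^ r * Λ ≤ D := by
    have g5 : Λ ≤ (3 + Real.log M) ^ r := by
      calc Λ ≤ ∏ _j : Fin r, (3 + Real.log M) := by
            apply prod_le_prod (fun j _ => hlog0 j)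
            intro j _
            linarith [Real.log_le_log (hmr j) (hmM j)]
        _ = (3 + Real.log M) ^ r := by rw [prod_const, card_univ, Fintype.card_fin]
    exact (mul_le_mul_of_nonneg_left g5 (by positivity)).trans hlg
  have hBΛ : B * Λ * D ≤ W := by
    have g1 : B * (D * D) ≤ W0 := by rw [← hε2]; exact hW
    have g2 : B * Λ * D * 2 ^ r ≤ B * (D * D) := by
      have : B * (2 ^ r * Λ) ≤ B * D := mul_le_mul_of_nonneg_left hΛM hB
      nlinarith
    have g3 : B * Λ * D * 2 ^ r ≤ W * 2 ^ r := by linarith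
    exact le_of_mul_le_mul_right g3 (by positivity)
  have hcomp := completeR Ω x m hm hx B hB hS (fun j => A j + L) n (fun j => by
    have := hA j
    have := hLN' j
    simp only [hn]
    omega)
  -- the number of elements
  have hcard : |(s.card : ℝ) - W| ≤ B * Λ := by
    have g1 := hcomp (fun _ => 0)
    have g2 : ∑ i ∈ s, ∏ j : Fin r, e (0 * x i j) = (s.card : ℂ) := by simp [e_zero']
    rw [g2] at g1
    simp only [FF_zero] at g1
    have g3 : (s.card : ℂ) - (∏ j, ((n j : ℕ) : ℂ) / (m j : ℂ)) * Ω.card = (((s.card : ℝ) - W : ℝ) : ℂ) := by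
      rw [hWd]
      push_cast
      ring
    rw [g3, Complex.norm_real, Real.norm_eq_abs] at g1
    exact g1
  have hBΛ0 : 0 ≤ B * Λ := mul_nonneg hB hΛ0
  have hBΛ8 : B * Λ * 8 ≤ W := by nlinarith
  have hsW : W / 2 ≤ s.card := by
    have := (abs_le.1 hcard).1
    linarith
  -- the exponential sums
  have hres := hM ι s (fun i j => (x i j : ℤ)) (by
    intro i hi j
    rw [hs, mem_filter] at hi
    have h1 := mem_Ico.1 (hi.2 j)
    refine hLge.trans ?_
    push_cast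
    exact_mod_cast (by omega : L ≤ x i j)) (by
    intro q hq hqM h hh hh0
    have hq0 : (0 : ℝ) < q := by exact_mod_cast hq
    have e1 : ∀ i ∈ s, e (∑ j : Fin r, (h j : ℝ) * (((x i j : ℤ) : ℝ) / q)) =
        ∏ j, e ((h j : ℝ) / q * x i j) := by
      intro i _
      have e2 : ∀ (t : Finset (Fin r)) (F : Fin r → ℝ), e (∑ j ∈ t, F j) = ∏ j ∈ t, e (F j) := by
        intro t F
        induction t using Finset.induction_on with
        | empty => simpa using e_int 0
        | insert a t ha ih => rw [sum_insert ha, prod_insert ha, e_add, ih]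
      rw [e2]
      refine prod_congr rfl fun j _ => ?_
      congr 1
      push_cast
      ring
    rw [sum_congr rfl e1]
    have g1 := hcomp (fun j => (h j : ℝ) / q)
    have hmain : ‖(∏ j, FF (A j + L) (n j) ((h j : ℝ) / q) / (m j : ℂ)) * Ω.card‖ * D ≤ W := by
      rw [norm_mul, norm_prod, Complex.norm_natCast]
      obtain ⟨j0, hj0⟩ := Function.ne_iff.1 hh0
      have hqD : (q : ℝ) * D * 2 ≤ D * D := by
        have : (q : ℝ) * 8 ≤ D := by linarith
        nlinarith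
      have b3 : (q : ℝ) * D ≤ n j0 := by linarith [hnD j0]
      have key : (∏ j, ‖FF (A j + L) (n j) ((h j : ℝ) / q) / (m j : ℂ)‖) * D ≤ ∏ j, (n j : ℝ) / m j := by
        rw [← mul_prod_erase univ (fun j => ‖FF (A j + L) (n j) ((h j : ℝ) / q) / (m j : ℂ)‖) (mem_univ j0),
          ← mul_prod_erase univ (fun j => (n j : ℝ) / m j) (mem_univ j0)]
        have b1 : ‖FF (A j0 + L) (n j0) ((h j0 : ℝ) / q) / (m j0 : ℂ)‖ * D ≤ (n j0 : ℝ) / m j0 := by
          rw [norm_div, Complex.norm_natCast, div_mul_eq_mul_div]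
          apply div_le_div_of_nonneg_right _ (hmr j0).le
          have b2 := norm_FF_rat (A j0 + L) (n j0) q (h j0) hj0 (hh j0)
          exact (mul_le_mul_of_nonneg_right b2 (by linarith)).trans b3
        have b4 : ∏ j ∈ univ.erase j0, ‖FF (A j + L) (n j) ((h j : ℝ) / q) / (m j : ℂ)‖ ≤
            ∏ j ∈ univ.erase j0, (n j : ℝ) / m j := by
          apply prod_le_prod (fun _ _ => norm_nonneg _)
          intro j _
          rw [norm_div, Complex.norm_natCast]
          exact div_le_div_of_nonneg_right (norm_FF_le _ _ _) (hmr j).le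
        calc _ = (‖FF (A j0 + L) (n j0) ((h j0 : ℝ) / q) / (m j0 : ℂ)‖ * D) *
              ∏ j ∈ univ.erase j0, ‖FF (A j + L) (n j) ((h j : ℝ) / q) / (m j : ℂ)‖ := by ring
          _ ≤ _ := mul_le_mul b1 b4 (prod_nonneg fun _ _ => norm_nonneg _)
              (div_nonneg (hn0 j0).le (hmr j0).le)
      calc _ = ((∏ j, ‖FF (A j + L) (n j) ((h j : ℝ) / q) / (m j : ℂ)‖) * D) * Ω.card := by ring
        _ ≤ (∏ j, (n j : ℝ) / m j) * Ω.card := mul_le_mul_of_nonneg_right key hΩ0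
    have htot : ‖∑ i ∈ s, ∏ j, e ((h j : ℝ) / q * x i j)‖ * D ≤ 2 * W := by
      have g2 : ‖∑ i ∈ s, ∏ j, e ((h j : ℝ) / q * x i j)‖ ≤
          ‖(∏ j, FF (A j + L) (n j) ((h j : ℝ) / q) / (m j : ℂ)) * Ω.card‖ + B * Λ := by
        have g3 := norm_sub_norm_le (∑ i ∈ s, ∏ j, e ((h j : ℝ) / q * x i j))
          ((∏ j, FF (A j + L) (n j) ((h j : ℝ) / q) / (m j : ℂ)) * Ω.card)
        linarith
      have g4 := mul_le_mul_of_nonneg_right g2 (by linarith : (0 : ℝ) ≤ D)
      nlinarith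
    -- conclusion
    have hηD : 4 ≤ M ^ (-η) * D := by
      have e2 : M ^ (-η) * D = M ^ (3 * ε / 8) := by
        rw [hD, ← Real.rpow_add hM0]
        congr 1
        rw [hη]
        ring
      rw [e2]
      linarith
    have hD0 : 0 < D := by linarith
    refine le_of_mul_le_mul_right ?_ hD0
    calc _ ≤ 2 * W := htot
      _ ≤ 4 * s.card := by linarith
      _ ≤ (M ^ (-η) * D) * s.card := mul_le_mul_of_nonneg_right hηD (Nat.cast_nonneg _)
      _ = s.card * M ^ (-η) * D := by ring)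
  have hsub : s.filter (fun i => Iso (κ * ff M) ((fun i j => (x i j : ℤ)) i)) ⊆
      goodR (κ * ff M) Ω x A N := by
    intro i hi
    rw [mem_filter, hs, mem_filter] at hi
    unfold goodR
    rw [mem_filter]
    obtain ⟨⟨g1, g2⟩, g4⟩ := hi
    refine ⟨g1, fun j => ?_, fun j q hq => ?_⟩
    · have g3 := mem_Ico.1 (g2 j)
      rw [mem_Ico]
      have := hLN' j
      simp only [hn] at g3
      omega
    · have g5 := g4 j q hq
      simp only at g5
      push_cast at g5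
      exact g5
  have h9 : ((s.filter (fun i => Iso (κ * ff M) ((fun i j => (x i j : ℤ)) i))).card : ℝ) ≤
      (goodR (κ * ff M) Ω x A N).card := by exact_mod_cast card_le_card hsub
  refine le_trans ?_ (hres.trans h9)
  have h10 : M ^ (-ε) * (2 * 2 ^ r) ≤ M ^ (-η) := by
    have e2 : M ^ (-η) = M ^ (-ε) * (M ^ (3 * ε / 8) * M ^ (ε / 2)) := by
      rw [← Real.rpow_add hM0, ← Real.rpow_add hM0]
      congr 1
      rw [hη]
      ring
    rw [e2]
    apply mul_le_mul_of_nonneg_left _ (by positivity)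
    nlinarith
  calc W0 * M ^ (-ε) ≤ (2 ^ r * W) * M ^ (-ε) := mul_le_mul_of_nonneg_right hWW (by positivity)
    _ = (W / 2) * (M ^ (-ε) * (2 * 2 ^ r)) := by ring
    _ ≤ s.card * M ^ (-η) := mul_le_mul hsW h10 (by positivity) (Nat.cast_nonneg _)

end Pool.Agent.Q46.MH
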