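import Pool.Agent.Q46.MH.Hyp

set_option autoImplicit false

/-! # Modular exponential functions -/

namespace Pool.Agent.Q46.MH

open Finset Filter
open Pool.Agent.H469R2.NK (e norm_e e_add)
open Pool.Agent.W147.PS (ff ff_compare ev_pow)
open Pool.Agent.TH915.PW (e_int sum_char)

section chars

variable {p : ℕ} [Fact p.Prime]

/-- `∑_{n < T} e(h n / T) ψ(b g^n)` -/
noncomputable def ES (g : (ZMod p)ˣ) (h : ℕ) (b : ZMod p) : ℂ :=
  ∑ n ∈ range (orderOf g), e ((h : ℝ) * n / (orderOf g : ℕ)) * (ZMod.stdAddChar (b * ((g ^ n : (ZMod p)ˣ) : ZMod p)) : ℂ)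

lemma ord_pos (g : (ZMod p)ˣ) : 0 < orderOf g := orderOf_pos g

lemma ES_mul (g : (ZMod p)ˣ) (h : ℕ) (b : ZMod p) : ‖ES g h (b * g)‖ = ‖ES g h b‖ := by
  set T := orderOf g with hT
  have hT0 : 0 < T := ord_pos g
  have hTr : (T : ℝ) ≠ 0 := by exact_mod_cast hT0.ne'
  set F : ℕ → ℂ := fun n => e ((h : ℝ) * n / T) * (ZMod.stdAddChar (b * ((g ^ n : (ZMod p)ˣ) : ZMod p)) : ℂ) with hF
  have h1 : e ((h : ℝ) / T) * ES g h (b * g) = ∑ n ∈ range T, F (n + 1) := by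
    unfold ES
    rw [← hT, mul_sum]
    refine sum_congr rfl fun n _ => ?_
    rw [← mul_assoc, ← e_add, hF]
    congr 2
    · push_cast
      ring
    · rw [pow_succ, Units.val_mul, mul_assoc, mul_comm (g : ZMod p)]
  have h2 : ∑ n ∈ range T, F (n + 1) = ∑ n ∈ range T, F n := by
    have h3 := sum_range_succ' F T
    have h4 := sum_range_succ F T
    have h5 : F T = F 0 := by
      simp only [hF]
      have e1 : e ((h : ℝ) * T / T) = 1 := by
        have : (h : ℝ) * T / T = ((h : ℤ) : ℝ) := by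
          push_cast
          field_simp
        rw [this, e_int]
      have e2 : e ((h : ℝ) * ((0 : ℕ) : ℝ) / T) = 1 := by
        have : (h : ℝ) * ((0 : ℕ) : ℝ) / T = ((0 : ℤ) : ℝ) := by simp
        rw [this, e_int]
      rw [e1, e2, hT, pow_orderOf_eq_one, pow_zero]
    rw [h3, h5] at h4
    exact add_right_cancel h4
  have h3 : e ((h : ℝ) / T) * ES g h (b * g) = ES g h b := by rw [h1, h2]; rfl
  rw [← h3, norm_mul, norm_e, one_mul]

lemma ES_mul_pow (g : (ZMod p)ˣ) (h : ℕ) (b : ZMod p) (j : ℕ) :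
    ‖ES g h (b * ((g ^ j : (ZMod p)ˣ) : ZMod p))‖ = ‖ES g h b‖ := by
  induction j with
  | zero => simp
  | succ j ih =>
    rw [pow_succ, Units.val_mul, ← mul_assoc, ES_mul, ih]

lemma conj_char (z : ZMod p) : (starRingEnd ℂ) (ZMod.stdAddChar z : ℂ) = ZMod.stdAddChar (-z) := by
  rw [AddChar.map_neg_eq_conj]

lemma ES_parseval (g : (ZMod p)ˣ) (h : ℕ) : ∑ b : ZMod p, ‖ES g h b‖ ^ 2 = p * (orderOf g : ℕ) := by
  classical
  set T := orderOf g with hT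
  have h1 : ∀ b : ZMod p, ((‖ES g h b‖ ^ 2 : ℝ) : ℂ) = ∑ n ∈ range T, ∑ n' ∈ range T,
      (e ((h : ℝ) * n / T) * (starRingEnd ℂ) (e ((h : ℝ) * n' / T))) *
        (ZMod.stdAddChar ((((g ^ n : (ZMod p)ˣ) : ZMod p) - ((g ^ n' : (ZMod p)ˣ) : ZMod p)) * b) : ℂ) := by
    intro b
    have h2 : ((‖ES g h b‖ ^ 2 : ℝ) : ℂ) = ES g h b * (starRingEnd ℂ) (ES g h b) := by
      rw [Complex.mul_conj, Complex.normSq_eq_norm_sq]
    rw [h2]
    unfold ES
    rw [← hT, map_sum, sum_mul_sum]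
    refine sum_congr rfl fun n _ => sum_congr rfl fun n' _ => ?_
    rw [map_mul (starRingEnd ℂ), conj_char]
    have h3 : (ZMod.stdAddChar ((((g ^ n : (ZMod p)ˣ) : ZMod p) - ((g ^ n' : (ZMod p)ˣ) : ZMod p)) * b) : ℂ) =
        (ZMod.stdAddChar (b * ((g ^ n : (ZMod p)ˣ) : ZMod p)) : ℂ) *
          (ZMod.stdAddChar (-(b * ((g ^ n' : (ZMod p)ˣ) : ZMod p))) : ℂ) := by
      rw [← AddChar.map_add_eq_mul]
      congr 1
      ring
    rw [h3]
    ring
  have h2 : ((∑ b : ZMod p, ‖ES g h b‖ ^ 2 : ℝ) : ℂ) = ((p * T : ℝ) : ℂ) := by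
    push_cast
    have h3 : ∀ b : ZMod p, (‖ES g h b‖ : ℂ) ^ 2 = ((‖ES g h b‖ ^ 2 : ℝ) : ℂ) := by
      intro b
      push_cast
      rfl
    rw [sum_congr rfl (fun b _ => (h3 b).trans (h1 b)), sum_comm]
    have h4 : ∀ n ∈ range T, ∑ b : ZMod p, ∑ n' ∈ range T,
        (e ((h : ℝ) * n / T) * (starRingEnd ℂ) (e ((h : ℝ) * n' / T))) *
        (ZMod.stdAddChar ((((g ^ n : (ZMod p)ˣ) : ZMod p) - ((g ^ n' : (ZMod p)ˣ) : ZMod p)) * b) : ℂ) = p := by
      intro n hn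
      rw [sum_comm]
      rw [sum_eq_single n]
      · have h5 : e ((h : ℝ) * n / T) * (starRingEnd ℂ) (e ((h : ℝ) * n / T)) = 1 := by
          rw [Complex.mul_conj, Complex.normSq_eq_norm_sq, norm_e]
          simp
        rw [h5]
        simp [ZMod.card]
      · intro n' hn' hne
        rw [← mul_sum]
        have h6 : (((g ^ n : (ZMod p)ˣ) : ZMod p) - ((g ^ n' : (ZMod p)ˣ) : ZMod p)) ≠ 0 := by
          intro h7
          apply hne
          have h8 : g ^ n = g ^ n' := Units.ext (sub_eq_zero.1 h7)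
          exact (pow_injOn_Iio_orderOf (mem_range.1 hn) (mem_range.1 hn') h8).symm
        rw [sum_char_all h6, mul_zero]
      · intro h7
        exact absurd hn h7
    rw [sum_congr rfl h4, sum_const, card_range, nsmul_eq_mul, mul_comm]
  exact_mod_cast h2

lemma ES_bound (g : (ZMod p)ˣ) (h : ℕ) (b : ZMod p) (hb : b ≠ 0) : ‖ES g h b‖ ≤ Real.sqrt p := by
  classical
  have hT0 : (0 : ℝ) < (orderOf g : ℕ) := by exact_mod_cast ord_pos g
  have h1 : ((orderOf g : ℕ) : ℝ) * ‖ES g h b‖ ^ 2 ≤ p * (orderOf g : ℕ) := by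
    rw [← ES_parseval g h]
    have h2 : ((orderOf g : ℕ) : ℝ) * ‖ES g h b‖ ^ 2 =
        ∑ x ∈ (range (orderOf g)).image (fun j => b * ((g ^ j : (ZMod p)ˣ) : ZMod p)), ‖ES g h x‖ ^ 2 := by
      rw [sum_image]
      · rw [sum_congr rfl (fun j _ => by rw [ES_mul_pow] : ∀ j ∈ range (orderOf g),
          ‖ES g h (b * ((g ^ j : (ZMod p)ˣ) : ZMod p))‖ ^ 2 = ‖ES g h b‖ ^ 2), sum_const, card_range,
          nsmul_eq_mul]
      · intro i hi j hj hij
        have h3 : ((g ^ i : (ZMod p)ˣ) : ZMod p) = ((g ^ j : (ZMod p)ˣ) : ZMod p) := mul_left_cancel₀ hb hij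
        exact pow_injOn_Iio_orderOf (mem_range.1 hi) (mem_range.1 hj) (Units.ext h3)
    rw [h2]
    exact sum_le_sum_of_subset_of_nonneg (subset_univ _) (fun _ _ _ => by positivity)
  have h2 : ‖ES g h b‖ ^ 2 ≤ p := by
    rw [mul_comm] at h1
    exact le_of_mul_le_mul_right h1 hT0
  exact Real.le_sqrt_of_sq_le h2

/-- the sums of the exponential function -/
lemma expo_sum (g c : (ZMod p)ˣ) (h k : ℕ) (hh : h < orderOf g) (hk : k < p) (h0 : h ≠ 0 ∨ k ≠ 0) :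
    ‖∑ n ∈ range (orderOf g), e ((h : ℝ) * n / (orderOf g : ℕ)) *
      e ((k : ℝ) * ((c * g ^ n : (ZMod p)ˣ) : ZMod p).val / p)‖ ≤ Real.sqrt p := by
  by_cases hk0 : k = 0
  · have hh0 : h ≠ 0 := by tauto
    subst hk0
    have hT0 : 0 < orderOf g := ord_pos g
    have h1 : ∀ n ∈ range (orderOf g), e ((h : ℝ) * n / (orderOf g : ℕ)) *
        e (((0 : ℕ) : ℝ) * ((c * g ^ n : (ZMod p)ˣ) : ZMod p).val / p) =
        e (((h : ℤ) : ℝ) * ((n : ℝ) / (orderOf g : ℕ))) := by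
      intro n _
      have e1 : ((0 : ℕ) : ℝ) * ((c * g ^ n : (ZMod p)ˣ) : ZMod p).val / p = ((0 : ℤ) : ℝ) := by simp
      rw [e1, e_int, mul_one]
      congr 1
      push_cast
      ring
    rw [sum_congr rfl h1, sum_char (orderOf g) hT0 h ?_, norm_zero]
    · exact Real.sqrt_nonneg _
    · intro hd
      have := Int.le_of_dvd (by omega) hd
      omega
  · have hkz : (k : ZMod p) ≠ 0 := by
      intro h1
      rw [ZMod.natCast_eq_zero_iff] at h1
      exact absurd (Nat.le_of_dvd (by omega) h1) (by omega)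
    have h1 : ∑ n ∈ range (orderOf g), e ((h : ℝ) * n / (orderOf g : ℕ)) *
        e ((k : ℝ) * ((c * g ^ n : (ZMod p)ˣ) : ZMod p).val / p) = ES g h ((k : ZMod p) * (c : ZMod p)) := by
      unfold ES
      refine sum_congr rfl fun n _ => ?_
      rw [e_val, Units.val_mul, mul_assoc]
    rw [h1]
    exact ES_bound g h _ (mul_ne_zero hkz c.ne_zero)

end chars

/-- **modular exponential functions** -/
theorem exponential (ε : ℝ) (hε : 0 < ε) (hε1 : ε ≤ 1) : ∃ κ : ℝ, 0 < κ ∧ ∃ p₀ : ℕ, ∀ p : ℕ, p₀ ≤ p →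
    p.Prime → ∀ g c : ℤ, ¬ (p : ℤ) ∣ g → ¬ (p : ℤ) ∣ c → ∀ A1 N1 A2 N2 : ℕ,
      A1 + N1 ≤ orderOf (g : ZMod p) → A2 + N2 ≤ p → (p : ℝ) ^ (3 / 2 + ε) ≤ (N1 : ℝ) * N2 →
      ∃ G : Finset (ℕ × ℕ), (N1 : ℝ) * N2 / p * (p : ℝ) ^ (-ε) ≤ G.card ∧
        ∀ z ∈ G, (A1 ≤ z.1 ∧ z.1 < A1 + N1) ∧ (A2 ≤ z.2 ∧ z.2 < A2 + N2) ∧
          (p : ℤ) ∣ z.2 - c * g ^ z.1 ∧
          (∀ q : ℕ, q.Prime → κ * ff p < |(q : ℝ) - z.1|) ∧ ∀ q : ℕ, q.Prime → κ * ff p < |(q : ℝ) - z.2| := by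
  classical
  obtain ⟨κ, hκ, hg⟩ := graph (ε / 2) (by positivity) (by linarith)
  have e1 := (tendsto_natCast_atTop_atTop (R := ℝ)).eventually hg
  obtain ⟨p₀, hp₀⟩ := (e1.and (eventually_ge_atTop 2)).exists_forall_of_atTop
  refine ⟨κ, hκ, p₀, ?_⟩
  intro p hp0 hp g c hgp hc A1 N1 A2 N2 hA1 hA2 hN
  obtain ⟨g1, g3⟩ := hp₀ p hp0
  have : Fact p.Prime := ⟨hp⟩
  have hpr : (2 : ℝ) ≤ p := by exact_mod_cast g3
  have hp0' : (0 : ℝ) < p := by linarith
  have hgu : (g : ZMod p) ≠ 0 := by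
    rw [Ne, ZMod.intCast_zmod_eq_zero_iff_dvd]
    exact hgp
  have hcu : (c : ZMod p) ≠ 0 := by
    rw [Ne, ZMod.intCast_zmod_eq_zero_iff_dvd]
    exact hc
  set cu : (ZMod p)ˣ := Units.mk0 (c : ZMod p) hcu with hcud
  set gu : (ZMod p)ˣ := Units.mk0 (g : ZMod p) hgu with hgud
  have hord : orderOf (g : ZMod p) = orderOf gu := by
    rw [← orderOf_units, hgud, Units.val_mk0]
  rw [hord] at hA1
  set T := orderOf gu with hT
  have hT0 : 0 < T := ord_pos gu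
  have hTr : (0 : ℝ) < T := by exact_mod_cast hT0
  have hTp : T ≤ p := by
    have h1 : T ∣ Fintype.card (ZMod p)ˣ := orderOf_dvd_card
    rw [ZMod.card_units_eq_totient, Nat.totient_prime hp] at h1
    exact (Nat.le_of_dvd (by omega) h1).trans (Nat.sub_le _ _)
  have hN2p : (N2 : ℝ) ≤ p := by exact_mod_cast (by omega : N2 ≤ p)
  have hN1p : (N1 : ℝ) ≤ p := by exact_mod_cast (by omega : N1 ≤ p)
  have hN10 : (0 : ℝ) ≤ N1 := Nat.cast_nonneg _
  have hN20 : (0 : ℝ) ≤ N2 := Nat.cast_nonneg _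
  have hmono : ∀ x y : ℝ, x ≤ y → (p : ℝ) ^ x ≤ (p : ℝ) ^ y := fun x y h =>
    Real.rpow_le_rpow_of_exponent_le (by linarith) h
  have hsplit : (p : ℝ) ^ (3 / 2 + ε) = (p : ℝ) ^ (1 / 2 + ε) * p := by
    have : (3 / 2 + ε) = (1 / 2 + ε) + 1 := by ring
    rw [this, Real.rpow_add_one hp0'.ne']
  have hN1 : (p : ℝ) ^ (1 / 2 + ε) ≤ N1 := by
    rw [hsplit] at hN
    have : (N1 : ℝ) * N2 ≤ N1 * p := mul_le_mul_of_nonneg_left hN2p hN10
    exact le_of_mul_le_mul_right (hN.trans this) hp0'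
  have hN2 : (p : ℝ) ^ (1 / 2 + ε) ≤ N2 := by
    rw [hsplit] at hN
    have : (N1 : ℝ) * N2 ≤ N2 * p := by
      rw [mul_comm]
      exact mul_le_mul_of_nonneg_left hN1p hN20
    exact le_of_mul_le_mul_right (hN.trans this) hp0'
  have hW : (N1 : ℝ) * N2 * ((range T).card : ℕ) / (T * p) = (N1 : ℝ) * N2 / p := by
    rw [card_range]
    field_simp
  have hBW : Real.sqrt p * (p : ℝ) ^ (ε / 2) ≤ (N1 : ℝ) * N2 * ((range T).card : ℕ) / (T * p) := by
    rw [hW, le_div_iff₀ hp0']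
    refine le_trans ?_ hN
    rw [hsplit]
    apply mul_le_mul_of_nonneg_right _ hp0'.le
    rw [Real.sqrt_eq_rpow, ← Real.rpow_add hp0']
    exact hmono _ _ (by linarith)
  have key := g1 T p hT0 hp.one_lt.le (by exact_mod_cast hTp) le_rfl ℕ (range T)
    (fun n => n) (fun n => ((cu * gu ^ n : (ZMod p)ˣ) : ZMod p).val)
    (fun n hn => mem_range.1 hn) (fun n _ => ZMod.val_lt _) (Real.sqrt p) (by positivity)
    (fun h hh k hk h0 => expo_sum gu cu h k hh hk h0) A1 N1 A2 N2 hA1 hA2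
    ((hmono _ _ (by linarith)).trans hN1) ((hmono _ _ (by linarith)).trans hN2) hBW
  set G0 := good (κ * ff p) (range T) (fun n => n)
    (fun n => ((cu * gu ^ n : (ZMod p)ˣ) : ZMod p).val) A1 N1 A2 N2 with hG0
  refine ⟨G0.image (fun n : ℕ => (n, ((cu * gu ^ n : (ZMod p)ˣ) : ZMod p).val)), ?_, ?_⟩
  · rw [card_image_of_injective]
    · refine le_trans ?_ key
      rw [hW]
      exact mul_le_mul_of_nonneg_left (hmono _ _ (by linarith)) (by positivity)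
    · intro u v huv
      exact (Prod.ext_iff.1 huv).1
  · intro z hz
    obtain ⟨n, hn, rfl⟩ := mem_image.1 hz
    rw [hG0] at hn
    unfold good at hn
    rw [mem_filter, mem_Ico, mem_Ico] at hn
    obtain ⟨-, h1, h2, h3, h4⟩ := hn
    refine ⟨h1, h2, ?_, h3, h4⟩
    rw [← ZMod.intCast_zmod_eq_zero_iff_dvd, Int.cast_sub, Int.cast_mul, Int.cast_pow, Int.cast_natCast,
      ZMod.natCast_zmod_val, Units.val_mul, Units.val_pow_eq_pow_val, hcud, hgud, Units.val_mk0,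
      Units.val_mk0, sub_self]

end Pool.Agent.Q46.MH
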