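import Pool.Agent.Y961.JR.ScaledJ
import Pool.Agent.TH915.PW.IntCrit

set_option autoImplicit false

/-! # Vectors of integers: many members with all coordinates in record gaps, from exponential sums -/

namespace Pool.Agent.Q46.MH

open Finset Filter
open Pool.Agent.H469R2.NK (e norm_e e_add)
open Pool.Agent.TH915.PW (e_int sum_char)
open Pool.Agent.W147.PS (ff ff_compare ev_pow)
open Pool.Agent.Y961.JR

lemma e_zero' : e 0 = 1 := by simpa using e_int 0

/-- joint residue classes from exponential sums -/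
lemma classJ_le {ι : Type*} {r : ℕ} (s : Finset ι) (v : ι → Fin r → ℤ) (q : ℕ) (hq : 1 ≤ q) (E : ℝ)
    (hE0 : 0 ≤ E)
    (hE : ∀ h : Fin r → ℕ, (∀ j, h j < q) → h ≠ 0 → ‖∑ i ∈ s, e (∑ j, (h j : ℝ) * (v i j / q))‖ ≤ E)
    (ρ : Fin r → ℤ) :
    |((s.filter (fun i => ∀ j, (q : ℤ) ∣ v i j - ρ j)).card : ℝ) - s.card / (q : ℝ) ^ r| ≤ E := by
  classical
  have hq0 : 0 < q := hq
  have hq' : (0 : ℝ) < q := by exact_mod_cast hq0
  have hqr : (0 : ℝ) < (q : ℝ) ^ r := by positivity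
  set P : Finset (Fin r → ℕ) := Fintype.piFinset (fun _ => range q) with hP
  have h1 : ∀ m : ℤ, ∑ h ∈ range q, e (m * ((h : ℝ) / q)) = if (q : ℤ) ∣ m then (q : ℂ) else 0 := by
    intro m
    split_ifs with hm
    · obtain ⟨t, rfl⟩ := hm
      have : ∀ h ∈ range q, e (((q : ℤ) * t : ℤ) * ((h : ℝ) / q)) = 1 := by
        intro h _
        have e1 : (((q : ℤ) * t : ℤ) : ℝ) * ((h : ℝ) / q) = ((t * h : ℤ) : ℝ) := by
          push_cast
          field_simp
        rw [e1]
        exact e_int _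
      rw [sum_congr rfl this]
      simp
    · exact sum_char q hq0 m hm
  -- the indicator function
  have h2 : ∀ w : Fin r → ℤ, ∑ h ∈ P, e (∑ j, (h j : ℝ) * (w j / q)) =
      if ∀ j, (q : ℤ) ∣ w j then (q : ℂ) ^ r else 0 := by
    intro w
    have e1 : ∑ h ∈ P, e (∑ j, (h j : ℝ) * (w j / q)) = ∑ h ∈ P, ∏ j, e ((w j : ℝ) * ((h j : ℝ) / q)) := by
      refine sum_congr rfl fun h _ => ?_
      rw [e_sum]
      refine prod_congr rfl fun j _ => ?_
      congr 1
      ring
    rw [e1, hP, ← Finset.prod_univ_sum (fun _ => range q) (fun j h => e ((w j : ℝ) * ((h : ℝ) / q)))]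
    simp_rw [h1]
    split_ifs with hw
    · rw [prod_congr rfl (fun j _ => if_pos (hw j))]
      simp
    · push Not at hw
      obtain ⟨j, hj⟩ := hw
      exact prod_eq_zero (mem_univ j) (if_neg hj)
  have h3 : ((q : ℂ) ^ r) * ((s.filter (fun i => ∀ j, (q : ℤ) ∣ v i j - ρ j)).card : ℂ) =
      ∑ h ∈ P, e (-∑ j, (h j : ℝ) * (ρ j / q)) * ∑ i ∈ s, e (∑ j, (h j : ℝ) * (v i j / q)) := by
    have e1 : ∀ h ∈ P, e (-∑ j, (h j : ℝ) * (ρ j / q)) * ∑ i ∈ s, e (∑ j, (h j : ℝ) * (v i j / q)) =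
        ∑ i ∈ s, e (∑ j, (h j : ℝ) * (((v i j - ρ j : ℤ) : ℝ) / q)) := by
      intro h _
      rw [mul_sum]
      refine sum_congr rfl fun i _ => ?_
      rw [← e_add]
      congr 1
      rw [← sum_neg_distrib, ← sum_add_distrib]
      refine sum_congr rfl fun j _ => ?_
      push_cast
      ring
    rw [sum_congr rfl e1, sum_comm, sum_congr rfl (fun i _ => h2 (fun j => v i j - ρ j)), ← sum_filter,
      sum_const, nsmul_eq_mul, mul_comm]
  have h0P : (0 : Fin r → ℕ) ∈ P := by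
    rw [hP, Fintype.mem_piFinset]
    intro j
    exact mem_range.2 hq0
  have h4 : ((q : ℂ) ^ r) * ((s.filter (fun i => ∀ j, (q : ℤ) ∣ v i j - ρ j)).card : ℂ) - s.card =
      ∑ h ∈ P.erase 0, e (-∑ j, (h j : ℝ) * (ρ j / q)) * ∑ i ∈ s, e (∑ j, (h j : ℝ) * (v i j / q)) := by
    rw [h3, ← add_sum_erase P _ h0P]
    have e0 : e (-∑ j : Fin r, (((0 : Fin r → ℕ) j : ℕ) : ℝ) * (ρ j / q)) = 1 := by
      simp [e_zero']
    have e2 : ∑ i ∈ s, e (∑ j : Fin r, (((0 : Fin r → ℕ) j : ℕ) : ℝ) * (v i j / q)) = s.card := by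
      simp [e_zero']
    rw [e0, e2]
    ring
  have h5 : ‖((q : ℂ) ^ r) * ((s.filter (fun i => ∀ j, (q : ℤ) ∣ v i j - ρ j)).card : ℂ) - s.card‖ ≤
      (q : ℝ) ^ r * E := by
    rw [h4]
    refine (norm_sum_le _ _).trans ?_
    calc _ ≤ ∑ h ∈ P.erase 0, E := by
          refine sum_le_sum fun h hh => ?_
          rw [mem_erase, hP, Fintype.mem_piFinset] at hh
          rw [norm_mul, norm_e, one_mul]
          exact hE h (fun j => mem_range.1 (hh.2 j)) hh.1
      _ ≤ (q : ℝ) ^ r * E := by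
          rw [sum_const, nsmul_eq_mul]
          refine mul_le_mul_of_nonneg_right ?_ hE0
          have : P.card = q ^ r := by
            rw [hP, Fintype.card_piFinset]
            simp
          have h6 : (P.erase 0).card ≤ P.card := card_erase_le
          rw [this] at h6
          exact_mod_cast h6
  have h7 : ((q : ℂ) ^ r) * ((s.filter (fun i => ∀ j, (q : ℤ) ∣ v i j - ρ j)).card : ℂ) - s.card =
      (((q : ℝ) ^ r * ((s.filter (fun i => ∀ j, (q : ℤ) ∣ v i j - ρ j)).card : ℝ) - s.card : ℝ) : ℂ) := by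
    push_cast
    ring
  rw [h7, Complex.norm_real, Real.norm_eq_abs] at h5
  have h8 : ((s.filter (fun i => ∀ j, (q : ℤ) ∣ v i j - ρ j)).card : ℝ) - s.card / (q : ℝ) ^ r =
      ((q : ℝ) ^ r * ((s.filter (fun i => ∀ j, (q : ℤ) ∣ v i j - ρ j)).card : ℝ) - s.card) / (q : ℝ) ^ r := by
    field_simp
  rw [h8, abs_div, abs_of_pos hqr, div_le_iff₀ hqr]
  linarith

/-- all coordinates have no prime within `K` -/
def Iso {r : ℕ} (K : ℝ) (v : Fin r → ℤ) : Prop := ∀ j, ∀ q : ℕ, q.Prime → K < |(q : ℝ) - v j|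

open Classical in
/-- A finite family of vectors of integers whose exponential sums at the small rational vectors save a power of `M` has
many members without primes at distance `κ log M (log₂ M)² log₄ M / (log₃ M)²` of any of the coordinates. -/
theorem crit_many (r : ℕ) (hr : 1 ≤ r) (η : ℝ) (h0 : 0 < η) (h1 : η ≤ 1) :
    ∃ κ : ℝ, 0 < κ ∧ ∀ᶠ M : ℝ in atTop,
    ∀ (ι : Type) (s : Finset ι) (v : ι → Fin r → ℤ), (∀ i ∈ s, ∀ j, M ^ η ≤ v i j) →
    (∀ q : ℕ, 1 ≤ q → (q : ℝ) ≤ M ^ η → ∀ h : Fin r → ℕ, (∀ j, h j < q) → h ≠ 0 →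
      ‖∑ i ∈ s, e (∑ j, (h j : ℝ) * (v i j / q))‖ ≤ s.card * M ^ (-η)) →
    s.card * M ^ (-η) ≤ ((s.filter (fun i => Iso (κ * ff M) (v i))).card : ℝ) := by
  obtain ⟨κ, hκ, X₀, hc⟩ := critJ r hr
  have hr1 : (1 : ℝ) ≤ r := by exact_mod_cast hr
  set θ : ℝ := η / (4 * (r : ℝ)) with hθ
  have hθ0 : 0 < θ := by positivity
  have hθη : θ ≤ η / 4 := by
    rw [hθ]
    apply div_le_div_of_nonneg_left h0.le (by norm_num)
    linarith
  have hθ1 : θ ≤ 1 := by linarith
  refine ⟨κ * (θ / 32), by positivity, ?_⟩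
  filter_upwards [ff_compare θ hθ0 hθ1, (tendsto_rpow_atTop hθ0).eventually_ge_atTop X₀,
    eventually_ge_atTop (1 : ℝ), (tendsto_rpow_atTop hθ0).eventually ev_small,
    (tendsto_rpow_atTop (show (0 : ℝ) < η / 4 by linarith)).eventually_ge_atTop 8] with M hM hMX hM1 hsm h8
  intro ι s v hv hE
  have hM0 : 0 < M := by linarith
  have hmono : ∀ x y : ℝ, x ≤ y → M ^ x ≤ M ^ y := fun x y h => Real.rpow_le_rpow_of_exponent_le hM1 h
  obtain ⟨hfl, hcr⟩ := hc (M ^ θ) hMX
  have hff : κ * (θ / 32) * ff M ≤ κ * ff (M ^ θ) := ff_scaled κ θ M hκ hθ1 hM1 hM.2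
  set G : Finset ι := s.filter (fun i => Iso (κ * (θ / 32) * ff M) (v i)) with hG
  by_contra hcon
  push Not at hcon
  have hGs : G ⊆ s := filter_subset _ _
  have hs0 : (0 : ℝ) < s.card := by
    have h2 : (0 : ℝ) ≤ G.card := Nat.cast_nonneg _
    by_contra h3
    push Not at h3
    have h4 : (s.card : ℝ) = 0 := le_antisymm h3 (Nat.cast_nonneg _)
    rw [h4, zero_mul] at hcon
    linarith
  -- the remaining elements
  set t : Finset ι := s \ G with ht
  have htc : (t.card : ℝ) = s.card - G.card := by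
    have h2 := card_sdiff_add_card_eq_card hGs
    have h3 : (((s \ G).card + G.card : ℕ) : ℝ) = s.card := by exact_mod_cast h2
    push_cast at h3
    rw [ht]
    linarith
  have hη4 : M ^ (-η) * 8 ≤ M ^ (-(3 * η / 4)) := by
    have e1 : M ^ (-(3 * η / 4)) = M ^ (-η) * M ^ (η / 4) := by
      rw [← Real.rpow_add hM0]
      congr 1
      ring
    rw [e1]
    exact mul_le_mul_of_nonneg_left h8 (by positivity)
  have hη1 : M ^ (-(3 * η / 4)) ≤ 1 := Real.rpow_le_one_of_one_le_of_nonpos hM1 (by linarith)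
  have hthalf : (s.card : ℝ) / 2 ≤ t.card := by
    rw [htc]
    nlinarith
  have htne : t.Nonempty := by
    rw [← card_pos]
    have : (0 : ℝ) < t.card := by linarith
    exact_mod_cast this
  obtain ⟨i, hi, hi2⟩ := hcr ι t v htne (by
    intro q hq hqX ρ
    have hqη : (q : ℝ) ≤ M ^ η := by
      refine hqX.trans ?_
      rw [← Real.rpow_mul hM0.le]
      apply hmono
      linarith
    have h2 := classJ_le s v q hq (s.card * M ^ (-η)) (by positivity) (fun h hh hh0 => hE q hq hqη h hh hh0) ρ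
    -- pass to `t`
    set S1 := s.filter (fun i => ∀ j, (q : ℤ) ∣ v i j - ρ j) with hS1
    set T1 := t.filter (fun i => ∀ j, (q : ℤ) ∣ v i j - ρ j) with hT1
    have h3 : (T1.card : ℝ) ≤ S1.card := by
      exact_mod_cast card_le_card (filter_subset_filter _ sdiff_subset)
    have h4 : (S1.card : ℝ) ≤ T1.card + G.card := by
      have h5 : S1 ⊆ T1 ∪ G := by
        intro x hx
        rw [hS1, mem_filter] at hx
        rw [mem_union, hT1, mem_filter, ht, Finset.mem_sdiff]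
        by_cases hxG : x ∈ G
        · exact Or.inr hxG
        · exact Or.inl ⟨⟨hx.1, hxG⟩, hx.2⟩
      exact_mod_cast (card_le_card h5).trans (card_union_le _ _)
    have hqr : (1 : ℝ) ≤ (q : ℝ) ^ r := one_le_pow₀ (by exact_mod_cast hq)
    have h6 : (t.card : ℝ) / (q : ℝ) ^ r ≤ s.card / (q : ℝ) ^ r := by
      apply div_le_div_of_nonneg_right _ (by positivity)
      rw [htc]
      have : (0 : ℝ) ≤ G.card := Nat.cast_nonneg _
      linarith
    have h7 : (s.card : ℝ) / (q : ℝ) ^ r ≤ t.card / (q : ℝ) ^ r + G.card := by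
      have : (s.card : ℝ) = t.card + G.card := by rw [htc]; ring
      rw [this, add_div]
      have : (G.card : ℝ) / (q : ℝ) ^ r ≤ G.card := div_le_self (Nat.cast_nonneg _) hqr
      linarith
    have h8' := abs_le.1 h2
    have h9 : |(T1.card : ℝ) - t.card / (q : ℝ) ^ r| ≤ 2 * (s.card * M ^ (-η)) := by
      rw [abs_le]
      constructor <;> linarith [h8'.1, h8'.2]
    refine h9.trans ?_
    have h10 : M ^ (-(3 * η / 4)) ≤ (M ^ θ) ^ (-(2 * (r : ℝ))) := by
      rw [← Real.rpow_mul hM0.le]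
      apply hmono
      have e1 : θ * -(2 * (r : ℝ)) = -(η / 2) := by
        rw [hθ]
        field_simp
        norm_num
      rw [e1]
      linarith
    have h11 : 2 * ((s.card : ℝ) * M ^ (-η)) ≤ (s.card / 2) * M ^ (-(3 * η / 4)) := by nlinarith
    exact h11.trans (mul_le_mul hthalf h10 (by positivity) (by positivity)))
  -- the element is good: contradiction
  have his : i ∈ s := (Finset.mem_sdiff.1 hi).1
  have hiG : i ∉ G := (Finset.mem_sdiff.1 hi).2
  apply hiG
  rw [hG, mem_filter]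
  refine ⟨his, fun j q hq => lt_of_le_of_lt hff ?_⟩
  have h12 : M ^ θ ≤ ((v i j : ℤ) : ℝ) := (hmono _ _ (by linarith)).trans (hv i his j)
  exact no_prime κ (M ^ θ) hfl hsm.1 hsm.2 (v i j : ℝ) h12 (by
    rw [Int.floor_intCast]
    exact hi2 j) q hq

end Pool.Agent.Q46.MH
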