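import Pool.Agent.Q46.MH.GraphR
import Pool.Agent.Q46.MH.Dist

set_option autoImplicit false

/-! # Configurations of points over prime fields -/

namespace Pool.Agent.Q46.MH

open Finset Filter
open Pool.Agent.H469R2.NK (e norm_e e_add)
open Pool.Agent.TH915.PW (e_int sum_char)
open Pool.Agent.W147.PS (ff ff_compare ev_pow)

section upd

variable {k : ℕ} {V : Type} [DecidableEq V]

lemma sum_update (E : Fin k → Finset V) (i : Fin k) (F : (Fin k → V) → ℂ) :
    ∑ X ∈ Fintype.piFinset E, ∑ v ∈ E i, F (Function.update X i v) =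
      (E i).card * ∑ X ∈ Fintype.piFinset E, F X := by
  classical
  rw [← sum_product']
  have h1 : ∑ z ∈ Fintype.piFinset E ×ˢ E i, F (Function.update z.1 i z.2) =
      ∑ z ∈ Fintype.piFinset E ×ˢ E i, F z.1 := by
    refine sum_nbij' (fun z => (Function.update z.1 i z.2, z.1 i)) (fun z => (Function.update z.1 i z.2, z.1 i))
      ?_ ?_ ?_ ?_ ?_
    · intro z hz
      rw [mem_product, Fintype.mem_piFinset] at hz
      rw [mem_product, Fintype.mem_piFinset]
      refine ⟨fun j => ?_, hz.1 i⟩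
      by_cases hj : j = i
      · subst hj
        simpa using hz.2
      · simpa [hj] using hz.1 j
    · intro z hz
      rw [mem_product, Fintype.mem_piFinset] at hz
      rw [mem_product, Fintype.mem_piFinset]
      refine ⟨fun j => ?_, hz.1 i⟩
      by_cases hj : j = i
      · subst hj
        simpa using hz.2
      · simpa [hj] using hz.1 j
    · intro z _
      simp
    · intro z _
      simp
    · intro z _
      rfl
  rw [h1, sum_product, mul_sum]
  refine sum_congr rfl fun X _ => ?_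
  show ∑ _y ∈ E i, F X = _
  rw [sum_const, nsmul_eq_mul]

lemma sum_update_two (E : Fin k → Finset V) (i j : Fin k)
    (F : (Fin k → V) → ℂ) (R : ℝ)
    (hR : ∀ X ∈ Fintype.piFinset E, ‖∑ z ∈ E i ×ˢ E j, F (Function.update (Function.update X i z.1) j z.2)‖ ≤ R) :
    ‖∑ X ∈ Fintype.piFinset E, F X‖ * ((E i).card * (E j).card) ≤ (Fintype.piFinset E).card * R := by
  classical
  have h1 := sum_update E j F
  have h2 := sum_update E i (fun X => ∑ v ∈ E j, F (Function.update X j v))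
  rw [h1] at h2
  have h3 : ∑ X ∈ Fintype.piFinset E, ∑ z ∈ E i ×ˢ E j, F (Function.update (Function.update X i z.1) j z.2) =
      (E i).card * ((E j).card * ∑ X ∈ Fintype.piFinset E, F X) := by
    rw [← h2]
    refine sum_congr rfl fun X _ => ?_
    rw [sum_product]
  have h4 : ‖(((E i).card : ℂ) * ((E j).card * ∑ X ∈ Fintype.piFinset E, F X))‖ ≤
      (Fintype.piFinset E).card * R := by
    rw [← h3]
    refine (norm_sum_le _ _).trans ((sum_le_sum hR).trans ?_)
    rw [sum_const, nsmul_eq_mul]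
  rw [norm_mul, norm_mul, Complex.norm_natCast, Complex.norm_natCast] at h4
  calc _ = ((E i).card : ℝ) * ((E j).card * ‖∑ X ∈ Fintype.piFinset E, F X‖) := by ring
    _ ≤ _ := h4

end upd

section dist

variable {p : ℕ} [Fact p.Prime]

/-- the square of the distance -/
def dst {p d : ℕ} (x y : Fin d → ZMod p) : ZMod p := ∑ i, (x i - y i) ^ 2

lemma dst_eq {d : ℕ} (x y : Fin d → ZMod p) :
    dst x y = (-2) * (x ⬝ᵥ y) + x ⬝ᵥ x + y ⬝ᵥ y := by
  unfold dst dotProduct
  rw [mul_sum, ← sum_add_distrib, ← sum_add_distrib]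
  exact sum_congr rfl fun i _ => by ring

/-- a phase with mixed difference `c x·y` -/
lemma phase_sum {d : ℕ} (A B : Finset (Fin d → ZMod p)) (Φ : (Fin d → ZMod p) → (Fin d → ZMod p) → ZMod p)
    {c : ZMod p} (hc : c ≠ 0) (hΦ : ∀ x y, Φ x y = c * (x ⬝ᵥ y) + Φ x 0 + (Φ 0 y - Φ 0 0)) :
    ‖∑ z ∈ A ×ˢ B, (ZMod.stdAddChar (Φ z.1 z.2) : ℂ)‖ ≤ Real.sqrt ((p : ℝ) ^ d * A.card * B.card) := by
  have h1 := bil_sum A B (fun x => Φ x 0) (fun y => Φ 0 y - Φ 0 0) hc (k := 1) one_ne_zero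
  refine le_trans (le_of_eq ?_) h1
  congr 1
  refine sum_congr rfl fun z _ => ?_
  rw [one_mul, ← hΦ]

/-- the pairs `i < j` -/
abbrev Pr (k : ℕ) : Type := {z : Fin k × Fin k // z.1 < z.2}

/-- the total phase -/
noncomputable def phs {k d : ℕ} (w : Pr k → ZMod p) (X : Fin k → Fin d → ZMod p) : ZMod p :=
  ∑ z : Pr k, w z * dst (X z.1.1) (X z.1.2)

lemma phs_mixed {k d : ℕ} (w : Pr k → ZMod p) (z₀ : Pr k) (X : Fin k → Fin d → ZMod p) (x y : Fin d → ZMod p) :
    phs w (Function.update (Function.update X z₀.1.1 x) z₀.1.2 y) =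
      (-2 * w z₀) * (x ⬝ᵥ y) + phs w (Function.update (Function.update X z₀.1.1 x) z₀.1.2 0) +
        (phs w (Function.update (Function.update X z₀.1.1 0) z₀.1.2 y) -
          phs w (Function.update (Function.update X z₀.1.1 0) z₀.1.2 0)) := by
  classical
  obtain ⟨⟨i, j⟩, hij⟩ := z₀
  simp only at hij ⊢
  set z₀ : Pr k := ⟨(i, j), hij⟩ with hz₀
  set U : (Fin d → ZMod p) → (Fin d → ZMod p) → Fin k → Fin d → ZMod p :=
    fun a b => Function.update (Function.update X i a) j b with hU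
  have hUj : ∀ a b, U a b j = b := fun a b => by rw [hU]; simp
  have hUi : ∀ a b, U a b i = a := fun a b => by
    rw [hU]
    simp only
    rw [Function.update_of_ne (ne_of_lt hij), Function.update_self]
  have hUo : ∀ a b l, l ≠ i → l ≠ j → U a b l = X l := fun a b l h1 h2 => by
    rw [hU]
    simp only
    rw [Function.update_of_ne h2, Function.update_of_ne h1]
  have hterm : ∀ z : Pr k, w z * dst (U x y z.1.1) (U x y z.1.2) =
      (if z = z₀ then (-2 * w z₀) * (x ⬝ᵥ y) else 0) + w z * dst (U x 0 z.1.1) (U x 0 z.1.2) +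
        (w z * dst (U 0 y z.1.1) (U 0 y z.1.2) - w z * dst (U 0 0 z.1.1) (U 0 0 z.1.2)) := by
    intro z
    by_cases hz : z = z₀
    · rw [if_pos hz, hz, hz₀]
      simp only
      rw [hUi, hUj, hUi, hUj, hUi, hUj, hUi, hUj, dst_eq, dst_eq, dst_eq, dst_eq]
      simp only [zero_dotProduct, dotProduct_zero]
      ring
    · rw [if_neg hz]
      obtain ⟨⟨a, b⟩, hab⟩ := z
      generalize w ⟨(a, b), hab⟩ = ww
      simp only at hab ⊢
      have hne : ¬ (a = i ∧ b = j) := by
        rintro ⟨rfl, rfl⟩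
        exact hz rfl
      by_cases h1 : a = i
      · have h2 : b ≠ j := fun h => hne ⟨h1, h⟩
        have h3 : b ≠ i := by rw [← h1]; exact (ne_of_lt hab).symm
        rw [h1, hUi, hUi, hUi, hUi, hUo _ _ b h3 h2, hUo _ _ b h3 h2, hUo _ _ b h3 h2, hUo _ _ b h3 h2]
        ring
      · by_cases h2 : a = j
        · have h3 : b ≠ j := by rw [← h2]; exact (ne_of_lt hab).symm
          have h4 : b ≠ i := by
            intro h
            rw [h2, h] at hab
            exact absurd (lt_trans hab hij) (lt_irrefl _)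
          rw [h2, hUj, hUj, hUj, hUj, hUo _ _ b h4 h3, hUo _ _ b h4 h3, hUo _ _ b h4 h3, hUo _ _ b h4 h3]
          ring
        · rw [hUo _ _ a h1 h2, hUo _ _ a h1 h2, hUo _ _ a h1 h2, hUo _ _ a h1 h2]
          by_cases h3 : b = i
          · rw [h3, hUi, hUi, hUi, hUi]
            ring
          · by_cases h4 : b = j
            · rw [h4, hUj, hUj, hUj, hUj]
              ring
            · rw [hUo _ _ b h3 h4, hUo _ _ b h3 h4, hUo _ _ b h3 h4, hUo _ _ b h3 h4]
              ring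
  unfold phs
  show ∑ z : Pr k, w z * dst (U x y z.1.1) (U x y z.1.2) = _
  rw [sum_congr rfl fun z _ => hterm z, sum_add_distrib, sum_add_distrib, sum_sub_distrib, sum_ite_eq' univ z₀,
    if_pos (mem_univ _)]

lemma config_sum {k d : ℕ} (hp2 : p ≠ 2) (w : Pr k → ZMod p) (z₀ : Pr k) (hw : w z₀ ≠ 0)
    (E : Fin k → Finset (Fin d → ZMod p)) :
    ‖∑ X ∈ Fintype.piFinset E, (ZMod.stdAddChar (phs w X) : ℂ)‖ * ((E z₀.1.1).card * (E z₀.1.2).card) ≤
      (Fintype.piFinset E).card * Real.sqrt ((p : ℝ) ^ d * (E z₀.1.1).card * (E z₀.1.2).card) := by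
  classical
  have hc : (-2 * w z₀ : ZMod p) ≠ 0 := by
    apply mul_ne_zero _ hw
    intro h3
    have h4 : ((2 : ℕ) : ZMod p) = 0 := by
      push_cast
      exact neg_eq_zero.1 h3
    rw [ZMod.natCast_eq_zero_iff] at h4
    exact hp2 ((Nat.prime_dvd_prime_iff_eq Fact.out Nat.prime_two).1 h4)
  exact sum_update_two E z₀.1.1 z₀.1.2 (fun X => (ZMod.stdAddChar (phs w X) : ℂ)) _
    (fun X _ => phase_sum (E z₀.1.1) (E z₀.1.2)
      (fun x y => phs w (Function.update (Function.update X z₀.1.1 x) z₀.1.2 y)) hc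
      (fun x y => phs_mixed w z₀ X x y))

end dist

lemma char_sum {p : ℕ} [NeZero p] {ι : Type*} (s : Finset ι) (f : ι → ZMod p) :
    (ZMod.stdAddChar (∑ i ∈ s, f i) : ℂ) = ∏ i ∈ s, (ZMod.stdAddChar (f i) : ℂ) := by
  classical
  induction s using Finset.induction_on with
  | empty => simp
  | insert a t ha ih => rw [sum_insert ha, prod_insert ha, AddChar.map_add_eq_mul, ih]

lemma prod_e {r : ℕ} (F : Fin r → ℝ) : ∏ j, e (F j) = e (∑ j, F j) := by
  have e2 : ∀ (t : Finset (Fin r)) (F : Fin r → ℝ), e (∑ j ∈ t, F j) = ∏ j ∈ t, e (F j) := by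
    intro t F
    induction t using Finset.induction_on with
    | empty => simpa using e_int 0
    | insert a t ha ih => rw [sum_insert ha, prod_insert ha, e_add, ih]
  exact (e2 univ F).symm

open Classical in
/-- the configurations all of whose distances are in the intervals and isolated -/
noncomputable def conf {p k d : ℕ} (K : ℝ) (E : Fin k → Finset (Fin d → ZMod p)) (u N : Pr k → ℕ) :
    Finset (Fin k → Fin d → ZMod p) :=
  (Fintype.piFinset E).filter (fun X => ∀ z : Pr k,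
    (u z ≤ (dst (X z.1.1) (X z.1.2)).val ∧ (dst (X z.1.1) (X z.1.2)).val < u z + N z) ∧
      ∀ q : ℕ, q.Prime → K < |(q : ℝ) - (dst (X z.1.1) (X z.1.2)).val|)

/-- **configurations of `k` points** -/
theorem configs (k : ℕ) (hk : 2 ≤ k) (ε : ℝ) (hε : 0 < ε) (hε1 : ε ≤ 1) : ∃ κ : ℝ, 0 < κ ∧ ∃ p₀ : ℕ,
    ∀ p : ℕ, p₀ ≤ p → p.Prime → ∀ (d : ℕ) (E : Fin k → Finset (Fin d → ZMod p)) (u N : Pr k → ℕ),
      (∀ z, u z + N z ≤ p) → (∀ z, (p : ℝ) ^ ε ≤ N z) →
      (∀ z : Pr k, (p : ℝ) ^ (d + ε) ≤ (∏ w : Pr k, (N w : ℝ) / p) ^ 2 * (E z.1.1).card * (E z.1.2).card) →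
      (∏ w : Pr k, (N w : ℝ) / p) * (∏ i, ((E i).card : ℝ)) * (p : ℝ) ^ (-ε) ≤
        (conf (κ * ff p) E u N).card := by
  classical
  have hne : Nonempty (Pr k) := ⟨⟨(⟨0, by omega⟩, ⟨1, by omega⟩), by
    show (⟨0, _⟩ : Fin k) < ⟨1, _⟩
    rw [Fin.mk_lt_mk]
    norm_num⟩⟩
  set r : ℕ := Fintype.card (Pr k) with hr
  have hr1 : 1 ≤ r := Fintype.card_pos
  set σ : Pr k ≃ Fin r := Fintype.equivFin (Pr k) with hσ
  obtain ⟨κ, hκ, hg⟩ := graphR r hr1 (ε / 2) (by positivity) (by linarith)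
  have e1 := (tendsto_natCast_atTop_atTop (R := ℝ)).eventually hg
  obtain ⟨p₀, hp₀⟩ := (e1.and (eventually_ge_atTop 3)).exists_forall_of_atTop
  refine ⟨κ, hκ, p₀, ?_⟩
  intro p hp0 hp d E u N hu hN1 hN2
  obtain ⟨g1, g3⟩ := hp₀ p hp0
  have : Fact p.Prime := ⟨hp⟩
  have hpr : (3 : ℝ) ≤ p := by exact_mod_cast g3
  have hp0' : (0 : ℝ) < p := by linarith
  have hmono : ∀ x y : ℝ, x ≤ y → (p : ℝ) ^ x ≤ (p : ℝ) ^ y := fun x y h =>
    Real.rpow_le_rpow_of_exponent_le (by linarith) h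
  set W : ℝ := ∏ w : Pr k, (N w : ℝ) / p with hW
  have hW0 : 0 ≤ W := prod_nonneg fun _ _ => div_nonneg (Nat.cast_nonneg _) hp0'.le
  have hWσ : ∏ j : Fin r, (N (σ.symm j) : ℝ) / ((fun _ => p : Fin r → ℕ) j : ℕ) = W := by
    rw [hW, ← Equiv.prod_comp σ.symm]
  have hΩc : ((Fintype.piFinset E).card : ℝ) = ∏ i, ((E i).card : ℝ) := by
    rw [Fintype.card_piFinset]
    push_cast
    rfl
  set x : (Fin k → Fin d → ZMod p) → Fin r → ℕ := fun X j =>
    (dst (X (σ.symm j).1.1) (X (σ.symm j).1.2)).val with hx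
  set Bd : ℝ := ((Fintype.piFinset E).card : ℝ) * (W * (p : ℝ) ^ (-(ε / 2))) with hBd
  have hBd0 : 0 ≤ Bd := mul_nonneg (Nat.cast_nonneg _) (mul_nonneg hW0 (Real.rpow_nonneg hp0'.le _))
  have key := g1 (fun _ => p) (fun _ => hp.one_lt.le) (fun _ => le_rfl) (Fin k → Fin d → ZMod p)
    (Fintype.piFinset E) x (fun _ _ _ => ZMod.val_lt _) Bd hBd0
    (by
      intro h hh h0
      obtain ⟨j0, hj0⟩ := Function.ne_iff.1 h0
      set z₀ : Pr k := σ.symm j0 with hz₀
      set w : Pr k → ZMod p := fun z => (h (σ z) : ZMod p) with hw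
      have hwz : w z₀ ≠ 0 := by
        intro h1
        rw [hw] at h1
        simp only [hz₀, Equiv.apply_symm_apply] at h1
        rw [ZMod.natCast_eq_zero_iff] at h1
        exact absurd (Nat.le_of_dvd (Nat.pos_of_ne_zero hj0) h1) (not_le.2 (hh j0))
      have h1 := config_sum (by omega : p ≠ 2) w z₀ hwz E
      have hsum : ∑ X ∈ Fintype.piFinset E, ∏ j, e ((h j : ℝ) * x X j / ((fun _ => p : Fin r → ℕ) j : ℕ)) =
          ∑ X ∈ Fintype.piFinset E, (ZMod.stdAddChar (phs w X) : ℂ) := by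
        refine sum_congr rfl fun X _ => ?_
        have h2 : ∀ j, e ((h j : ℝ) * x X j / ((fun _ => p : Fin r → ℕ) j : ℕ)) =
            (ZMod.stdAddChar ((h j : ZMod p) * dst (X (σ.symm j).1.1) (X (σ.symm j).1.2)) : ℂ) := by
          intro j
          rw [hx]
          exact e_val _ _
        rw [prod_congr rfl fun j _ => h2 j]
        unfold phs
        rw [← Equiv.sum_comp σ.symm, char_sum]
        refine prod_congr rfl fun j _ => ?_
        rw [hw]
        simp only [Equiv.apply_symm_apply]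
      rw [hsum]
      set a : ℝ := ((E z₀.1.1).card : ℝ) with ha
      set b : ℝ := ((E z₀.1.2).card : ℝ) with hb
      have ha0 : 0 ≤ a := Nat.cast_nonneg _
      have hb0 : 0 ≤ b := Nat.cast_nonneg _
      have h3 := hN2 z₀
      have h4 : (0 : ℝ) < (p : ℝ) ^ ((d : ℝ) + ε) := Real.rpow_pos_of_pos hp0' _
      have hab : 0 < a * b := by
        by_contra h5
        have h6 : a * b = 0 := le_antisymm (not_lt.1 h5) (mul_nonneg ha0 hb0)
        have h7 : W ^ 2 * a * b = 0 := by rw [mul_assoc, h6, mul_zero]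
        rw [h7] at h3
        linarith
      have h5 : (p : ℝ) ^ d ≤ W ^ 2 * a * b * (p : ℝ) ^ (-ε) := by
        have h6 : (p : ℝ) ^ d = (p : ℝ) ^ ((d : ℝ) + ε) * (p : ℝ) ^ (-ε) := by
          rw [← Real.rpow_add hp0', ← Real.rpow_natCast]
          congr 1
          ring
        rw [h6]
        exact mul_le_mul_of_nonneg_right h3 (Real.rpow_nonneg hp0'.le _)
      have h6 : Real.sqrt ((p : ℝ) ^ d * a * b) ≤ W * (a * b) * (p : ℝ) ^ (-(ε / 2)) := by
        apply Real.sqrt_le_iff.2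
        refine ⟨by positivity, ?_⟩
        have h7 : ((p : ℝ) ^ (-(ε / 2))) ^ 2 = (p : ℝ) ^ (-ε) := by
          rw [← Real.rpow_natCast, ← Real.rpow_mul hp0'.le]
          congr 1
          push_cast
          ring
        calc (p : ℝ) ^ d * a * b = (p : ℝ) ^ d * (a * b) := by ring
          _ ≤ W ^ 2 * a * b * (p : ℝ) ^ (-ε) * (a * b) := mul_le_mul_of_nonneg_right h5 hab.le
          _ = (W * (a * b)) ^ 2 * (p : ℝ) ^ (-ε) := by ring
          _ = _ := by rw [← h7]; ring
      refine le_of_mul_le_mul_right ?_ hab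
      refine h1.trans ((mul_le_mul_of_nonneg_left h6 (Nat.cast_nonneg _)).trans (le_of_eq ?_))
      rw [hBd]
      ring)
    (fun j => u (σ.symm j)) (fun j => N (σ.symm j)) (fun j => hu _)
    (fun j => (hmono _ _ (by linarith)).trans (hN1 _))
    (by
      rw [hWσ, hBd]
      have h1 : (p : ℝ) ^ (-(ε / 2)) * (p : ℝ) ^ (ε / 2) = 1 := by
        rw [← Real.rpow_add hp0']
        simp
      calc _ = W * ((Fintype.piFinset E).card : ℝ) * ((p : ℝ) ^ (-(ε / 2)) * (p : ℝ) ^ (ε / 2)) := by ring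
        _ ≤ _ := by rw [h1, mul_one])
  rw [hWσ, hΩc] at key
  refine le_trans (mul_le_mul_of_nonneg_left (hmono _ _ (by linarith))
    (mul_nonneg hW0 (prod_nonneg fun _ _ => Nat.cast_nonneg _))) (key.trans ?_)
  have hsub : goodR (κ * ff p) (Fintype.piFinset E) x (fun j => u (σ.symm j)) (fun j => N (σ.symm j)) ⊆
      conf (κ * ff p) E u N := by
    intro X hX
    unfold goodR at hX
    unfold conf
    rw [mem_filter] at hX ⊢
    refine ⟨hX.1, fun z => ?_⟩
    have h1 := hX.2.1 (σ z)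
    have h2 := hX.2.2 (σ z)
    rw [hx] at h1 h2
    simp only [Equiv.symm_apply_apply, mem_Ico] at h1 h2
    exact ⟨h1, h2⟩
  exact_mod_cast card_le_card hsub

end Pool.Agent.Q46.MH
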