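import Pool.Agent.Q46.MH.GraphR
import Pool.Agent.Q46.MH.Poly
import Pool.Agent.Q46.MH.Expo
import Pool.Agent.Q46.MH.Config

set_option autoImplicit false

/-! # Additive equations over prime fields -/

namespace Pool.Agent.Q46.MH

open Finset Filter
open Pool.Agent.H469R2.NK (e norm_e e_add)
open Pool.Agent.TH915.PW (e_int sum_char)
open Pool.Agent.W147.PS (ff ff_compare ev_pow)

section add

variable {p : ℕ} [Fact p.Prime] {n : ℕ}

/-- the sum of one variable -/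
noncomputable def SS (m : ℕ) (F : ℕ → ZMod p) (h : ℕ) (t : ZMod p) : ℂ :=
  ∑ x ∈ range m, e ((h : ℝ) * x / m) * (ZMod.stdAddChar (t * F x) : ℂ)

lemma SS_zero (m : ℕ) (hm : 1 ≤ m) (F : ℕ → ZMod p) (h : ℕ) (hh : h < m) :
    SS m F h 0 = if h = 0 then (m : ℂ) else 0 := by
  unfold SS
  have h1 : ∀ x ∈ range m, e ((h : ℝ) * x / m) * (ZMod.stdAddChar ((0 : ZMod p) * F x) : ℂ) =
      e (((h : ℤ) : ℝ) * ((x : ℝ) / m)) := by
    intro x _
    rw [zero_mul, AddChar.map_zero_eq_one, mul_one]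
    congr 1
    push_cast
    ring
  rw [sum_congr rfl h1]
  split_ifs with h0
  · subst h0
    simp [e_zero']
  · apply sum_char m hm
    intro hd
    exact absurd (Int.le_of_dvd (by exact_mod_cast Nat.pos_of_ne_zero h0) hd) (by exact_mod_cast not_le.2 hh)

/-- the solutions -/
def sol (m : Fin n → ℕ) (F : Fin n → ℕ → ZMod p) (c : ZMod p) : Finset (Fin n → ℕ) :=
  (Fintype.piFinset fun j => range (m j)).filter (fun x => ∑ j, F j (x j) = c)

lemma ind_sum (z : ZMod p) : ∑ t : ZMod p, (ZMod.stdAddChar (t * z) : ℂ) = if z = 0 then (p : ℂ) else 0 := by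
  split_ifs with h
  · subst h
    simp [ZMod.card]
  · rw [← sum_char_all h]
    exact sum_congr rfl fun t _ => by rw [mul_comm]

lemma sol_sum (m : Fin n → ℕ) (hm : ∀ j, 1 ≤ m j) (F : Fin n → ℕ → ZMod p) (c : ZMod p) (K : ℝ) (hK : 0 ≤ K)
    (hF : ∀ j, ∀ h < m j, ∀ t : ZMod p, t ≠ 0 → ‖SS (m j) (F j) h t‖ ≤ K * Real.sqrt p)
    (h : Fin n → ℕ) (hh : ∀ j, h j < m j) :
    ‖∑ x ∈ sol m F c, ∏ j, e ((h j : ℝ) * x j / m j) - (∏ j, if h j = 0 then (m j : ℂ) else 0) / p‖ ≤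
      (K * Real.sqrt p) ^ n := by
  classical
  have hp0 : (0 : ℝ) < p := by exact_mod_cast (Fact.out : p.Prime).pos
  have hpc : (p : ℂ) ≠ 0 := by exact_mod_cast (Fact.out : p.Prime).ne_zero
  have h1 : (p : ℂ) * ∑ x ∈ sol m F c, ∏ j, e ((h j : ℝ) * x j / m j) =
      ∑ t : ZMod p, (ZMod.stdAddChar (t * (-c)) : ℂ) * ∏ j, SS (m j) (F j) (h j) t := by
    have g1 : ∀ t : ZMod p, (ZMod.stdAddChar (t * (-c)) : ℂ) * ∏ j, SS (m j) (F j) (h j) t =
        ∑ x ∈ Fintype.piFinset fun j => range (m j), (∏ j, e ((h j : ℝ) * x j / m j)) *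
          (ZMod.stdAddChar (t * (∑ j, F j (x j) - c)) : ℂ) := by
      intro t
      unfold SS
      rw [prod_univ_sum, mul_sum]
      refine sum_congr rfl fun x _ => ?_
      rw [prod_mul_distrib, ← char_sum, ← mul_sum]
      have g2 : t * (∑ j, F j (x j) - c) = t * (-c) + t * ∑ j, F j (x j) := by ring
      rw [g2, AddChar.map_add_eq_mul]
      ring
    rw [sum_congr rfl fun t _ => g1 t, sum_comm]
    unfold sol
    rw [sum_filter, mul_sum]
    refine sum_congr rfl fun x _ => ?_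
    rw [← mul_sum, ind_sum]
    by_cases hx : ∑ j, F j (x j) = c
    · rw [if_pos hx, if_pos (sub_eq_zero.2 hx), mul_comm]
    · rw [if_neg hx, if_neg (fun h => hx (sub_eq_zero.1 h)), mul_zero, mul_zero]
  have h2 : (p : ℂ) * ∑ x ∈ sol m F c, ∏ j, e ((h j : ℝ) * x j / m j) -
      (∏ j, if h j = 0 then (m j : ℂ) else 0) =
      ∑ t ∈ univ.erase (0 : ZMod p), (ZMod.stdAddChar (t * (-c)) : ℂ) * ∏ j, SS (m j) (F j) (h j) t := by
    rw [h1, ← add_sum_erase univ _ (mem_univ (0 : ZMod p)), zero_mul, AddChar.map_zero_eq_one, one_mul,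
      prod_congr rfl fun j _ => SS_zero (m j) (hm j) (F j) (h j) (hh j)]
    ring
  have h3 : ‖∑ t ∈ univ.erase (0 : ZMod p), (ZMod.stdAddChar (t * (-c)) : ℂ) * ∏ j, SS (m j) (F j) (h j) t‖ ≤
      p * (K * Real.sqrt p) ^ n := by
    have g1 : ∀ t ∈ univ.erase (0 : ZMod p),
        ‖(ZMod.stdAddChar (t * (-c)) : ℂ) * ∏ j, SS (m j) (F j) (h j) t‖ ≤ (K * Real.sqrt p) ^ n := by
      intro t ht
      have ht0 : t ≠ 0 := ne_of_mem_erase ht
      rw [norm_mul, AddChar.norm_apply, one_mul, norm_prod]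
      refine (prod_le_prod (fun _ _ => norm_nonneg _) fun j _ => hF j (h j) (hh j) t ht0).trans (le_of_eq ?_)
      rw [prod_const, card_univ, Fintype.card_fin]
    refine (norm_sum_le _ _).trans ((sum_le_sum g1).trans ?_)
    rw [sum_const, nsmul_eq_mul]
    apply mul_le_mul_of_nonneg_right _ (by positivity)
    have : (univ.erase (0 : ZMod p)).card ≤ p := by
      refine (card_le_card (erase_subset _ _)).trans (le_of_eq ?_)
      rw [card_univ, ZMod.card]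
    exact_mod_cast this
  have h4 : ∑ x ∈ sol m F c, ∏ j, e ((h j : ℝ) * x j / m j) - (∏ j, if h j = 0 then (m j : ℂ) else 0) / p =
      ((p : ℂ) * ∑ x ∈ sol m F c, ∏ j, e ((h j : ℝ) * x j / m j) -
        (∏ j, if h j = 0 then (m j : ℂ) else 0)) / p := by
    field_simp
  rw [h4, h2, norm_div, Complex.norm_natCast, div_le_iff₀ hp0]
  linarith

end add

section terms

open Polynomial

variable {p : ℕ} [Fact p.Prime]

lemma sum_range_val (G : ℕ → ℂ) : ∑ x ∈ range p, G x = ∑ z : ZMod p, G z.val := by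
  refine sum_bij' (fun x _ => (x : ZMod p)) (fun z _ => z.val) ?_ ?_ ?_ ?_ ?_
  · intro x _
    exact mem_univ _
  · intro z _
    exact mem_range.2 (ZMod.val_lt z)
  · intro x hx
    exact ZMod.val_cast_of_lt (mem_range.1 hx)
  · intro z _
    exact ZMod.natCast_zmod_val z
  · intro x hx
    rw [ZMod.val_cast_of_lt (mem_range.1 hx)]

lemma SS_val (F : ZMod p → ZMod p) (h : ℕ) (t : ZMod p) :
    SS p (fun x => F (x : ZMod p)) h t =
      ∑ z : ZMod p, e ((h : ℝ) * z.val / p) * e ((t.val : ℝ) * (F z).val / p) := by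
  unfold SS
  rw [sum_range_val]
  refine sum_congr rfl fun z _ => ?_
  simp only
  rw [e_val t.val, ZMod.natCast_zmod_val, ZMod.natCast_zmod_val]

lemma val_ne {t : ZMod p} (ht : t ≠ 0) : t.val ≠ 0 := by
  intro h
  exact ht ((ZMod.val_eq_zero t).1 h)

lemma SS_poly (f : (ZMod p)[X]) (hf2 : 2 ≤ f.natDegree) (hfp : f.natDegree < p) (h : ℕ) (hh : h < p)
    {t : ZMod p} (ht : t ≠ 0) :
    ‖SS p (fun x => f.eval (x : ZMod p)) h t‖ ≤ f.natDegree * Real.sqrt p := by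
  rw [SS_val (fun z => f.eval z)]
  exact poly_sum f hf2 hfp h t.val hh (ZMod.val_lt t) (Or.inr (val_ne ht))

lemma SS_exp (c g : (ZMod p)ˣ) (h : ℕ) {t : ZMod p} (ht : t ≠ 0) :
    ‖SS (orderOf g) (fun x => ((c * g ^ x : (ZMod p)ˣ) : ZMod p)) h t‖ ≤ Real.sqrt p := by
  have h1 : SS (orderOf g) (fun x => ((c * g ^ x : (ZMod p)ˣ) : ZMod p)) h t = ES g h (t * (c : ZMod p)) := by
    unfold SS ES
    refine sum_congr rfl fun x _ => ?_
    simp only
    rw [Units.val_mul, mul_assoc]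
  rw [h1]
  exact ES_bound g h _ (mul_ne_zero ht c.ne_zero)

lemma SS_inv (c : (ZMod p)ˣ) (h : ℕ) (hh : h < p) {t : ZMod p} (ht : t ≠ 0) :
    ‖SS p (fun x => (c : ZMod p) * (x : ZMod p)⁻¹) h t‖ ≤ 3 * Real.sqrt p := by
  rw [SS_val (fun z => (c : ZMod p) * z⁻¹)]
  have h1 := hyp_sum c h t.val hh (ZMod.val_lt t) (Or.inr (val_ne ht))
  have h2 := sum_units (fun z : ZMod p => e ((h : ℝ) * z.val / p) * e ((t.val : ℝ) * ((c : ZMod p) * z⁻¹).val / p))
  have h3 : ∑ u : (ZMod p)ˣ, e ((h : ℝ) * (u : ZMod p).val / p) *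
      e ((t.val : ℝ) * ((c * u⁻¹ : (ZMod p)ˣ) : ZMod p).val / p) =
      ∑ u : (ZMod p)ˣ, e ((h : ℝ) * (u : ZMod p).val / p) *
        e ((t.val : ℝ) * ((c : ZMod p) * (u : ZMod p)⁻¹).val / p) := by
    refine sum_congr rfl fun u _ => ?_
    rw [Units.val_mul, Units.val_inv_eq_inv_val]
  rw [h3, h2] at h1
  have h4 : (1 : ℝ) ≤ Real.sqrt p := by
    rw [Real.one_le_sqrt]
    exact_mod_cast (Fact.out : p.Prime).one_lt.le
  have h5 : ‖(e ((h : ℝ) * (0 : ZMod p).val / p) * e ((t.val : ℝ) * ((c : ZMod p) * (0 : ZMod p)⁻¹).val / p) : ℂ)‖ = 1 := by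
    rw [norm_mul, norm_e, norm_e, one_mul]
  have h6 := norm_sub_norm_le (∑ z : ZMod p, e ((h : ℝ) * z.val / p) * e ((t.val : ℝ) * ((c : ZMod p) * z⁻¹).val / p))
    (e ((h : ℝ) * (0 : ZMod p).val / p) * e ((t.val : ℝ) * ((c : ZMod p) * (0 : ZMod p)⁻¹).val / p))
  rw [h5] at h6
  linarith

end terms

/-- **additive equations** -/
theorem additive (n : ℕ) (K : ℝ) (hK : 1 ≤ K) (ε : ℝ) (hε : 0 < ε) (hε1 : ε ≤ 1) : ∃ κ : ℝ, 0 < κ ∧ ∃ p₀ : ℕ,
    ∀ p : ℕ, p₀ ≤ p → ∀ [Fact p.Prime], ∀ (m : Fin n → ℕ) (F : Fin n → ℕ → ZMod p) (c : ZMod p),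
      (∀ j, 1 ≤ m j) → (∀ j, m j ≤ p) →
      (∀ j, ∀ h < m j, ∀ t : ZMod p, t ≠ 0 → ‖SS (m j) (F j) h t‖ ≤ K * Real.sqrt p) →
      ∀ A N : Fin n → ℕ, (∀ j, A j + N j ≤ m j) → (∀ j, (p : ℝ) ^ ε ≤ N j) →
        (p : ℝ) ^ ((n : ℝ) / 2 + 1 + ε) ≤ ∏ j, (N j : ℝ) →
        (∏ j, (N j : ℝ)) * (p : ℝ) ^ (-(1 + ε)) ≤
          (goodR (κ * ff p) (sol m F c) (fun x j => x j) A N).card := by
  classical
  rcases Nat.eq_zero_or_pos n with hn0 | hn
  · subst hn0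
    refine ⟨1, one_pos, 2, ?_⟩
    intro p hp _ m F c _ _ _ A N _ _ hP
    exfalso
    simp only [univ_eq_empty, prod_empty, Nat.cast_zero, zero_div, zero_add] at hP
    have h1 : (1 : ℝ) < (p : ℝ) ^ (1 + ε) :=
      Real.one_lt_rpow (by exact_mod_cast (by omega : 1 < p)) (by linarith)
    linarith
  obtain ⟨κ, hκ, hg⟩ := graphR n hn (ε / 2) (by positivity) (by linarith)
  have e1 := (tendsto_natCast_atTop_atTop (R := ℝ)).eventually hg
  have e2 := (tendsto_natCast_atTop_atTop (R := ℝ)).eventually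
    ((tendsto_rpow_atTop (show (0 : ℝ) < ε / 2 by positivity)).eventually_ge_atTop (2 * K ^ n))
  obtain ⟨p₀, hp₀⟩ := (e1.and (e2.and (eventually_ge_atTop 2))).exists_forall_of_atTop
  refine ⟨κ, hκ, p₀, ?_⟩
  intro p hp _ m F c hm hmp hF A N hA hN hP
  obtain ⟨g1, g2, g3⟩ := hp₀ p hp
  have hpr : (2 : ℝ) ≤ p := by exact_mod_cast g3
  have hp0 : (0 : ℝ) < p := by linarith
  have hmono : ∀ x y : ℝ, x ≤ y → (p : ℝ) ^ x ≤ (p : ℝ) ^ y := fun x y h =>
    Real.rpow_le_rpow_of_exponent_le (by linarith) h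
  have hKn : (1 : ℝ) ≤ K ^ n := one_le_pow₀ hK
  have hmr : ∀ j, (0 : ℝ) < m j := fun j => by exact_mod_cast hm j
  set B : ℝ := (K * Real.sqrt p) ^ n with hB
  have hB0 : 0 ≤ B := by positivity
  have hBp : B = K ^ n * (p : ℝ) ^ ((n : ℝ) / 2) := by
    rw [hB, mul_pow, Real.sqrt_eq_rpow, ← Real.rpow_natCast ((p : ℝ) ^ (1 / 2 : ℝ)), ← Real.rpow_mul hp0.le]
    congr 2
    ring
  have hsol := sol_sum m hm F c K (by linarith) hF
  -- the number of solutions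
  have hcard : (∏ j, (m j : ℝ)) / p - B ≤ (sol m F c).card := by
    have h1 := hsol (fun _ => 0) (fun j => hm j)
    simp only [Nat.cast_zero, zero_mul, zero_div, e_zero', prod_const_one, sum_const, nsmul_eq_mul, mul_one,
      if_true] at h1
    have h2 : ((sol m F c).card : ℂ) - (∏ j, (m j : ℂ)) / p = (((sol m F c).card - (∏ j, (m j : ℝ)) / p : ℝ) : ℂ) := by
      push_cast
      ring
    rw [h2, Complex.norm_real, Real.norm_eq_abs] at h1
    have := (abs_le.1 h1).1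
    linarith
  have hW1 : ∏ j, (N j : ℝ) / m j ≤ 1 := by
    apply prod_le_one (fun j _ => div_nonneg (Nat.cast_nonneg _) (hmr j).le)
    intro j _
    rw [div_le_one (hmr j)]
    exact_mod_cast (by have := hA j; omega : N j ≤ m j)
  have hW0 : 0 ≤ ∏ j, (N j : ℝ) / m j := prod_nonneg fun j _ => div_nonneg (Nat.cast_nonneg _) (hmr j).le
  have hWm : (∏ j, (N j : ℝ) / m j) * ∏ j, (m j : ℝ) = ∏ j, (N j : ℝ) := by
    rw [← prod_mul_distrib]
    refine prod_congr rfl fun j _ => ?_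
    have := (hmr j).ne'
    field_simp
  have hWΩ : (∏ j, (N j : ℝ)) / p - B ≤ (∏ j, (N j : ℝ) / m j) * (sol m F c).card := by
    have h1 := mul_le_mul_of_nonneg_left hcard hW0
    have h2 : (∏ j, (N j : ℝ) / m j) * ((∏ j, (m j : ℝ)) / p - B) =
        (∏ j, (N j : ℝ)) / p - (∏ j, (N j : ℝ) / m j) * B := by
      rw [mul_sub, ← mul_div_assoc, hWm]
    have h3 : (∏ j, (N j : ℝ) / m j) * B ≤ B := by nlinarith
    linarith
  have hpe : 0 < (p : ℝ) ^ (ε / 2) := Real.rpow_pos_of_pos hp0 _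
  have hNB : 2 * B * (p : ℝ) ^ (ε / 2) ≤ (∏ j, (N j : ℝ)) / p := by
    rw [le_div_iff₀ hp0]
    refine le_trans ?_ hP
    rw [hBp]
    have h1 : (p : ℝ) ^ ((n : ℝ) / 2 + 1 + ε) = (p : ℝ) ^ ((n : ℝ) / 2) * p * ((p : ℝ) ^ (ε / 2) * (p : ℝ) ^ (ε / 2)) := by
      rw [Real.rpow_add hp0, Real.rpow_add hp0, Real.rpow_one, ← Real.rpow_add hp0]
      congr 2
      ring
    rw [h1]
    have h2 : 0 < (p : ℝ) ^ ((n : ℝ) / 2) := Real.rpow_pos_of_pos hp0 _
    calc 2 * (K ^ n * (p : ℝ) ^ ((n : ℝ) / 2)) * (p : ℝ) ^ (ε / 2) * p =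
          ((p : ℝ) ^ ((n : ℝ) / 2) * p * (p : ℝ) ^ (ε / 2)) * (2 * K ^ n) := by ring
      _ ≤ ((p : ℝ) ^ ((n : ℝ) / 2) * p * (p : ℝ) ^ (ε / 2)) * (p : ℝ) ^ (ε / 2) :=
          mul_le_mul_of_nonneg_left g2 (by positivity)
      _ = _ := by ring
  have hpe2 : 2 ≤ (p : ℝ) ^ (ε / 2) := by linarith
  have hB2 : 2 * B ≤ (∏ j, (N j : ℝ)) / p := by nlinarith
  have key := g1 m hm (fun j => by exact_mod_cast hmp j) (Fin n → ℕ) (sol m F c) (fun x j => x j)
    (by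
      intro x hx j
      unfold sol at hx
      rw [mem_filter, Fintype.mem_piFinset] at hx
      exact mem_range.1 (hx.1 j))
    B hB0
    (by
      intro h hh h0
      have h1 := hsol h hh
      obtain ⟨j0, hj0⟩ := Function.ne_iff.1 h0
      have h2 : (∏ j, if h j = 0 then (m j : ℂ) else 0) = 0 :=
        prod_eq_zero (mem_univ j0) (if_neg hj0)
      rw [h2, zero_div, sub_zero] at h1
      exact h1)
    A N hA (fun j => (hmono _ _ (by linarith)).trans (hN j))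
    (by
      refine le_trans ?_ hWΩ
      nlinarith)
  refine le_trans ?_ key
  have h1 : (∏ j, (N j : ℝ)) / p * (1 / 2) ≤ (∏ j, (N j : ℝ) / m j) * (sol m F c).card := by linarith
  have h2 : (p : ℝ) ^ (-(1 + ε)) = 1 / p * ((p : ℝ) ^ (-(ε / 2)) * (p : ℝ) ^ (-(ε / 2))) := by
    rw [one_div, ← Real.rpow_neg_one, ← Real.rpow_add hp0, ← Real.rpow_add hp0]
    congr 1
    ring
  have h3 : (p : ℝ) ^ (-(ε / 2)) ≤ 1 / 2 := by
    rw [Real.rpow_neg hp0.le, one_div]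
    exact inv_anti₀ (by norm_num) hpe2
  have h4 : 0 < (p : ℝ) ^ (-(ε / 2)) := Real.rpow_pos_of_pos hp0 _
  have hN0 : 0 ≤ ∏ j, (N j : ℝ) := prod_nonneg fun _ _ => Nat.cast_nonneg _
  calc (∏ j, (N j : ℝ)) * (p : ℝ) ^ (-(1 + ε)) =
        ((∏ j, (N j : ℝ)) / p * (p : ℝ) ^ (-(ε / 2))) * (p : ℝ) ^ (-(ε / 2)) := by rw [h2]; ring
    _ ≤ ((∏ j, (N j : ℝ)) / p * (1 / 2)) * (p : ℝ) ^ (-(ε / 2)) := by
        apply mul_le_mul_of_nonneg_right _ h4.le
        exact mul_le_mul_of_nonneg_left h3 (by positivity)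
    _ ≤ _ := mul_le_mul_of_nonneg_right h1 h4.le

end Pool.Agent.Q46.MH
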