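import Pool.Agent.Q46.MH.Graph

set_option autoImplicit false

/-! # Fermat quotients -/

namespace Pool.Agent.Q46.MH

open Finset Filter
open Pool.Agent.H469R2.NK (e norm_e e_add)
open Pool.Agent.TH915.PW (e_int sum_char)
open Pool.Agent.W147.PS (ff ff_compare ev_pow)

/-- the Fermat quotient `(n^(p-1) - 1) / p` modulo `p` -/
def fq (p n : ℕ) : ℕ := (n ^ (p - 1) - 1) / p % p

lemma fq_lt (p n : ℕ) (hp : 0 < p) : fq p n < p := Nat.mod_lt _ hp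

section chars

variable {p : ℕ} [hp : Fact p.Prime]

lemma NZ : NeZero (p ^ 2) := ⟨pow_ne_zero 2 hp.out.ne_zero⟩

attribute [local instance] NZ

/-- the multiplicative part -/
noncomputable def pw (u : (ZMod (p ^ 2))ˣ) : ZMod (p ^ 2) := (u : ZMod (p ^ 2)) ^ (p - 1) - 1

lemma val_pw (u : (ZMod (p ^ 2))ˣ) : pw u = (((((u : ZMod (p ^ 2)).val) ^ (p - 1) - 1 : ℕ) : ℕ) : ZMod (p ^ 2)) := by
  have hp2 : 0 < p ^ 2 := pow_pos hp.out.pos 2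
  have h1 : (u : ZMod (p ^ 2)).val ≠ 0 := by
    intro h
    rw [ZMod.val_eq_zero] at h
    have : Nontrivial (ZMod (p ^ 2)) := by
      have : Fact (1 < p ^ 2) := ⟨Nat.one_lt_pow (by norm_num) hp.out.one_lt⟩
      infer_instance
    exact u.ne_zero h
  have h2 : 1 ≤ (u : ZMod (p ^ 2)).val ^ (p - 1) := Nat.one_le_pow _ _ (Nat.pos_of_ne_zero h1)
  rw [Nat.cast_sub h2, Nat.cast_pow, ZMod.natCast_zmod_val, Nat.cast_one]
  rfl

lemma cop (u : (ZMod (p ^ 2))ˣ) : ¬ p ∣ (u : ZMod (p ^ 2)).val := by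
  intro h
  have h1 := ZMod.val_coe_unit_coprime u
  have h2 : p ∣ 1 := by
    rw [← Nat.Coprime.gcd_eq_one h1]
    exact Nat.dvd_gcd h (dvd_pow_self p (by norm_num))
  exact hp.out.one_lt.ne' (Nat.dvd_one.1 h2)

lemma dvd_val (u : (ZMod (p ^ 2))ˣ) : p ∣ (u : ZMod (p ^ 2)).val ^ (p - 1) - 1 := by
  have h1 : Nat.Coprime (u : ZMod (p ^ 2)).val p := ((Nat.Prime.coprime_iff_not_dvd hp.out).2 (cop u)).symm
  have h2 := Nat.ModEq.pow_totient h1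
  rw [Nat.totient_prime hp.out] at h2
  have h3 : 1 ≤ (u : ZMod (p ^ 2)).val ^ (p - 1) := by
    apply Nat.one_le_pow
    apply Nat.pos_of_ne_zero
    intro h
    exact cop u (h ▸ dvd_zero p)
  exact (Nat.modEq_iff_dvd' h3).1 h2.symm

lemma pw_eq (u : (ZMod (p ^ 2))ˣ) : ∃ a : ZMod (p ^ 2), pw u = (p : ZMod (p ^ 2)) * a := by
  obtain ⟨c, hc⟩ := dvd_val u
  refine ⟨c, ?_⟩
  rw [val_pw, hc]
  push_cast
  ring

lemma pp_zero : (p : ZMod (p ^ 2)) * (p : ZMod (p ^ 2)) = 0 := by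
  have : ((p ^ 2 : ℕ) : ZMod (p ^ 2)) = 0 := ZMod.natCast_self _
  rw [Nat.cast_pow] at this
  rw [← this]
  ring

lemma pw_mul (u v : (ZMod (p ^ 2))ˣ) : pw (u * v) = pw u + pw v := by
  obtain ⟨a, ha⟩ := pw_eq u
  obtain ⟨b, hb⟩ := pw_eq v
  have h1 : pw (u * v) = (pw u + 1) * (pw v + 1) - 1 := by
    unfold pw
    rw [Units.val_mul, mul_pow]
    ring
  rw [h1]
  have h2 : pw u * pw v = 0 := by
    rw [ha, hb]
    calc (p : ZMod (p ^ 2)) * a * ((p : ZMod (p ^ 2)) * b) = ((p : ZMod (p ^ 2)) * (p : ZMod (p ^ 2))) * (a * b) := by ring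
      _ = 0 := by rw [pp_zero, zero_mul]
  linear_combination h2

/-- the exponential sum -/
noncomputable def SF (h : ZMod (p ^ 2)) (k : ℕ) : ℂ :=
  ∑ u : (ZMod (p ^ 2))ˣ, (ZMod.stdAddChar (h * (u : ZMod (p ^ 2))) : ℂ) * (ZMod.stdAddChar ((k : ZMod (p ^ 2)) * pw u) : ℂ)

lemma SF_mul (h : ZMod (p ^ 2)) (k : ℕ) (v : (ZMod (p ^ 2))ˣ) :
    (ZMod.stdAddChar ((k : ZMod (p ^ 2)) * pw v) : ℂ) * SF (h * (v : ZMod (p ^ 2))) k = SF h k := by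
  unfold SF
  rw [← Equiv.sum_comp (Equiv.mulRight v) (fun u : (ZMod (p ^ 2))ˣ => (ZMod.stdAddChar (h * (u : ZMod (p ^ 2))) : ℂ) *
    (ZMod.stdAddChar ((k : ZMod (p ^ 2)) * pw u) : ℂ)), mul_sum]
  refine sum_congr rfl fun u _ => ?_
  rw [Equiv.coe_mulRight, pw_mul, Units.val_mul, mul_add, AddChar.map_add_eq_mul]
  have : h * (v : ZMod (p ^ 2)) * (u : ZMod (p ^ 2)) = h * ((u : ZMod (p ^ 2)) * (v : ZMod (p ^ 2))) := by ring
  rw [this]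
  ring

lemma SF_norm (h : ZMod (p ^ 2)) (k : ℕ) (v : (ZMod (p ^ 2))ˣ) : ‖SF (h * (v : ZMod (p ^ 2))) k‖ = ‖SF h k‖ := by
  rw [← SF_mul h k v, norm_mul, AddChar.norm_apply, one_mul]

lemma sum_all {a : ZMod (p ^ 2)} (ha : a ≠ 0) : ∑ x : ZMod (p ^ 2), (ZMod.stdAddChar (x * a) : ℂ) = 0 := by
  have h1 := AddChar.sum_mulShift (R := ZMod (p ^ 2)) (R' := ℂ) (ψ := ZMod.stdAddChar) a
    (ZMod.isPrimitive_stdAddChar (p ^ 2))
  rw [if_neg ha, Nat.cast_zero] at h1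
  exact h1

lemma card_u : Fintype.card (ZMod (p ^ 2))ˣ = p * (p - 1) := by
  rw [ZMod.card_units_eq_totient, Nat.totient_prime_pow hp.out (by norm_num)]
  norm_num

lemma SF_parseval (k : ℕ) : ∑ h : ZMod (p ^ 2), ‖SF h k‖ ^ 2 = (p : ℝ) ^ 2 * (Fintype.card (ZMod (p ^ 2))ˣ : ℕ) := by
  classical
  set w : (ZMod (p ^ 2))ˣ → ℂ := fun u => (ZMod.stdAddChar ((k : ZMod (p ^ 2)) * pw u) : ℂ) with hw
  have hwn : ∀ u, ‖w u‖ = 1 := fun u => AddChar.norm_apply _ _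
  have h1 : ∀ h : ZMod (p ^ 2), ((‖SF h k‖ ^ 2 : ℝ) : ℂ) =
      ∑ u : (ZMod (p ^ 2))ˣ, ∑ v : (ZMod (p ^ 2))ˣ, w u * (starRingEnd ℂ) (w v) *
        (ZMod.stdAddChar (h * ((u : ZMod (p ^ 2)) - (v : ZMod (p ^ 2)))) : ℂ) := by
    intro h
    have h2 : ((‖SF h k‖ ^ 2 : ℝ) : ℂ) = SF h k * (starRingEnd ℂ) (SF h k) := by
      rw [Complex.mul_conj, Complex.normSq_eq_norm_sq]
    rw [h2]
    unfold SF
    rw [map_sum, sum_mul_sum]
    refine sum_congr rfl fun u _ => sum_congr rfl fun v _ => ?_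
    rw [map_mul (starRingEnd ℂ), ← AddChar.map_neg_eq_conj _ (h * (v : ZMod (p ^ 2))), mul_sub, sub_eq_add_neg,
      AddChar.map_add_eq_mul]
    ring
  have h2 : ((∑ h : ZMod (p ^ 2), ‖SF h k‖ ^ 2 : ℝ) : ℂ) =
      (((p : ℝ) ^ 2 * (Fintype.card (ZMod (p ^ 2))ˣ : ℕ) : ℝ) : ℂ) := by
    rw [Complex.ofReal_sum, sum_congr rfl fun a _ => h1 a, sum_comm]
    have h4 : ∀ u ∈ (univ : Finset (ZMod (p ^ 2))ˣ), ∑ h : ZMod (p ^ 2), ∑ v : (ZMod (p ^ 2))ˣ,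
        w u * (starRingEnd ℂ) (w v) * (ZMod.stdAddChar (h * ((u : ZMod (p ^ 2)) - (v : ZMod (p ^ 2)))) : ℂ) = (p : ℂ) ^ 2 := by
      intro u _
      rw [sum_comm, sum_eq_single u]
      · have h5 : w u * (starRingEnd ℂ) (w u) = 1 := by
          rw [Complex.mul_conj, Complex.normSq_eq_norm_sq, hwn]
          simp
        simp [h5, ZMod.card]
      · intro v _ hne
        have hd : (u : ZMod (p ^ 2)) - (v : ZMod (p ^ 2)) ≠ 0 := by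
          rw [sub_ne_zero]
          intro h6
          exact hne (Units.ext h6).symm
        rw [← mul_sum, sum_all hd, mul_zero]
      · intro h
        exact absurd (mem_univ _) h
    rw [sum_congr rfl h4, sum_const, nsmul_eq_mul, card_univ]
    push_cast
    ring
  exact_mod_cast h2

lemma SF_unit (u : (ZMod (p ^ 2))ˣ) (k : ℕ) : ‖SF (u : ZMod (p ^ 2)) k‖ ≤ p := by
  classical
  have hc : (0 : ℝ) < (Fintype.card (ZMod (p ^ 2))ˣ : ℕ) := by exact_mod_cast Fintype.card_pos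
  have h1 : ((Fintype.card (ZMod (p ^ 2))ˣ : ℕ) : ℝ) * ‖SF (u : ZMod (p ^ 2)) k‖ ^ 2 ≤
      (Fintype.card (ZMod (p ^ 2))ˣ : ℕ) * (p : ℝ) ^ 2 := by
    have h2 : ((Fintype.card (ZMod (p ^ 2))ˣ : ℕ) : ℝ) * ‖SF (u : ZMod (p ^ 2)) k‖ ^ 2 =
        ∑ x ∈ (univ : Finset (ZMod (p ^ 2))ˣ).image (fun v : (ZMod (p ^ 2))ˣ => (u : ZMod (p ^ 2)) * (v : ZMod (p ^ 2))), ‖SF x k‖ ^ 2 := by
      rw [sum_image]
      · rw [sum_congr rfl (fun v _ => by rw [SF_norm] : ∀ v ∈ (univ : Finset (ZMod (p ^ 2))ˣ),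
          ‖SF ((u : ZMod (p ^ 2)) * (v : ZMod (p ^ 2))) k‖ ^ 2 = ‖SF (u : ZMod (p ^ 2)) k‖ ^ 2), sum_const, card_univ,
          nsmul_eq_mul]
      · intro v _ w _ hvw
        have h3 : ((u * v : (ZMod (p ^ 2))ˣ) : ZMod (p ^ 2)) = ((u * w : (ZMod (p ^ 2))ˣ) : ZMod (p ^ 2)) := by
          rw [Units.val_mul, Units.val_mul]
          exact hvw
        exact mul_left_cancel (Units.ext h3)
    rw [h2, mul_comm, ← SF_parseval k]
    exact sum_le_sum_of_subset_of_nonneg (subset_univ _) (fun _ _ _ => by positivity)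
  have h2 : ‖SF (u : ZMod (p ^ 2)) k‖ ^ 2 ≤ (p : ℝ) ^ 2 := le_of_mul_le_mul_left h1 hc
  exact abs_le_of_sq_le_sq' h2 (by positivity) |>.2

lemma one_add_pow_p (m : ℕ) : ((1 : ZMod (p ^ 2)) + (p : ZMod (p ^ 2))) ^ m = (1 : ZMod (p ^ 2)) + (m : ZMod (p ^ 2)) * (p : ZMod (p ^ 2)) := by
  induction m with
  | zero => simp
  | succ m ih =>
    rw [pow_succ ((1 : ZMod (p ^ 2)) + (p : ZMod (p ^ 2))) m, ih]
    have : ((1 : ZMod (p ^ 2)) + (m : ZMod (p ^ 2)) * (p : ZMod (p ^ 2))) * ((1 : ZMod (p ^ 2)) + (p : ZMod (p ^ 2))) =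
        (1 : ZMod (p ^ 2)) + ((m : ZMod (p ^ 2)) + (1 : ZMod (p ^ 2))) * (p : ZMod (p ^ 2)) +
          (m : ZMod (p ^ 2)) * ((p : ZMod (p ^ 2)) * (p : ZMod (p ^ 2))) := by ring
    rw [this, pp_zero, mul_zero, add_zero]
    push_cast
    ring

/-- the unit `1 + p` -/
noncomputable def vp : (ZMod (p ^ 2))ˣ :=
  ⟨(1 : ZMod (p ^ 2)) + (p : ZMod (p ^ 2)), (1 : ZMod (p ^ 2)) - (p : ZMod (p ^ 2)), by
    have : ((1 : ZMod (p ^ 2)) + (p : ZMod (p ^ 2))) * ((1 : ZMod (p ^ 2)) - (p : ZMod (p ^ 2))) =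
      (1 : ZMod (p ^ 2)) - (p : ZMod (p ^ 2)) * (p : ZMod (p ^ 2)) := by ring
    rw [this, pp_zero, sub_zero], by
    have : ((1 : ZMod (p ^ 2)) - (p : ZMod (p ^ 2))) * ((1 : ZMod (p ^ 2)) + (p : ZMod (p ^ 2))) =
      (1 : ZMod (p ^ 2)) - (p : ZMod (p ^ 2)) * (p : ZMod (p ^ 2)) := by ring
    rw [this, pp_zero, sub_zero]⟩

lemma pw_vp : pw (vp : (ZMod (p ^ 2))ˣ) = -(p : ZMod (p ^ 2)) := by
  unfold pw vp
  rw [one_add_pow_p, Nat.cast_sub hp.out.one_lt.le]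
  have : (1 : ZMod (p ^ 2)) + ((p : ZMod (p ^ 2)) - ((1 : ℕ) : ZMod (p ^ 2))) * (p : ZMod (p ^ 2)) - (1 : ZMod (p ^ 2)) =
      (p : ZMod (p ^ 2)) * (p : ZMod (p ^ 2)) - (p : ZMod (p ^ 2)) := by
    push_cast
    ring
  rw [this, pp_zero, zero_sub]

lemma SF_nonunit (a : ZMod (p ^ 2)) (k : ℕ) (hk : k < p) (hk0 : k ≠ 0) : SF ((p : ZMod (p ^ 2)) * a) k = 0 := by
  have h1 := SF_mul ((p : ZMod (p ^ 2)) * a) k vp
  have h2 : (p : ZMod (p ^ 2)) * a * ((vp : (ZMod (p ^ 2))ˣ) : ZMod (p ^ 2)) = (p : ZMod (p ^ 2)) * a := by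
    have : ((vp : (ZMod (p ^ 2))ˣ) : ZMod (p ^ 2)) = (1 : ZMod (p ^ 2)) + (p : ZMod (p ^ 2)) := rfl
    rw [this]
    have h3 : (p : ZMod (p ^ 2)) * a * ((1 : ZMod (p ^ 2)) + (p : ZMod (p ^ 2))) =
      (p : ZMod (p ^ 2)) * a + (p : ZMod (p ^ 2)) * (p : ZMod (p ^ 2)) * a := by ring
    rw [h3, pp_zero, zero_mul, add_zero]
  rw [h2, pw_vp] at h1
  have h3 : (ZMod.stdAddChar ((k : ZMod (p ^ 2)) * -(p : ZMod (p ^ 2))) : ℂ) ≠ 1 := by
    intro h4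
    have h5 : (k : ZMod (p ^ 2)) * -(p : ZMod (p ^ 2)) = 0 := by
      apply ZMod.injective_stdAddChar
      rw [h4, AddChar.map_zero_eq_one]
    have h6 : ((k * p : ℕ) : ZMod (p ^ 2)) = 0 := by
      push_cast
      linear_combination -h5
    rw [ZMod.natCast_eq_zero_iff, pow_two] at h6
    have h7 := Nat.dvd_of_mul_dvd_mul_right hp.out.pos h6
    exact absurd (Nat.le_of_dvd (Nat.pos_of_ne_zero hk0) h7) (by omega)
  have h4 : ((ZMod.stdAddChar ((k : ZMod (p ^ 2)) * -(p : ZMod (p ^ 2))) : ℂ) - 1) *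
      SF ((p : ZMod (p ^ 2)) * a) k = 0 := by
    rw [sub_mul, one_mul, h1, sub_self]
  rcases mul_eq_zero.1 h4 with h5 | h5
  · exact absurd (sub_eq_zero.1 h5) h3
  · exact h5

lemma SF_zero (a : ZMod (p ^ 2)) (ha : (p : ZMod (p ^ 2)) * a ≠ 0) : ‖SF ((p : ZMod (p ^ 2)) * a) 0‖ ≤ p := by
  classical
  have h1 : SF ((p : ZMod (p ^ 2)) * a) 0 =
      ∑ x ∈ univ.filter (fun x : ZMod (p ^ 2) => IsUnit x), (ZMod.stdAddChar (x * ((p : ZMod (p ^ 2)) * a)) : ℂ) := by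
    unfold SF
    refine sum_bij (fun (u : (ZMod (p ^ 2))ˣ) _ => (u : ZMod (p ^ 2))) ?_ ?_ ?_ ?_
    · intro u _
      rw [mem_filter]
      exact ⟨mem_univ _, u.isUnit⟩
    · intro u _ v _ h
      exact Units.ext h
    · intro x hx
      rw [mem_filter] at hx
      exact ⟨hx.2.unit, mem_univ _, rfl⟩
    · intro u _
      rw [Nat.cast_zero, zero_mul, AddChar.map_zero_eq_one, mul_one]
      congr 1
      ring
  have h2 := sum_filter_add_sum_filter_not (univ : Finset (ZMod (p ^ 2))) (fun x => IsUnit x)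
    (fun x => (ZMod.stdAddChar (x * ((p : ZMod (p ^ 2)) * a)) : ℂ))
  rw [sum_all ha, ← h1] at h2
  have h3 : ‖SF ((p : ZMod (p ^ 2)) * a) 0‖ ≤ (univ.filter (fun x : ZMod (p ^ 2) => ¬ IsUnit x)).card := by
    rw [eq_neg_of_add_eq_zero_left h2, norm_neg]
    refine (norm_sum_le _ _).trans ?_
    simp [AddChar.norm_apply]
  refine h3.trans ?_
  have h4 := card_filter_add_card_filter_not (s := (univ : Finset (ZMod (p ^ 2)))) (fun x => IsUnit x)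
  have h5 : (univ.filter (fun x : ZMod (p ^ 2) => IsUnit x)).card = p * (p - 1) := by
    rw [← card_u, ← Finset.card_univ]
    symm
    refine card_bij (fun (u : (ZMod (p ^ 2))ˣ) _ => (u : ZMod (p ^ 2))) ?_ ?_ ?_
    · intro u _
      rw [mem_filter]
      exact ⟨mem_univ _, u.isUnit⟩
    · intro u _ v _ h
      exact Units.ext h
    · intro x hx
      rw [mem_filter] at hx
      exact ⟨hx.2.unit, mem_univ _, rfl⟩
  rw [h5, card_univ, ZMod.card] at h4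
  have h6 : (univ.filter (fun x : ZMod (p ^ 2) => ¬ IsUnit x)).card = p := by
    have h7 : p * (p - 1) + p = p ^ 2 := by
      obtain ⟨m, hm⟩ := Nat.exists_eq_succ_of_ne_zero hp.out.ne_zero
      rw [hm]
      simp
      ring
    omega
  rw [h6]

lemma SF_bound (h : ZMod (p ^ 2)) (k : ℕ) (hk : k < p) (h0 : h ≠ 0 ∨ k ≠ 0) : ‖SF h k‖ ≤ p := by
  by_cases hu : IsUnit h
  · obtain ⟨u, rfl⟩ := hu
    exact SF_unit u k
  · have h1 : ∃ a : ZMod (p ^ 2), h = (p : ZMod (p ^ 2)) * a := by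
      have h2 : p ∣ h.val := by
        by_contra h3
        apply hu
        have h4 : Nat.Coprime h.val (p ^ 2) :=
          (((Nat.Prime.coprime_iff_not_dvd hp.out).2 h3).symm).pow_right 2
        have h5 := (ZMod.isUnit_iff_coprime h.val (p ^ 2)).2 h4
        rwa [ZMod.natCast_zmod_val] at h5
      obtain ⟨c, hc⟩ := h2
      refine ⟨c, ?_⟩
      have h3 : ((h.val : ℕ) : ZMod (p ^ 2)) = h := ZMod.natCast_zmod_val h
      rw [← h3, hc]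
      push_cast
      ring
    obtain ⟨a, rfl⟩ := h1
    by_cases hk0 : k = 0
    · subst hk0
      exact SF_zero a (by tauto)
    · rw [SF_nonunit a k hk hk0, norm_zero]
      positivity

/-- the sum over the points of the graph of the Fermat quotient -/
lemma fq_sum (h k : ℕ) (hh : h < p ^ 2) (hk : k < p) (h0 : h ≠ 0 ∨ k ≠ 0) :
    ‖∑ u : (ZMod (p ^ 2))ˣ, e ((h : ℝ) * ((u : ZMod (p ^ 2)).val : ℕ) / ((p ^ 2 : ℕ) : ℝ)) *
      e ((k : ℝ) * (fq p (u : ZMod (p ^ 2)).val : ℕ) / p)‖ ≤ p := by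
  have hpr : (p : ℝ) ≠ 0 := by exact_mod_cast hp.out.ne_zero
  have hpc : (p : ℂ) ≠ 0 := by exact_mod_cast hp.out.ne_zero
  have hcast : ∀ m : ℕ, e ((m : ℝ) / ((p ^ 2 : ℕ) : ℝ)) = (ZMod.stdAddChar (m : ZMod (p ^ 2)) : ℂ) := by
    intro m
    have h1 : (m : ZMod (p ^ 2)) = ((m : ℤ) : ZMod (p ^ 2)) := by push_cast; rfl
    rw [h1, ZMod.stdAddChar_coe]
    unfold e
    congr 1
    push_cast
    field_simp
  have h1 : ∀ u : (ZMod (p ^ 2))ˣ, e ((h : ℝ) * ((u : ZMod (p ^ 2)).val : ℕ) / ((p ^ 2 : ℕ) : ℝ)) *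
      e ((k : ℝ) * (fq p (u : ZMod (p ^ 2)).val : ℕ) / p) =
      (ZMod.stdAddChar ((h : ZMod (p ^ 2)) * (u : ZMod (p ^ 2))) : ℂ) * (ZMod.stdAddChar ((k : ZMod (p ^ 2)) * pw u) : ℂ) := by
    intro u
    congr 1
    · have h2 := hcast (h * (u : ZMod (p ^ 2)).val)
      rw [Nat.cast_mul, Nat.cast_mul, ZMod.natCast_zmod_val] at h2
      exact h2
    · obtain ⟨c, hc⟩ := dvd_val u
      have h2 : fq p (u : ZMod (p ^ 2)).val = c % p := by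
        unfold fq
        rw [hc, Nat.mul_div_cancel_left _ hp.out.pos]
      have h3 := hcast (k * (p * c))
      rw [h2, val_pw, hc]
      have h4 : (k : ZMod (p ^ 2)) * ((p * c : ℕ) : ZMod (p ^ 2)) = ((k * (p * c) : ℕ) : ZMod (p ^ 2)) := by
        push_cast
        ring
      rw [h4, ← h3]
      have h5 : ∀ q r : ℕ, c = p * q + r → ((k * (p * c) : ℕ) : ℝ) / ((p ^ 2 : ℕ) : ℝ) =
          (k : ℝ) * (r : ℕ) / p + (((k * q : ℕ) : ℤ) : ℝ) := by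
        intro q r hqr
        rw [hqr]
        push_cast
        field_simp
        ring
      rw [h5 (c / p) (c % p) (Nat.div_add_mod c p).symm, e_add, e_int, mul_one]
  rw [sum_congr rfl fun u _ => h1 u]
  refine SF_bound (h : ZMod (p ^ 2)) k hk ?_
  rcases h0 with h0 | h0
  · left
    intro h2
    rw [ZMod.natCast_eq_zero_iff] at h2
    exact absurd (Nat.le_of_dvd (by omega) h2) (by omega)
  · right
    exact h0

end chars

/-- **Fermat quotients** -/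
theorem fermat_quotients (ε : ℝ) (hε : 0 < ε) (hε1 : ε ≤ 1) : ∃ κ : ℝ, 0 < κ ∧ ∃ p₀ : ℕ, ∀ p : ℕ, p₀ ≤ p →
    p.Prime → ∀ A1 N1 A2 N2 : ℕ, A1 + N1 ≤ p ^ 2 → A2 + N2 ≤ p → (p : ℝ) ^ (2 + ε) ≤ (N1 : ℝ) * N2 →
      ∃ G : Finset ℕ, (N1 : ℝ) * N2 / p * (p : ℝ) ^ (-ε) ≤ G.card ∧
        ∀ n ∈ G, (A1 ≤ n ∧ n < A1 + N1) ∧ ¬ p ∣ n ∧ (A2 ≤ fq p n ∧ fq p n < A2 + N2) ∧
          (∀ q : ℕ, q.Prime → κ * ff ((p : ℝ) ^ 2) < |(q : ℝ) - n|) ∧
          ∀ q : ℕ, q.Prime → κ * ff ((p : ℝ) ^ 2) < |(q : ℝ) - fq p n| := by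
  classical
  obtain ⟨κ, hκ, hg⟩ := graph (ε / 4) (by positivity) (by linarith)
  have e0 : Tendsto (fun p : ℕ => (p : ℝ) ^ 2) atTop atTop :=
    (tendsto_pow_atTop (by norm_num)).comp tendsto_natCast_atTop_atTop
  have e1 := e0.eventually hg
  have e2 := (tendsto_natCast_atTop_atTop (R := ℝ)).eventually
    ((tendsto_rpow_atTop (show (0 : ℝ) < ε / 2 by positivity)).eventually_ge_atTop 2)
  obtain ⟨p₀, hp₀⟩ := (e1.and (e2.and (eventually_ge_atTop 2))).exists_forall_of_atTop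
  refine ⟨κ, hκ, p₀, ?_⟩
  intro p hp0 hp A1 N1 A2 N2 hA1 hA2 hN
  obtain ⟨g1, g2, g3⟩ := hp₀ p hp0
  have : Fact p.Prime := ⟨hp⟩
  have : NeZero (p ^ 2) := NZ
  have hpr : (2 : ℝ) ≤ p := by exact_mod_cast g3
  have hp0' : (0 : ℝ) < p := by linarith
  have hN1p : (N1 : ℝ) ≤ (p : ℝ) ^ 2 := by exact_mod_cast (by omega : N1 ≤ p ^ 2)
  have hN2p : (N2 : ℝ) ≤ p := by exact_mod_cast (by omega : N2 ≤ p)
  have hN10 : (0 : ℝ) ≤ N1 := Nat.cast_nonneg _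
  have hN20 : (0 : ℝ) ≤ N2 := Nat.cast_nonneg _
  have hmono : ∀ x y : ℝ, x ≤ y → (p : ℝ) ^ x ≤ (p : ℝ) ^ y := fun x y h =>
    Real.rpow_le_rpow_of_exponent_le (by linarith) h
  have hM : ((p : ℝ) ^ 2) ^ (ε / 4) = (p : ℝ) ^ (ε / 2) := by
    rw [← Real.rpow_natCast, ← Real.rpow_mul hp0'.le]
    congr 1
    push_cast
    ring
  have hM' : ((p : ℝ) ^ 2) ^ (-(ε / 4)) = (p : ℝ) ^ (-(ε / 2)) := by
    rw [← Real.rpow_natCast, ← Real.rpow_mul hp0'.le]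
    congr 1
    push_cast
    ring
  have hsplit : (p : ℝ) ^ (2 + ε) = (p : ℝ) ^ 2 * (p : ℝ) ^ ε := by
    rw [Real.rpow_add hp0', Real.rpow_two]
  have hN2 : (p : ℝ) ^ ε ≤ N2 := by
    rw [hsplit] at hN
    have h1 : (N1 : ℝ) * N2 ≤ (p : ℝ) ^ 2 * N2 := mul_le_mul_of_nonneg_right hN1p hN20
    exact le_of_mul_le_mul_left (hN.trans h1) (by positivity)
  have hN1 : (p : ℝ) ^ ε ≤ N1 := by
    rw [hsplit] at hN
    have h1 : (N1 : ℝ) * N2 ≤ N1 * p := mul_le_mul_of_nonneg_left hN2p hN10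
    have h2 : (p : ℝ) * (p : ℝ) ^ ε * p ≤ N1 * p := by
      refine le_trans (le_of_eq ?_) (hN.trans h1)
      ring
    have h3 := le_of_mul_le_mul_right h2 hp0'
    have h4 : 0 ≤ (p : ℝ) ^ ε := by positivity
    nlinarith
  have hcardU : ((univ : Finset (ZMod (p ^ 2))ˣ).card : ℝ) = (p : ℝ) * (p - 1) := by
    rw [card_univ, card_u]
    push_cast [Nat.cast_sub hp.one_lt.le]
    ring
  have hW : (N1 : ℝ) * N2 / (2 * p) ≤
      (N1 : ℝ) * N2 * (univ : Finset (ZMod (p ^ 2))ˣ).card / (((p ^ 2 : ℕ) : ℝ) * p) := by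
    rw [hcardU, div_le_div_iff₀ (by positivity) (by positivity)]
    have h1 : (p : ℝ) ≤ 2 * (p - 1) := by linarith
    have h2 : 0 ≤ (N1 : ℝ) * N2 * (p * p) := by positivity
    push_cast
    nlinarith
  have g2' : (2 : ℝ) * (p : ℝ) ^ (ε / 2) ≤ (p : ℝ) ^ ε := by
    have : (p : ℝ) ^ ε = (p : ℝ) ^ (ε / 2) * (p : ℝ) ^ (ε / 2) := by
      rw [← Real.rpow_add hp0']
      congr 1
      ring
    rw [this]
    exact mul_le_mul_of_nonneg_right g2 (by positivity)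
  have hBW : (p : ℝ) * ((p : ℝ) ^ 2) ^ (ε / 4) ≤
      (N1 : ℝ) * N2 * (univ : Finset (ZMod (p ^ 2))ˣ).card / (((p ^ 2 : ℕ) : ℝ) * p) := by
    refine le_trans ?_ hW
    rw [hM, le_div_iff₀ (by positivity)]
    rw [hsplit] at hN
    calc (p : ℝ) * (p : ℝ) ^ (ε / 2) * (2 * p) = (p : ℝ) ^ 2 * (2 * (p : ℝ) ^ (ε / 2)) := by ring
      _ ≤ (p : ℝ) ^ 2 * (p : ℝ) ^ ε := mul_le_mul_of_nonneg_left g2' (by positivity)
      _ ≤ _ := hN
  have hεε : (p : ℝ) ^ (ε / 2) ≤ (p : ℝ) ^ ε := hmono _ _ (by linarith)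
  have hpp2 : 1 ≤ p ^ 2 := Nat.one_le_pow _ _ hp.pos
  have hpp3 : ((p ^ 2 : ℕ) : ℝ) ≤ (p : ℝ) ^ 2 := by push_cast; exact le_rfl
  have hpp4 : (p : ℝ) ≤ (p : ℝ) ^ 2 := by nlinarith
  have k1 : ∀ u ∈ (univ : Finset (ZMod (p ^ 2))ˣ), (fun u : (ZMod (p ^ 2))ˣ => (u : ZMod (p ^ 2)).val) u < p ^ 2 :=
    fun u _ => ZMod.val_lt (u : ZMod (p ^ 2))
  have k2 : ∀ u ∈ (univ : Finset (ZMod (p ^ 2))ˣ), (fun u : (ZMod (p ^ 2))ˣ => fq p (u : ZMod (p ^ 2)).val) u < p :=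
    fun u _ => fq_lt p _ hp.pos
  have k3 : ∀ h < p ^ 2, ∀ k < p, (h ≠ 0 ∨ k ≠ 0) →
      ‖∑ u ∈ (univ : Finset (ZMod (p ^ 2))ˣ),
        e ((h : ℝ) * ((fun u : (ZMod (p ^ 2))ˣ => (u : ZMod (p ^ 2)).val) u : ℕ) / ((p ^ 2 : ℕ) : ℝ)) *
        e ((k : ℝ) * ((fun u : (ZMod (p ^ 2))ˣ => fq p (u : ZMod (p ^ 2)).val) u : ℕ) / p)‖ ≤ (p : ℝ) :=
    fun h hh k hk h0 => fq_sum h k hh hk h0
  have k4 : ((p : ℝ) ^ 2) ^ (ε / 4) ≤ N1 := by rw [hM]; exact hεε.trans hN1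
  have k5 : ((p : ℝ) ^ 2) ^ (ε / 4) ≤ N2 := by rw [hM]; exact hεε.trans hN2
  have q1 := g1 (p ^ 2) p hpp2 hp.one_lt.le hpp3 hpp4
  have q2 := q1 (ZMod (p ^ 2))ˣ univ (fun u : (ZMod (p ^ 2))ˣ => (u : ZMod (p ^ 2)).val)
    (fun u : (ZMod (p ^ 2))ˣ => fq p (u : ZMod (p ^ 2)).val)
  have q3 := q2 k1
  have q4 := q3 k2 (p : ℝ) hp0'.le
  have q5 := q4 k3
  have q6 := q5 A1 N1 A2 N2 hA1 hA2 k4 k5
  have key := q6 hBW
  set G0 := good (κ * ff ((p : ℝ) ^ 2)) (univ : Finset (ZMod (p ^ 2))ˣ) (fun u => (u : ZMod (p ^ 2)).val)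
    (fun u => fq p (u : ZMod (p ^ 2)).val) A1 N1 A2 N2 with hG0
  refine ⟨G0.image (fun u : (ZMod (p ^ 2))ˣ => (u : ZMod (p ^ 2)).val), ?_, ?_⟩
  · rw [card_image_of_injective]
    · refine le_trans ?_ key
      rw [hM']
      have h1 : (p : ℝ) ^ (-ε) * 2 ≤ (p : ℝ) ^ (-(ε / 2)) := by
        have : (p : ℝ) ^ (-(ε / 2)) = (p : ℝ) ^ (-ε) * (p : ℝ) ^ (ε / 2) := by
          rw [← Real.rpow_add hp0']
          congr 1
          ring
        rw [this]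
        exact mul_le_mul_of_nonneg_left g2 (by positivity)
      calc (N1 : ℝ) * N2 / p * (p : ℝ) ^ (-ε) = (N1 : ℝ) * N2 / (2 * p) * ((p : ℝ) ^ (-ε) * 2) := by
            field_simp
        _ ≤ _ := mul_le_mul hW h1 (by positivity) (by positivity)
    · intro u v huv
      exact Units.ext (ZMod.val_injective (p ^ 2) huv)
  · intro n hn
    obtain ⟨u, hu, rfl⟩ := mem_image.1 hn
    rw [hG0] at hu
    unfold good at hu
    rw [mem_filter, mem_Ico, mem_Ico] at hu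
    obtain ⟨-, h1, h2, h3, h4⟩ := hu
    exact ⟨h1, cop u, h2, h3, h4⟩

end Pool.Agent.Q46.MH
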