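import Pool.Agent.Q46.MH.Mord

set_option autoImplicit false

/-! # A residue, its inverse and its discrete logarithm -/

namespace Pool.Agent.Q46.MH

open Finset Filter
open Pool.Agent.H469R2.NK (e norm_e e_add)
open Pool.Agent.TH915.PW (e_int sum_char)
open Pool.Agent.W147.PS (ff ff_compare ev_pow)

section moment

variable {p : ℕ} [Fact p.Prime]

/-- the general moment bound -/
lemma moment_gen (T r k : ℕ) (v : ℕ → Fin r → ZMod p) (w : ℕ → ℂ) (hw : ∀ n, ‖w n‖ = 1) (Q : ℝ)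
    (hQ : ∑ n ∈ Fintype.piFinset (fun _ : Fin k => range T),
      (((Fintype.piFinset (fun _ : Fin k => range T)).filter (fun m => ∑ i, v (n i) = ∑ i, v (m i))).card : ℝ) ≤ Q) :
    ∑ b : Fin r → ZMod p, ‖∑ n ∈ range T, w n * (ZMod.stdAddChar (b ⬝ᵥ v n) : ℂ)‖ ^ (2 * k) ≤ (p : ℝ) ^ r * Q := by
  classical
  set P := Fintype.piFinset (fun _ : Fin k => range T) with hP
  set S : (Fin r → ZMod p) → ℂ := fun b => ∑ n ∈ range T, w n * (ZMod.stdAddChar (b ⬝ᵥ v n) : ℂ) with hS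
  have hpow : ∀ b, S b ^ k = ∑ n ∈ P, (∏ i, w (n i)) * (ZMod.stdAddChar (b ⬝ᵥ ∑ i, v (n i)) : ℂ) := by
    intro b
    have h1 : S b ^ k = ∏ _i : Fin k, S b := by
      rw [prod_const, card_univ, Fintype.card_fin]
    rw [h1, hS]
    simp only
    rw [prod_univ_sum]
    refine sum_congr rfl fun n _ => ?_
    rw [prod_mul_distrib, ← char_sum, dotProduct_sum]
  have hwn : ∀ n : Fin k → ℕ, ‖∏ i, w (n i)‖ = 1 := by
    intro n
    rw [norm_prod]
    exact prod_eq_one fun i _ => hw _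
  have h1 : ∀ b : Fin r → ZMod p, ((‖S b‖ ^ (2 * k) : ℝ) : ℂ) =
      ∑ n ∈ P, ∑ m ∈ P, ((∏ i, w (n i)) * (starRingEnd ℂ) (∏ i, w (m i))) *
        (ZMod.stdAddChar (b ⬝ᵥ (∑ i, v (n i) - ∑ i, v (m i))) : ℂ) := by
    intro b
    have h2 : ((‖S b‖ ^ (2 * k) : ℝ) : ℂ) = S b ^ k * (starRingEnd ℂ) (S b ^ k) := by
      rw [Complex.mul_conj, Complex.normSq_eq_norm_sq, norm_pow]
      push_cast
      ring
    rw [h2, hpow, map_sum, sum_mul_sum]
    refine sum_congr rfl fun n _ => sum_congr rfl fun m _ => ?_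
    rw [map_mul (starRingEnd ℂ), conj_char, dotProduct_sub, sub_eq_add_neg, AddChar.map_add_eq_mul]
    ring
  have h2 : ((∑ b : Fin r → ZMod p, ‖S b‖ ^ (2 * k) : ℝ) : ℂ) =
      ∑ n ∈ P, ∑ m ∈ P, ((∏ i, w (n i)) * (starRingEnd ℂ) (∏ i, w (m i))) *
        (if ∑ i, v (n i) - ∑ i, v (m i) = 0 then (p : ℂ) ^ r else 0) := by
    rw [Complex.ofReal_sum, sum_congr rfl fun b _ => h1 b, sum_comm]
    refine sum_congr rfl fun n _ => ?_
    rw [sum_comm]
    refine sum_congr rfl fun m _ => ?_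
    rw [← mul_sum, sum_dot1]
  have h3 : ∑ b : Fin r → ZMod p, ‖S b‖ ^ (2 * k) ≤
      ∑ n ∈ P, ∑ m ∈ P, (if ∑ i, v (n i) = ∑ i, v (m i) then (p : ℝ) ^ r else 0) := by
    have g1 : ∑ b : Fin r → ZMod p, ‖S b‖ ^ (2 * k) =
        ‖((∑ b : Fin r → ZMod p, ‖S b‖ ^ (2 * k) : ℝ) : ℂ)‖ := by
      rw [Complex.norm_real, Real.norm_eq_abs, abs_of_nonneg]
      exact sum_nonneg fun _ _ => by positivity
    rw [g1, h2]
    refine (norm_sum_le _ _).trans (sum_le_sum fun n _ => ?_)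
    refine (norm_sum_le _ _).trans (sum_le_sum fun m _ => ?_)
    rw [norm_mul, norm_mul, RCLike.norm_conj, hwn, hwn, one_mul, one_mul]
    simp only [sub_eq_zero]
    split_ifs
    · rw [norm_pow, Complex.norm_natCast]
    · simp
  refine h3.trans ?_
  have h4 : ∀ n ∈ P, ∑ m ∈ P, (if ∑ i, v (n i) = ∑ i, v (m i) then (p : ℝ) ^ r else 0) =
      (p : ℝ) ^ r * ((P.filter (fun m => ∑ i, v (n i) = ∑ i, v (m i))).card : ℝ) := by
    intro n _
    rw [← sum_filter, sum_const, nsmul_eq_mul, mul_comm]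
  rw [sum_congr rfl h4, ← mul_sum]
  exact mul_le_mul_of_nonneg_left hQ (by positivity)

/-- the vectors `(g^n, g^(-n))` -/
def iv (g : (ZMod p)ˣ) (n : ℕ) : Fin 2 → ZMod p :=
  ![((g ^ n : (ZMod p)ˣ) : ZMod p), (((g ^ n)⁻¹ : (ZMod p)ˣ) : ZMod p)]

lemma pow_inj {g : (ZMod p)ˣ} {a b : ℕ} (ha : a < orderOf g) (hb : b < orderOf g)
    (h : ((g ^ a : (ZMod p)ˣ) : ZMod p) = ((g ^ b : (ZMod p)ˣ) : ZMod p)) : a = b :=
  pow_injOn_Iio_orderOf ha hb (Units.ext h)

/-- the count -/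
lemma iv_count (g : (ZMod p)ˣ) :
    ∑ n ∈ Fintype.piFinset (fun _ : Fin 2 => range (orderOf g)),
      (((Fintype.piFinset (fun _ : Fin 2 => range (orderOf g))).filter
        (fun m => ∑ i, iv g (n i) = ∑ i, iv g (m i))).card : ℝ) ≤ 3 * ((orderOf g : ℕ) : ℝ) ^ 2 := by
  classical
  set T := orderOf g with hT
  have hT0 : 0 < T := ord_pos g
  have hT1 : (1 : ℝ) ≤ T := by exact_mod_cast hT0
  set P := Fintype.piFinset (fun _ : Fin 2 => range T) with hP
  have hmem : ∀ n ∈ P, n 0 < T ∧ n 1 < T := by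
    intro n hn
    rw [hP, Fintype.mem_piFinset] at hn
    exact ⟨mem_range.1 (hn 0), mem_range.1 (hn 1)⟩
  have hPc : (P.card : ℝ) = (T : ℝ) ^ 2 := by
    rw [hP, Fintype.card_piFinset]
    simp
  set X : (Fin 2 → ℕ) → ZMod p := fun n => ((g ^ n 0 : (ZMod p)ˣ) : ZMod p) + ((g ^ n 1 : (ZMod p)ˣ) : ZMod p) with hX
  have heq : ∀ n m : Fin 2 → ℕ, ∑ i, iv g (n i) = ∑ i, iv g (m i) → X n = X m ∧
      (((g ^ n 0)⁻¹ : (ZMod p)ˣ) : ZMod p) + (((g ^ n 1)⁻¹ : (ZMod p)ˣ) : ZMod p) =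
        (((g ^ m 0)⁻¹ : (ZMod p)ˣ) : ZMod p) + (((g ^ m 1)⁻¹ : (ZMod p)ˣ) : ZMod p) := by
    intro n m h
    have h0 := congrFun h 0
    have h1 := congrFun h 1
    rw [Fin.sum_univ_two, Fin.sum_univ_two] at h0 h1
    exact ⟨h0, h1⟩
  -- the fibre over `n` with `X n ≠ 0`
  have hA : ∀ n ∈ P, X n ≠ 0 →
      (((P.filter (fun m => ∑ i, iv g (n i) = ∑ i, iv g (m i))).card : ℕ) : ℝ) ≤ 2 := by
    intro n hn hXn
    have h1 : P.filter (fun m => ∑ i, iv g (n i) = ∑ i, iv g (m i)) ⊆ {n, ![n 1, n 0]} := by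
      intro m hm
      rw [mem_filter] at hm
      obtain ⟨h2, h3⟩ := heq n m hm.2
      obtain ⟨hn0, hn1⟩ := hmem n hn
      obtain ⟨hm0, hm1⟩ := hmem m hm.1
      have hx1 := (g ^ n 0).ne_zero
      have hx2 := (g ^ n 1).ne_zero
      have hy1 := (g ^ m 0).ne_zero
      have hy2 := (g ^ m 1).ne_zero
      rw [Units.val_inv_eq_inv_val, Units.val_inv_eq_inv_val, Units.val_inv_eq_inv_val,
        Units.val_inv_eq_inv_val] at h3
      simp only [hX] at h2 hXn
      have hinj0 : ∀ {a b : ℕ}, a < T → b < T → ((g ^ a : (ZMod p)ˣ) : ZMod p) = ((g ^ b : (ZMod p)ˣ) : ZMod p) → a = b :=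
        fun ha hb h => pow_inj ha hb h
      have e1 := @hinj0 (m 0) (n 0) hm0 hn0
      have e2 := @hinj0 (m 1) (n 1) hm1 hn1
      have e3 := @hinj0 (m 0) (n 1) hm0 hn1
      have e4 := @hinj0 (m 1) (n 0) hm1 hn0
      generalize ((g ^ n 0 : (ZMod p)ˣ) : ZMod p) = x1 at *
      generalize ((g ^ n 1 : (ZMod p)ˣ) : ZMod p) = x2 at *
      generalize ((g ^ m 0 : (ZMod p)ˣ) : ZMod p) = y1 at *
      generalize ((g ^ m 1 : (ZMod p)ˣ) : ZMod p) = y2 at *
      have h4 : (x1 + x2) * (y1 * y2) = (x1 + x2) * (x1 * x2) := by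
        have h5 : x1⁻¹ + x2⁻¹ = (x1 + x2) / (x1 * x2) := by
          field_simp
          ring
        have h6 : y1⁻¹ + y2⁻¹ = (y1 + y2) / (y1 * y2) := by
          field_simp
          ring
        rw [h5, h6, ← h2, div_eq_div_iff (mul_ne_zero hx1 hx2) (mul_ne_zero hy1 hy2)] at h3
        exact h3
      have h5 : y1 * y2 = x1 * x2 := mul_left_cancel₀ hXn h4
      have h6 : (y1 - x1) * (y1 - x2) = 0 := by
        have h7 : y2 = x1 + x2 - y1 := by rw [h2]; ring
        rw [h7] at h5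
        linear_combination -h5
      rw [mem_insert, mem_singleton]
      rcases mul_eq_zero.1 h6 with h7 | h7
      · left
        have h8 : y1 = x1 := sub_eq_zero.1 h7
        have h9 : y2 = x2 := by
          have : y2 = x1 + x2 - y1 := by rw [h2]; ring
          rw [this, h8]
          ring
        funext i
        fin_cases i
        · exact e1 h8
        · exact e2 h9
      · right
        have h8 : y1 = x2 := sub_eq_zero.1 h7
        have h9 : y2 = x1 := by
          have : y2 = x1 + x2 - y1 := by rw [h2]; ring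
          rw [this, h8]
          ring
        funext i
        fin_cases i
        · exact e3 h8
        · exact e4 h9
    have h2 := (card_le_card h1).trans card_le_two
    exact_mod_cast h2
  -- the fibre over `n` with `X n = 0`
  have hB : ∀ n ∈ P, X n = 0 →
      (((P.filter (fun m => ∑ i, iv g (n i) = ∑ i, iv g (m i))).card : ℕ) : ℝ) ≤ T := by
    intro n _ hXn
    have h1 : ((P.filter (fun m => ∑ i, iv g (n i) = ∑ i, iv g (m i))).image (fun m => m 0)).card =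
        (P.filter (fun m => ∑ i, iv g (n i) = ∑ i, iv g (m i))).card := by
      apply card_image_of_injOn
      intro m hm m' hm' hmm
      rw [mem_coe, mem_filter] at hm hm'
      have h2 := (heq n m hm.2).1
      have h3 := (heq n m' hm'.2).1
      rw [hXn] at h2 h3
      simp only [hX] at h2 h3
      simp only at hmm
      rw [← hmm] at h3
      have h4 : ((g ^ m 1 : (ZMod p)ˣ) : ZMod p) = ((g ^ m' 1 : (ZMod p)ˣ) : ZMod p) := by
        have := h2.symm.trans h3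
        exact add_left_cancel this
      funext i
      fin_cases i
      · exact hmm
      · exact pow_inj (hmem m hm.1).2 (hmem m' hm'.1).2 h4
    rw [← h1]
    have h2 : (P.filter (fun m => ∑ i, iv g (n i) = ∑ i, iv g (m i))).image (fun m => m 0) ⊆ range T := by
      intro x hx
      obtain ⟨m, hm, rfl⟩ := mem_image.1 hx
      exact mem_range.2 (hmem m (mem_filter.1 hm).1).1
    have h3 := card_le_card h2
    rw [card_range] at h3
    exact_mod_cast h3
  have hC : ((P.filter (fun n => X n = 0)).card : ℝ) ≤ T := by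
    have h1 : ((P.filter (fun n => X n = 0)).image (fun m => m 0)).card = (P.filter (fun n => X n = 0)).card := by
      apply card_image_of_injOn
      intro m hm m' hm' hmm
      rw [mem_coe, mem_filter] at hm hm'
      have h2 := hm.2
      have h3 := hm'.2
      simp only [hX] at h2 h3
      simp only at hmm
      rw [← hmm] at h3
      have h4 : ((g ^ m 1 : (ZMod p)ˣ) : ZMod p) = ((g ^ m' 1 : (ZMod p)ˣ) : ZMod p) :=
        add_left_cancel (h2.trans h3.symm)
      funext i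
      fin_cases i
      · exact hmm
      · exact pow_inj (hmem m hm.1).2 (hmem m' hm'.1).2 h4
    rw [← h1]
    have h2 : (P.filter (fun n => X n = 0)).image (fun m => m 0) ⊆ range T := by
      intro x hx
      obtain ⟨m, hm, rfl⟩ := mem_image.1 hx
      exact mem_range.2 (hmem m (mem_filter.1 hm).1).1
    have h3 := card_le_card h2
    rw [card_range] at h3
    exact_mod_cast h3
  calc _ ≤ ∑ n ∈ P, ((2 : ℝ) + if X n = 0 then (T : ℝ) else 0) := by
        refine sum_le_sum fun n hn => ?_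
        split_ifs with h
        · have := hB n hn h
          linarith
        · have := hA n hn h
          linarith
    _ = 2 * P.card + (P.filter (fun n => X n = 0)).card * T := by
        rw [sum_add_distrib, sum_const, nsmul_eq_mul, ← sum_filter, sum_const, nsmul_eq_mul]
        ring
    _ ≤ 2 * (T : ℝ) ^ 2 + T * T := by
        rw [hPc]
        have := mul_le_mul_of_nonneg_right hC (show (0 : ℝ) ≤ T by linarith)
        linarith
    _ = _ := by ring

/-- the sums -/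
noncomputable def KS (g : (ZMod p)ˣ) (h : ℕ) (b : Fin 2 → ZMod p) : ℂ :=
  ∑ n ∈ range (orderOf g), e ((h : ℝ) * n / (orderOf g : ℕ)) * (ZMod.stdAddChar (b ⬝ᵥ iv g n) : ℂ)

/-- the action -/
def act (g : (ZMod p)ˣ) (b : Fin 2 → ZMod p) (k : ℕ) : Fin 2 → ZMod p :=
  ![b 0 * ((g ^ k : (ZMod p)ˣ) : ZMod p), b 1 * (((g ^ k)⁻¹ : (ZMod p)ˣ) : ZMod p)]

lemma dot_iv (g : (ZMod p)ˣ) (b : Fin 2 → ZMod p) (n : ℕ) :
    b ⬝ᵥ iv g n = b 0 * ((g ^ n : (ZMod p)ˣ) : ZMod p) + b 1 * (((g ^ n)⁻¹ : (ZMod p)ˣ) : ZMod p) := by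
  unfold dotProduct iv
  rw [Fin.sum_univ_two]
  rfl

lemma KS_act (g : (ZMod p)ˣ) (h : ℕ) (b : Fin 2 → ZMod p) (k : ℕ) : ‖KS g h (act g b k)‖ = ‖KS g h b‖ := by
  induction k with
  | zero =>
    have : act g b 0 = b := by
      funext i
      fin_cases i <;> simp [act]
    rw [this]
  | succ k ih =>
    rw [← ih]
    set c := act g b k with hc
    set T := orderOf g with hT
    have hT0 : 0 < T := ord_pos g
    have hTr : (T : ℝ) ≠ 0 := by exact_mod_cast hT0.ne'
    set F : ℕ → ℂ := fun n => e ((h : ℝ) * n / T) * (ZMod.stdAddChar (c ⬝ᵥ iv g n) : ℂ) with hF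
    have h1 : e ((h : ℝ) / T) * KS g h (act g b (k + 1)) = ∑ n ∈ range T, F (n + 1) := by
      unfold KS
      rw [← hT, mul_sum]
      refine sum_congr rfl fun n _ => ?_
      rw [← mul_assoc, ← e_add, hF]
      congr 1
      · congr 1
        push_cast
        ring
      · congr 1
        rw [dot_iv, dot_iv, hc]
        simp only [act, Matrix.cons_val_zero, Matrix.cons_val_one]
        have a1 : ((g ^ (k + 1) : (ZMod p)ˣ) : ZMod p) * ((g ^ n : (ZMod p)ˣ) : ZMod p) =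
            ((g ^ k : (ZMod p)ˣ) : ZMod p) * ((g ^ (n + 1) : (ZMod p)ˣ) : ZMod p) := by
          rw [← Units.val_mul, ← Units.val_mul, ← pow_add, ← pow_add]
          congr 2
          ring
        have a2 : (((g ^ (k + 1))⁻¹ : (ZMod p)ˣ) : ZMod p) * (((g ^ n)⁻¹ : (ZMod p)ˣ) : ZMod p) =
            (((g ^ k)⁻¹ : (ZMod p)ˣ) : ZMod p) * (((g ^ (n + 1))⁻¹ : (ZMod p)ˣ) : ZMod p) := by
          rw [← Units.val_mul, ← Units.val_mul, ← mul_inv, ← mul_inv, ← pow_add, ← pow_add]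
          congr 3
          ring
        rw [mul_assoc, a1, mul_assoc, a2]
        ring
    have h2 : ∑ n ∈ range T, F (n + 1) = ∑ n ∈ range T, F n := by
      have h3 := sum_range_succ' F T
      have h4 := sum_range_succ F T
      have h5 : F T = F 0 := by
        simp only [hF]
        have e1 : e ((h : ℝ) * T / T) = 1 := by
          have : (h : ℝ) * T / T = ((h : ℤ) : ℝ) := by
            push_cast
            field_simp
          rw [this, e_int]
        have e2 : e ((h : ℝ) * ((0 : ℕ) : ℝ) / T) = 1 := by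
          have : (h : ℝ) * ((0 : ℕ) : ℝ) / T = ((0 : ℤ) : ℝ) := by simp
          rw [this, e_int]
        rw [e1, e2, dot_iv, dot_iv, hT, pow_orderOf_eq_one, pow_zero]
      rw [h3, h5] at h4
      exact add_right_cancel h4
    have h3 : e ((h : ℝ) / T) * KS g h (act g b (k + 1)) = KS g h c := by
      rw [h1, h2]
      rfl
    rw [← h3, norm_mul, norm_e, one_mul]

lemma KS_bound (g : (ZMod p)ˣ) (h : ℕ) (b : Fin 2 → ZMod p) (hb : b ≠ 0) :
    ‖KS g h b‖ ^ 4 ≤ 3 * (p : ℝ) ^ 2 * ((orderOf g : ℕ) : ℝ) := by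
  classical
  have hT0 : (0 : ℝ) < (orderOf g : ℕ) := by exact_mod_cast ord_pos g
  have h1 := moment_gen (orderOf g) 2 2 (iv g) (fun n => e ((h : ℝ) * n / (orderOf g : ℕ))) (fun n => norm_e _)
    _ (iv_count g)
  have h2 : ((orderOf g : ℕ) : ℝ) * ‖KS g h b‖ ^ 4 ≤ ∑ c : Fin 2 → ZMod p, ‖KS g h c‖ ^ (2 * 2) := by
    have h3 : ((orderOf g : ℕ) : ℝ) * ‖KS g h b‖ ^ 4 =
        ∑ c ∈ (range (orderOf g)).image (act g b), ‖KS g h c‖ ^ (2 * 2) := by
      rw [sum_image]
      · rw [sum_congr rfl (fun j _ => by rw [KS_act] : ∀ j ∈ range (orderOf g),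
          ‖KS g h (act g b j)‖ ^ (2 * 2) = ‖KS g h b‖ ^ (2 * 2)), sum_const, card_range, nsmul_eq_mul]
      · intro i hi j hj hij
        rw [mem_coe, mem_range] at hi hj
        have h0 := congrFun hij 0
        have h1 := congrFun hij 1
        simp only [act, Matrix.cons_val_zero, Matrix.cons_val_one] at h0 h1
        by_cases hb0 : b 0 = 0
        · have hb1 : b 1 ≠ 0 := by
            intro hb1
            apply hb
            funext l
            fin_cases l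
            · exact hb0
            · exact hb1
          have h4 := mul_left_cancel₀ hb1 h1
          rw [Units.val_inv_eq_inv_val, Units.val_inv_eq_inv_val, inv_inj] at h4
          exact pow_inj hi hj h4
        · exact pow_inj hi hj (mul_left_cancel₀ hb0 h0)
    rw [h3]
    exact sum_le_sum_of_subset_of_nonneg (subset_univ _) (fun _ _ _ => by positivity)
  have h3 : ((orderOf g : ℕ) : ℝ) * ‖KS g h b‖ ^ 4 ≤
      ((orderOf g : ℕ) : ℝ) * (3 * (p : ℝ) ^ 2 * ((orderOf g : ℕ) : ℝ)) := by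
    refine h2.trans (h1.trans (le_of_eq ?_))
    ring
  exact le_of_mul_le_mul_left h3 hT0

end moment

/-- **a residue, its inverse and its logarithm** -/
theorem loginv (ε : ℝ) (hε : 0 < ε) (hε1 : ε ≤ 1) : ∃ κ : ℝ, 0 < κ ∧ ∃ p₀ : ℕ,
    ∀ p : ℕ, p₀ ≤ p → ∀ [Fact p.Prime], ∀ (g u v : (ZMod p)ˣ) (A N : Fin 3 → ℕ),
      A 0 + N 0 ≤ orderOf g → A 1 + N 1 ≤ p → A 2 + N 2 ≤ p → (∀ j, (p : ℝ) ^ ε ≤ N j) →
      (p : ℝ) ^ (10 + ε) * ((orderOf g : ℕ) : ℝ) ≤ ((N 0 : ℝ) * N 1 * N 2) ^ 4 →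
        ∃ G : Finset ℕ, (N 0 : ℝ) * N 1 * N 2 * (p : ℝ) ^ (-(2 + ε)) ≤ G.card ∧ ∀ n ∈ G,
          (A 0 ≤ n ∧ n < A 0 + N 0) ∧
          (A 1 ≤ ((u * g ^ n : (ZMod p)ˣ) : ZMod p).val ∧ ((u * g ^ n : (ZMod p)ˣ) : ZMod p).val < A 1 + N 1) ∧
          (A 2 ≤ ((v * (g ^ n)⁻¹ : (ZMod p)ˣ) : ZMod p).val ∧ ((v * (g ^ n)⁻¹ : (ZMod p)ˣ) : ZMod p).val < A 2 + N 2) ∧
          (∀ q : ℕ, q.Prime → κ * ff p < |(q : ℝ) - n|) ∧
          (∀ q : ℕ, q.Prime → κ * ff p < |(q : ℝ) - ((u * g ^ n : (ZMod p)ˣ) : ZMod p).val|) ∧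
          ∀ q : ℕ, q.Prime → κ * ff p < |(q : ℝ) - ((v * (g ^ n)⁻¹ : (ZMod p)ˣ) : ZMod p).val| := by
  classical
  obtain ⟨κ, hκ, hg⟩ := graphR 3 (by norm_num) (ε / 8) (by positivity) (by linarith)
  have e1 := (tendsto_natCast_atTop_atTop (R := ℝ)).eventually hg
  have e2 := (tendsto_natCast_atTop_atTop (R := ℝ)).eventually
    ((tendsto_rpow_atTop (show (0 : ℝ) < ε / 2 by positivity)).eventually_ge_atTop 3)
  obtain ⟨p₀, hp₀⟩ := (e1.and (e2.and (eventually_ge_atTop 2))).exists_forall_of_atTop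
  refine ⟨κ, hκ, p₀, ?_⟩
  intro p hp _ g u v A N hA0 hA1 hA2 hN hP
  obtain ⟨g1, g2, g3⟩ := hp₀ p hp
  have hpp : p.Prime := Fact.out
  have hpr : (2 : ℝ) ≤ p := by exact_mod_cast g3
  have hp0 : (0 : ℝ) < p := by linarith
  have hmono : ∀ x y : ℝ, x ≤ y → (p : ℝ) ^ x ≤ (p : ℝ) ^ y := fun x y h =>
    Real.rpow_le_rpow_of_exponent_le (by linarith) h
  have hT0 : 0 < orderOf g := ord_pos g
  have hTr : (0 : ℝ) < (orderOf g : ℕ) := by exact_mod_cast hT0
  have hTp : orderOf g ≤ p := by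
    have h1 : orderOf g ∣ Fintype.card (ZMod p)ˣ := orderOf_dvd_card
    rw [ZMod.card_units_eq_totient, Nat.totient_prime hpp] at h1
    exact (Nat.le_of_dvd (by omega) h1).trans (Nat.sub_le _ _)
  set x : ℕ → Fin 3 → ℕ := fun n => ![n, ((u * g ^ n : (ZMod p)ˣ) : ZMod p).val, ((v * (g ^ n)⁻¹ : (ZMod p)ˣ) : ZMod p).val] with hx
  have hx0 : ∀ n, x n 0 = n := fun n => rfl
  have hx1 : ∀ n, x n 1 = ((u * g ^ n : (ZMod p)ˣ) : ZMod p).val := fun n => rfl
  have hx2 : ∀ n, x n 2 = ((v * (g ^ n)⁻¹ : (ZMod p)ˣ) : ZMod p).val := fun n => rfl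
  set m : Fin 3 → ℕ := ![orderOf g, p, p] with hm
  have hm0 : m 0 = orderOf g := rfl
  have hm1 : m 1 = p := rfl
  have hm2 : m 2 = p := rfl
  have hprod : (∏ j, (N j : ℝ) / m j) * (range (orderOf g)).card = (N 0 : ℝ) * N 1 * N 2 / (p : ℝ) ^ 2 := by
    rw [Fin.prod_univ_three, card_range, hm0, hm1, hm2]
    field_simp
  have h3 : ∀ {P : Fin 3 → Prop}, P 0 → P 1 → P 2 → ∀ j, P j := by
    intro P h0 h1 h2 j
    fin_cases j
    · exact h0
    · exact h1
    · exact h2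
  set B : ℝ := (3 * (p : ℝ) ^ 2 * ((orderOf g : ℕ) : ℝ)) ^ (1 / 4 : ℝ) with hB
  have hB0 : 0 ≤ B := by positivity
  have hB4 : B ^ 4 = 3 * (p : ℝ) ^ 2 * ((orderOf g : ℕ) : ℝ) := by
    rw [hB, ← Real.rpow_natCast, ← Real.rpow_mul (by positivity)]
    norm_num
  have key := g1 m
    (h3 (by rw [hm0]; exact hT0) (by rw [hm1]; exact hpp.one_lt.le) (by rw [hm2]; exact hpp.one_lt.le))
    (h3 (by rw [hm0]; exact_mod_cast hTp) (by rw [hm1]) (by rw [hm2]))
    ℕ (range (orderOf g)) x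
    (fun n hn => h3 (by rw [hx0, hm0]; exact mem_range.1 hn) (by rw [hx1, hm1]; exact ZMod.val_lt _)
      (by rw [hx2, hm2]; exact ZMod.val_lt _))
    B hB0
    (by
      intro h hh h0
      have hterm : ∀ n ∈ range (orderOf g), ∏ j, e ((h j : ℝ) * x n j / m j) =
          e ((h 0 : ℝ) * n / (orderOf g : ℕ)) *
            (ZMod.stdAddChar ((![(h 1 : ZMod p) * (u : ZMod p), (h 2 : ZMod p) * (v : ZMod p)] : Fin 2 → ZMod p) ⬝ᵥ iv g n) : ℂ) := by
        intro n _
        rw [Fin.prod_univ_three, hx0, hx1, hx2, hm0, hm1, hm2, e_val, e_val, mul_assoc, ← AddChar.map_add_eq_mul, dot_iv]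
        congr 2
        simp only [Matrix.cons_val_zero, Matrix.cons_val_one, Units.val_mul]
        ring
      rw [sum_congr rfl hterm]
      by_cases hc : h 1 = 0 ∧ h 2 = 0
      · have h4 : h 0 ≠ 0 := by
          intro h4
          apply h0
          funext j
          exact h3 (P := fun j => h j = (0 : Fin 3 → ℕ) j) h4 hc.1 hc.2 j
        have h5 : ∀ n ∈ range (orderOf g), e ((h 0 : ℝ) * n / (orderOf g : ℕ)) *
            (ZMod.stdAddChar ((![(h 1 : ZMod p) * (u : ZMod p), (h 2 : ZMod p) * (v : ZMod p)] : Fin 2 → ZMod p) ⬝ᵥ iv g n) : ℂ) =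
            e (((h 0 : ℤ) : ℝ) * ((n : ℝ) / (orderOf g : ℕ))) := by
          intro n _
          rw [dot_iv, hc.1, hc.2]
          simp only [Matrix.cons_val_zero, Matrix.cons_val_one, Nat.cast_zero, zero_mul, add_zero,
            AddChar.map_zero_eq_one, mul_one]
          congr 1
          push_cast
          ring
        rw [sum_congr rfl h5, sum_char _ hT0, norm_zero]
        · exact hB0
        · intro hd
          have h6 := hh 0
          rw [hm0] at h6
          exact absurd (Int.le_of_dvd (by exact_mod_cast Nat.pos_of_ne_zero h4) hd) (by exact_mod_cast not_le.2 h6)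
      · have hb : (![(h 1 : ZMod p) * (u : ZMod p), (h 2 : ZMod p) * (v : ZMod p)] : Fin 2 → ZMod p) ≠ 0 := by
          intro hb
          apply hc
          have b0 := congrFun hb 0
          have b1 := congrFun hb 1
          simp only [Matrix.cons_val_zero, Matrix.cons_val_one, Pi.zero_apply] at b0 b1
          have c0 : (h 1 : ZMod p) = 0 := (mul_eq_zero.1 b0).resolve_right u.ne_zero
          have c1 : (h 2 : ZMod p) = 0 := (mul_eq_zero.1 b1).resolve_right v.ne_zero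
          rw [ZMod.natCast_eq_zero_iff] at c0 c1
          have d1 := hh 1
          have d2 := hh 2
          rw [hm1] at d1
          rw [hm2] at d2
          exact ⟨Nat.eq_zero_of_dvd_of_lt c0 d1, Nat.eq_zero_of_dvd_of_lt c1 d2⟩
        have h4 := KS_bound g (h 0) _ hb
        unfold KS at h4
        rw [← hB4] at h4
        exact (pow_le_pow_iff_left₀ (norm_nonneg _) hB0 (by norm_num)).1 h4)
    A N
    (h3 (by rw [hm0]; exact hA0) (by rw [hm1]; exact hA1) (by rw [hm2]; exact hA2))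
    (fun j => (hmono _ _ (by linarith)).trans (hN j))
    (by
      rw [hprod, le_div_iff₀ (by positivity)]
      have hN00 : (0 : ℝ) ≤ (N 0 : ℝ) * N 1 * N 2 := by positivity
      apply (pow_le_pow_iff_left₀ (by positivity) hN00 (show 4 ≠ 0 by norm_num)).1
      refine le_trans ?_ hP
      rw [mul_pow, mul_pow, hB4]
      have h1 : ((p : ℝ) ^ (ε / 8)) ^ 4 = (p : ℝ) ^ (ε / 2) := by
        rw [← Real.rpow_natCast, ← Real.rpow_mul hp0.le]
        congr 1
        push_cast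
        ring
      have h2 : (p : ℝ) ^ (10 + ε) = (p : ℝ) ^ 2 * ((p : ℝ) ^ 2) ^ 4 * ((p : ℝ) ^ (ε / 2) * (p : ℝ) ^ (ε / 2)) := by
        rw [← Real.rpow_add hp0, ← pow_mul, ← pow_add, ← Real.rpow_natCast (p : ℝ), ← Real.rpow_add hp0]
        congr 1
        push_cast
        ring
      rw [h1, h2]
      have hpe : 0 < (p : ℝ) ^ (ε / 2) := Real.rpow_pos_of_pos hp0 _
      calc 3 * (p : ℝ) ^ 2 * ((orderOf g : ℕ) : ℝ) * (p : ℝ) ^ (ε / 2) * ((p : ℝ) ^ 2) ^ 4 =
            ((p : ℝ) ^ 2 * ((p : ℝ) ^ 2) ^ 4 * (p : ℝ) ^ (ε / 2) * ((orderOf g : ℕ) : ℝ)) * 3 := by ring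
        _ ≤ ((p : ℝ) ^ 2 * ((p : ℝ) ^ 2) ^ 4 * (p : ℝ) ^ (ε / 2) * ((orderOf g : ℕ) : ℝ)) * (p : ℝ) ^ (ε / 2) :=
            mul_le_mul_of_nonneg_left g2 (by positivity)
        _ = _ := by ring)
  refine ⟨goodR (κ * ff p) (range (orderOf g)) x A N, ?_, ?_⟩
  · refine le_trans ?_ key
    rw [hprod]
    have h1 : (p : ℝ) ^ (-(2 + ε)) ≤ 1 / (p : ℝ) ^ 2 * (p : ℝ) ^ (-(ε / 8)) := by
      have h2 : (p : ℝ) ^ (-(2 + ε)) = 1 / (p : ℝ) ^ 2 * (p : ℝ) ^ (-ε) := by
        rw [neg_add, Real.rpow_add hp0, Real.rpow_neg hp0.le, Real.rpow_two, one_div]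
      rw [h2]
      apply mul_le_mul_of_nonneg_left _ (by positivity)
      exact hmono _ _ (by linarith)
    calc _ ≤ (N 0 : ℝ) * N 1 * N 2 * (1 / (p : ℝ) ^ 2 * (p : ℝ) ^ (-(ε / 8))) :=
          mul_le_mul_of_nonneg_left h1 (by positivity)
      _ = _ := by ring
  · intro n hn
    unfold goodR at hn
    rw [mem_filter] at hn
    have i0 := mem_Ico.1 (hn.2.1 0)
    have i1 := mem_Ico.1 (hn.2.1 1)
    have i2 := mem_Ico.1 (hn.2.1 2)
    exact ⟨i0, i1, i2, hn.2.2 0, hn.2.2 1, hn.2.2 2⟩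

end Pool.Agent.Q46.MH
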