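import Pool.Agent.Q46.MH.Additive
import Pool.Agent.Q46.MH.Dist

set_option autoImplicit false

/-! # Mordell's bound with a multiplicative twist -/

namespace Pool.Agent.Q46.MH

open Finset Filter Polynomial
open Pool.Agent.H469R2.NK (e norm_e e_add)
open Pool.Agent.TH915.PW (e_int sum_char)
open Pool.Agent.W147.PS (ff ff_compare ev_pow)

section newton

variable {K : Type*} [Field K] {r : ℕ}

lemma aeval_psum' (s : Fin r → K) (n : ℕ) :
    MvPolynomial.aeval s (MvPolynomial.psum (Fin r) ℤ n) = ∑ i, s i ^ n := by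
  rw [MvPolynomial.psum, map_sum]
  simp

lemma esymm_eq (s t : Fin r → K) (hK : ∀ k : ℕ, 1 ≤ k → k ≤ r → (k : K) ≠ 0)
    (h : ∀ j : ℕ, 1 ≤ j → j ≤ r → ∑ i, s i ^ j = ∑ i, t i ^ j) :
    ∀ k ≤ r, (univ.val.map s).esymm k = (univ.val.map t).esymm k := by
  intro k
  induction k using Nat.strong_induction_on with
  | _ k ih =>
    intro hk
    rcases Nat.eq_zero_or_pos k with h0 | h0
    · subst h0
      simp [Multiset.esymm]
    · have es := congrArg (MvPolynomial.aeval s) (MvPolynomial.mul_esymm_eq_sum (Fin r) ℤ k)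
      have et := congrArg (MvPolynomial.aeval t) (MvPolynomial.mul_esymm_eq_sum (Fin r) ℤ k)
      simp only [map_mul, map_natCast, map_pow, map_neg, map_one, map_sum, aeval_psum',
        MvPolynomial.aeval_esymm_eq_multiset_esymm] at es et
      have h1 : (k : K) * (univ.val.map s).esymm k = (k : K) * (univ.val.map t).esymm k := by
        rw [es, et]
        congr 1
        refine sum_congr rfl fun a ha => ?_
        rw [mem_filter, Finset.HasAntidiagonal.mem_antidiagonal] at ha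
        rw [ih a.1 ha.2 (by omega), h a.2 (by omega) (by omega)]
      exact mul_left_cancel₀ (hK k h0 hk) h1

lemma mem_of_psum (s t : Fin r → K) (hK : ∀ k : ℕ, 1 ≤ k → k ≤ r → (k : K) ≠ 0)
    (h : ∀ j : ℕ, 1 ≤ j → j ≤ r → ∑ i, s i ^ j = ∑ i, t i ^ j) (i : Fin r) : ∃ j, t i = s j := by
  have hc : ∀ u : Fin r → K, Multiset.card (univ.val.map u) = r := by
    intro u
    rw [Multiset.card_map]
    simp
  have h1 : ((univ.val.map s).map fun a => X - C a).prod = ((univ.val.map t).map fun a => X - C a).prod := by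
    rw [Multiset.prod_X_sub_X_eq_sum_esymm, Multiset.prod_X_sub_X_eq_sum_esymm, hc, hc]
    refine sum_congr rfl fun j hj => ?_
    rw [esymm_eq s t hK h j (by rw [mem_range] at hj; omega)]
  have h2 : ∀ u : Fin r → K, ((univ.val.map u).map fun a => X - C a).prod = ∏ j, (X - C (u j)) := by
    intro u
    rw [Multiset.map_map]
    rfl
  rw [h2, h2] at h1
  have h3 := congrArg (fun f => f.eval (t i)) h1
  simp only [eval_prod, eval_sub, eval_X, eval_C] at h3
  have h4 : ∏ j, (t i - t j) = 0 := prod_eq_zero (mem_univ i) (sub_self (t i))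
  rw [h4, prod_eq_zero_iff] at h3
  obtain ⟨j, _, hj⟩ := h3
  exact ⟨j, sub_eq_zero.1 hj⟩

end newton

section moment

variable {p : ℕ} [Fact p.Prime]

/-- the vector of the powers -/
def pv (r : ℕ) (x : ZMod p) : Fin r → ZMod p := fun j => x ^ ((j : ℕ) + 1)

/-- the sums -/
noncomputable def SM (g : (ZMod p)ˣ) (r h : ℕ) (b : Fin r → ZMod p) : ℂ :=
  ∑ n ∈ range (orderOf g), e ((h : ℝ) * n / (orderOf g : ℕ)) *
    (ZMod.stdAddChar (b ⬝ᵥ pv r ((g ^ n : (ZMod p)ˣ) : ZMod p)) : ℂ)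

lemma SM_shift (g : (ZMod p)ˣ) (r h : ℕ) (b : Fin r → ZMod p) :
    ‖SM g r h (fun j => b j * (g : ZMod p) ^ ((j : ℕ) + 1))‖ = ‖SM g r h b‖ := by
  set T := orderOf g with hT
  have hT0 : 0 < T := ord_pos g
  have hTr : (T : ℝ) ≠ 0 := by exact_mod_cast hT0.ne'
  set F : ℕ → ℂ := fun n => e ((h : ℝ) * n / T) *
    (ZMod.stdAddChar (b ⬝ᵥ pv r ((g ^ n : (ZMod p)ˣ) : ZMod p)) : ℂ) with hF
  have h1 : e ((h : ℝ) / T) * SM g r h (fun j => b j * (g : ZMod p) ^ ((j : ℕ) + 1)) =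
      ∑ n ∈ range T, F (n + 1) := by
    unfold SM
    rw [← hT, mul_sum]
    refine sum_congr rfl fun n _ => ?_
    rw [← mul_assoc, ← e_add, hF]
    congr 1
    · congr 1
      push_cast
      ring
    · congr 1
      unfold dotProduct pv
      refine sum_congr rfl fun j _ => ?_
      have h9 : ((g ^ (n + 1) : (ZMod p)ˣ) : ZMod p) = ((g ^ n : (ZMod p)ˣ) : ZMod p) * g := by
        rw [pow_succ, Units.val_mul]
      rw [h9, mul_pow]
      ring
  have h2 : ∑ n ∈ range T, F (n + 1) = ∑ n ∈ range T, F n := by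
    have h3 := sum_range_succ' F T
    have h4 := sum_range_succ F T
    have h5 : F T = F 0 := by
      simp only [hF]
      have e1 : e ((h : ℝ) * T / T) = 1 := by
        have : (h : ℝ) * T / T = ((h : ℤ) : ℝ) := by
          push_cast
          field_simp
        rw [this, e_int]
      have e2 : e ((h : ℝ) * ((0 : ℕ) : ℝ) / T) = 1 := by
        have : (h : ℝ) * ((0 : ℕ) : ℝ) / T = ((0 : ℤ) : ℝ) := by simp
        rw [this, e_int]
      rw [e1, e2, hT, pow_orderOf_eq_one, pow_zero]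
    rw [h3, h5] at h4
    exact add_right_cancel h4
  have h3 : e ((h : ℝ) / T) * SM g r h (fun j => b j * (g : ZMod p) ^ ((j : ℕ) + 1)) = SM g r h b := by
    rw [h1, h2]
    rfl
  rw [← h3, norm_mul, norm_e, one_mul]

/-- the orbit of the vector of coefficients -/
def orb (g : (ZMod p)ˣ) {r : ℕ} (b : Fin r → ZMod p) (k : ℕ) : Fin r → ZMod p :=
  fun j => b j * ((g : ZMod p) ^ k) ^ ((j : ℕ) + 1)

lemma SM_orb (g : (ZMod p)ˣ) (r h : ℕ) (b : Fin r → ZMod p) (k : ℕ) :
    ‖SM g r h (orb g b k)‖ = ‖SM g r h b‖ := by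
  induction k with
  | zero =>
    have : orb g b 0 = b := by
      funext j
      simp [orb]
    rw [this]
  | succ k ih =>
    rw [← ih, ← SM_shift g r h (orb g b k)]
    congr 2
    funext j
    unfold orb
    have h1 : ((g : ZMod p) ^ (k + 1)) ^ ((j : ℕ) + 1) = ((g : ZMod p) ^ k) ^ ((j : ℕ) + 1) * (g : ZMod p) ^ ((j : ℕ) + 1) := by
      rw [← mul_pow, ← pow_succ]
    rw [h1, mul_assoc]

/-- the fibres of the orbit map -/
lemma orb_fiber (g : (ZMod p)ˣ) {r : ℕ} (b : Fin r → ZMod p) (hb : b ≠ 0) (v : Fin r → ZMod p) :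
    ((range (orderOf g)).filter (fun k => orb g b k = v)).card ≤ r := by
  classical
  obtain ⟨j, hj⟩ := Function.ne_iff.1 hb
  have hj' : b j ≠ 0 := hj
  set c : ZMod p := v j / b j with hc
  set P : (ZMod p)[X] := X ^ ((j : ℕ) + 1) - C c with hP
  have hdeg : P.natDegree = (j : ℕ) + 1 := natDegree_X_pow_sub_C
  have hP0 : P ≠ 0 := X_pow_sub_C_ne_zero (Nat.succ_pos _) c
  have h1 : ((range (orderOf g)).filter (fun k => orb g b k = v)).image (fun k => ((g ^ k : (ZMod p)ˣ) : ZMod p)) ⊆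
      P.roots.toFinset := by
    intro x hx
    rw [mem_image] at hx
    obtain ⟨k, hk, rfl⟩ := hx
    rw [mem_filter] at hk
    rw [Multiset.mem_toFinset, mem_roots hP0, IsRoot.def, hP, eval_sub, eval_pow, eval_X, eval_C, sub_eq_zero, hc]
    have h2 := congrFun hk.2 j
    unfold orb at h2
    rw [Units.val_pow_eq_pow_val, eq_div_iff hj', mul_comm]
    exact h2
  have h2 := card_le_card h1
  rw [card_image_of_injOn] at h2
  · refine h2.trans ((Multiset.toFinset_card_le _).trans ((card_roots' P).trans ?_))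
    rw [hdeg]
    exact j.2
  · intro k hk l hl hkl
    rw [mem_coe, mem_filter] at hk hl
    exact pow_injOn_Iio_orderOf (mem_range.1 hk.1) (mem_range.1 hl.1) (Units.ext hkl)

lemma orbit_sum (g : (ZMod p)ˣ) (r h : ℕ) (b : Fin r → ZMod p) (hb : b ≠ 0) (R : ℕ) :
    ((orderOf g : ℕ) : ℝ) * ‖SM g r h b‖ ^ R ≤ r * ∑ v : Fin r → ZMod p, ‖SM g r h v‖ ^ R := by
  classical
  have h1 : ((orderOf g : ℕ) : ℝ) * ‖SM g r h b‖ ^ R = ∑ k ∈ range (orderOf g), ‖SM g r h (orb g b k)‖ ^ R := by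
    rw [sum_congr rfl fun k _ => by rw [SM_orb], sum_const, card_range, nsmul_eq_mul]
  rw [h1, ← sum_fiberwise_of_maps_to (s := range (orderOf g)) (t := univ) (g := fun k => orb g b k)
    (fun k _ => mem_univ _), mul_sum]
  refine sum_le_sum fun v _ => ?_
  have h2 : ∑ k ∈ (range (orderOf g)).filter (fun k => orb g b k = v), ‖SM g r h (orb g b k)‖ ^ R =
      ((range (orderOf g)).filter (fun k => orb g b k = v)).card * ‖SM g r h v‖ ^ R := by
    rw [sum_congr rfl (fun k hk => by rw [(mem_filter.1 hk).2] :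
      ∀ k ∈ (range (orderOf g)).filter (fun k => orb g b k = v),
        ‖SM g r h (orb g b k)‖ ^ R = ‖SM g r h v‖ ^ R), sum_const, nsmul_eq_mul]
  rw [h2]
  apply mul_le_mul_of_nonneg_right _ (by positivity)
  exact_mod_cast orb_fiber g b hb v

/-- the tuples -/
noncomputable def tup (g : (ZMod p)ˣ) (r : ℕ) : Finset (Fin r → ℕ) := Fintype.piFinset fun _ => range (orderOf g)

/-- the sum of the vectors of powers -/
def sv (g : (ZMod p)ˣ) (r : ℕ) (n : Fin r → ℕ) : Fin r → ZMod p :=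
  ∑ i, pv r ((g ^ n i : (ZMod p)ˣ) : ZMod p)

/-- the weight -/
noncomputable def wt (g : (ZMod p)ˣ) (r h : ℕ) (n : Fin r → ℕ) : ℂ :=
  ∏ i, e ((h : ℝ) * n i / (orderOf g : ℕ))

lemma norm_wt (g : (ZMod p)ˣ) (r h : ℕ) (n : Fin r → ℕ) : ‖wt g r h n‖ = 1 := by
  unfold wt
  rw [norm_prod]
  exact prod_eq_one fun _ _ => norm_e _

lemma SM_pow (g : (ZMod p)ˣ) (r h : ℕ) (b : Fin r → ZMod p) :
    SM g r h b ^ r = ∑ n ∈ tup g r, wt g r h n * (ZMod.stdAddChar (b ⬝ᵥ sv g r n) : ℂ) := by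
  have h1 : SM g r h b ^ r = ∏ _i : Fin r, SM g r h b := by
    rw [prod_const, card_univ, Fintype.card_fin]
  rw [h1]
  unfold SM
  rw [prod_univ_sum]
  refine sum_congr rfl fun n _ => ?_
  rw [prod_mul_distrib, ← char_sum]
  unfold wt sv
  rw [dotProduct_sum]

lemma sum_dot1 {r : ℕ} (w : Fin r → ZMod p) :
    ∑ b : Fin r → ZMod p, (ZMod.stdAddChar (b ⬝ᵥ w) : ℂ) = if w = 0 then (p : ℂ) ^ r else 0 := by
  split_ifs with h
  · subst h
    simp [ZMod.card]
  · have h1 := sum_dot (p := p) one_ne_zero h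
    rw [← h1]
    exact sum_congr rfl fun b _ => by rw [one_mul]

lemma moment (g : (ZMod p)ˣ) (r h : ℕ) (hrp : r < p) :
    ∑ b : Fin r → ZMod p, ‖SM g r h b‖ ^ (2 * r) ≤ (p : ℝ) ^ r * ((r : ℝ) ^ r * ((orderOf g : ℕ) : ℝ) ^ r) := by
  classical
  have h1 : ∀ b : Fin r → ZMod p, ((‖SM g r h b‖ ^ (2 * r) : ℝ) : ℂ) =
      ∑ n ∈ tup g r, ∑ m ∈ tup g r, (wt g r h n * (starRingEnd ℂ) (wt g r h m)) *
        (ZMod.stdAddChar (b ⬝ᵥ (sv g r n - sv g r m)) : ℂ) := by
    intro b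
    have h2 : ((‖SM g r h b‖ ^ (2 * r) : ℝ) : ℂ) = SM g r h b ^ r * (starRingEnd ℂ) (SM g r h b ^ r) := by
      rw [Complex.mul_conj, Complex.normSq_eq_norm_sq, norm_pow]
      push_cast
      ring
    rw [h2, SM_pow, map_sum, sum_mul_sum]
    refine sum_congr rfl fun n _ => sum_congr rfl fun m _ => ?_
    rw [map_mul (starRingEnd ℂ), conj_char, dotProduct_sub, sub_eq_add_neg, AddChar.map_add_eq_mul]
    ring
  have h2 : ((∑ b : Fin r → ZMod p, ‖SM g r h b‖ ^ (2 * r) : ℝ) : ℂ) =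
      ∑ n ∈ tup g r, ∑ m ∈ tup g r, (wt g r h n * (starRingEnd ℂ) (wt g r h m)) *
        (if sv g r n - sv g r m = 0 then (p : ℂ) ^ r else 0) := by
    rw [Complex.ofReal_sum, sum_congr rfl fun b _ => h1 b, sum_comm]
    refine sum_congr rfl fun n _ => ?_
    rw [sum_comm]
    refine sum_congr rfl fun m _ => ?_
    rw [← mul_sum, sum_dot1]
  have h3 : ∑ b : Fin r → ZMod p, ‖SM g r h b‖ ^ (2 * r) ≤
      ∑ n ∈ tup g r, ∑ m ∈ tup g r, (if sv g r n - sv g r m = 0 then (p : ℝ) ^ r else 0) := by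
    have g1 : ∑ b : Fin r → ZMod p, ‖SM g r h b‖ ^ (2 * r) =
        ‖((∑ b : Fin r → ZMod p, ‖SM g r h b‖ ^ (2 * r) : ℝ) : ℂ)‖ := by
      rw [Complex.norm_real, Real.norm_eq_abs, abs_of_nonneg]
      exact sum_nonneg fun _ _ => by positivity
    rw [g1, h2]
    refine (norm_sum_le _ _).trans (sum_le_sum fun n _ => ?_)
    refine (norm_sum_le _ _).trans (sum_le_sum fun m _ => ?_)
    rw [norm_mul, norm_mul, RCLike.norm_conj, norm_wt, norm_wt, one_mul, one_mul]
    split_ifs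
    · rw [norm_pow, Complex.norm_natCast]
    · simp
  refine h3.trans ?_
  have hK : ∀ k : ℕ, 1 ≤ k → k ≤ r → ((k : ℕ) : ZMod p) ≠ 0 := by
    intro k hk1 hk2 hk
    rw [ZMod.natCast_eq_zero_iff] at hk
    exact absurd (Nat.le_of_dvd hk1 hk) (by omega)
  have h4 : ∀ n ∈ tup g r, ∑ m ∈ tup g r, (if sv g r n - sv g r m = 0 then (p : ℝ) ^ r else 0) ≤
      (p : ℝ) ^ r * (r : ℝ) ^ r := by
    intro n hn
    rw [← sum_filter, sum_const, nsmul_eq_mul, mul_comm]
    apply mul_le_mul_of_nonneg_left _ (by positivity)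
    have h5 : ((tup g r).filter (fun m => sv g r n - sv g r m = 0)).card ≤ r ^ r := by
      have h6 : (tup g r).filter (fun m => sv g r n - sv g r m = 0) ⊆
          Fintype.piFinset fun _ : Fin r => univ.image n := by
        intro m hm
        rw [mem_filter] at hm
        unfold tup at hm hn
        rw [Fintype.mem_piFinset] at hm hn
        rw [Fintype.mem_piFinset]
        intro i
        obtain ⟨j, hj⟩ := mem_of_psum (fun i => ((g ^ n i : (ZMod p)ˣ) : ZMod p))
          (fun i => ((g ^ m i : (ZMod p)ˣ) : ZMod p)) hK (by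
            intro l hl1 hl2
            have h7 := congrFun (sub_eq_zero.1 hm.2) ⟨l - 1, by omega⟩
            unfold sv pv at h7
            rw [Finset.sum_apply, Finset.sum_apply] at h7
            simp only at h7
            have h8 : l - 1 + 1 = l := by omega
            rw [h8] at h7
            exact h7) i
        rw [mem_image]
        exact ⟨j, mem_univ _, (pow_injOn_Iio_orderOf (mem_range.1 (hm.1 i)) (mem_range.1 (hn j)) (Units.ext hj)).symm⟩
      refine (card_le_card h6).trans ?_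
      rw [Fintype.card_piFinset]
      simp only [prod_const, card_univ, Fintype.card_fin]
      apply Nat.pow_le_pow_left
      exact card_image_le.trans (by simp)
    exact_mod_cast h5
  refine (sum_le_sum h4).trans (le_of_eq ?_)
  rw [sum_const, nsmul_eq_mul]
  have : (tup g r).card = (orderOf g) ^ r := by
    unfold tup
    rw [Fintype.card_piFinset]
    simp
  rw [this]
  push_cast
  ring

/-- the bound -/
noncomputable def MB (p T r : ℕ) : ℝ := r * ((p : ℝ) ^ r * (T : ℝ) ^ (r - 1)) ^ ((1 : ℝ) / (2 * r))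

lemma MB_nonneg (p T r : ℕ) : 0 ≤ MB p T r := by
  unfold MB
  positivity

lemma MB_pow (p T r : ℕ) (hr : 1 ≤ r) : MB p T r ^ (2 * r) = (r : ℝ) ^ (2 * r) * ((p : ℝ) ^ r * (T : ℝ) ^ (r - 1)) := by
  unfold MB
  rw [mul_pow]
  congr 1
  have h0 : (0 : ℝ) ≤ (p : ℝ) ^ r * (T : ℝ) ^ (r - 1) := by positivity
  rw [← Real.rpow_natCast, ← Real.rpow_mul h0]
  have : (1 : ℝ) / (2 * r) * ((2 * r : ℕ) : ℝ) = 1 := by
    have : (0 : ℝ) < r := by exact_mod_cast hr
    push_cast
    field_simp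
  rw [this, Real.rpow_one]

/-- **Mordell's bound** -/
lemma SM_bound (g : (ZMod p)ˣ) (r h : ℕ) (hr : 1 ≤ r) (hrp : r < p) (b : Fin r → ZMod p) (hb : b ≠ 0) :
    ‖SM g r h b‖ ≤ MB p (orderOf g) r := by
  have hT0 : (0 : ℝ) < (orderOf g : ℕ) := by exact_mod_cast ord_pos g
  have h1 := orbit_sum g r h b hb (2 * r)
  have h2 := moment g r h hrp
  have hr0 : (1 : ℝ) ≤ r := by exact_mod_cast hr
  have h3 : ‖SM g r h b‖ ^ (2 * r) ≤ MB p (orderOf g) r ^ (2 * r) := by
    rw [MB_pow _ _ _ hr]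
    have h4 : ((orderOf g : ℕ) : ℝ) * ‖SM g r h b‖ ^ (2 * r) ≤
        ((orderOf g : ℕ) : ℝ) * ((r : ℝ) ^ (r + 1) * ((p : ℝ) ^ r * ((orderOf g : ℕ) : ℝ) ^ (r - 1))) := by
      calc _ ≤ r * ((p : ℝ) ^ r * ((r : ℝ) ^ r * ((orderOf g : ℕ) : ℝ) ^ r)) :=
            h1.trans (mul_le_mul_of_nonneg_left h2 (by linarith))
        _ = _ := by
            obtain ⟨k, rfl⟩ : ∃ k, r = k + 1 := ⟨r - 1, by omega⟩
            rw [Nat.add_sub_cancel]
            ring
    have h5 := le_of_mul_le_mul_left h4 hT0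
    refine h5.trans (mul_le_mul_of_nonneg_right ?_ (by positivity))
    exact pow_le_pow_right₀ hr0 (by omega)
  exact (pow_le_pow_iff_left₀ (norm_nonneg _) (MB_nonneg _ _ _) (by omega)).1 h3

lemma eval_dot (f : (ZMod p)[X]) (r : ℕ) (hf : f.natDegree ≤ r) (x : ZMod p) :
    f.eval x = f.coeff 0 + (fun j : Fin r => f.coeff ((j : ℕ) + 1)) ⬝ᵥ pv r x := by
  rw [eval_eq_sum_range' (Nat.lt_succ_of_le hf), sum_range_succ', pow_zero, mul_one, add_comm]
  congr 1
  unfold dotProduct pv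
  rw [← Fin.sum_univ_eq_sum_range (fun i => f.coeff (i + 1) * x ^ (i + 1)) r]

/-- the sums of nonconstant polynomials in `g^n` -/
lemma poly_exp_sum (g : (ZMod p)ˣ) (r h : ℕ) (hr : 1 ≤ r) (hrp : r < p) (f : (ZMod p)[X]) (hf : f.natDegree ≤ r)
    (hf0 : f.natDegree ≠ 0) :
    ‖∑ n ∈ range (orderOf g), e ((h : ℝ) * n / (orderOf g : ℕ)) *
      (ZMod.stdAddChar (f.eval ((g ^ n : (ZMod p)ˣ) : ZMod p)) : ℂ)‖ ≤ MB p (orderOf g) r := by
  have h1 : ∑ n ∈ range (orderOf g), e ((h : ℝ) * n / (orderOf g : ℕ)) *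
      (ZMod.stdAddChar (f.eval ((g ^ n : (ZMod p)ˣ) : ZMod p)) : ℂ) =
      (ZMod.stdAddChar (f.coeff 0) : ℂ) * SM g r h (fun j : Fin r => f.coeff ((j : ℕ) + 1)) := by
    unfold SM
    rw [mul_sum]
    refine sum_congr rfl fun n _ => ?_
    rw [eval_dot f r hf, AddChar.map_add_eq_mul]
    ring
  rw [h1, norm_mul, AddChar.norm_apply, one_mul]
  apply SM_bound g r h hr hrp
  intro h2
  apply hf0
  by_contra h3
  have h4 := congrFun h2 ⟨f.natDegree - 1, by omega⟩
  simp only [Pi.zero_apply] at h4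
  have h5 : f.natDegree - 1 + 1 = f.natDegree := by omega
  rw [h5, coeff_natDegree, leadingCoeff_eq_zero] at h4
  rw [h4] at h3
  simp at h3

end moment

/-- **discrete logarithms and polynomials** -/
theorem logs (r s : ℕ) (hr : 1 ≤ r) (ε : ℝ) (hε : 0 < ε) (hε1 : ε ≤ 1) : ∃ κ : ℝ, 0 < κ ∧ ∃ p₀ : ℕ,
    ∀ p : ℕ, p₀ ≤ p → ∀ [Fact p.Prime], ∀ (g : (ZMod p)ˣ) (f : Fin s → (ZMod p)[X]),
      (∀ i, (f i).natDegree ≤ r) → (∀ c : Fin s → ZMod p, (∑ i, C (c i) * f i).natDegree = 0 → c = 0) →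
      ∀ (A₀ N₀ : ℕ) (A N : Fin s → ℕ), A₀ + N₀ ≤ orderOf g → (∀ i, A i + N i ≤ p) →
        (p : ℝ) ^ ε ≤ N₀ → (∀ i, (p : ℝ) ^ ε ≤ N i) →
        (p : ℝ) ^ ((2 * s + 1) * r + ε) * ((orderOf g : ℕ) : ℝ) ^ (r - 1) ≤ ((N₀ : ℝ) * ∏ i, (N i : ℝ)) ^ (2 * r) →
        ∃ G : Finset ℕ, (N₀ : ℝ) * (∏ i, (N i : ℝ)) * (p : ℝ) ^ (-(s + ε)) ≤ G.card ∧ ∀ n ∈ G,
          (A₀ ≤ n ∧ n < A₀ + N₀) ∧
          (∀ i, A i ≤ ((f i).eval ((g : ZMod p) ^ n)).val ∧ ((f i).eval ((g : ZMod p) ^ n)).val < A i + N i) ∧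
          (∀ q : ℕ, q.Prime → κ * ff p < |(q : ℝ) - n|) ∧
          ∀ i, ∀ q : ℕ, q.Prime → κ * ff p < |(q : ℝ) - ((f i).eval ((g : ZMod p) ^ n)).val| := by
  classical
  have hr0 : (0 : ℝ) < r := by exact_mod_cast hr
  have hr1 : (1 : ℝ) ≤ r := by exact_mod_cast hr
  obtain ⟨ε', hε'0, hε'⟩ : ∃ ε' : ℝ, 0 < ε' ∧ ε' = ε / (4 * r) := ⟨ε / (4 * r), by positivity, rfl⟩
  have hε'1 : ε' ≤ ε / 4 := by
    rw [hε']
    apply div_le_div_of_nonneg_left hε.le (by norm_num)
    linarith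
  obtain ⟨κ, hκ, hg⟩ := graphR (s + 1) (by omega) ε' hε'0 (by linarith)
  have e1 := (tendsto_natCast_atTop_atTop (R := ℝ)).eventually hg
  have e2 := (tendsto_natCast_atTop_atTop (R := ℝ)).eventually
    ((tendsto_rpow_atTop (show (0 : ℝ) < ε / 2 by positivity)).eventually_ge_atTop ((r : ℝ) ^ (2 * r)))
  obtain ⟨p₀, hp₀⟩ := (e1.and (e2.and ((eventually_ge_atTop 2).and (eventually_gt_atTop r)))).exists_forall_of_atTop
  refine ⟨κ, hκ, p₀, ?_⟩
  intro p hp _ g f hf hind A₀ N₀ A N hA0 hA hN0 hN hP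
  obtain ⟨g1, g2, g3, hrp⟩ := hp₀ p hp
  have hpp : p.Prime := Fact.out
  have hpr : (2 : ℝ) ≤ p := by exact_mod_cast g3
  have hp0 : (0 : ℝ) < p := by linarith
  have hmono : ∀ x y : ℝ, x ≤ y → (p : ℝ) ^ x ≤ (p : ℝ) ^ y := fun x y h =>
    Real.rpow_le_rpow_of_exponent_le (by linarith) h
  have hT0 : 0 < orderOf g := ord_pos g
  have hTr : (0 : ℝ) < (orderOf g : ℕ) := by exact_mod_cast hT0
  have hTp : orderOf g ≤ p := by
    have h1 : orderOf g ∣ Fintype.card (ZMod p)ˣ := orderOf_dvd_card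
    rw [ZMod.card_units_eq_totient, Nat.totient_prime hpp] at h1
    exact (Nat.le_of_dvd (by omega) h1).trans (Nat.sub_le _ _)
  set x : ℕ → Fin (s + 1) → ℕ := fun n => Fin.cons n (fun i => ((f i).eval ((g ^ n : (ZMod p)ˣ) : ZMod p)).val) with hx
  set m : Fin (s + 1) → ℕ := Fin.cons (orderOf g) (fun _ => p) with hm
  set A' : Fin (s + 1) → ℕ := Fin.cons A₀ A with hA'
  set N' : Fin (s + 1) → ℕ := Fin.cons N₀ N with hN'
  have hprod : (∏ j, (N' j : ℝ) / m j) * (range (orderOf g)).card = (N₀ : ℝ) * (∏ i, (N i : ℝ)) / (p : ℝ) ^ s := by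
    rw [Fin.prod_univ_succ, card_range]
    simp only [hN', hm, Fin.cons_zero, Fin.cons_succ]
    rw [prod_div_distrib, prod_const, card_univ, Fintype.card_fin]
    field_simp
  have key := g1 m
    (fun j => by
      refine Fin.cases ?_ (fun i => ?_) j
      · exact hT0
      · exact hpp.one_lt.le)
    (fun j => by
      refine Fin.cases ?_ (fun i => ?_) j
      · show ((orderOf g : ℕ) : ℝ) ≤ p
        exact_mod_cast hTp
      · exact le_rfl)
    ℕ (range (orderOf g)) x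
    (fun n hn j => by
      refine Fin.cases ?_ (fun i => ?_) j
      · exact mem_range.1 hn
      · exact ZMod.val_lt _)
    (MB p (orderOf g) r) (MB_nonneg _ _ _)
    (by
      intro h hh h0
      have hterm : ∀ n ∈ range (orderOf g), ∏ j, e ((h j : ℝ) * x n j / m j) =
          e ((h 0 : ℝ) * n / (orderOf g : ℕ)) *
            (ZMod.stdAddChar ((∑ i, C ((h i.succ : ℕ) : ZMod p) * f i).eval ((g ^ n : (ZMod p)ˣ) : ZMod p)) : ℂ) := by
        intro n _
        rw [Fin.prod_univ_succ, eval_finset_sum, char_sum]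
        simp only [hx, hm, Fin.cons_zero, Fin.cons_succ]
        congr 1
        refine prod_congr rfl fun i _ => ?_
        rw [e_val, eval_mul, eval_C]
      rw [sum_congr rfl hterm]
      by_cases hc : (fun i : Fin s => ((h i.succ : ℕ) : ZMod p)) = 0
      · have h2 : ∑ i, C ((h i.succ : ℕ) : ZMod p) * f i = 0 := by
          apply sum_eq_zero
          intro i _
          have := congrFun hc i
          simp only [Pi.zero_apply] at this
          rw [this, C_0, zero_mul]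
        have h3 : h 0 ≠ 0 := by
          intro h4
          apply h0
          funext j
          refine Fin.cases h4 (fun i => ?_) j
          have h5 := congrFun hc i
          simp only [Pi.zero_apply] at h5
          rw [ZMod.natCast_eq_zero_iff] at h5
          have h6 := hh i.succ
          simp only [hm, Fin.cons_succ] at h6
          exact Nat.eq_zero_of_dvd_of_lt h5 h6
        rw [h2]
        simp only [eval_zero, AddChar.map_zero_eq_one, mul_one]
        have h4 : ∑ n ∈ range (orderOf g), e ((h 0 : ℝ) * n / (orderOf g : ℕ)) = 0 := by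
          have h5 : ∀ n ∈ range (orderOf g), e ((h 0 : ℝ) * n / (orderOf g : ℕ)) =
              e (((h 0 : ℤ) : ℝ) * ((n : ℝ) / (orderOf g : ℕ))) := by
            intro n _
            congr 1
            push_cast
            ring
          rw [sum_congr rfl h5]
          apply sum_char _ hT0
          intro hd
          have h6 := hh 0
          simp only [hm, Fin.cons_zero] at h6
          exact absurd (Int.le_of_dvd (by exact_mod_cast Nat.pos_of_ne_zero h3) hd) (by exact_mod_cast not_le.2 h6)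
        rw [h4, norm_zero]
        exact MB_nonneg _ _ _
      · apply poly_exp_sum g r (h 0) hr hrp
        · apply natDegree_sum_le_of_forall_le
          intro i _
          exact (natDegree_C_mul_le _ _).trans (hf i)
        · intro h2
          exact hc (hind _ h2))
    A' N'
    (fun j => by
      refine Fin.cases ?_ (fun i => ?_) j
      · exact hA0
      · exact hA i)
    (fun j => by
      refine Fin.cases ?_ (fun i => ?_) j
      · exact (hmono _ _ (by linarith)).trans hN0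
      · exact (hmono _ _ (by linarith)).trans (hN i))
    (by
      rw [hprod, le_div_iff₀ (by positivity)]
      have hN00 : (0 : ℝ) ≤ (N₀ : ℝ) * ∏ i, (N i : ℝ) :=
        mul_nonneg (Nat.cast_nonneg _) (prod_nonneg fun _ _ => Nat.cast_nonneg _)
      have hMB := MB_nonneg p (orderOf g) r
      apply (pow_le_pow_iff_left₀ (by positivity) hN00 (show 2 * r ≠ 0 by omega)).1
      refine le_trans ?_ hP
      rw [mul_pow, mul_pow, MB_pow _ _ _ hr]
      have h1 : ((p : ℝ) ^ ε') ^ (2 * r) = (p : ℝ) ^ (ε / 2) := by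
        rw [← Real.rpow_natCast, ← Real.rpow_mul hp0.le]
        congr 1
        rw [hε']
        push_cast
        field_simp
        ring
      have h2 : (p : ℝ) ^ ((2 * (s : ℝ) + 1) * r + ε) =
          (p : ℝ) ^ r * ((p : ℝ) ^ s) ^ (2 * r) * ((p : ℝ) ^ (ε / 2) * (p : ℝ) ^ (ε / 2)) := by
        rw [← Real.rpow_add hp0, ← Real.rpow_natCast (p : ℝ) r, ← Real.rpow_natCast (p : ℝ) s,
          ← Real.rpow_natCast ((p : ℝ) ^ (s : ℝ)) (2 * r), ← Real.rpow_mul hp0.le, ← Real.rpow_add hp0,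
          ← Real.rpow_add hp0]
        congr 1
        push_cast
        ring
      rw [h1, h2]
      have hpe : 0 < (p : ℝ) ^ (ε / 2) := Real.rpow_pos_of_pos hp0 _
      calc (r : ℝ) ^ (2 * r) * ((p : ℝ) ^ r * ((orderOf g : ℕ) : ℝ) ^ (r - 1)) * (p : ℝ) ^ (ε / 2) *
            ((p : ℝ) ^ s) ^ (2 * r) = ((p : ℝ) ^ r * ((p : ℝ) ^ s) ^ (2 * r) * (p : ℝ) ^ (ε / 2) *
              ((orderOf g : ℕ) : ℝ) ^ (r - 1)) * (r : ℝ) ^ (2 * r) := by ring
        _ ≤ ((p : ℝ) ^ r * ((p : ℝ) ^ s) ^ (2 * r) * (p : ℝ) ^ (ε / 2) *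
              ((orderOf g : ℕ) : ℝ) ^ (r - 1)) * (p : ℝ) ^ (ε / 2) :=
            mul_le_mul_of_nonneg_left g2 (by positivity)
        _ = _ := by ring)
  refine ⟨goodR (κ * ff p) (range (orderOf g)) x A' N', ?_, ?_⟩
  · refine le_trans ?_ key
    rw [hprod]
    have h1 : (p : ℝ) ^ (-((s : ℝ) + ε)) ≤ 1 / (p : ℝ) ^ s * (p : ℝ) ^ (-ε') := by
      have h2 : (p : ℝ) ^ (-((s : ℝ) + ε)) = 1 / (p : ℝ) ^ s * (p : ℝ) ^ (-ε) := by
        rw [neg_add, Real.rpow_add hp0, Real.rpow_neg hp0.le, Real.rpow_natCast, one_div]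
      rw [h2]
      apply mul_le_mul_of_nonneg_left _ (by positivity)
      exact hmono _ _ (by linarith)
    have hN00 : (0 : ℝ) ≤ (N₀ : ℝ) * ∏ i, (N i : ℝ) :=
      mul_nonneg (Nat.cast_nonneg _) (prod_nonneg fun _ _ => Nat.cast_nonneg _)
    calc _ ≤ (N₀ : ℝ) * (∏ i, (N i : ℝ)) * (1 / (p : ℝ) ^ s * (p : ℝ) ^ (-ε')) :=
          mul_le_mul_of_nonneg_left h1 hN00
      _ = _ := by ring
  · intro n hn
    unfold goodR at hn
    rw [mem_filter] at hn
    have hpw : ((g ^ n : (ZMod p)ˣ) : ZMod p) = (g : ZMod p) ^ n := Units.val_pow_eq_pow_val g n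
    refine ⟨?_, fun i => ?_, ?_, fun i => ?_⟩
    · have h1 := mem_Ico.1 (hn.2.1 0)
      exact h1
    · have h1 := mem_Ico.1 (hn.2.1 i.succ)
      simp only [hx, hA', hN', Fin.cons_succ] at h1
      rw [hpw] at h1
      exact h1
    · exact hn.2.2 0
    · have h1 := hn.2.2 i.succ
      simp only [hx, Fin.cons_succ] at h1
      rw [hpw] at h1
      exact h1

end Pool.Agent.Q46.MH
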