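import Pool.Agent.Q46.MH.Graph

set_option autoImplicit false

/-! # Pseudorandom binary sequences -/

namespace Pool.Agent.Q46.MH

open Finset Filter
open Pool.Agent.H469R2.NK (e norm_e e_add)
open Pool.Agent.TH915.PW (e_int sum_char)
open Pool.Agent.W147.PS (ff ff_compare ev_pow)
open Pool.Agent.Y961.JR

/-- the sums of the correlations -/
noncomputable def AA (c : ℕ → ℂ) (K : ℕ) : ℂ :=
  ∑ h ∈ range K, ∑ m ∈ range (K - 1 - h), c (m + h + 1) * (starRingEnd ℂ) (c m)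

lemma AA_succ (c : ℕ → ℂ) (K : ℕ) :
    AA c (K + 1) = AA c K + c K * (starRingEnd ℂ) (∑ n ∈ range K, c n) := by
  unfold AA
  rw [sum_range_succ]
  have h1 : ∑ m ∈ range (K + 1 - 1 - K), c (m + K + 1) * (starRingEnd ℂ) (c m) = 0 := by
    have : K + 1 - 1 - K = 0 := by omega
    rw [this, range_zero, sum_empty]
  rw [h1, add_zero]
  have h2 : ∀ h ∈ range K, ∑ m ∈ range (K + 1 - 1 - h), c (m + h + 1) * (starRingEnd ℂ) (c m) =
      ∑ m ∈ range (K - 1 - h), c (m + h + 1) * (starRingEnd ℂ) (c m) +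
        c K * (starRingEnd ℂ) (c (K - 1 - h)) := by
    intro h hh
    rw [mem_range] at hh
    have h3 : K + 1 - 1 - h = (K - 1 - h) + 1 := by omega
    rw [h3, sum_range_succ]
    congr 3
    omega
  rw [sum_congr rfl h2, sum_add_distrib]
  congr 1
  rw [← mul_sum, map_sum, sum_range_reflect (fun n => (starRingEnd ℂ) (c n)) K]

lemma norm_sq_AA (c : ℕ → ℂ) (K : ℕ) :
    ‖∑ n ∈ range K, c n‖ ^ 2 = ∑ n ∈ range K, ‖c n‖ ^ 2 + 2 * (AA c K).re := by
  induction K with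
  | zero => simp [AA]
  | succ K ih =>
    rw [sum_range_succ, sum_range_succ, AA_succ, Complex.add_re]
    have h1 : ‖∑ n ∈ range K, c n + c K‖ ^ 2 = ‖∑ n ∈ range K, c n‖ ^ 2 + ‖c K‖ ^ 2 +
        2 * (c K * (starRingEnd ℂ) (∑ n ∈ range K, c n)).re := by
      rw [← Complex.normSq_eq_norm_sq, ← Complex.normSq_eq_norm_sq, ← Complex.normSq_eq_norm_sq,
        Complex.normSq_apply, Complex.normSq_apply, Complex.normSq_apply]
      simp only [Complex.add_re, Complex.add_im, Complex.mul_re, Complex.conj_re, Complex.conj_im]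
      ring
    rw [h1, ih]
    ring

lemma vdc (c : ℕ → ℂ) (K : ℕ) (hc : ∀ n < K, ‖c n‖ ≤ 1) (C : ℝ)
    (hC : ∀ h < K, ‖∑ m ∈ range (K - 1 - h), c (m + h + 1) * (starRingEnd ℂ) (c m)‖ ≤ C) :
    ‖∑ n ∈ range K, c n‖ ^ 2 ≤ K + 2 * (K * C) := by
  rw [norm_sq_AA]
  have h1 : ∑ n ∈ range K, ‖c n‖ ^ 2 ≤ K := by
    calc ∑ n ∈ range K, ‖c n‖ ^ 2 ≤ ∑ _n ∈ range K, (1 : ℝ) := by
          refine sum_le_sum fun n hn => ?_
          have := hc n (mem_range.1 hn)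
          have := norm_nonneg (c n)
          nlinarith
      _ = K := by simp
  have h2 : (AA c K).re ≤ K * C := by
    refine (Complex.re_le_norm _).trans ?_
    unfold AA
    refine (norm_sum_le _ _).trans ((sum_le_sum fun h hh => hC h (mem_range.1 hh)).trans (le_of_eq ?_))
    rw [sum_const, card_range, nsmul_eq_mul]
  linarith

section seq

variable (a : ℕ → ℤ) (N : ℕ)

/-- products of the terms with given shifts -/
def bb (D : Finset ℕ) (n : ℕ) : ℤ := ∏ d ∈ D, a (n + d)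

variable {a} {N}

lemma bb_abs (ha : ∀ n < N, a n = 1 ∨ a n = -1) (D : Finset ℕ) (n : ℕ) (hn : ∀ d ∈ D, n + d < N) :
    |bb a D n| = 1 := by
  unfold bb
  rw [abs_prod]
  apply prod_eq_one
  intro d hd
  rcases ha (n + d) (hn d hd) with h | h <;> rw [h] <;> simp

lemma bb_mul (ha : ∀ n < N, a n = 1 ∨ a n = -1) (E E' : Finset ℕ) (n : ℕ) (hn : ∀ d ∈ E, n + d < N) :
    bb a E n * bb a E' n = bb a ((E \ E') ∪ (E' \ E)) n := by
  unfold bb
  have hd : Disjoint (E \ E') (E' \ E) := by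
    rw [Finset.disjoint_left]
    intro x hx hx'
    exact (Finset.mem_sdiff.1 hx').2 (Finset.mem_sdiff.1 hx).1
  rw [prod_union hd, ← prod_inter_mul_prod_diff E E', ← prod_inter_mul_prod_diff E' E, inter_comm E' E]
  have h1 : (∏ d ∈ E ∩ E', a (n + d)) * (∏ d ∈ E ∩ E', a (n + d)) = 1 := by
    rw [← prod_mul_distrib]
    apply prod_eq_one
    intro d hd
    rcases ha (n + d) (hn d (Finset.mem_inter.1 hd).1) with h | h <;> rw [h] <;> simp
  calc _ = ((∏ d ∈ E ∩ E', a (n + d)) * (∏ d ∈ E ∩ E', a (n + d))) *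
        ((∏ x ∈ E \ E', a (n + x)) * ∏ x ∈ E' \ E, a (n + x)) := by ring
    _ = _ := by rw [h1, one_mul]

lemma bb_shift (E : Finset ℕ) (n h : ℕ) : bb a E (n + h) = bb a (E.image (· + h)) n := by
  unfold bb
  rw [prod_image (fun x _ y _ hxy => Nat.add_right_cancel hxy)]
  refine prod_congr rfl fun d _ => ?_
  congr 1
  omega

/-- exponential sums of products -/
lemma bb_sum (ha : ∀ n < N, a n = 1 ∨ a n = -1) (k : ℕ) (C : ℝ)
    (hC : ∀ D : Finset ℕ, D.Nonempty → D.card ≤ 2 * k → ∀ M : ℕ, (∀ d ∈ D, M + d ≤ N) →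
      |((∑ n ∈ range M, bb a D n : ℤ) : ℝ)| ≤ C)
    (E : Finset ℕ) (hE : E.Nonempty) (hEk : E.card ≤ k) (K : ℕ) (hK : ∀ d ∈ E, K + d ≤ N) (θ : ℝ) :
    ‖∑ n ∈ range K, (bb a E n : ℂ) * e (θ * n)‖ ^ 2 ≤ K + 2 * (K * C) := by
  apply vdc
  · intro n hn
    rw [norm_mul, norm_e, mul_one]
    have h1 := bb_abs ha E n (fun d hd => by have := hK d hd; omega)
    have h2 : ‖((bb a E n : ℤ) : ℂ)‖ = ((|bb a E n| : ℤ) : ℝ) := by
      rw [Complex.norm_intCast, Int.cast_abs]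
    rw [h2, h1]
    simp
  · intro h hh
    set D : Finset ℕ := (E.image (· + (h + 1)) \ E) ∪ (E \ E.image (· + (h + 1))) with hD
    have h1 : ∀ m ∈ range (K - 1 - h), ((bb a E (m + h + 1) : ℂ) * e (θ * ((m + h + 1 : ℕ) : ℝ))) *
        (starRingEnd ℂ) ((bb a E m : ℂ) * e (θ * m)) = e (θ * (h + 1)) * ((bb a D m : ℤ) : ℂ) := by
      intro m hm
      rw [mem_range] at hm
      have g1 : bb a D m = bb a E (m + h + 1) * bb a E m := by
        have : m + h + 1 = m + (h + 1) := by ring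
        rw [this, bb_shift, hD]
        rw [bb_mul (N := N) ha]
        intro d hd
        rw [mem_image] at hd
        obtain ⟨d', hd', rfl⟩ := hd
        have := hK d' hd'
        omega
      have g2 : e (θ * ((m + h + 1 : ℕ) : ℝ)) = e (θ * (h + 1)) * e (θ * m) := by
        rw [← e_add]
        congr 1
        push_cast
        ring
      have g3 : e (θ * m) * (starRingEnd ℂ) (e (θ * m)) = 1 := by
        rw [Complex.mul_conj, Complex.normSq_eq_norm_sq, norm_e]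
        simp
      rw [g1, g2, map_mul (starRingEnd ℂ), map_intCast (starRingEnd ℂ)]
      push_cast
      calc _ = e (θ * (h + 1)) * ((bb a E (m + h + 1) : ℂ) * (bb a E m : ℂ)) *
            (e (θ * m) * (starRingEnd ℂ) (e (θ * m))) := by ring
        _ = _ := by rw [g3, mul_one]
    rw [sum_congr rfl h1, ← mul_sum, norm_mul, norm_e, one_mul]
    have h2 := hC D (by
      refine ⟨E.max' hE + (h + 1), ?_⟩
      rw [hD, mem_union, Finset.mem_sdiff]
      left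
      refine ⟨mem_image.2 ⟨E.max' hE, E.max'_mem hE, rfl⟩, fun h3 => ?_⟩
      have := E.le_max' _ h3
      omega) (by
      rw [hD]
      refine (card_union_le _ _).trans ?_
      have g1 : (E.image (· + (h + 1)) \ E).card ≤ E.card := (card_le_card sdiff_subset).trans card_image_le
      have g2 : (E \ E.image (· + (h + 1))).card ≤ E.card := card_le_card sdiff_subset
      omega) (K - 1 - h) (by
      intro d hd
      rw [hD, mem_union, Finset.mem_sdiff, Finset.mem_sdiff] at hd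
      rcases hd with hd | hd
      · obtain ⟨d', hd', rfl⟩ := mem_image.1 hd.1
        have := hK d' hd'
        omega
      · have := hK d hd.1
        omega)
    rw [← Int.cast_sum, Complex.norm_intCast]
    exact h2

/-- the integers with a given pattern -/
def pat (a : ℕ → ℤ) {k : ℕ} (d : Fin k → ℕ) (s : Fin k → ℤ) (K : ℕ) : Finset ℕ :=
  (range K).filter (fun n => ∀ i, a (n + d i) = s i)

lemma pat_sum (ha : ∀ n < N, a n = 1 ∨ a n = -1) {k : ℕ} (d : Fin k → ℕ) (hd : Function.Injective d)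
    (s : Fin k → ℤ) (hs : ∀ i, s i = 1 ∨ s i = -1) (K : ℕ) (hK : ∀ i, K + d i ≤ N) (θ : ℝ) :
    (2 : ℂ) ^ k * ∑ n ∈ pat a d s K, e (θ * n) =
      ∑ I : Finset (Fin k), ((∏ i ∈ I, s i : ℤ) : ℂ) * ∑ n ∈ range K, (bb a (I.image d) n : ℂ) * e (θ * n) := by
  classical
  have h1 : ∀ n ∈ range K, ((∏ i, (1 + s i * a (n + d i)) : ℤ)) =
      if ∀ i, a (n + d i) = s i then 2 ^ k else 0 := by
    intro n hn
    rw [mem_range] at hn
    have h2 : ∀ i, s i * a (n + d i) = if a (n + d i) = s i then 1 else -1 := by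
      intro i
      rcases ha (n + d i) (by have := hK i; omega) with h | h <;> rcases hs i with h' | h' <;> rw [h, h'] <;> norm_num
    split_ifs with hall
    · rw [prod_congr rfl (fun i _ => by rw [h2 i, if_pos (hall i)]), prod_const, card_univ, Fintype.card_fin]
      norm_num
    · push Not at hall
      obtain ⟨i, hi⟩ := hall
      apply prod_eq_zero (mem_univ i)
      rw [h2, if_neg hi]
      norm_num
  have h3 : ∀ n : ℕ, (∏ i, (1 + s i * a (n + d i)) : ℤ) =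
      ∑ I : Finset (Fin k), (∏ i ∈ I, s i) * bb a (I.image d) n := by
    intro n
    rw [prod_one_add, ← powerset_univ]
    refine sum_congr rfl fun I _ => ?_
    unfold bb
    rw [prod_mul_distrib, prod_image (fun x _ y _ hxy => hd hxy)]
  unfold pat
  rw [sum_filter, mul_sum]
  have h4 : ∀ n ∈ range K, (2 : ℂ) ^ k * (if ∀ i, a (n + d i) = s i then e (θ * n) else 0) =
      ∑ I : Finset (Fin k), ((∏ i ∈ I, s i : ℤ) : ℂ) * ((bb a (I.image d) n : ℂ) * e (θ * n)) := by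
    intro n hn
    have h5 : (2 : ℂ) ^ k * (if ∀ i, a (n + d i) = s i then e (θ * n) else 0) =
        (((if ∀ i, a (n + d i) = s i then 2 ^ k else 0 : ℤ)) : ℂ) * e (θ * n) := by
      split_ifs
      · push_cast
        rfl
      · simp
    rw [h5, ← h1 n hn, h3 n]
    push_cast
    rw [sum_mul]
    refine sum_congr rfl fun I _ => ?_
    ring
  rw [sum_congr rfl h4, sum_comm]
  refine sum_congr rfl fun I _ => ?_
  rw [mul_sum]

/-- sums over the integers with a given pattern -/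
lemma pat_bound (ha : ∀ n < N, a n = 1 ∨ a n = -1) (k : ℕ) (C : ℝ) (hC0 : 0 ≤ C)
    (hC : ∀ D : Finset ℕ, D.Nonempty → D.card ≤ 2 * k → ∀ M : ℕ, (∀ d ∈ D, M + d ≤ N) →
      |((∑ n ∈ range M, bb a D n : ℤ) : ℝ)| ≤ C)
    (d : Fin k → ℕ) (hd : Function.Injective d) (s : Fin k → ℤ) (hs : ∀ i, s i = 1 ∨ s i = -1) (K : ℕ)
    (hK : ∀ i, K + d i ≤ N) (θ : ℝ) :
    ‖∑ n ∈ pat a d s K, e (θ * n) - (∑ n ∈ range K, e (θ * n)) / 2 ^ k‖ ≤ Real.sqrt (K + 2 * (K * C)) := by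
  classical
  have h1 := pat_sum ha d hd s hs K hK θ
  rw [← add_sum_erase univ _ (mem_univ (∅ : Finset (Fin k)))] at h1
  have h0 : ∑ n ∈ range K, (bb a ((∅ : Finset (Fin k)).image d) n : ℂ) * e (θ * n) = ∑ n ∈ range K, e (θ * n) := by
    refine sum_congr rfl fun n _ => ?_
    simp [bb]
  rw [h0, prod_empty, Int.cast_one, one_mul] at h1
  have h2 : ‖∑ I ∈ univ.erase (∅ : Finset (Fin k)), ((∏ i ∈ I, s i : ℤ) : ℂ) *
      ∑ n ∈ range K, (bb a (I.image d) n : ℂ) * e (θ * n)‖ ≤ 2 ^ k * Real.sqrt (K + 2 * (K * C)) := by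
    have g1 : ∀ I ∈ univ.erase (∅ : Finset (Fin k)), ‖((∏ i ∈ I, s i : ℤ) : ℂ) *
        ∑ n ∈ range K, (bb a (I.image d) n : ℂ) * e (θ * n)‖ ≤ Real.sqrt (K + 2 * (K * C)) := by
      intro I hI
      have hI0 : I.Nonempty := nonempty_iff_ne_empty.2 (ne_of_mem_erase hI)
      have g2 := bb_sum ha k C hC (I.image d) (hI0.image d) (card_image_le.trans (card_finset_fin_le I)) K (by
        intro x hx
        obtain ⟨i, _, rfl⟩ := mem_image.1 hx
        exact hK i) θ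
      have g3 : ‖((∏ i ∈ I, s i : ℤ) : ℂ)‖ = 1 := by
        rw [Complex.norm_intCast, ← Int.cast_abs, abs_prod, prod_eq_one]
        · simp
        · intro i _
          rcases hs i with h | h <;> rw [h] <;> simp
      rw [norm_mul, g3, one_mul]
      exact Real.le_sqrt_of_sq_le g2
    refine (norm_sum_le _ _).trans ((sum_le_sum g1).trans ?_)
    rw [sum_const, nsmul_eq_mul]
    apply mul_le_mul_of_nonneg_right _ (Real.sqrt_nonneg _)
    have : (univ.erase (∅ : Finset (Fin k))).card ≤ 2 ^ k := by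
      refine (card_le_card (erase_subset _ _)).trans (le_of_eq ?_)
      rw [card_univ, Fintype.card_finset, Fintype.card_fin]
    exact_mod_cast this
  have h3 : (2 : ℂ) ^ k * (∑ n ∈ pat a d s K, e (θ * n) - (∑ n ∈ range K, e (θ * n)) / 2 ^ k) =
      ∑ I ∈ univ.erase (∅ : Finset (Fin k)), ((∏ i ∈ I, s i : ℤ) : ℂ) *
        ∑ n ∈ range K, (bb a (I.image d) n : ℂ) * e (θ * n) := by
    rw [mul_sub, h1]
    field_simp
    ring
  have h4 : (2 : ℝ) ^ k * ‖∑ n ∈ pat a d s K, e (θ * n) - (∑ n ∈ range K, e (θ * n)) / 2 ^ k‖ ≤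
      2 ^ k * Real.sqrt (K + 2 * (K * C)) := by
    have : ‖(2 : ℂ) ^ k * (∑ n ∈ pat a d s K, e (θ * n) - (∑ n ∈ range K, e (θ * n)) / 2 ^ k)‖ =
        (2 : ℝ) ^ k * ‖∑ n ∈ pat a d s K, e (θ * n) - (∑ n ∈ range K, e (θ * n)) / 2 ^ k‖ := by
      rw [norm_mul, norm_pow, Complex.norm_ofNat]
    rw [← this, h3]
    exact h2
  exact le_of_mul_le_mul_left h4 (by positivity)

end seq

open Classical in
/-- **pseudorandom sequences** -/
theorem pseudo (δ : ℝ) (hδ : 0 < δ) (hδ1 : δ ≤ 1) (ε : ℝ) (hε : 0 < ε) : ∃ κ : ℝ, 0 < κ ∧ ∃ N₀ : ℕ, ∀ N : ℕ,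
    N₀ ≤ N → ∀ k : ℕ, (2 : ℝ) ^ k ≤ (N : ℝ) ^ (δ / 8) → ∀ a : ℕ → ℤ, (∀ n < N, a n = 1 ∨ a n = -1) →
      (∀ D : Finset ℕ, D.Nonempty → D.card ≤ 2 * k → ∀ M : ℕ, (∀ d ∈ D, M + d ≤ N) →
        |((∑ n ∈ range M, bb a D n : ℤ) : ℝ)| ≤ (N : ℝ) ^ (1 - δ)) →
      ∀ d : Fin k → ℕ, Function.Injective d → (∀ i, 2 * d i ≤ N) → ∀ s : Fin k → ℤ, (∀ i, s i = 1 ∨ s i = -1) →
        (N : ℝ) ^ (1 - ε) / 2 ^ k ≤
          (((pat a d s (N / 2)).filter (fun n : ℕ => ∀ q : ℕ, q.Prime → κ * ff N < |(q : ℝ) - n|)).card : ℝ) := by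
  obtain ⟨η, hη0, hηδ, hηε⟩ : ∃ η : ℝ, 0 < η ∧ η ≤ δ / 8 ∧ η ≤ ε / 2 :=
    ⟨min (δ / 8) (ε / 2), lt_min (by positivity) (by positivity), min_le_left _ _, min_le_right _ _⟩
  obtain ⟨κ, hκ, hcr⟩ := crit_many 1 le_rfl η hη0 (by linarith)
  refine ⟨κ, hκ, ?_⟩
  have e1 := (tendsto_natCast_atTop_atTop (R := ℝ)).eventually hcr
  have e2 := (tendsto_natCast_atTop_atTop (R := ℝ)).eventually
    ((tendsto_rpow_atTop (show (0 : ℝ) < δ / 4 by positivity)).eventually_ge_atTop 64)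
  have e3 := (tendsto_natCast_atTop_atTop (R := ℝ)).eventually
    ((tendsto_rpow_atTop (show (0 : ℝ) < ε / 2 by positivity)).eventually_ge_atTop 8)
  obtain ⟨N₀, hN₀⟩ := (e1.and (e2.and (e3.and (eventually_ge_atTop 16)))).exists_forall_of_atTop
  refine ⟨N₀, ?_⟩
  intro N hN k hk a ha hC d hd hdN s hs
  obtain ⟨hM, hQ, hε2, hN16⟩ := hN₀ N hN
  have hM16 : (16 : ℝ) ≤ N := by exact_mod_cast hN16
  have hM1 : (1 : ℝ) ≤ N := by linarith
  have hM0 : (0 : ℝ) < N := by linarith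
  have hmono : ∀ x y : ℝ, x ≤ y → (N : ℝ) ^ x ≤ (N : ℝ) ^ y := fun x y h =>
    Real.rpow_le_rpow_of_exponent_le hM1 h
  have hη1 : 1 ≤ (N : ℝ) ^ η := Real.one_le_rpow hM1 hη0.le
  obtain ⟨L, hL1, hL2⟩ : ∃ L : ℕ, (N : ℝ) ^ η ≤ L ∧ (L : ℝ) ≤ 2 * (N : ℝ) ^ η := by
    refine ⟨⌈(N : ℝ) ^ η⌉₊, Nat.le_ceil _, ?_⟩
    have := (Nat.ceil_lt_add_one (show 0 ≤ (N : ℝ) ^ η by positivity)).le
    linarith
  obtain ⟨K, hK⟩ : ∃ K : ℕ, K = N / 2 := ⟨_, rfl⟩
  have hKN : (N : ℝ) / 2 - 1 ≤ K := by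
    have h1 : N ≤ 2 * K + 1 := by omega
    have h2 : (N : ℝ) ≤ 2 * K + 1 := by exact_mod_cast h1
    linarith
  have hKN2 : (K : ℝ) ≤ N / 2 := by
    have h1 : 2 * K ≤ N := by omega
    have h2 : 2 * (K : ℝ) ≤ N := by exact_mod_cast h1
    linarith
  have hP0 : 0 < (N : ℝ) ^ (1 - δ / 2) := Real.rpow_pos_of_pos hM0 _
  have hCC : 0 < (N : ℝ) ^ (1 - δ) := Real.rpow_pos_of_pos hM0 _
  have hC1 : 1 ≤ (N : ℝ) ^ (1 - δ) := Real.one_le_rpow hM1 (by linarith)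
  have hPP : ((N : ℝ) ^ (1 - δ / 2)) ^ 2 = N * (N : ℝ) ^ (1 - δ) := by
    rw [← Real.rpow_natCast, ← Real.rpow_mul hM0.le]
    have : (N : ℝ) * (N : ℝ) ^ (1 - δ) = (N : ℝ) ^ (1 : ℝ) * (N : ℝ) ^ (1 - δ) := by rw [Real.rpow_one]
    rw [this, ← Real.rpow_add hM0]
    congr 1
    push_cast
    ring
  have hpb := pat_bound ha k ((N : ℝ) ^ (1 - δ)) hCC.le hC d hd s hs K (by
    intro i
    have := hdN i
    omega)
  have hsq : Real.sqrt (K + 2 * (K * (N : ℝ) ^ (1 - δ))) ≤ 2 * (N : ℝ) ^ (1 - δ / 2) := by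
    apply Real.sqrt_le_iff.2
    refine ⟨by positivity, ?_⟩
    have h1 : (K : ℝ) ≤ N := by linarith
    have h2 : (K : ℝ) * (N : ℝ) ^ (1 - δ) ≤ N / 2 * (N : ℝ) ^ (1 - δ) := mul_le_mul_of_nonneg_right hKN2 hCC.le
    have h3 : (2 * (N : ℝ) ^ (1 - δ / 2)) ^ 2 = 4 * (N * (N : ℝ) ^ (1 - δ)) := by rw [mul_pow, hPP]; norm_num
    rw [h3]
    nlinarith
  -- parameters
  have hηP : (N : ℝ) ^ η ≤ (N : ℝ) ^ (1 - δ / 2) := hmono _ _ (by linarith)
  have hk0 : (0 : ℝ) < 2 ^ k := by positivity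
  have hk1 : (1 : ℝ) ≤ 2 ^ k := one_le_pow₀ (by norm_num)
  have hPN : 64 * (2 ^ k * (N : ℝ) ^ (1 - δ / 2)) ≤ (N : ℝ) * (N : ℝ) ^ (-(δ / 8)) := by
    have h1 : (N : ℝ) * (N : ℝ) ^ (-(δ / 8)) = (N : ℝ) ^ (δ / 4) * ((N : ℝ) ^ (δ / 8) * (N : ℝ) ^ (1 - δ / 2)) := by
      have : (N : ℝ) * (N : ℝ) ^ (-(δ / 8)) = (N : ℝ) ^ (1 : ℝ) * (N : ℝ) ^ (-(δ / 8)) := by rw [Real.rpow_one]
      rw [this, ← Real.rpow_add hM0, ← Real.rpow_add hM0, ← Real.rpow_add hM0]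
      congr 1
      ring
    rw [h1]
    apply mul_le_mul hQ _ (by positivity) (by linarith)
    exact mul_le_mul_of_nonneg_right hk hP0.le
  have hδ8 : (N : ℝ) ^ (-(δ / 8)) ≤ (N : ℝ) ^ (-η) := hmono _ _ (by linarith)
  have hδ81 : (N : ℝ) ^ (-(δ / 8)) ≤ 1 := Real.rpow_le_one_of_one_le_of_nonpos hM1 (by linarith)
  have hδ80 : 0 < (N : ℝ) ^ (-(δ / 8)) := Real.rpow_pos_of_pos hM0 _
  set S : Finset ℕ := pat a d s K with hS
  set S' : Finset ℕ := S.filter (fun n => L ≤ n) with hS'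
  have hdiff : ((S \ S').card : ℝ) ≤ L := by
    have h1 : S \ S' ⊆ range L := by
      intro n hn
      rw [Finset.mem_sdiff, hS', mem_filter] at hn
      rw [mem_range]
      by_contra h2
      exact hn.2 ⟨hn.1, not_lt.1 h2⟩
    have h2 := card_le_card h1
    rw [card_range] at h2
    exact_mod_cast h2
  have hSS : (S'.card : ℝ) + (S \ S').card = S.card := by
    have h1 : S' ⊆ S := filter_subset _ _
    have h2 := card_sdiff_add_card_eq_card h1
    rw [← h2]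
    push_cast
    ring
  have hScard : (K : ℝ) / 2 ^ k - 2 * (N : ℝ) ^ (1 - δ / 2) ≤ S.card := by
    have h1 := (hpb 0).trans hsq
    have h2 : (∑ n ∈ pat a d s K, e (0 * n) - (∑ n ∈ range K, e (0 * n)) / 2 ^ k : ℂ) =
        (((S.card : ℝ) - (K : ℝ) / 2 ^ k : ℝ) : ℂ) := by
      rw [hS]
      simp [e_zero']
    rw [h2, Complex.norm_real, Real.norm_eq_abs] at h1
    have := (abs_le.1 h1).1
    linarith
  have hPk : (N : ℝ) ^ (1 - δ / 2) ≤ N * (N : ℝ) ^ (-(δ / 8)) / (64 * 2 ^ k) := by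
    rw [le_div_iff₀ (by positivity)]
    linarith
  have hPk2 : (N : ℝ) * (N : ℝ) ^ (-(δ / 8)) / (64 * 2 ^ k) ≤ N / (64 * 2 ^ k) := by
    apply div_le_div_of_nonneg_right _ (by positivity)
    nlinarith
  have hS'card : (N : ℝ) / (4 * 2 ^ k) ≤ S'.card := by
    have h1 : (N : ℝ) / (4 * 2 ^ k) = 16 * (N / (64 * 2 ^ k)) := by
      field_simp
      norm_num
    have h2 : (K : ℝ) / 2 ^ k ≥ (N / 2 - 1) / 2 ^ k := div_le_div_of_nonneg_right hKN hk0.le
    have h3 : ((N : ℝ) / 2 - 1) / 2 ^ k = 32 * (N / (64 * 2 ^ k)) - 1 / 2 ^ k := by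
      field_simp
      ring
    have h4 : (1 : ℝ) / 2 ^ k ≤ 1 := by
      rw [div_le_one hk0]
      exact hk1
    have h5 : (1 : ℝ) ≤ (N : ℝ) ^ (1 - δ / 2) := Real.one_le_rpow hM1 (by linarith)
    linarith
  have key := hM ℕ S' (fun n _ => (n : ℤ)) (by
    intro n hn _
    rw [hS', mem_filter] at hn
    refine hL1.trans ?_
    push_cast
    exact_mod_cast hn.2) (by
    intro q hq hqM h hh h0
    have hh0 : h 0 ≠ 0 := by
      intro h1
      apply h0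
      funext j
      rw [Subsingleton.elim j 0]
      exact h1
    have h1 : ∀ n ∈ S', e (∑ j : Fin 1, (h j : ℝ) * ((((n : ℕ) : ℤ) : ℝ) / q)) = e (((h 0 : ℝ) / q) * n) := by
      intro n _
      congr 1
      rw [Fin.sum_univ_one]
      push_cast
      ring
    rw [sum_congr rfl h1]
    have h2 := (hpb ((h 0 : ℝ) / q)).trans hsq
    have h3 : ‖∑ n ∈ range K, e (((h 0 : ℝ) / q) * n)‖ ≤ q := by
      have := norm_FF_rat 0 K q (h 0) hh0 (hh 0)
      unfold FF at this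
      rw [zero_add, Nat.Ico_zero_eq_range] at this
      exact this
    have h4 : ‖(∑ n ∈ range K, e (((h 0 : ℝ) / q) * n)) / 2 ^ k‖ ≤ q := by
      rw [norm_div, norm_pow, Complex.norm_ofNat]
      exact (div_le_self (norm_nonneg _) hk1).trans h3
    have h5 : ‖∑ n ∈ S, e (((h 0 : ℝ) / q) * n)‖ ≤ 2 * (N : ℝ) ^ (1 - δ / 2) + q := by
      have := norm_sub_norm_le (∑ n ∈ S, e (((h 0 : ℝ) / q) * n)) ((∑ n ∈ range K, e (((h 0 : ℝ) / q) * n)) / 2 ^ k)
      linarith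
    have h6 : ∑ n ∈ S', e (((h 0 : ℝ) / q) * n) = ∑ n ∈ S, e (((h 0 : ℝ) / q) * n) -
        ∑ n ∈ S \ S', e (((h 0 : ℝ) / q) * n) := by
      rw [← sum_sdiff (show S' ⊆ S from filter_subset _ _)]
      ring
    have h7 : ‖∑ n ∈ S \ S', e (((h 0 : ℝ) / q) * n)‖ ≤ (S \ S').card := by
      refine (norm_sum_le _ _).trans ?_
      simp [norm_e]
    have h8 : ‖∑ n ∈ S', e (((h 0 : ℝ) / q) * n)‖ ≤ 5 * (N : ℝ) ^ (1 - δ / 2) := by
      rw [h6]
      refine (norm_sub_le _ _).trans ?_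
      linarith
    refine h8.trans ?_
    have h9 : 5 * (N : ℝ) ^ (1 - δ / 2) ≤ (N : ℝ) / (4 * 2 ^ k) * (N : ℝ) ^ (-(δ / 8)) := by
      have : (N : ℝ) / (4 * 2 ^ k) * (N : ℝ) ^ (-(δ / 8)) = 16 * (N * (N : ℝ) ^ (-(δ / 8)) / (64 * 2 ^ k)) := by
        field_simp
        norm_num
      rw [this]
      linarith
    refine h9.trans (mul_le_mul hS'card hδ8 hδ80.le (Nat.cast_nonneg _)))
  have hsub : S'.filter (fun n => Iso (κ * ff N) ((fun n _ => (n : ℤ) : ℕ → Fin 1 → ℤ) n)) ⊆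
      S.filter (fun n : ℕ => ∀ q : ℕ, q.Prime → κ * ff N < |(q : ℝ) - n|) := by
    intro n hn
    rw [mem_filter] at hn ⊢
    refine ⟨(mem_filter.1 hn.1).1, fun q hq => ?_⟩
    have := hn.2 0 q hq
    push_cast at this
    exact this
  have h9 : ((S'.filter (fun n => Iso (κ * ff N) ((fun n _ => (n : ℤ) : ℕ → Fin 1 → ℤ) n))).card : ℝ) ≤
      (S.filter (fun n : ℕ => ∀ q : ℕ, q.Prime → κ * ff N < |(q : ℝ) - n|)).card := by
    exact_mod_cast card_le_card hsub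
  rw [← hK]
  refine le_trans ?_ (key.trans h9)
  have h10 : 4 * (N : ℝ) ^ (-ε) ≤ (N : ℝ) ^ (-η) := by
    have h11 : (N : ℝ) ^ (-ε) * (N : ℝ) ^ (ε / 2) ≤ (N : ℝ) ^ (-η) := by
      rw [← Real.rpow_add hM0]
      exact hmono _ _ (by linarith)
    have h12 : 0 < (N : ℝ) ^ (-ε) := Real.rpow_pos_of_pos hM0 _
    nlinarith
  have h13 : (N : ℝ) ^ (1 - ε) / 2 ^ k = N / (4 * 2 ^ k) * (4 * (N : ℝ) ^ (-ε)) := by
    rw [sub_eq_add_neg, Real.rpow_add hM0, Real.rpow_one]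
    field_simp
  rw [h13]
  exact mul_le_mul hS'card h10 (by positivity) (Nat.cast_nonneg _)

end Pool.Agent.Q46.MH
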