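import Pool.Agent.Q46.MH.Additive

set_option autoImplicit false

/-! # Residues modulo several primes -/

namespace Pool.Agent.Q46.MH

open Finset Filter
open Pool.Agent.H469R2.NK (e norm_e e_add)
open Pool.Agent.TH915.PW (e_int sum_char)
open Pool.Agent.W147.PS (ff ff_compare ev_pow)

section crt

variable {r : ℕ} (p : Fin r → ℕ)

/-- the product -/
def QQ : ℕ := ∏ i, p i

/-- the product of the others -/
def qq (i : Fin r) : ℕ := ∏ j ∈ univ.erase i, p j

lemma mul_qq (i : Fin r) : p i * qq p i = QQ p := mul_prod_erase univ p (mem_univ i)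

variable [∀ i, Fact (p i).Prime]

/-- the coefficient -/
def cc (i : Fin r) : ℕ := ((qq p i : ZMod (p i))⁻¹).val

/-- the integer with given residues -/
def nn (z : ∀ i, ZMod (p i)) : ℕ := (∑ i, (z i).val * (cc p i * qq p i)) % QQ p

variable {p}

lemma QQ_pos : 0 < QQ p := prod_pos fun i _ => (Fact.out : (p i).Prime).pos

lemma nn_lt (z : ∀ i, ZMod (p i)) : nn p z < QQ p := Nat.mod_lt _ QQ_pos

lemma qq_ne (hp : Function.Injective p) (i : Fin r) : ((qq p i : ℕ) : ZMod (p i)) ≠ 0 := by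
  rw [Ne, ZMod.natCast_eq_zero_iff]
  unfold qq
  intro h
  rw [(Fact.out : (p i).Prime).prime.dvd_finsetProd_iff] at h
  obtain ⟨j, hj, hd⟩ := h
  have h1 := (Nat.prime_dvd_prime_iff_eq (Fact.out : (p i).Prime) (Fact.out : (p j).Prime)).1 hd
  exact (ne_of_mem_erase hj) (hp h1.symm)

lemma nn_cast (hp : Function.Injective p) (z : ∀ i, ZMod (p i)) (i : Fin r) : ((nn p z : ℕ) : ZMod (p i)) = z i := by
  unfold nn
  have h1 : (((∑ i, (z i).val * (cc p i * qq p i)) % QQ p : ℕ) : ZMod (p i)) =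
      ((∑ i, (z i).val * (cc p i * qq p i) : ℕ) : ZMod (p i)) := by
    rw [ZMod.natCast_eq_natCast_iff]
    have h2 : p i ∣ QQ p := ⟨qq p i, (mul_qq p i).symm⟩
    exact (Nat.mod_modEq _ (QQ p)).of_dvd h2
  rw [h1]
  push_cast
  rw [sum_eq_single i]
  · unfold cc
    rw [ZMod.natCast_zmod_val, ZMod.natCast_zmod_val, inv_mul_cancel₀ (qq_ne hp i), mul_one]
  · intro j _ hji
    have h2 : ((qq p j : ℕ) : ZMod (p i)) = 0 := by
      rw [ZMod.natCast_eq_zero_iff]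
      exact dvd_prod_of_mem p (mem_erase.2 ⟨hji.symm, mem_univ i⟩)
    rw [h2, mul_zero, mul_zero]
  · intro h
    exact absurd (mem_univ i) h

lemma e_nn (z : ∀ i, ZMod (p i)) (h : ℕ) :
    e ((h : ℝ) * nn p z / QQ p) = ∏ i, (ZMod.stdAddChar (((h * cc p i : ℕ) : ZMod (p i)) * z i) : ℂ) := by
  have hQ : (0 : ℝ) < QQ p := by exact_mod_cast QQ_pos
  set S := ∑ i, (z i).val * (cc p i * qq p i) with hS
  have h1 : e ((h : ℝ) * nn p z / QQ p) = e ((h : ℝ) * S / QQ p) := by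
    obtain ⟨d, hd⟩ : ∃ d : ℕ, S = nn p z + QQ p * d := ⟨S / QQ p, (Nat.mod_add_div S (QQ p)).symm⟩
    have h2 : (S : ℝ) = nn p z + (QQ p : ℝ) * (d : ℝ) := by
      rw [hd]
      push_cast
      ring
    have h3 : (h : ℝ) * S / QQ p = (h : ℝ) * nn p z / QQ p + (((h * d : ℕ) : ℤ) : ℝ) := by
      rw [h2]
      push_cast
      field_simp
    rw [h3, e_add, e_int, mul_one]
  rw [h1]
  have h4 : (h : ℝ) * S / QQ p = ∑ i, ((h * cc p i : ℕ) : ℝ) * (z i).val / p i := by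
    rw [hS]
    push_cast
    rw [mul_sum, sum_div]
    refine sum_congr rfl fun i _ => ?_
    have h5 : ((QQ p : ℕ) : ℝ) = (p i : ℝ) * qq p i := by exact_mod_cast (mul_qq p i).symm
    have h6 : (p i : ℝ) ≠ 0 := by exact_mod_cast (Fact.out : (p i).Prime).ne_zero
    have h7 : (qq p i : ℝ) ≠ 0 := by
      intro h7
      rw [h7, mul_zero] at h5
      exact hQ.ne' h5
    rw [h5]
    field_simp
  rw [h4, ← prod_e]
  refine prod_congr rfl fun i _ => ?_
  rw [e_val]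

/-- the local sums -/
noncomputable def GG {q : ℕ} [Fact q.Prime] (F : ZMod q → ZMod q) (a t : ZMod q) : ℂ :=
  ∑ x : ZMod q, (ZMod.stdAddChar (a * x + t * F x) : ℂ)

lemma GG_le {q : ℕ} [Fact q.Prime] (F : ZMod q → ZMod q) (a t : ZMod q) : ‖GG F a t‖ ≤ q := by
  unfold GG
  refine (norm_sum_le _ _).trans ?_
  simp [ZMod.card]

lemma several_sum (F : ∀ i, ZMod (p i) → ZMod (p i)) (h₀ : ℕ) (h : Fin r → ℕ) :
    ∑ z : ∀ i, ZMod (p i), e ((h₀ : ℝ) * nn p z / QQ p) * ∏ i, e ((h i : ℝ) * (F i (z i)).val / p i) =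
      ∏ i, GG (F i) ((h₀ * cc p i : ℕ) : ZMod (p i)) ((h i : ℕ) : ZMod (p i)) := by
  classical
  unfold GG
  rw [prod_univ_sum, Fintype.piFinset_univ]
  refine sum_congr rfl fun z _ => ?_
  rw [e_nn, ← prod_mul_distrib]
  refine prod_congr rfl fun i _ => ?_
  rw [e_val, ← AddChar.map_add_eq_mul]

/-- the bound of the sums -/
lemma several_bound (hp : Function.Injective p) (F : ∀ i, ZMod (p i) → ZMod (p i)) (K B : ℝ) (hB0 : 0 ≤ B)
    (hF : ∀ i, ∀ a t : ZMod (p i), t ≠ 0 → ‖GG (F i) a t‖ ≤ K * Real.sqrt (p i))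
    (hB : ∀ i, K * Real.sqrt (p i) * qq p i ≤ B)
    (h₀ : ℕ) (h : Fin r → ℕ) (hh₀ : h₀ < QQ p) (hh : ∀ i, h i < p i) (h0 : h₀ ≠ 0 ∨ h ≠ 0) :
    ‖∑ z : ∀ i, ZMod (p i), e ((h₀ : ℝ) * nn p z / QQ p) * ∏ i, e ((h i : ℝ) * (F i (z i)).val / p i)‖ ≤ B := by
  classical
  rw [several_sum, norm_prod]
  by_cases hc : h = 0
  · have h1 : h₀ ≠ 0 := h0.resolve_right (fun h2 => h2 hc)
    have h2 : ∃ i, ¬ p i ∣ h₀ := by
      by_contra h3
      push Not at h3
      have h4 : QQ p ∣ h₀ := by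
        have h5 : QQ p = ∏ x ∈ univ.image p, x := by
          unfold QQ
          rw [prod_image (fun x _ y _ hxy => hp hxy)]
        rw [h5]
        apply Finset.prod_primes_dvd
        · intro a ha
          obtain ⟨i, _, rfl⟩ := mem_image.1 ha
          exact (Fact.out : (p i).Prime).prime
        · intro a ha
          obtain ⟨i, _, rfl⟩ := mem_image.1 ha
          exact h3 i
      exact absurd (Nat.le_of_dvd (Nat.pos_of_ne_zero h1) h4) (not_le.2 hh₀)
    obtain ⟨i, hi⟩ := h2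
    have h3 : GG (F i) ((h₀ * cc p i : ℕ) : ZMod (p i)) ((h i : ℕ) : ZMod (p i)) = 0 := by
      have h4 : ((h₀ * cc p i : ℕ) : ZMod (p i)) ≠ 0 := by
        push_cast
        unfold cc
        rw [ZMod.natCast_zmod_val]
        apply mul_ne_zero
        · rw [Ne, ZMod.natCast_eq_zero_iff]
          exact hi
        · exact inv_ne_zero (qq_ne hp i)
      unfold GG
      rw [hc]
      simp only [Pi.zero_apply, Nat.cast_zero, zero_mul, add_zero]
      exact sum_char_all h4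
    rw [prod_eq_zero (mem_univ i) (by rw [h3, norm_zero])]
    exact hB0
  · obtain ⟨i, hi⟩ := Function.ne_iff.1 hc
    have h1 : ((h i : ℕ) : ZMod (p i)) ≠ 0 := by
      rw [Ne, ZMod.natCast_eq_zero_iff]
      intro hd
      exact absurd (Nat.le_of_dvd (Nat.pos_of_ne_zero hi) hd) (not_le.2 (hh i))
    refine le_trans ?_ (hB i)
    rw [← mul_prod_erase univ _ (mem_univ i)]
    unfold qq
    push_cast
    apply mul_le_mul (hF i _ _ h1) _ (prod_nonneg fun _ _ => norm_nonneg _)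
      ((norm_nonneg _).trans (hF i 0 _ h1))
    exact prod_le_prod (fun _ _ => norm_nonneg _) fun j _ => GG_le _ _ _

end crt

section local_sums

open Polynomial

variable {q : ℕ} [Fact q.Prime]

lemma GG_eq (F : ZMod q → ZMod q) (a t : ZMod q) : GG F a t = SS q (fun x => F (x : ZMod q)) a.val t := by
  rw [SS_val]
  unfold GG
  refine sum_congr rfl fun z _ => ?_
  rw [e_val, e_val, ZMod.natCast_zmod_val, ZMod.natCast_zmod_val, ← AddChar.map_add_eq_mul]

lemma GG_poly (f : (ZMod q)[X]) (hf2 : 2 ≤ f.natDegree) (hfq : f.natDegree < q) (a t : ZMod q) (ht : t ≠ 0) :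
    ‖GG (fun x => f.eval x) a t‖ ≤ f.natDegree * Real.sqrt q := by
  rw [GG_eq]
  exact SS_poly f hf2 hfq a.val (ZMod.val_lt _) ht

lemma GG_inv (c : (ZMod q)ˣ) (a t : ZMod q) (ht : t ≠ 0) :
    ‖GG (fun x => (c : ZMod q) * x⁻¹) a t‖ ≤ 3 * Real.sqrt q := by
  rw [GG_eq]
  exact SS_inv c a.val (ZMod.val_lt _) ht

end local_sums

/-- **residues modulo several primes** -/
theorem several (r : ℕ) (K : ℝ) (hK : 1 ≤ K) (ε : ℝ) (hε : 0 < ε) (hε1 : ε ≤ 1) : ∃ κ : ℝ, 0 < κ ∧ ∃ Q₀ : ℕ,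
    ∀ p : Fin r → ℕ, ∀ [∀ i, Fact (p i).Prime], Function.Injective p → Q₀ ≤ QQ p →
      ∀ F : ∀ i, ZMod (p i) → ZMod (p i),
      (∀ i, ∀ a t : ZMod (p i), t ≠ 0 → ‖GG (F i) a t‖ ≤ K * Real.sqrt (p i)) →
      ∀ (A₀ N₀ : ℕ) (A N : Fin r → ℕ), A₀ + N₀ ≤ QQ p → (∀ i, A i + N i ≤ p i) →
        ((QQ p : ℕ) : ℝ) ^ ε ≤ N₀ → (∀ i, ((QQ p : ℕ) : ℝ) ^ ε ≤ N i) →
        (∀ i, ((QQ p : ℕ) : ℝ) ^ (2 + ε) ≤ (N₀ : ℝ) * (∏ i, (N i : ℝ)) * Real.sqrt (p i)) →
        ∃ G : Finset ℕ, (N₀ : ℝ) * (∏ i, (N i : ℝ)) * ((QQ p : ℕ) : ℝ) ^ (-(1 + ε)) ≤ G.card ∧ ∀ n ∈ G,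
          (A₀ ≤ n ∧ n < A₀ + N₀) ∧ (∀ i, A i ≤ (F i (n : ZMod (p i))).val ∧ (F i (n : ZMod (p i))).val < A i + N i) ∧
          (∀ q : ℕ, q.Prime → κ * ff (QQ p : ℕ) < |(q : ℝ) - n|) ∧
          ∀ i, ∀ q : ℕ, q.Prime → κ * ff (QQ p : ℕ) < |(q : ℝ) - (F i (n : ZMod (p i))).val| := by
  classical
  obtain ⟨κ, hκ, hg⟩ := graphR (r + 1) (by omega) (ε / 2) (by positivity) (by linarith)
  have e1 := (tendsto_natCast_atTop_atTop (R := ℝ)).eventually hg
  have e2 := (tendsto_natCast_atTop_atTop (R := ℝ)).eventually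
    ((tendsto_rpow_atTop (show (0 : ℝ) < ε / 2 by positivity)).eventually_ge_atTop K)
  obtain ⟨Q₀, hQ₀⟩ := (e1.and (e2.and (eventually_ge_atTop 2))).exists_forall_of_atTop
  refine ⟨κ, hκ, Q₀, ?_⟩
  intro p _ hp hpQ F hF A₀ N₀ A N hA0 hA hN0 hN hP
  obtain ⟨g1, g2, g3⟩ := hQ₀ (QQ p) hpQ
  set Q : ℕ := QQ p with hQ
  have hQr : (2 : ℝ) ≤ Q := by exact_mod_cast g3
  have hQ0 : (0 : ℝ) < Q := by linarith
  have hmono : ∀ x y : ℝ, x ≤ y → (Q : ℝ) ^ x ≤ (Q : ℝ) ^ y := fun x y h =>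
    Real.rpow_le_rpow_of_exponent_le (by linarith) h
  have hp0 : ∀ i, 0 < p i := fun i => (Fact.out : (p i).Prime).pos
  have hpQ' : ∀ i, p i ≤ Q := fun i => Nat.le_of_dvd QQ_pos ⟨qq p i, (mul_qq p i).symm⟩
  set m : Fin (r + 1) → ℕ := Fin.cons Q p with hm
  set x : (∀ i, ZMod (p i)) → Fin (r + 1) → ℕ := fun z => Fin.cons (nn p z) (fun i => (F i (z i)).val) with hx
  set A' : Fin (r + 1) → ℕ := Fin.cons A₀ A with hA'
  set N' : Fin (r + 1) → ℕ := Fin.cons N₀ N with hN'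
  have hcardU : ((univ : Finset (∀ i, ZMod (p i))).card : ℝ) = Q := by
    rw [card_univ, Fintype.card_pi]
    have : ∏ i, Fintype.card (ZMod (p i)) = Q := by
      rw [hQ]
      unfold QQ
      exact prod_congr rfl fun i _ => ZMod.card (p i)
    rw [this]
  have hprodp : ∏ i, (p i : ℝ) = Q := by
    rw [hQ]
    unfold QQ
    push_cast
    rfl
  set W : ℝ := (N₀ : ℝ) * (∏ i, (N i : ℝ)) / Q with hW
  have hW0 : 0 ≤ W := div_nonneg (mul_nonneg (Nat.cast_nonneg _) (prod_nonneg fun _ _ => Nat.cast_nonneg _)) hQ0.le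
  have hprod : (∏ j, (N' j : ℝ) / m j) * ((univ : Finset (∀ i, ZMod (p i))).card : ℝ) = W := by
    rw [Fin.prod_univ_succ, hcardU]
    simp only [hN', hm, Fin.cons_zero, Fin.cons_succ]
    rw [prod_div_distrib, hprodp, hW]
    field_simp
  have hB : ∀ i, K * Real.sqrt (p i) * qq p i ≤ K * W * (Q : ℝ) ^ (-ε) := by
    intro i
    have h1 := hP i
    have hs : 0 < Real.sqrt (p i) := Real.sqrt_pos.2 (by exact_mod_cast hp0 i)
    have h2 : ((Q : ℕ) : ℝ) = (p i : ℝ) * qq p i := by exact_mod_cast (mul_qq p i).symm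
    have h3 : Real.sqrt (p i) * qq p i * Real.sqrt (p i) = Q := by
      rw [h2]
      have := Real.mul_self_sqrt (show (0 : ℝ) ≤ p i from Nat.cast_nonneg _)
      calc _ = (Real.sqrt (p i) * Real.sqrt (p i)) * qq p i := by ring
        _ = _ := by rw [this]
    have h4 : Real.sqrt (p i) * qq p i ≤ W * (Q : ℝ) ^ (-ε) := by
      refine le_of_mul_le_mul_right ?_ hs
      rw [h3]
      have h5 : (Q : ℝ) ^ (2 + ε) * (Q : ℝ) ^ (-ε) = Q * Q := by
        rw [← Real.rpow_add hQ0]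
        have : 2 + ε + -ε = ((2 : ℕ) : ℝ) := by push_cast; ring
        rw [this, Real.rpow_natCast]
        ring
      have h6 := mul_le_mul_of_nonneg_right h1 (Real.rpow_nonneg hQ0.le (-ε))
      rw [h5] at h6
      have h7 : W * (Q : ℝ) ^ (-ε) * Real.sqrt (p i) =
          ((N₀ : ℝ) * (∏ i, (N i : ℝ)) * Real.sqrt (p i) * (Q : ℝ) ^ (-ε)) / Q := by
        rw [hW]
        field_simp
      rw [h7, le_div_iff₀ hQ0]
      exact h6
    calc K * Real.sqrt (p i) * qq p i = K * (Real.sqrt (p i) * qq p i) := by ring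
      _ ≤ K * (W * (Q : ℝ) ^ (-ε)) := mul_le_mul_of_nonneg_left h4 (by linarith)
      _ = _ := by ring
  have hB0 : 0 ≤ K * W * (Q : ℝ) ^ (-ε) :=
    mul_nonneg (mul_nonneg (by linarith) hW0) (Real.rpow_nonneg hQ0.le _)
  have key := g1 m
    (fun j => by
      refine Fin.cases ?_ (fun i => ?_) j
      · exact QQ_pos
      · exact hp0 i)
    (fun j => by
      refine Fin.cases ?_ (fun i => ?_) j
      · exact le_rfl
      · show ((p i : ℕ) : ℝ) ≤ Q
        exact_mod_cast hpQ' i)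
    (∀ i, ZMod (p i)) univ x
    (fun z _ j => by
      refine Fin.cases ?_ (fun i => ?_) j
      · exact nn_lt z
      · exact ZMod.val_lt _)
    (K * W * (Q : ℝ) ^ (-ε)) hB0
    (by
      intro h hh h0
      have h1 := several_bound hp F K _ hB0 hF hB (h 0) (fun i => h i.succ) (hh 0) (fun i => hh i.succ) (by
        by_contra hc
        push Not at hc
        apply h0
        funext j
        refine Fin.cases hc.1 (fun i => ?_) j
        exact congrFun hc.2 i)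
      refine le_trans (le_of_eq ?_) h1
      congr 1
      refine sum_congr rfl fun z _ => ?_
      rw [Fin.prod_univ_succ]
      rfl)
    A' N'
    (fun j => by
      refine Fin.cases ?_ (fun i => ?_) j
      · exact hA0
      · exact hA i)
    (fun j => by
      refine Fin.cases ?_ (fun i => ?_) j
      · exact (hmono _ _ (by linarith)).trans hN0
      · exact (hmono _ _ (by linarith)).trans (hN i))
    (by
      rw [hprod]
      have h1 : (Q : ℝ) ^ (-ε) * (Q : ℝ) ^ (ε / 2) * (Q : ℝ) ^ (ε / 2) = 1 := by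
        rw [← Real.rpow_add hQ0, ← Real.rpow_add hQ0]
        have : -ε + ε / 2 + ε / 2 = 0 := by ring
        rw [this, Real.rpow_zero]
      have h2 : 0 ≤ (Q : ℝ) ^ (-ε) * (Q : ℝ) ^ (ε / 2) := by positivity
      calc K * W * (Q : ℝ) ^ (-ε) * (Q : ℝ) ^ (ε / 2) = W * (((Q : ℝ) ^ (-ε) * (Q : ℝ) ^ (ε / 2)) * K) := by ring
        _ ≤ W * (((Q : ℝ) ^ (-ε) * (Q : ℝ) ^ (ε / 2)) * (Q : ℝ) ^ (ε / 2)) := by
            apply mul_le_mul_of_nonneg_left _ hW0
            exact mul_le_mul_of_nonneg_left g2 h2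
        _ = W := by rw [h1, mul_one])
  set G0 := goodR (κ * ff Q) (univ : Finset (∀ i, ZMod (p i))) x A' N' with hG0
  refine ⟨G0.image (nn p), ?_, ?_⟩
  · rw [card_image_of_injective]
    · refine le_trans ?_ key
      rw [hprod]
      have h1 : (Q : ℝ) ^ (-(1 + ε)) = 1 / Q * (Q : ℝ) ^ (-ε) := by
        rw [neg_add, Real.rpow_add hQ0, Real.rpow_neg_one, one_div]
      rw [h1, hW]
      calc _ = (N₀ : ℝ) * (∏ i, (N i : ℝ)) / Q * (Q : ℝ) ^ (-ε) := by ring
        _ ≤ _ := mul_le_mul_of_nonneg_left (hmono _ _ (by linarith)) hW0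
    · intro z w hzw
      funext i
      rw [← nn_cast hp z i, hzw, nn_cast hp w i]
  · intro n hn
    obtain ⟨z, hz, rfl⟩ := mem_image.1 hn
    rw [hG0] at hz
    unfold goodR at hz
    rw [mem_filter] at hz
    refine ⟨mem_Ico.1 (hz.2.1 0), fun i => ?_, hz.2.2 0, fun i => ?_⟩
    · rw [nn_cast hp z i]
      exact mem_Ico.1 (hz.2.1 i.succ)
    · rw [nn_cast hp z i]
      exact hz.2.2 i.succ

end Pool.Agent.Q46.MH
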