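import Pool.Agent.Q46.MH.Graph

set_option autoImplicit false

/-! # Exponential sums over dense Sidon sets -/

namespace Pool.Agent.Q46.MH

open Finset Filter
open Pool.Agent.H469R2.NK (e norm_e e_add)
open Pool.Agent.TH915.PW (e_int sum_char)
open Pool.Agent.W147.PS (ff ff_compare ev_pow)
open Pool.Agent.Y961.JR

section abstract

variable {V : Type} [AddCommGroup V] [DecidableEq V]

/-- all sums of two elements are different -/
def Sidon (A : Finset V) : Prop := ∀ a ∈ A, ∀ b ∈ A, ∀ c ∈ A, ∀ d ∈ A, a + b = c + d →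
  (a = c ∧ b = d) ∨ (a = d ∧ b = c)

/-- the number of solutions of `a + s = b + t` -/
def RR (A : Finset V) (s t : V) : ℕ := ((A ×ˢ A).filter (fun z => z.1 + s = z.2 + t)).card

lemma RR_le {A : Finset V} (hA : Sidon A) {s t : V} (h : s ≠ t) : RR A s t ≤ 1 := by
  unfold RR
  rw [card_le_one]
  rintro ⟨a, b⟩ hz ⟨c, d⟩ hw
  rw [mem_filter, mem_product] at hz hw
  simp only at hz hw
  have h1 : a + d = c + b := by
    have e1 : a - b = t - s := by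
      rw [sub_eq_sub_iff_add_eq_add, hz.2, add_comm]
    have e2 : c - d = t - s := by
      rw [sub_eq_sub_iff_add_eq_add, hw.2, add_comm]
    have e3 : a - b = c - d := e1.trans e2.symm
    rwa [sub_eq_sub_iff_add_eq_add] at e3
  rcases hA a hz.1.1 d hw.1.2 c hw.1.1 b hz.1.2 h1 with h2 | h2
  · rw [h2.1, h2.2]
  · exfalso
    apply h
    have := hz.2
    rw [h2.1] at this
    exact add_left_cancel this

lemma RR_self (A : Finset V) (s : V) : RR A s s = A.card := by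
  unfold RR
  have : (A ×ˢ A).filter (fun z => z.1 + s = z.2 + s) = A.image (fun a => (a, a)) := by
    ext ⟨a, b⟩
    rw [mem_filter, mem_product, mem_image]
    simp only [Prod.mk.injEq, add_left_inj]
    constructor
    · rintro ⟨⟨h1, h2⟩, h3⟩
      exact ⟨a, h1, rfl, h3⟩
    · rintro ⟨c, h1, h2, h3⟩
      subst h2
      subst h3
      exact ⟨⟨h1, h1⟩, rfl⟩
  rw [this, card_image_of_injective]
  intro a b h
  exact (Prod.mk.inj h).1

/-- the sum over the members of the window at `y` -/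
noncomputable def WS (A U : Finset V) (χ : V → ℂ) (y : V) : ℂ :=
  ∑ z ∈ (A ×ˢ U).filter (fun z => z.1 + z.2 = y), χ z.1

lemma sum_WS (A U Y : Finset V) (hY : ∀ a ∈ A, ∀ s ∈ U, a + s ∈ Y) (χ : V → ℂ) :
    ∑ y ∈ Y, WS A U χ y = U.card * ∑ a ∈ A, χ a := by
  unfold WS
  have h1 : ∀ z ∈ A ×ˢ U, z.1 + z.2 ∈ Y := fun z hz => hY z.1 (mem_product.1 hz).1 z.2 (mem_product.1 hz).2
  rw [sum_fiberwise_of_maps_to h1, sum_product, mul_sum]
  refine sum_congr rfl fun a _ => ?_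
  show ∑ _s ∈ U, χ a = _
  rw [sum_const, nsmul_eq_mul]

lemma energy_WS (A U Y : Finset V) (hY : ∀ a ∈ A, ∀ s ∈ U, a + s ∈ Y) (χ : V → ℂ)
    (hm : ∀ a b, χ (a + b) = χ a * χ b) (hn : ∀ a, ‖χ a‖ = 1) :
    ((∑ y ∈ Y, ‖WS A U χ y‖ ^ 2 : ℝ) : ℂ) =
      ∑ s ∈ U, ∑ t ∈ U, (RR A s t : ℂ) * (χ t * (starRingEnd ℂ) (χ s)) := by
  have hcc : ∀ a, χ a * (starRingEnd ℂ) (χ a) = 1 := by
    intro a
    rw [Complex.mul_conj, Complex.normSq_eq_norm_sq, hn]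
    simp
  have h1 : ∀ y ∈ Y, ((‖WS A U χ y‖ ^ 2 : ℝ) : ℂ) = ∑ z ∈ A ×ˢ U, ∑ w ∈ A ×ˢ U,
      (if z.1 + z.2 = y then (if w.1 + w.2 = y then χ z.1 * (starRingEnd ℂ) (χ w.1) else 0) else 0) := by
    intro y _
    have h2 : ((‖WS A U χ y‖ ^ 2 : ℝ) : ℂ) = WS A U χ y * (starRingEnd ℂ) (WS A U χ y) := by
      rw [Complex.mul_conj, Complex.normSq_eq_norm_sq]
    rw [h2]
    unfold WS
    rw [map_sum, sum_mul_sum, sum_filter]
    refine sum_congr rfl fun z _ => ?_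
    split_ifs
    · rw [sum_filter]
    · simp
  rw [Complex.ofReal_sum, sum_congr rfl h1, sum_comm]
  have h3 : ∀ z ∈ A ×ˢ U, ∑ y ∈ Y, ∑ w ∈ A ×ˢ U,
      (if z.1 + z.2 = y then (if w.1 + w.2 = y then χ z.1 * (starRingEnd ℂ) (χ w.1) else 0) else 0) =
      ∑ w ∈ A ×ˢ U, if z.1 + z.2 = w.1 + w.2 then χ w.2 * (starRingEnd ℂ) (χ z.2) else 0 := by
    intro z hz
    rw [sum_comm]
    refine sum_congr rfl fun w _ => ?_
    rw [sum_ite_eq, if_pos (hY z.1 (mem_product.1 hz).1 z.2 (mem_product.1 hz).2)]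
    by_cases h4 : w.1 + w.2 = z.1 + z.2
    · rw [if_pos h4, if_pos h4.symm]
      have h5 : χ z.1 * χ z.2 = χ w.1 * χ w.2 := by rw [← hm, ← hm, h4]
      calc χ z.1 * (starRingEnd ℂ) (χ w.1) = (χ z.1 * χ z.2) * (starRingEnd ℂ) (χ z.2) * (starRingEnd ℂ) (χ w.1) := by
            linear_combination (-(χ z.1 * (starRingEnd ℂ) (χ w.1))) * hcc z.2
        _ = χ w.2 * (starRingEnd ℂ) (χ z.2) := by
            rw [h5]
            linear_combination (χ w.2 * (starRingEnd ℂ) (χ z.2)) * hcc w.1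
    · rw [if_neg h4, if_neg (fun h => h4 h.symm)]
  rw [sum_congr rfl h3]
  have h4 : ∑ z ∈ A ×ˢ U, ∑ w ∈ A ×ˢ U, (if z.1 + z.2 = w.1 + w.2 then χ w.2 * (starRingEnd ℂ) (χ z.2) else 0) =
      ∑ a ∈ A, ∑ s ∈ U, ∑ b ∈ A, ∑ t ∈ U, (if a + s = b + t then χ t * (starRingEnd ℂ) (χ s) else 0) := by
    rw [sum_product]
    refine sum_congr rfl fun a _ => sum_congr rfl fun s _ => ?_
    rw [sum_product]
  rw [h4, sum_comm]
  refine sum_congr rfl fun s _ => ?_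
  have h5 : ∀ a ∈ A, ∑ b ∈ A, ∑ t ∈ U, (if a + s = b + t then χ t * (starRingEnd ℂ) (χ s) else 0) =
      ∑ t ∈ U, ∑ b ∈ A, (if a + s = b + t then χ t * (starRingEnd ℂ) (χ s) else 0) := fun a _ => sum_comm
  rw [sum_congr rfl h5, sum_comm]
  refine sum_congr rfl fun t _ => ?_
  have h6 : ((RR A s t : ℕ) : ℂ) = ∑ a ∈ A, ∑ b ∈ A, (if a + s = b + t then (1 : ℂ) else 0) := by
    unfold RR
    rw [← sum_product' A A (fun a b => if a + s = b + t then (1 : ℂ) else 0), card_filter]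
    push_cast
    rfl
  rw [h6, sum_mul]
  refine sum_congr rfl fun a _ => ?_
  rw [sum_mul]
  refine sum_congr rfl fun b _ => ?_
  split_ifs <;> simp

/-- **exponential sums over Sidon sets** -/
lemma sidon_abs (A U Y : Finset V) (hA : Sidon A) (hY : ∀ a ∈ A, ∀ s ∈ U, a + s ∈ Y) (χ : V → ℂ)
    (hm : ∀ a b, χ (a + b) = χ a * χ b) (hn : ∀ a, ‖χ a‖ = 1) :
    (U.card : ℝ) ^ 2 * ‖∑ a ∈ A, χ a‖ ^ 2 + (U.card : ℝ) ^ 2 * A.card ^ 2 ≤
      Y.card * (‖∑ s ∈ U, χ s‖ ^ 2 + (U.card : ℝ) ^ 2 + 2 * A.card * U.card) := by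
  set E : ℝ := ∑ y ∈ Y, ‖WS A U χ y‖ ^ 2 with hE
  set E1 : ℝ := ∑ y ∈ Y, ‖WS A U (fun _ => (1 : ℂ)) y‖ ^ 2 with hE1
  have hCS : ∀ ψ : V → ℂ, (U.card : ℝ) ^ 2 * ‖∑ a ∈ A, ψ a‖ ^ 2 ≤ Y.card * ∑ y ∈ Y, ‖WS A U ψ y‖ ^ 2 := by
    intro ψ
    have h1 : (U.card : ℝ) * ‖∑ a ∈ A, ψ a‖ ≤ ∑ y ∈ Y, ‖WS A U ψ y‖ := by
      have h2 := congrArg norm (sum_WS A U Y hY ψ)
      rw [norm_mul, Complex.norm_natCast] at h2
      rw [← h2]
      exact norm_sum_le _ _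
    calc (U.card : ℝ) ^ 2 * ‖∑ a ∈ A, ψ a‖ ^ 2 = ((U.card : ℝ) * ‖∑ a ∈ A, ψ a‖) ^ 2 := by ring
      _ ≤ (∑ y ∈ Y, ‖WS A U ψ y‖) ^ 2 := pow_le_pow_left₀ (by positivity) h1 2
      _ ≤ _ := sq_sum_le_card_mul_sum_sq
  have h1 := hCS χ
  have h2 := hCS (fun _ => 1)
  have h3 : ‖∑ a ∈ A, (1 : ℂ)‖ = A.card := by simp
  rw [h3] at h2
  -- the difference of the energies
  have hEc := energy_WS A U Y hY χ hm hn
  have hE1c := energy_WS A U Y hY (fun _ => (1 : ℂ)) (fun _ _ => by simp) (fun _ => by simp)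
  have hE1r : E1 = ∑ s ∈ U, ∑ t ∈ U, (RR A s t : ℝ) := by
    have : (E1 : ℂ) = ((∑ s ∈ U, ∑ t ∈ U, (RR A s t : ℝ) : ℝ) : ℂ) := by
      rw [hE1, hE1c]
      push_cast
      refine sum_congr rfl fun s _ => sum_congr rfl fun t _ => ?_
      simp
    exact_mod_cast this
  have hkey : E ≤ ‖∑ s ∈ U, χ s‖ ^ 2 + ((U.card : ℝ) ^ 2 - E1 + 2 * A.card * U.card) := by
    have g1 : (E : ℂ) = (∑ s ∈ U, χ s) * (starRingEnd ℂ) (∑ s ∈ U, χ s) +
        ∑ s ∈ U, ∑ t ∈ U, ((RR A s t : ℂ) - 1) * (χ t * (starRingEnd ℂ) (χ s)) := by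
      rw [hE, hEc, map_sum, mul_comm (∑ s ∈ U, χ s), sum_mul_sum, ← sum_add_distrib]
      refine sum_congr rfl fun s _ => ?_
      rw [← sum_add_distrib]
      refine sum_congr rfl fun t _ => ?_
      ring
    have g2 : E = ‖(E : ℂ)‖ := by
      rw [Complex.norm_real, Real.norm_eq_abs, abs_of_nonneg]
      exact sum_nonneg fun _ _ => by positivity
    rw [g2, g1]
    refine (norm_add_le _ _).trans ?_
    rw [norm_mul, RCLike.norm_conj, ← sq]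
    apply add_le_add le_rfl
    have g3 : ∀ s ∈ U, ∀ t ∈ U, ‖((RR A s t : ℂ) - 1) * (χ t * (starRingEnd ℂ) (χ s))‖ ≤
        (1 - (RR A s t : ℝ)) + (if s = t then 2 * (A.card : ℝ) else 0) := by
      intro s _ t _
      rw [norm_mul, norm_mul, RCLike.norm_conj, hn, hn, mul_one, mul_one]
      have g4 : ‖((RR A s t : ℂ) - 1)‖ = |(RR A s t : ℝ) - 1| := by
        rw [← Real.norm_eq_abs, ← Complex.norm_real]
        push_cast
        rfl
      rw [g4]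
      split_ifs with hst
      · subst hst
        rw [RR_self]
        have : (0 : ℝ) ≤ A.card := Nat.cast_nonneg _
        rw [abs_le]
        constructor <;> linarith
      · have h5 : (RR A s t : ℝ) ≤ 1 := by exact_mod_cast RR_le hA hst
        rw [abs_of_nonpos (by linarith)]
        linarith
    refine (norm_sum_le _ _).trans ((sum_le_sum fun s _ => norm_sum_le _ _).trans
      ((sum_le_sum fun s hs => sum_le_sum fun t ht => g3 s hs t ht).trans (le_of_eq ?_)))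
    rw [hE1r]
    simp_rw [sum_add_distrib, sum_sub_distrib]
    have g5 : ∑ s ∈ U, ∑ t ∈ U, (if s = t then 2 * (A.card : ℝ) else 0) = 2 * A.card * U.card := by
      have : ∀ s ∈ U, ∑ t ∈ U, (if s = t then 2 * (A.card : ℝ) else 0) = 2 * A.card := by
        intro s hs
        rw [sum_ite_eq, if_pos hs]
      rw [sum_congr rfl this, sum_const, nsmul_eq_mul]
      ring
    rw [g5]
    simp only [sum_const, nsmul_eq_mul, mul_one]
    ring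
  have hYc : (0 : ℝ) ≤ Y.card := Nat.cast_nonneg _
  have h4 : (Y.card : ℝ) * E ≤ Y.card * (‖∑ s ∈ U, χ s‖ ^ 2 + ((U.card : ℝ) ^ 2 - E1 + 2 * A.card * U.card)) :=
    mul_le_mul_of_nonneg_left hkey hYc
  nlinarith

end abstract

section box

variable {r : ℕ}

/-- the box of sides `u` -/
def bx (r u : ℕ) : Finset (Fin r → ℤ) :=
  (Fintype.piFinset fun _ : Fin r => range u).map
    ⟨fun v j => (v j : ℤ), fun v w h => funext fun j => Int.ofNat.inj (congrFun h j)⟩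

lemma card_bx (r u : ℕ) : (bx r u).card = u ^ r := by
  unfold bx
  rw [card_map, Fintype.card_piFinset]
  simp

/-- the character `x ↦ e (∑ h_j x_j / q)` -/
noncomputable def ch (q : ℕ) (h : Fin r → ℕ) (x : Fin r → ℤ) : ℂ := e (∑ j, (h j : ℝ) * (x j / q))

lemma ch_add (q : ℕ) (h : Fin r → ℕ) (x y : Fin r → ℤ) : ch q h (x + y) = ch q h x * ch q h y := by
  unfold ch
  rw [← e_add]
  congr 1
  rw [← sum_add_distrib]
  refine sum_congr rfl fun j _ => ?_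
  rw [Pi.add_apply]
  push_cast
  ring

lemma norm_ch (q : ℕ) (h : Fin r → ℕ) (x : Fin r → ℤ) : ‖ch q h x‖ = 1 := norm_e _

lemma sum_bx (u q : ℕ) (h : Fin r → ℕ) (hh : ∀ j, h j < q) (h0 : h ≠ 0) :
    ‖∑ s ∈ bx r u, ch q h s‖ * u ≤ q * (u : ℝ) ^ r := by
  have h1 : ∑ s ∈ bx r u, ch q h s = ∏ j, FF 0 u ((h j : ℝ) / q) := by
    unfold bx FF
    rw [sum_map, prod_univ_sum]
    have : (Fintype.piFinset fun _ : Fin r => Ico 0 (0 + u)) = Fintype.piFinset fun _ : Fin r => range u := by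
      congr 1
      funext j
      rw [zero_add, Nat.Ico_zero_eq_range]
    rw [this]
    refine sum_congr rfl fun v _ => ?_
    simp only [Function.Embedding.coeFn_mk, ch]
    rw [e_sum]
    refine prod_congr rfl fun j _ => ?_
    congr 1
    push_cast
    ring
  rw [h1, norm_prod]
  obtain ⟨j0, hj0⟩ := Function.ne_iff.1 h0
  rw [← mul_prod_erase univ _ (mem_univ j0)]
  have h2 := norm_FF_rat 0 u q (h j0) hj0 (hh j0)
  have h3 : ∏ j ∈ univ.erase j0, ‖FF 0 u ((h j : ℝ) / q)‖ ≤ (u : ℝ) ^ (r - 1) := by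
    refine (prod_le_prod (fun _ _ => norm_nonneg _) fun j _ => norm_FF_le 0 u ((h j : ℝ) / q)).trans ?_
    rw [prod_const, card_erase_of_mem (mem_univ _), card_univ, Fintype.card_fin]
  have hr : 0 < r := lt_of_le_of_lt (Nat.zero_le _) j0.2
  have h4 : (u : ℝ) ^ r = (u : ℝ) ^ (r - 1) * u := by
    rw [← pow_succ]
    congr 1
    omega
  rw [h4]
  have hu : (0 : ℝ) ≤ u := Nat.cast_nonneg _
  calc ‖FF 0 u ((h j0 : ℝ) / q)‖ * (∏ j ∈ univ.erase j0, ‖FF 0 u ((h j : ℝ) / q)‖) * u ≤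
        (q * (u : ℝ) ^ (r - 1)) * u := by
        apply mul_le_mul_of_nonneg_right _ hu
        exact mul_le_mul h2 h3 (prod_nonneg fun _ _ => norm_nonneg _) (Nat.cast_nonneg _)
    _ = _ := by ring

/-- exponential sums over Sidon sets in a box -/
lemma sidon_box (A : Finset (Fin r → ℤ)) (hA : Sidon A) (n u q : ℕ) (hu : 1 ≤ u)
    (hAn : ∀ a ∈ A, ∀ j, 1 ≤ a j ∧ a j ≤ n) (h : Fin r → ℕ) (hh : ∀ j, h j < q) (h0 : h ≠ 0) :
    ‖∑ a ∈ A, ch q h a‖ ^ 2 + (A.card : ℝ) ^ 2 ≤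
      ((n : ℝ) + u) ^ r * ((q : ℝ) ^ 2 / u ^ 2 + 1 + 2 * A.card / (u : ℝ) ^ r) := by
  set Y : Finset (Fin r → ℤ) := Fintype.piFinset (fun _ => Icc (1 : ℤ) (n + u)) with hY
  have hYc : (Y.card : ℝ) = ((n : ℝ) + u) ^ r := by
    rw [hY, Fintype.card_piFinset]
    simp only [prod_const, Int.card_Icc, card_univ, Fintype.card_fin]
    have : ((n : ℤ) + u + 1 - 1).toNat = n + u := by omega
    rw [this]
    push_cast
    ring
  have h1 := sidon_abs A (bx r u) Y hA (by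
    intro a ha s hs
    rw [hY, Fintype.mem_piFinset]
    intro j
    unfold bx at hs
    rw [Finset.mem_map] at hs
    obtain ⟨v, hv, rfl⟩ := hs
    rw [Fintype.mem_piFinset] at hv
    have h2 := mem_range.1 (hv j)
    have h3 := hAn a ha j
    rw [mem_Icc, Pi.add_apply]
    simp only [Function.Embedding.coeFn_mk]
    omega) (ch q h) (ch_add q h) (norm_ch q h)
  rw [card_bx, hYc] at h1
  push_cast at h1
  have hu0 : (0 : ℝ) < u := by exact_mod_cast hu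
  have hU0 : (0 : ℝ) < (u : ℝ) ^ r := by positivity
  set U : ℝ := (u : ℝ) ^ r with hU
  have h2 : ‖∑ s ∈ bx r u, ch q h s‖ ^ 2 ≤ (q : ℝ) ^ 2 / u ^ 2 * U ^ 2 := by
    have h3 := sum_bx u q h hh h0
    have h4 : ‖∑ s ∈ bx r u, ch q h s‖ ≤ q * U / u := by rwa [le_div_iff₀ hu0]
    calc _ ≤ ((q : ℝ) * U / u) ^ 2 := pow_le_pow_left₀ (norm_nonneg _) h4 2
      _ = _ := by field_simp
  have hn0 : (0 : ℝ) ≤ ((n : ℝ) + u) ^ r := by positivity
  have h5 : U ^ 2 * (‖∑ a ∈ A, ch q h a‖ ^ 2 + (A.card : ℝ) ^ 2) ≤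
      U ^ 2 * (((n : ℝ) + u) ^ r * ((q : ℝ) ^ 2 / u ^ 2 + 1 + 2 * A.card / U)) := by
    calc _ = U ^ 2 * ‖∑ a ∈ A, ch q h a‖ ^ 2 + U ^ 2 * (A.card : ℝ) ^ 2 := by ring
      _ ≤ _ := h1
      _ ≤ ((n : ℝ) + u) ^ r * ((q : ℝ) ^ 2 / u ^ 2 * U ^ 2 + U ^ 2 + 2 * A.card * U) :=
          mul_le_mul_of_nonneg_left (by linarith) hn0
      _ = _ := by field_simp
  exact le_of_mul_le_mul_left h5 (by positivity)

/-- Sidon sets in slabs are small -/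
lemma sidon_slab (A : Finset (Fin r → ℤ)) (hA : Sidon A) (n L : ℕ) (hn : 1 ≤ n) (hL : 1 ≤ L)
    (j0 : Fin r) (hAn : ∀ a ∈ A, ∀ j, 1 ≤ a j ∧ a j ≤ n) (hAL : ∀ a ∈ A, a j0 ≤ L) :
    (A.card : ℝ) ^ 2 ≤ 2 * (2 * L * (2 * (n : ℝ)) ^ (r - 1)) := by
  classical
  set D : Finset (Fin r → ℤ) := Fintype.piFinset (fun j => if j = j0 then Ioo (-(L : ℤ)) L else Ioo (-(n : ℤ)) n)
    with hD
  have hDc : (D.card : ℝ) ≤ 2 * L * (2 * (n : ℝ)) ^ (r - 1) := by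
    have h1 : D.card ≤ (2 * L) * (2 * n) ^ (r - 1) := by
      rw [hD, Fintype.card_piFinset, ← mul_prod_erase univ _ (mem_univ j0), if_pos rfl]
      apply Nat.mul_le_mul
      · rw [Int.card_Ioo]
        omega
      · calc _ ≤ ∏ j ∈ univ.erase j0, (2 * n) := by
              apply prod_le_prod' 
              intro j hj
              rw [if_neg (ne_of_mem_erase hj), Int.card_Ioo]
              omega
          _ = _ := by
              rw [prod_const, card_erase_of_mem (mem_univ _), card_univ, Fintype.card_fin]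
    exact_mod_cast h1
  have hoff : A.offDiag.card ≤ D.card := by
    apply card_le_card_of_injOn (fun z => z.1 - z.2)
    · intro z hz
      rw [mem_coe, mem_offDiag] at hz
      rw [mem_coe, hD, Fintype.mem_piFinset]
      intro j
      have h1 := hAn z.1 hz.1 j
      have h2 := hAn z.2 hz.2.1 j
      split_ifs with hj
      · subst hj
        have h3 := hAL z.1 hz.1
        have h4 := hAL z.2 hz.2.1
        rw [mem_Ioo]
        simp only [Pi.sub_apply]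
        omega
      · rw [mem_Ioo]
        simp only [Pi.sub_apply]
        omega
    · rintro ⟨a, b⟩ hz ⟨c, d⟩ hw heq
      rw [mem_coe, mem_offDiag] at hz hw
      simp only at hz hw heq
      have h1 : a + d = c + b := by rwa [sub_eq_sub_iff_add_eq_add] at heq
      rcases hA a hz.1 d hw.2.1 c hw.1 b hz.2.1 h1 with h2 | h2
      · rw [h2.1, h2.2]
      · exact absurd h2.1 hz.2.2
  rw [offDiag_card] at hoff
  have hL1 : (1 : ℝ) ≤ L := by exact_mod_cast hL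
  have hn1 : (1 : ℝ) ≤ n := by exact_mod_cast hn
  have hD1 : (1 : ℝ) ≤ 2 * L * (2 * (n : ℝ)) ^ (r - 1) := by
    have : (1 : ℝ) ≤ (2 * (n : ℝ)) ^ (r - 1) := one_le_pow₀ (by linarith)
    nlinarith
  have h2 : (A.card : ℝ) * A.card ≤ D.card + A.card := by
    have : A.card * A.card ≤ D.card + A.card := by omega
    exact_mod_cast this
  rcases Nat.lt_or_ge A.card 2 with h3 | h3
  · have h4 : (A.card : ℝ) ≤ 1 := by exact_mod_cast (by omega : A.card ≤ 1)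
    have h5 : (0 : ℝ) ≤ A.card := Nat.cast_nonneg _
    nlinarith
  · have h4 : (2 : ℝ) ≤ A.card := by exact_mod_cast h3
    nlinarith

lemma bern (r : ℕ) (x : ℝ) (h0 : 0 ≤ x) (h1 : x ≤ 1) : (1 + 2 * x) ^ r ≤ 1 + ((3 : ℝ) ^ r - 1) * x := by
  induction r with
  | zero => simp
  | succ r ih =>
    rw [pow_succ, pow_succ]
    have h3 : (1 : ℝ) ≤ 3 ^ r := one_le_pow₀ (by norm_num)
    have h4 : (1 + 2 * x) ^ r * (1 + 2 * x) ≤ (1 + ((3 : ℝ) ^ r - 1) * x) * (1 + 2 * x) :=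
      mul_le_mul_of_nonneg_right ih (by linarith)
    have h5 : ((3 : ℝ) ^ r - 1) * (x * x) ≤ ((3 : ℝ) ^ r - 1) * x :=
      mul_le_mul_of_nonneg_left (by nlinarith) (by linarith)
    nlinarith

/-- the constant -/
noncomputable def CC (r : ℕ) : ℝ := 3 ^ r + 1 + 2 ^ (r + 2) + 3 ^ r * (1 + 2 ^ (r + 2))

lemma CC_pos (r : ℕ) : 0 < CC r := by
  unfold CC
  positivity

/-- upper bound of the cardinality -/
lemma sidon_card (hr : 1 ≤ r) (n : ℕ) (hn : 1 ≤ n) (A : Finset (Fin r → ℤ)) (hA : Sidon A)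
    (hAn : ∀ a ∈ A, ∀ j, 1 ≤ a j ∧ a j ≤ n) : (A.card : ℝ) ^ 2 ≤ 2 ^ (r + 1) * (n : ℝ) ^ r := by
  have h1 := sidon_slab A hA n n hn hn ⟨0, hr⟩ hAn (fun a ha => (hAn a ha _).2)
  refine h1.trans (le_of_eq ?_)
  obtain ⟨k, rfl⟩ : ∃ k, r = k + 1 := ⟨r - 1, by omega⟩
  rw [Nat.add_sub_cancel, mul_pow]
  ring

lemma sidon_asym1 (hr : 1 ≤ r) (M a x u q : ℝ) (hM1 : 1 ≤ M) (ha0 : 0 ≤ a) (ha2 : a ^ 2 ≤ 2 ^ (r + 1) * M ^ r)
    (hx : x = M ^ (-(1 / 4) : ℝ)) (hu1 : M ^ (3 / 4 : ℝ) ≤ u) (hu2 : u ≤ 2 * M ^ (3 / 4 : ℝ))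
    (hq0 : 0 ≤ q) (hq : q ≤ M ^ (1 / 8 : ℝ)) :
    (M + u) ^ r * (q ^ 2 / u ^ 2 + 1 + 2 * a / u ^ r) ≤ M ^ r * (1 + CC r * x) := by
  have hM0 : 0 < M := by linarith
  have hmono : ∀ x y : ℝ, x ≤ y → M ^ x ≤ M ^ y := fun x y h => Real.rpow_le_rpow_of_exponent_le hM1 h
  have hMr : M ^ (r : ℝ) = M ^ r := Real.rpow_natCast M r
  have hr1 : (1 : ℝ) ≤ r := by exact_mod_cast hr
  have hx0 : 0 < x := by rw [hx]; exact Real.rpow_pos_of_pos hM0 _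
  have hx1 : x ≤ 1 := by rw [hx]; exact Real.rpow_le_one_of_one_le_of_nonpos hM1 (by norm_num)
  have hu34 : 1 ≤ M ^ (3 / 4 : ℝ) := Real.one_le_rpow hM1 (by norm_num)
  have hu0 : 0 < u := by linarith
  have h2 : (M + u) ^ r ≤ M ^ r * (1 + 3 ^ r * x) := by
    have g1 : u ≤ 2 * x * M := by
      have : M ^ (3 / 4 : ℝ) = x * M := by
        rw [hx]
        nth_rewrite 3 [← Real.rpow_one M]
        rw [← Real.rpow_add hM0]
        norm_num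
      rw [this] at hu2
      linarith
    calc (M + u) ^ r ≤ (M * (1 + 2 * x)) ^ r := pow_le_pow_left₀ (by positivity) (by linarith) r
      _ = M ^ r * (1 + 2 * x) ^ r := mul_pow _ _ _
      _ ≤ M ^ r * (1 + 3 ^ r * x) := by
          apply mul_le_mul_of_nonneg_left _ (by positivity)
          have := bern r x hx0.le hx1
          linarith
  have h3 : q ^ 2 / u ^ 2 ≤ x := by
    rw [div_le_iff₀ (by positivity)]
    have g1 : q ^ 2 ≤ (M ^ (1 / 8 : ℝ)) ^ 2 := pow_le_pow_left₀ hq0 hq 2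
    have g2 : (M ^ (3 / 4 : ℝ)) ^ 2 ≤ u ^ 2 := pow_le_pow_left₀ (by positivity) hu1 2
    have g3 : (M ^ (1 / 8 : ℝ)) ^ 2 ≤ x * (M ^ (3 / 4 : ℝ)) ^ 2 := by
      rw [hx, ← Real.rpow_natCast, ← Real.rpow_mul hM0.le, ← Real.rpow_natCast, ← Real.rpow_mul hM0.le,
        ← Real.rpow_add hM0]
      apply hmono
      push_cast
      linarith
    exact g1.trans (g3.trans (mul_le_mul_of_nonneg_left g2 hx0.le))
  have h4 : 2 * a / u ^ r ≤ 2 ^ (r + 2) * x := by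
    rw [div_le_iff₀ (by positivity)]
    have g1 : a ≤ 2 ^ (r + 1) * (x * u ^ r) := by
      apply le_of_sq_le_sq _ (by positivity)
      have g2 : (M ^ (3 / 4 : ℝ)) ^ r ≤ u ^ r := pow_le_pow_left₀ (by positivity) hu1 r
      have g3 : M ^ r ≤ (x * (M ^ (3 / 4 : ℝ)) ^ r) ^ 2 := by
        rw [hx, ← Real.rpow_natCast (M ^ (3 / 4 : ℝ)) r, ← Real.rpow_mul hM0.le, ← Real.rpow_add hM0,
          ← Real.rpow_natCast _ 2, ← Real.rpow_mul hM0.le, ← hMr]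
        apply hmono
        push_cast
        linarith
      have g4 : (x * (M ^ (3 / 4 : ℝ)) ^ r) ^ 2 ≤ (x * u ^ r) ^ 2 :=
        pow_le_pow_left₀ (by positivity) (mul_le_mul_of_nonneg_left g2 hx0.le) 2
      have g5 : (1 : ℝ) ≤ 2 ^ (r + 1) := one_le_pow₀ (by norm_num)
      calc a ^ 2 ≤ 2 ^ (r + 1) * M ^ r := ha2
        _ ≤ 2 ^ (r + 1) * (x * u ^ r) ^ 2 := mul_le_mul_of_nonneg_left (g3.trans g4) (by positivity)
        _ ≤ 2 ^ (r + 1) * 2 ^ (r + 1) * (x * u ^ r) ^ 2 := by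
            apply mul_le_mul_of_nonneg_right _ (by positivity)
            nlinarith
        _ = _ := by ring
    calc 2 * a ≤ 2 * (2 ^ (r + 1) * (x * u ^ r)) := by linarith
      _ = _ := by ring
  have g1 : (M + u) ^ r * (q ^ 2 / u ^ 2 + 1 + 2 * a / u ^ r) ≤
      (M ^ r * (1 + 3 ^ r * x)) * (x + 1 + 2 ^ (r + 2) * x) :=
    mul_le_mul h2 (by linarith) (by positivity) (by positivity)
  refine g1.trans ?_
  have g3 : x * x ≤ x := by nlinarith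
  have g4 : (1 + 3 ^ r * x) * (x + 1 + 2 ^ (r + 2) * x) ≤ 1 + CC r * x := by
    have g5 : (3 : ℝ) ^ r * (1 + 2 ^ (r + 2)) * (x * x) ≤ 3 ^ r * (1 + 2 ^ (r + 2)) * x :=
      mul_le_mul_of_nonneg_left g3 (by positivity)
    unfold CC
    nlinarith
  calc _ = M ^ r * ((1 + 3 ^ r * x) * (x + 1 + 2 ^ (r + 2) * x)) := by ring
    _ ≤ _ := mul_le_mul_of_nonneg_left g4 (by positivity)

/-- the sums over dense Sidon sets -/
lemma sidon_asym (hr : 1 ≤ r) (δ : ℝ) (hδ4 : δ ≤ 1 / 4) (n : ℕ) (hn : 1 ≤ n)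
    (A : Finset (Fin r → ℤ)) (hA : Sidon A) (hAn : ∀ a ∈ A, ∀ j, 1 ≤ a j ∧ a j ≤ n)
    (hAc : (n : ℝ) ^ r * (1 - (n : ℝ) ^ (-δ)) ≤ (A.card : ℝ) ^ 2) (q : ℕ) (hq : (q : ℝ) ≤ (n : ℝ) ^ (1 / 8 : ℝ))
    (h : Fin r → ℕ) (hh : ∀ j, h j < q) (h0 : h ≠ 0) :
    ‖∑ a ∈ A, ch q h a‖ ≤ (CC r + 1) * (n : ℝ) ^ (((r : ℝ) - δ) / 2) := by
  have hM1 : (1 : ℝ) ≤ n := by exact_mod_cast hn
  have hM0 : (0 : ℝ) < n := by linarith
  have ha2 := sidon_card hr n hn A hA hAn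
  have hu1 : (n : ℝ) ^ (3 / 4 : ℝ) ≤ (⌈(n : ℝ) ^ (3 / 4 : ℝ)⌉₊ : ℕ) := Nat.le_ceil _
  have hu34 : 1 ≤ (n : ℝ) ^ (3 / 4 : ℝ) := Real.one_le_rpow hM1 (by norm_num)
  have hu2 : ((⌈(n : ℝ) ^ (3 / 4 : ℝ)⌉₊ : ℕ) : ℝ) ≤ 2 * (n : ℝ) ^ (3 / 4 : ℝ) := by
    have := (Nat.ceil_lt_add_one (show 0 ≤ (n : ℝ) ^ (3 / 4 : ℝ) by positivity)).le
    linarith
  generalize ⌈(n : ℝ) ^ (3 / 4 : ℝ)⌉₊ = u at hu1 hu2
  have hu3 : 1 ≤ u := by exact_mod_cast hu34.trans hu1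
  have h1 := sidon_box A hA n u q hu3 hAn h hh h0
  have h2 := sidon_asym1 hr (n : ℝ) (A.card : ℝ) _ (u : ℝ) (q : ℝ) hM1 (Nat.cast_nonneg _) ha2 rfl hu1 hu2
    (Nat.cast_nonneg _) hq
  have hC := CC_pos r
  have g3 : (n : ℝ) ^ (-(1 / 4) : ℝ) ≤ (n : ℝ) ^ (-δ) :=
    Real.rpow_le_rpow_of_exponent_le hM1 (by linarith)
  have hP2 : ((n : ℝ) ^ (((r : ℝ) - δ) / 2)) ^ 2 = (n : ℝ) ^ r * (n : ℝ) ^ (-δ) := by
    rw [← Real.rpow_natCast ((n : ℝ) ^ (((r : ℝ) - δ) / 2)), ← Real.rpow_mul hM0.le, ← Real.rpow_natCast (n : ℝ) r,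
      ← Real.rpow_add hM0]
    congr 1
    push_cast
    ring
  have hP0 : 0 < (n : ℝ) ^ (((r : ℝ) - δ) / 2) := Real.rpow_pos_of_pos hM0 _
  generalize (n : ℝ) ^ (((r : ℝ) - δ) / 2) = P at hP2 hP0
  generalize (n : ℝ) ^ (-(1 / 4) : ℝ) = x at h2 g3
  generalize (n : ℝ) ^ (-δ) = y at g3 hP2 hAc
  have hMr : 0 < (n : ℝ) ^ r := by positivity
  generalize (n : ℝ) ^ r = R at *
  generalize CC r = C at *
  generalize (A.card : ℝ) ^ 2 = a2 at *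
  have h5 : ‖∑ a ∈ A, ch q h a‖ ^ 2 ≤ (C + 1) * P ^ 2 := by
    have g4 : R * (C * x) ≤ R * (C * y) :=
      mul_le_mul_of_nonneg_left (mul_le_mul_of_nonneg_left g3 hC.le) hMr.le
    rw [hP2]
    nlinarith
  apply le_of_sq_le_sq _ (by positivity)
  refine h5.trans ?_
  have : (1 : ℝ) ≤ C + 1 := by linarith
  nlinarith [sq_nonneg P, mul_nonneg hC.le (sq_nonneg P)]

/-- slabs -/
lemma slab_asym (hr : 1 ≤ r) (δ η : ℝ) (hδη : δ + η ≤ 1) (n L : ℕ) (hn : 1 ≤ n) (hL : 1 ≤ L)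
    (hL2 : (L : ℝ) ≤ 2 * (n : ℝ) ^ η)
    (A : Finset (Fin r → ℤ)) (hA : Sidon A) (hAn : ∀ a ∈ A, ∀ j, 1 ≤ a j ∧ a j ≤ n) (j : Fin r) :
    ((A.filter (fun a : Fin r → ℤ => a j ≤ (L : ℤ))).card : ℝ) ≤ 2 ^ (r + 2) * (n : ℝ) ^ (((r : ℝ) - δ) / 2) := by
  have hM1 : (1 : ℝ) ≤ n := by exact_mod_cast hn
  have hM0 : (0 : ℝ) < n := by linarith
  have h1 := sidon_slab (A.filter (fun a : Fin r → ℤ => a j ≤ (L : ℤ)))
    (fun a ha b hb c hc d hd => hA a (mem_filter.1 ha).1 b (mem_filter.1 hb).1 c (mem_filter.1 hc).1 d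
      (mem_filter.1 hd).1) n L hn hL j (fun a ha => hAn a (mem_filter.1 ha).1)
    (fun a ha => (mem_filter.1 ha).2)
  have hP2 : ((n : ℝ) ^ (((r : ℝ) - δ) / 2)) ^ 2 = (n : ℝ) ^ ((r : ℝ) - δ) := by
    rw [← Real.rpow_natCast ((n : ℝ) ^ (((r : ℝ) - δ) / 2)), ← Real.rpow_mul hM0.le]
    congr 1
    push_cast
    ring
  have h2 : (n : ℝ) ^ (r - 1) * (n : ℝ) ^ η ≤ ((n : ℝ) ^ (((r : ℝ) - δ) / 2)) ^ 2 := by
    rw [hP2, ← Real.rpow_natCast (n : ℝ) (r - 1), ← Real.rpow_add hM0]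
    apply Real.rpow_le_rpow_of_exponent_le hM1
    rw [Nat.cast_sub hr]
    push_cast
    linarith
  have h5 : (2 : ℝ) ^ (r - 1) * 8 = 2 ^ (r + 2) := by
    have : r + 2 = (r - 1) + 3 := by omega
    rw [this, pow_add]
    norm_num
  have h6 : (1 : ℝ) ≤ 2 ^ (r + 2) := one_le_pow₀ (by norm_num)
  have hP0 : 0 < (n : ℝ) ^ (((r : ℝ) - δ) / 2) := Real.rpow_pos_of_pos hM0 _
  apply le_of_sq_le_sq _ (by positivity)
  refine h1.trans ?_
  generalize (n : ℝ) ^ (((r : ℝ) - δ) / 2) = P at h2 hP0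
  rw [mul_pow 2 (n : ℝ) (r - 1)]
  have hR : 0 < (n : ℝ) ^ (r - 1) := by positivity
  have hT : (0 : ℝ) < 2 ^ (r - 1) := by positivity
  generalize (n : ℝ) ^ (r - 1) = R at h2 hR
  generalize (n : ℝ) ^ η = y at hL2 h2
  calc 2 * (2 * (L : ℝ) * (2 ^ (r - 1) * R)) = 4 * L * (2 ^ (r - 1) * R) := by ring
    _ ≤ 4 * (2 * y) * (2 ^ (r - 1) * R) := by
        apply mul_le_mul_of_nonneg_right _ (by positivity)
        linarith
    _ = 2 ^ (r + 2) * (R * y) := by rw [← h5]; ring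
    _ ≤ 2 ^ (r + 2) * P ^ 2 := mul_le_mul_of_nonneg_left h2 (by positivity)
    _ ≤ 2 ^ (r + 2) * 2 ^ (r + 2) * P ^ 2 := by
        apply mul_le_mul_of_nonneg_right _ (by positivity)
        nlinarith
    _ = _ := by ring

/-- the members with large coordinates -/
def big (L : ℕ) (A : Finset (Fin r → ℤ)) : Finset (Fin r → ℤ) := A.filter (fun a => ∀ j, (L : ℤ) ≤ a j)

lemma sidon_rem (hr : 1 ≤ r) (δ η : ℝ) (hδη : δ + η ≤ 1) (n L : ℕ) (hn : 1 ≤ n) (hL : 1 ≤ L)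
    (hL2 : (L : ℝ) ≤ 2 * (n : ℝ) ^ η)
    (A : Finset (Fin r → ℤ)) (hA : Sidon A) (hAn : ∀ a ∈ A, ∀ j, 1 ≤ a j ∧ a j ≤ n) :
    ((A \ big L A).card : ℝ) ≤ r * 2 ^ (r + 2) * (n : ℝ) ^ (((r : ℝ) - δ) / 2) := by
  classical
  have h1 : A \ big L A ⊆ univ.biUnion (fun j : Fin r => A.filter (fun a : Fin r → ℤ => a j ≤ (L : ℤ))) := by
    intro v hv
    unfold big at hv
    rw [Finset.mem_sdiff, mem_filter] at hv
    have h2 : ¬ ∀ j, (L : ℤ) ≤ v j := fun h => hv.2 ⟨hv.1, h⟩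
    push Not at h2
    obtain ⟨j, hj⟩ := h2
    rw [mem_biUnion]
    exact ⟨j, mem_univ _, mem_filter.2 ⟨hv.1, hj.le⟩⟩
  have h2 : ((A \ big L A).card : ℝ) ≤
      ∑ j : Fin r, ((A.filter (fun a : Fin r → ℤ => a j ≤ (L : ℤ))).card : ℝ) := by
    exact_mod_cast (card_le_card h1).trans card_biUnion_le
  refine h2.trans ((sum_le_sum fun j _ => slab_asym hr δ η hδη n L hn hL hL2 A hA hAn j).trans (le_of_eq ?_))
  rw [sum_const, card_univ, Fintype.card_fin, nsmul_eq_mul]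
  ring

end box

open Classical in
/-- **dense Sidon sets** -/
theorem sidon_main (r : ℕ) (hr : 1 ≤ r) (δ : ℝ) (hδ : 0 < δ) (hδ4 : δ ≤ 1 / 4) (ε : ℝ) (hε : 0 < ε) :
    ∃ κ : ℝ, 0 < κ ∧ ∃ n₀ : ℕ, ∀ n : ℕ, n₀ ≤ n → ∀ A : Finset (Fin r → ℤ), Sidon A →
      (∀ a ∈ A, ∀ j, 1 ≤ a j ∧ a j ≤ n) → (n : ℝ) ^ r * (1 - (n : ℝ) ^ (-δ)) ≤ (A.card : ℝ) ^ 2 →
      (A.card : ℝ) * (n : ℝ) ^ (-ε) ≤ ((A.filter (fun a => Iso (κ * ff n) a)).card : ℝ) := by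
  obtain ⟨η, hη0, hηδ, hηε⟩ : ∃ η : ℝ, 0 < η ∧ η ≤ δ / 4 ∧ η ≤ ε / 2 :=
    ⟨min (δ / 4) (ε / 2), lt_min (by positivity) (by positivity), min_le_left _ _, min_le_right _ _⟩
  obtain ⟨κ, hκ, hcr⟩ := crit_many r hr η hη0 (by linarith)
  refine ⟨κ, hκ, ?_⟩
  obtain ⟨C2, hC2⟩ : ∃ C2 : ℝ, C2 = CC r + 1 + r * 2 ^ (r + 2) := ⟨_, rfl⟩
  have hC := CC_pos r
  have hrC0 : (0 : ℝ) ≤ r * 2 ^ (r + 2) := by positivity
  have hC21 : 1 ≤ C2 := by linarith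
  have e1 := (tendsto_natCast_atTop_atTop (R := ℝ)).eventually hcr
  have e2 := (tendsto_natCast_atTop_atTop (R := ℝ)).eventually
    ((tendsto_rpow_atTop (show (0 : ℝ) < δ / 4 by positivity)).eventually_ge_atTop (4 * C2))
  have e3 := (tendsto_natCast_atTop_atTop (R := ℝ)).eventually
    ((tendsto_rpow_atTop (show (0 : ℝ) < ε / 2 by positivity)).eventually_ge_atTop 2)
  obtain ⟨n₀, hn₀⟩ := (e1.and (e2.and (e3.and (eventually_ge_atTop 1)))).exists_forall_of_atTop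
  refine ⟨n₀, ?_⟩
  intro n hn A hA hAn hAc
  obtain ⟨hM, hQ, hε2, hn1⟩ := hn₀ n hn
  have hM1 : (1 : ℝ) ≤ n := by exact_mod_cast hn1
  have hM0 : (0 : ℝ) < n := by linarith
  have hmono : ∀ x y : ℝ, x ≤ y → (n : ℝ) ^ x ≤ (n : ℝ) ^ y := fun x y h =>
    Real.rpow_le_rpow_of_exponent_le hM1 h
  have hη1 : 1 ≤ (n : ℝ) ^ η := Real.one_le_rpow hM1 hη0.le
  obtain ⟨L, hL1, hL2⟩ : ∃ L : ℕ, (n : ℝ) ^ η ≤ L ∧ (L : ℝ) ≤ 2 * (n : ℝ) ^ η := by
    refine ⟨⌈(n : ℝ) ^ η⌉₊, Nat.le_ceil _, ?_⟩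
    have := (Nat.ceil_lt_add_one (show 0 ≤ (n : ℝ) ^ η by positivity)).le
    linarith
  have hL3 : 1 ≤ L := by exact_mod_cast hη1.trans hL1
  have hsum : ∀ q : ℕ, (q : ℝ) ≤ (n : ℝ) ^ η → ∀ h : Fin r → ℕ, (∀ j, h j < q) → h ≠ 0 →
      ‖∑ a ∈ A, ch q h a‖ ≤ (CC r + 1) * (n : ℝ) ^ (((r : ℝ) - δ) / 2) := fun q hq h hh h0 =>
    sidon_asym hr δ hδ4 n hn1 A hA hAn hAc q (hq.trans (hmono _ _ (by linarith))) h hh h0
  have hrem := sidon_rem hr δ η (by linarith) n L hn1 hL3 hL2 A hA hAn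
  have hAA : ((big L A).card : ℝ) + (A \ big L A).card = A.card := by
    have h1 : big L A ⊆ A := filter_subset _ _
    have h2 := card_sdiff_add_card_eq_card h1
    rw [← h2]
    push_cast
    ring
  have hP0 : 0 < (n : ℝ) ^ (((r : ℝ) - δ) / 2) := Real.rpow_pos_of_pos hM0 _
  have hQ0 : 0 < (n : ℝ) ^ (δ / 4) := Real.rpow_pos_of_pos hM0 _
  have hQ4 : 4 ≤ (n : ℝ) ^ (δ / 4) := by linarith
  have hPQ : (n : ℝ) ^ (((r : ℝ) - δ) / 2) * ((n : ℝ) ^ (δ / 4)) ^ 2 ≤ 2 * A.card := by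
    apply le_of_sq_le_sq _ (by positivity)
    have h1 : ((n : ℝ) ^ (δ / 4)) ^ 4 = (n : ℝ) ^ δ := by
      rw [← Real.rpow_natCast, ← Real.rpow_mul hM0.le]
      congr 1
      push_cast
      ring
    have hP2 : ((n : ℝ) ^ (((r : ℝ) - δ) / 2)) ^ 2 = (n : ℝ) ^ r * (n : ℝ) ^ (-δ) := by
      rw [← Real.rpow_natCast ((n : ℝ) ^ (((r : ℝ) - δ) / 2)), ← Real.rpow_mul hM0.le,
        ← Real.rpow_natCast (n : ℝ) r, ← Real.rpow_add hM0]
      congr 1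
      push_cast
      ring
    have h2 : (n : ℝ) ^ (-δ) * (n : ℝ) ^ δ = 1 := by
      rw [← Real.rpow_add hM0]
      simp
    have hMr : 0 < (n : ℝ) ^ r := by positivity
    have h6 : 0 < (n : ℝ) ^ (-δ) := Real.rpow_pos_of_pos hM0 _
    have h5 : (4 : ℝ) ≤ ((n : ℝ) ^ (δ / 4)) ^ 4 := by
      calc (4 : ℝ) ≤ (n : ℝ) ^ (δ / 4) := hQ4
        _ = ((n : ℝ) ^ (δ / 4)) ^ 1 := (pow_one _).symm
        _ ≤ ((n : ℝ) ^ (δ / 4)) ^ 4 := pow_le_pow_right₀ (by linarith) (by norm_num)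
    have h3 : (n : ℝ) ^ (-δ) ≤ 3 / 4 := by
      have h4 : (n : ℝ) ^ (-δ) * ((n : ℝ) ^ (δ / 4)) ^ 4 = 1 := by rw [h1, h2]
      nlinarith
    calc _ = ((n : ℝ) ^ (((r : ℝ) - δ) / 2)) ^ 2 * ((n : ℝ) ^ (δ / 4)) ^ 4 := by ring
      _ = (n : ℝ) ^ r * ((n : ℝ) ^ (-δ) * (n : ℝ) ^ δ) := by rw [hP2, h1]; ring
      _ = (n : ℝ) ^ r := by rw [h2, mul_one]
      _ ≤ 4 * ((n : ℝ) ^ r * (1 - (n : ℝ) ^ (-δ))) := by nlinarith
      _ ≤ 4 * (A.card : ℝ) ^ 2 := by linarith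
      _ = _ := by ring
  have hQm : (n : ℝ) ^ (-(δ / 4)) * (n : ℝ) ^ (δ / 4) = 1 := by
    rw [← Real.rpow_add hM0]
    simp
  have hQn : (n : ℝ) ^ (-(δ / 4)) ≤ (n : ℝ) ^ (-η) := hmono _ _ (by linarith)
  have hQn0 : 0 ≤ (n : ℝ) ^ (-(δ / 4)) := Real.rpow_nonneg hM0.le _
  generalize (n : ℝ) ^ (((r : ℝ) - δ) / 2) = P at *
  generalize (n : ℝ) ^ (δ / 4) = Q at *
  generalize (n : ℝ) ^ (-(δ / 4)) = Q' at *
  have hPa : C2 * P * Q ≤ (A.card : ℝ) / 2 := by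
    have h1 : 4 * C2 * (P * Q) ≤ Q * (P * Q) := mul_le_mul_of_nonneg_right hQ (by positivity)
    nlinarith
  have hrC : (r : ℝ) * 2 ^ (r + 2) * P ≤ C2 * P := by
    apply mul_le_mul_of_nonneg_right _ hP0.le
    linarith
  have hC2P : 0 < C2 * P := by positivity
  have ha'a : (A.card : ℝ) / 2 ≤ (big L A).card := by
    have h1 : C2 * P ≤ C2 * P * Q := by nlinarith
    linarith
  have key := hM (Fin r → ℤ) (big L A) (fun v => v) (by
    intro v hv j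
    unfold big at hv
    rw [mem_filter] at hv
    have h1 := hv.2 j
    refine hL1.trans ?_
    exact_mod_cast h1) (by
    intro q hq hqM h hh h0
    have h1 := hsum q hqM h hh h0
    have h2 : ‖∑ v ∈ big L A, ch q h v‖ ≤ C2 * P := by
      have h3 : ∑ v ∈ big L A, ch q h v = ∑ v ∈ A, ch q h v - ∑ v ∈ A \ big L A, ch q h v := by
        rw [← sum_sdiff (show big L A ⊆ A from filter_subset _ _)]
        ring
      have h4 : ‖∑ v ∈ A \ big L A, ch q h v‖ ≤ (A \ big L A).card := by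
        refine (norm_sum_le _ _).trans ?_
        simp [norm_ch]
      rw [h3]
      refine (norm_sub_le _ _).trans ?_
      have h5 : C2 * P = (CC r + 1) * P + r * 2 ^ (r + 2) * P := by rw [hC2]; ring
      linarith
    have h5 : ‖∑ v ∈ big L A, ch q h v‖ * Q ≤ (big L A).card := by
      have := mul_le_mul_of_nonneg_right h2 hQ0.le
      linarith
    have h6 : ‖∑ v ∈ big L A, ch q h v‖ ≤ (big L A).card * Q' := by
      calc _ = (‖∑ v ∈ big L A, ch q h v‖ * Q) * Q' := by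
            rw [mul_assoc, mul_comm Q, hQm, mul_one]
        _ ≤ _ := mul_le_mul_of_nonneg_right h5 hQn0
    exact h6.trans (mul_le_mul_of_nonneg_left hQn (Nat.cast_nonneg _)))
  have hsub : (big L A).filter (fun v => Iso (κ * ff n) v) ⊆ A.filter (fun v => Iso (κ * ff n) v) :=
    filter_subset_filter _ (filter_subset _ _)
  have h9 : (((big L A).filter (fun v => Iso (κ * ff n) v)).card : ℝ) ≤
      (A.filter (fun v => Iso (κ * ff n) v)).card := by exact_mod_cast card_le_card hsub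
  refine le_trans ?_ (key.trans h9)
  have h12 : 0 < (n : ℝ) ^ (-ε) := Real.rpow_pos_of_pos hM0 _
  have h10 : 2 * (n : ℝ) ^ (-ε) ≤ (n : ℝ) ^ (-η) := by
    have h11 : (n : ℝ) ^ (-ε) * (n : ℝ) ^ (ε / 2) ≤ (n : ℝ) ^ (-η) := by
      rw [← Real.rpow_add hM0]
      exact hmono _ _ (by linarith)
    nlinarith
  calc (A.card : ℝ) * (n : ℝ) ^ (-ε) ≤ (2 * (big L A).card) * (n : ℝ) ^ (-ε) :=
        mul_le_mul_of_nonneg_right (by linarith) h12.le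
    _ = (big L A).card * (2 * (n : ℝ) ^ (-ε)) := by ring
    _ ≤ (big L A).card * (n : ℝ) ^ (-η) := mul_le_mul_of_nonneg_left h10 (Nat.cast_nonneg _)

end Pool.Agent.Q46.MH
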