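import Pool.Agent.Q46.MH.Expo
import Pool.Agent.Y943.Fu.Sum

set_option autoImplicit false

/-! # Small multiplicative subgroups -/

namespace Pool.Agent.Q46.MH

open Finset Filter
open Pool.Agent.H469R2.NK (e norm_e e_add)
open Pool.Agent.W147.PS (ff ff_compare ev_pow)
open Pool.Agent.TH915.PW (e_int sum_char)
open Pool.Agent.Y943.Fu (HH rp rp_nonneg sum_HH inj_pow sum_rp fourth energy_le)

section chars

variable {p : ℕ} [Fact p.Prime]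

/-- the sum over the subgroup -/
noncomputable def S0 (g : (ZMod p)ˣ) (c : ZMod p) : ℂ := ∑ x ∈ HH (g : ZMod p), (ZMod.stdAddChar (c * x) : ℂ)

lemma S0_eq (g : (ZMod p)ˣ) (c : ZMod p) :
    S0 g c = ∑ n ∈ range (orderOf g), (ZMod.stdAddChar (c * ((g ^ n : (ZMod p)ˣ) : ZMod p)) : ℂ) := by
  unfold S0
  rw [sum_HH, orderOf_units]
  exact sum_congr rfl fun n _ => by rw [Units.val_pow_eq_pow_val]

lemma sum_pairs (g : (ZMod p)ˣ) (F : ZMod p → ℝ) :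
    ∑ n ∈ range (orderOf g), ∑ m ∈ range (orderOf g),
      F (((g ^ n : (ZMod p)ˣ) : ZMod p) - ((g ^ m : (ZMod p)ˣ) : ZMod p)) = ∑ z, rp (g : ZMod p) z * F z := by
  classical
  have h1 : ∑ n ∈ range (orderOf g), ∑ m ∈ range (orderOf g),
      F (((g ^ n : (ZMod p)ˣ) : ZMod p) - ((g ^ m : (ZMod p)ˣ) : ZMod p)) =
      ∑ w ∈ HH (g : ZMod p) ×ˢ HH (g : ZMod p), F (w.1 - w.2) := by
    unfold HH
    rw [sum_product, sum_image (inj_pow (g : ZMod p)), orderOf_units]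
    refine sum_congr rfl fun n _ => ?_
    rw [← orderOf_units, sum_image (inj_pow (g : ZMod p))]
    refine sum_congr rfl fun m _ => ?_
    rw [Units.val_pow_eq_pow_val, Units.val_pow_eq_pow_val]
  rw [h1, ← sum_fiberwise_of_maps_to (s := HH (g : ZMod p) ×ˢ HH (g : ZMod p)) (t := univ)
    (g := fun w => w.1 - w.2) (fun _ _ => mem_univ _)]
  refine sum_congr rfl fun z _ => ?_
  rw [sum_congr rfl (fun w hw => by rw [(mem_filter.1 hw).2] :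
    ∀ w ∈ (HH (g : ZMod p) ×ˢ HH (g : ZMod p)).filter (fun w => w.1 - w.2 = z), F (w.1 - w.2) = F z),
    sum_const, nsmul_eq_mul]
  rfl

lemma twist (g : (ZMod p)ˣ) (h : ℕ) (b : ZMod p) :
    ((orderOf g : ℕ) : ℝ) * ‖ES g h b‖ ^ 2 ≤ ∑ z, rp (g : ZMod p) z * ‖S0 g (b * z)‖ := by
  classical
  set T := orderOf g with hT
  set w : ℕ → ℂ := fun n => e ((h : ℝ) * n / T) with hw
  have h1 : ∀ j ∈ range T, ((‖ES g h b‖ ^ 2 : ℝ) : ℂ) = ∑ n ∈ range T, ∑ m ∈ range T,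
      (w n * (starRingEnd ℂ) (w m)) *
        (ZMod.stdAddChar (b * ((((g ^ n : (ZMod p)ˣ) : ZMod p) - ((g ^ m : (ZMod p)ˣ) : ZMod p))) *
          ((g ^ j : (ZMod p)ˣ) : ZMod p)) : ℂ) := by
    intro j _
    rw [← ES_mul_pow g h b j]
    have h2 : ((‖ES g h (b * ((g ^ j : (ZMod p)ˣ) : ZMod p))‖ ^ 2 : ℝ) : ℂ) =
        ES g h (b * ((g ^ j : (ZMod p)ˣ) : ZMod p)) *
          (starRingEnd ℂ) (ES g h (b * ((g ^ j : (ZMod p)ˣ) : ZMod p))) := by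
      rw [Complex.mul_conj, Complex.normSq_eq_norm_sq]
    rw [h2]
    unfold ES
    rw [← hT, map_sum, sum_mul_sum]
    refine sum_congr rfl fun n _ => sum_congr rfl fun m _ => ?_
    rw [map_mul (starRingEnd ℂ), conj_char]
    have h3 : (ZMod.stdAddChar (b * ((((g ^ n : (ZMod p)ˣ) : ZMod p) - ((g ^ m : (ZMod p)ˣ) : ZMod p))) *
          ((g ^ j : (ZMod p)ˣ) : ZMod p)) : ℂ) =
        (ZMod.stdAddChar (b * ((g ^ j : (ZMod p)ˣ) : ZMod p) * ((g ^ n : (ZMod p)ˣ) : ZMod p)) : ℂ) *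
          (ZMod.stdAddChar (-(b * ((g ^ j : (ZMod p)ˣ) : ZMod p) * ((g ^ m : (ZMod p)ˣ) : ZMod p))) : ℂ) := by
      rw [← AddChar.map_add_eq_mul]
      congr 1
      ring
    rw [h3]
    ring
  have h2 : (((T : ℝ) * ‖ES g h b‖ ^ 2 : ℝ) : ℂ) = ∑ n ∈ range T, ∑ m ∈ range T,
      (w n * (starRingEnd ℂ) (w m)) *
        S0 g (b * ((((g ^ n : (ZMod p)ˣ) : ZMod p) - ((g ^ m : (ZMod p)ˣ) : ZMod p)))) := by
    have h3 : (((T : ℝ) * ‖ES g h b‖ ^ 2 : ℝ) : ℂ) = ∑ j ∈ range T, ((‖ES g h b‖ ^ 2 : ℝ) : ℂ) := by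
      rw [sum_const, card_range, nsmul_eq_mul]
      push_cast
      ring
    rw [h3, sum_congr rfl h1, sum_comm]
    refine sum_congr rfl fun n _ => ?_
    rw [sum_comm]
    refine sum_congr rfl fun m _ => ?_
    rw [S0_eq, ← mul_sum]
  have h3 : ‖(((T : ℝ) * ‖ES g h b‖ ^ 2 : ℝ) : ℂ)‖ ≤ ∑ n ∈ range T, ∑ m ∈ range T,
      ‖S0 g (b * ((((g ^ n : (ZMod p)ˣ) : ZMod p) - ((g ^ m : (ZMod p)ˣ) : ZMod p))))‖ := by
    rw [h2]
    refine (norm_sum_le _ _).trans (sum_le_sum fun n _ => (norm_sum_le _ _).trans (sum_le_sum fun m _ => ?_))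
    rw [norm_mul, norm_mul, RCLike.norm_conj, hw]
    simp only [norm_e, one_mul]
    exact le_rfl
  rw [Complex.norm_real, Real.norm_of_nonneg (by positivity)] at h3
  rw [sum_pairs g (fun z => ‖S0 g (b * z)‖)] at h3
  exact h3

lemma sum_S0 (g : (ZMod p)ˣ) {b : ZMod p} (hb : b ≠ 0) :
    ∑ z, ‖S0 g (b * z)‖ ^ 4 = p * ∑ z, rp (g : ZMod p) z ^ 2 := by
  rw [← fourth]
  exact Equiv.sum_comp (Equiv.mulLeft₀ b hb) (fun z => ‖S0 g z‖ ^ 4)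

lemma ES_small (g : (ZMod p)ˣ) (h : ℕ) {b : ZMod p} (hb : b ≠ 0) (ht : orderOf g ^ 4 < p ^ 3) :
    ‖ES g h b‖ ^ 8 ≤ 64 * p * ((orderOf g : ℕ) : ℝ) ^ (16 / 3 : ℝ) := by
  classical
  have hord : orderOf (g : ZMod p) = orderOf g := orderOf_units
  set t : ℝ := ((orderOf g : ℕ) : ℝ) with htd
  have ht0 : 0 < t := by
    rw [htd]
    exact_mod_cast ord_pos g
  set E : ℝ := ∑ z, rp (g : ZMod p) z ^ 2 with hE
  have hE0 : 0 ≤ E := sum_nonneg fun _ _ => by positivity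
  have hE1 : E ≤ 8 * (t ^ (2 / 3 : ℝ) * t ^ 2) := by
    have h1 := energy_le (g := (g : ZMod p)) (by rw [hord]; exact ord_pos g) (by rw [hord]; exact ht)
    rw [hord] at h1
    exact h1
  have hR : ∑ z, rp (g : ZMod p) z = t ^ 2 := by
    rw [sum_rp, hord]
  set s : ZMod p → ℝ := fun z => ‖S0 g (b * z)‖ with hs
  set r : ZMod p → ℝ := fun z => rp (g : ZMod p) z with hr
  have hr0 : ∀ z, 0 ≤ r z := fun z => rp_nonneg _ z
  have h1 : (∑ z, r z * s z) ^ 2 ≤ (∑ z, r z) * ∑ z, r z * s z ^ 2 := by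
    have h2 := sum_mul_sq_le_sq_mul_sq univ (fun z => Real.sqrt (r z)) (fun z => Real.sqrt (r z) * s z)
    have e1 : ∀ z, Real.sqrt (r z) * (Real.sqrt (r z) * s z) = r z * s z := fun z => by
      rw [← mul_assoc, Real.mul_self_sqrt (hr0 z)]
    have e2 : ∀ z, Real.sqrt (r z) ^ 2 = r z := fun z => Real.sq_sqrt (hr0 z)
    have e3 : ∀ z, (Real.sqrt (r z) * s z) ^ 2 = r z * s z ^ 2 := fun z => by
      rw [mul_pow, Real.sq_sqrt (hr0 z)]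
    simp only [e1, e2, e3] at h2
    exact h2
  have h2 : (∑ z, r z * s z ^ 2) ^ 2 ≤ (∑ z, r z ^ 2) * ∑ z, s z ^ 4 := by
    have h3 := sum_mul_sq_le_sq_mul_sq univ r (fun z => s z ^ 2)
    have e1 : ∀ z, (s z ^ 2) ^ 2 = s z ^ 4 := fun z => by ring
    simp only [e1] at h3
    exact h3
  have h3 : ∑ z, s z ^ 4 = p * E := sum_S0 g hb
  have h4 : (t * ‖ES g h b‖ ^ 2) ^ 4 ≤ (t ^ 2) ^ 2 * (E * (p * E)) := by
    have h5 : t * ‖ES g h b‖ ^ 2 ≤ ∑ z, r z * s z := twist g h b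
    have h6 : 0 ≤ ∑ z, r z * s z := sum_nonneg fun z _ => mul_nonneg (hr0 z) (norm_nonneg _)
    have h7 : 0 ≤ ∑ z, r z * s z ^ 2 := sum_nonneg fun z _ => mul_nonneg (hr0 z) (by positivity)
    calc (t * ‖ES g h b‖ ^ 2) ^ 4 ≤ (∑ z, r z * s z) ^ 4 := pow_le_pow_left₀ (by positivity) h5 4
      _ = ((∑ z, r z * s z) ^ 2) ^ 2 := by ring
      _ ≤ ((∑ z, r z) * ∑ z, r z * s z ^ 2) ^ 2 := pow_le_pow_left₀ (by positivity) h1 2
      _ = (∑ z, r z) ^ 2 * (∑ z, r z * s z ^ 2) ^ 2 := by ring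
      _ ≤ (∑ z, r z) ^ 2 * ((∑ z, r z ^ 2) * ∑ z, s z ^ 4) := mul_le_mul_of_nonneg_left h2 (by positivity)
      _ = (t ^ 2) ^ 2 * (E * (p * E)) := by
          rw [h3]
          simp only [hr]
          rw [hR]
  have h5 : t ^ 4 * ‖ES g h b‖ ^ 8 ≤ t ^ 4 * (p * E ^ 2) := by
    calc t ^ 4 * ‖ES g h b‖ ^ 8 = (t * ‖ES g h b‖ ^ 2) ^ 4 := by ring
      _ ≤ (t ^ 2) ^ 2 * (E * (p * E)) := h4
      _ = t ^ 4 * (p * E ^ 2) := by ring
  have h6 : ‖ES g h b‖ ^ 8 ≤ p * E ^ 2 := le_of_mul_le_mul_left h5 (by positivity)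
  refine h6.trans ?_
  have h7 : E ^ 2 ≤ (8 * (t ^ (2 / 3 : ℝ) * t ^ 2)) ^ 2 := pow_le_pow_left₀ hE0 hE1 2
  have h8 : (8 * (t ^ (2 / 3 : ℝ) * t ^ 2)) ^ 2 = 64 * t ^ (16 / 3 : ℝ) := by
    have h9 : t ^ (16 / 3 : ℝ) = (t ^ (2 / 3 : ℝ) * t ^ 2) ^ 2 := by
      rw [← Real.rpow_two t, ← Real.rpow_add ht0, ← Real.rpow_natCast, ← Real.rpow_mul ht0.le]
      norm_num
    rw [h9]
    ring
  rw [h8] at h7
  calc (p : ℝ) * E ^ 2 ≤ p * (64 * t ^ (16 / 3 : ℝ)) := mul_le_mul_of_nonneg_left h7 (Nat.cast_nonneg _)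
    _ = _ := by ring

lemma ES_bound2 (g : (ZMod p)ˣ) (h : ℕ) {b : ZMod p} (hb : b ≠ 0) :
    ‖ES g h b‖ ≤ 2 * ((p : ℝ) ^ (1 / 8 : ℝ) * ((orderOf g : ℕ) : ℝ) ^ (2 / 3 : ℝ)) := by
  have hp : p.Prime := Fact.out
  have hp0 : (0 : ℝ) < p := by exact_mod_cast hp.pos
  have hp1 : (1 : ℝ) ≤ p := by exact_mod_cast hp.one_lt.le
  set t : ℝ := ((orderOf g : ℕ) : ℝ) with htd
  have ht0 : 0 < t := by
    rw [htd]
    exact_mod_cast ord_pos g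
  by_cases hcase : orderOf g ^ 4 < p ^ 3
  · have h1 := ES_small g h hb hcase
    rw [← htd] at h1
    have h2 : (2 * ((p : ℝ) ^ (1 / 8 : ℝ) * t ^ (2 / 3 : ℝ))) ^ 8 = 256 * (p * t ^ (16 / 3 : ℝ)) := by
      rw [mul_pow, mul_pow, ← Real.rpow_natCast ((p : ℝ) ^ (1 / 8 : ℝ)), ← Real.rpow_mul hp0.le,
        ← Real.rpow_natCast (t ^ (2 / 3 : ℝ)), ← Real.rpow_mul ht0.le]
      norm_num
    have h3 : ‖ES g h b‖ ^ 8 ≤ (2 * ((p : ℝ) ^ (1 / 8 : ℝ) * t ^ (2 / 3 : ℝ))) ^ 8 := by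
      rw [h2]
      have h4 : 0 ≤ (p : ℝ) * t ^ (16 / 3 : ℝ) := by positivity
      nlinarith
    exact (pow_le_pow_iff_left₀ (norm_nonneg _) (by positivity) (by norm_num)).1 h3
  · push Not at hcase
    have h3 : (p : ℝ) ^ 3 ≤ t ^ 4 := by
      rw [htd]
      exact_mod_cast hcase
    have h4 : (p : ℝ) ^ (1 / 2 : ℝ) ≤ t ^ (2 / 3 : ℝ) := by
      have h5 := Real.rpow_le_rpow (by positivity) h3 (by norm_num : (0 : ℝ) ≤ 1 / 6)
      rw [← Real.rpow_natCast, ← Real.rpow_natCast, ← Real.rpow_mul hp0.le, ← Real.rpow_mul ht0.le] at h5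
      have e1 : ((3 : ℕ) : ℝ) * (1 / 6) = 1 / 2 := by norm_num
      have e2 : ((4 : ℕ) : ℝ) * (1 / 6) = 2 / 3 := by norm_num
      rwa [e1, e2] at h5
    have h5 := ES_bound g h b hb
    rw [Real.sqrt_eq_rpow] at h5
    have h6 : 1 ≤ (p : ℝ) ^ (1 / 8 : ℝ) := Real.one_le_rpow hp1 (by norm_num)
    have h7 : 0 < t ^ (2 / 3 : ℝ) := by positivity
    nlinarith

/-- the sums of the exponential function -/
lemma expo_sum2 (g c : (ZMod p)ˣ) (h k : ℕ) (hh : h < orderOf g) (hk : k < p) (h0 : h ≠ 0 ∨ k ≠ 0) :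
    ‖∑ n ∈ range (orderOf g), e ((h : ℝ) * n / (orderOf g : ℕ)) *
      e ((k : ℝ) * ((c * g ^ n : (ZMod p)ˣ) : ZMod p).val / p)‖ ≤
      2 * ((p : ℝ) ^ (1 / 8 : ℝ) * ((orderOf g : ℕ) : ℝ) ^ (2 / 3 : ℝ)) := by
  by_cases hk0 : k = 0
  · have hh0 : h ≠ 0 := by tauto
    subst hk0
    have hT0 : 0 < orderOf g := ord_pos g
    have h1 : ∀ n ∈ range (orderOf g), e ((h : ℝ) * n / (orderOf g : ℕ)) *
        e (((0 : ℕ) : ℝ) * ((c * g ^ n : (ZMod p)ˣ) : ZMod p).val / p) =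
        e (((h : ℤ) : ℝ) * ((n : ℝ) / (orderOf g : ℕ))) := by
      intro n _
      have e1 : ((0 : ℕ) : ℝ) * ((c * g ^ n : (ZMod p)ˣ) : ZMod p).val / p = ((0 : ℤ) : ℝ) := by simp
      rw [e1, e_int, mul_one]
      congr 1
      push_cast
      ring
    rw [sum_congr rfl h1, sum_char (orderOf g) hT0 h ?_, norm_zero]
    · positivity
    · intro hd
      have := Int.le_of_dvd (by omega) hd
      omega
  · have hkz : (k : ZMod p) ≠ 0 := by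
      intro h1
      rw [ZMod.natCast_eq_zero_iff] at h1
      exact absurd (Nat.le_of_dvd (by omega) h1) (by omega)
    have h1 : ∑ n ∈ range (orderOf g), e ((h : ℝ) * n / (orderOf g : ℕ)) *
        e ((k : ℝ) * ((c * g ^ n : (ZMod p)ˣ) : ZMod p).val / p) = ES g h ((k : ZMod p) * (c : ZMod p)) := by
      unfold ES
      refine sum_congr rfl fun n _ => ?_
      rw [e_val, Units.val_mul, mul_assoc]
    rw [h1]
    exact ES_bound2 g h (mul_ne_zero hkz c.ne_zero)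

end chars

/-- **small subgroups** -/
theorem small_subgroups (ε : ℝ) (hε : 0 < ε) (hε1 : ε ≤ 1) : ∃ κ : ℝ, 0 < κ ∧ ∃ p₀ : ℕ, ∀ p : ℕ, p₀ ≤ p →
    p.Prime → ∀ g c : ℤ, ¬ (p : ℤ) ∣ g → ¬ (p : ℤ) ∣ c → ∀ A1 N1 A2 N2 : ℕ,
      A1 + N1 ≤ orderOf (g : ZMod p) → A2 + N2 ≤ p →
      (p : ℝ) ^ (9 / 8 + ε) * (orderOf (g : ZMod p) : ℝ) ^ (2 / 3 : ℝ) ≤ (N1 : ℝ) * N2 →
      ∃ G : Finset (ℕ × ℕ), (N1 : ℝ) * N2 / p * (p : ℝ) ^ (-ε) ≤ G.card ∧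
        ∀ z ∈ G, (A1 ≤ z.1 ∧ z.1 < A1 + N1) ∧ (A2 ≤ z.2 ∧ z.2 < A2 + N2) ∧
          (p : ℤ) ∣ z.2 - c * g ^ z.1 ∧
          (∀ q : ℕ, q.Prime → κ * ff p < |(q : ℝ) - z.1|) ∧ ∀ q : ℕ, q.Prime → κ * ff p < |(q : ℝ) - z.2| := by
  classical
  obtain ⟨κ, hκ, hg⟩ := graph (ε / 2) (by positivity) (by linarith)
  have e1 := (tendsto_natCast_atTop_atTop (R := ℝ)).eventually hg
  have e2 := (tendsto_natCast_atTop_atTop (R := ℝ)).eventually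
    ((tendsto_rpow_atTop (show (0 : ℝ) < ε / 2 by positivity)).eventually_ge_atTop 2)
  obtain ⟨p₀, hp₀⟩ := (e1.and (e2.and (eventually_ge_atTop 2))).exists_forall_of_atTop
  refine ⟨κ, hκ, p₀, ?_⟩
  intro p hp0 hp g c hgp hc A1 N1 A2 N2 hA1 hA2 hN
  obtain ⟨g1, g2, g3⟩ := hp₀ p hp0
  have : Fact p.Prime := ⟨hp⟩
  have hpr : (2 : ℝ) ≤ p := by exact_mod_cast g3
  have hp0' : (0 : ℝ) < p := by linarith
  have hgu : (g : ZMod p) ≠ 0 := by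
    rw [Ne, ZMod.intCast_zmod_eq_zero_iff_dvd]
    exact hgp
  have hcu : (c : ZMod p) ≠ 0 := by
    rw [Ne, ZMod.intCast_zmod_eq_zero_iff_dvd]
    exact hc
  set cu : (ZMod p)ˣ := Units.mk0 (c : ZMod p) hcu with hcud
  set gu : (ZMod p)ˣ := Units.mk0 (g : ZMod p) hgu with hgud
  have hord : orderOf (g : ZMod p) = orderOf gu := by
    rw [← orderOf_units, hgud, Units.val_mk0]
  rw [hord] at hA1 hN
  set T := orderOf gu with hT
  have hT0 : 0 < T := ord_pos gu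
  have hTr : (1 : ℝ) ≤ T := by exact_mod_cast hT0
  have hTp : T ≤ p := by
    have h1 : T ∣ Fintype.card (ZMod p)ˣ := orderOf_dvd_card
    rw [ZMod.card_units_eq_totient, Nat.totient_prime hp] at h1
    exact (Nat.le_of_dvd (by omega) h1).trans (Nat.sub_le _ _)
  have hTpr : (T : ℝ) ≤ p := by exact_mod_cast hTp
  have hN2p : (N2 : ℝ) ≤ p := by exact_mod_cast (by omega : N2 ≤ p)
  have hN1p : (N1 : ℝ) ≤ p := by exact_mod_cast (by omega : N1 ≤ p)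
  have hN10 : (0 : ℝ) ≤ N1 := Nat.cast_nonneg _
  have hN20 : (0 : ℝ) ≤ N2 := Nat.cast_nonneg _
  have hmono : ∀ x y : ℝ, x ≤ y → (p : ℝ) ^ x ≤ (p : ℝ) ^ y := fun x y h =>
    Real.rpow_le_rpow_of_exponent_le (by linarith) h
  have hT23 : (1 : ℝ) ≤ (T : ℝ) ^ (2 / 3 : ℝ) := Real.one_le_rpow hTr (by norm_num)
  have hlow : (p : ℝ) ^ (1 + ε) ≤ (N1 : ℝ) * N2 := by
    refine le_trans ?_ hN
    have h1 : (p : ℝ) ^ (1 + ε) ≤ (p : ℝ) ^ (9 / 8 + ε) := hmono _ _ (by linarith)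
    have h2 : 0 ≤ (p : ℝ) ^ (9 / 8 + ε) := by positivity
    nlinarith
  have hsplit : (p : ℝ) ^ (1 + ε) = (p : ℝ) ^ ε * p := by
    rw [add_comm, Real.rpow_add_one hp0'.ne']
  rw [hsplit] at hlow
  have hN1 : (p : ℝ) ^ ε ≤ N1 := by
    have : (N1 : ℝ) * N2 ≤ N1 * p := mul_le_mul_of_nonneg_left hN2p hN10
    exact le_of_mul_le_mul_right (hlow.trans this) hp0'
  have hN2 : (p : ℝ) ^ ε ≤ N2 := by
    have : (N1 : ℝ) * N2 ≤ N2 * p := by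
      rw [mul_comm]
      exact mul_le_mul_of_nonneg_left hN1p hN20
    exact le_of_mul_le_mul_right (hlow.trans this) hp0'
  have hTr0 : (0 : ℝ) < T := by linarith
  have hW : (N1 : ℝ) * N2 * ((range T).card : ℕ) / (T * p) = (N1 : ℝ) * N2 / p := by
    rw [card_range]
    field_simp
  have hBW : 2 * ((p : ℝ) ^ (1 / 8 : ℝ) * (T : ℝ) ^ (2 / 3 : ℝ)) * (p : ℝ) ^ (ε / 2) ≤
      (N1 : ℝ) * N2 * ((range T).card : ℕ) / (T * p) := by
    rw [hW, le_div_iff₀ hp0']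
    refine le_trans ?_ hN
    have h5 : (p : ℝ) ^ (9 / 8 + ε) = (p : ℝ) ^ (1 / 8 : ℝ) * (p : ℝ) ^ (ε / 2) * (p : ℝ) ^ (ε / 2) * p := by
      rw [← Real.rpow_add hp0', ← Real.rpow_add hp0', ← Real.rpow_add_one hp0'.ne']
      congr 1
      ring
    rw [h5]
    have h6 : 0 ≤ (p : ℝ) ^ (1 / 8 : ℝ) * (T : ℝ) ^ (2 / 3 : ℝ) * (p : ℝ) ^ (ε / 2) * p := by positivity
    have h7 := mul_le_mul_of_nonneg_left g2 h6
    nlinarith
  have key := g1 T p hT0 hp.one_lt.le hTpr le_rfl ℕ (range T)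
    (fun n => n) (fun n => ((cu * gu ^ n : (ZMod p)ˣ) : ZMod p).val)
    (fun n hn => mem_range.1 hn) (fun n _ => ZMod.val_lt _)
    (2 * ((p : ℝ) ^ (1 / 8 : ℝ) * (T : ℝ) ^ (2 / 3 : ℝ))) (by positivity)
    (fun h hh k hk h0 => expo_sum2 gu cu h k hh hk h0) A1 N1 A2 N2 hA1 hA2
    ((hmono _ _ (by linarith)).trans hN1) ((hmono _ _ (by linarith)).trans hN2) hBW
  set G0 := good (κ * ff p) (range T) (fun n => n)
    (fun n => ((cu * gu ^ n : (ZMod p)ˣ) : ZMod p).val) A1 N1 A2 N2 with hG0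
  refine ⟨G0.image (fun n : ℕ => (n, ((cu * gu ^ n : (ZMod p)ˣ) : ZMod p).val)), ?_, ?_⟩
  · rw [card_image_of_injective]
    · refine le_trans ?_ key
      rw [hW]
      exact mul_le_mul_of_nonneg_left (hmono _ _ (by linarith)) (by positivity)
    · intro u v huv
      exact (Prod.ext_iff.1 huv).1
  · intro z hz
    obtain ⟨n, hn, rfl⟩ := mem_image.1 hz
    rw [hG0] at hn
    unfold good at hn
    rw [mem_filter, mem_Ico, mem_Ico] at hn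
    obtain ⟨-, h1, h2, h3, h4⟩ := hn
    refine ⟨h1, h2, ?_, h3, h4⟩
    rw [← ZMod.intCast_zmod_eq_zero_iff_dvd, Int.cast_sub, Int.cast_mul, Int.cast_pow, Int.cast_natCast,
      ZMod.natCast_zmod_val, Units.val_mul, Units.val_pow_eq_pow_val, hcud, hgud, Units.val_mk0,
      Units.val_mk0, sub_self]

end Pool.Agent.Q46.MH
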