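import Pool.Agent.Q46.MH.Dist
import Pool.Agent.Q46.MH.Poly
import Pool.Agent.Y807.WB.Main

set_option autoImplicit false

/-! # Functions of the elements of sumsets modulo a prime -/

namespace Pool.Agent.Q46.MH

open Finset Filter Polynomial
open Pool.Agent.H469R2.NK (e norm_e e_add)
open Pool.Agent.W147.PS (ff ff_compare ev_pow)

section chars

variable {p : ℕ} [Fact p.Prime]

lemma bil_gen (A B : Finset (ZMod p)) (G : ZMod p → ℂ) (hG : ∀ x, ‖G x‖ ≤ 1) (R : ℝ) (hR0 : 0 ≤ R)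
    (hR : ∀ c : ZMod p, c ≠ 0 → ‖∑ x, G x * (starRingEnd ℂ) (G (x + c))‖ ≤ R) (α β : ZMod p → ℂ)
    (hα : ∀ a, ‖α a‖ ≤ 1) (hβ : ∀ b, ‖β b‖ ≤ 1) :
    ‖∑ z ∈ A ×ˢ B, α z.1 * β z.2 * G (z.1 + z.2)‖ ≤
      Real.sqrt (A.card * (B.card * p + (B.card : ℝ) ^ 2 * R)) := by
  classical
  set T : ZMod p → ℂ := fun x => ∑ b ∈ B, β b * G (x + b) with hT
  have h1 : ∑ z ∈ A ×ˢ B, α z.1 * β z.2 * G (z.1 + z.2) = ∑ a ∈ A, α a * T a := by
    rw [sum_product]
    refine sum_congr rfl fun a _ => ?_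
    rw [hT]
    simp only
    rw [mul_sum]
    exact sum_congr rfl fun b _ => by ring
  have h2 : ‖∑ z ∈ A ×ˢ B, α z.1 * β z.2 * G (z.1 + z.2)‖ ≤ ∑ a ∈ A, ‖T a‖ := by
    rw [h1]
    refine (norm_sum_le _ _).trans (sum_le_sum fun a _ => ?_)
    rw [norm_mul]
    have := hα a
    have h3 := norm_nonneg (T a)
    nlinarith
  have h3 : (∑ a ∈ A, ‖T a‖) ^ 2 ≤ A.card * ∑ a ∈ A, ‖T a‖ ^ 2 := sq_sum_le_card_mul_sum_sq
  have h4 : ∑ a ∈ A, ‖T a‖ ^ 2 ≤ ∑ a, ‖T a‖ ^ 2 :=
    sum_le_sum_of_subset_of_nonneg (subset_univ _) (fun _ _ _ => by positivity)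
  have h5 : ((∑ a, ‖T a‖ ^ 2 : ℝ) : ℂ) = ∑ b ∈ B, ∑ b' ∈ B, β b * (starRingEnd ℂ) (β b') *
      ∑ x, G x * (starRingEnd ℂ) (G (x + (b' - b))) := by
    have h6 : ∀ x : ZMod p, ((‖T x‖ ^ 2 : ℝ) : ℂ) = ∑ b ∈ B, ∑ b' ∈ B, β b * (starRingEnd ℂ) (β b') *
        (G (x + b) * (starRingEnd ℂ) (G (x + b'))) := by
      intro x
      have h7 : ((‖T x‖ ^ 2 : ℝ) : ℂ) = T x * (starRingEnd ℂ) (T x) := by
        rw [Complex.mul_conj, Complex.normSq_eq_norm_sq]
      rw [h7, hT]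
      simp only
      rw [map_sum, sum_mul_sum]
      refine sum_congr rfl fun b _ => sum_congr rfl fun b' _ => ?_
      rw [map_mul (starRingEnd ℂ)]
      ring
    rw [Complex.ofReal_sum, sum_congr rfl fun x _ => h6 x, sum_comm]
    refine sum_congr rfl fun b _ => ?_
    rw [sum_comm]
    refine sum_congr rfl fun b' _ => ?_
    rw [← mul_sum]
    congr 1
    rw [← Equiv.sum_comp (Equiv.addRight b) (fun x => G x * (starRingEnd ℂ) (G (x + (b' - b))))]
    refine sum_congr rfl fun x _ => ?_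
    rw [Equiv.coe_addRight]
    congr 3
    ring
  have h6 : ∑ a, ‖T a‖ ^ 2 ≤ B.card * p + (B.card : ℝ) ^ 2 * R := by
    have h7 : ‖((∑ a, ‖T a‖ ^ 2 : ℝ) : ℂ)‖ ≤ ∑ b ∈ B, ∑ b' ∈ B, ((if b' = b then (p : ℝ) else 0) + R) := by
      rw [h5]
      refine (norm_sum_le _ _).trans (sum_le_sum fun b _ => (norm_sum_le _ _).trans (sum_le_sum fun b' _ => ?_))
      rw [norm_mul, norm_mul, RCLike.norm_conj]
      have hb := hβ b
      have hb' := hβ b'
      have h8 : ‖∑ x, G x * (starRingEnd ℂ) (G (x + (b' - b)))‖ ≤ (if b' = b then (p : ℝ) else 0) + R := by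
        split_ifs with hbb
        · have h9 : ‖∑ x, G x * (starRingEnd ℂ) (G (x + (b' - b)))‖ ≤ p := by
            refine (norm_sum_le _ _).trans ?_
            have h10 : ∀ x ∈ (univ : Finset (ZMod p)), ‖G x * (starRingEnd ℂ) (G (x + (b' - b)))‖ ≤ 1 := by
              intro x _
              rw [norm_mul, RCLike.norm_conj]
              have e1 := hG x
              have e2 := hG (x + (b' - b))
              have e3 := norm_nonneg (G x)
              have e4 := norm_nonneg (G (x + (b' - b)))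
              nlinarith
            refine (sum_le_sum h10).trans ?_
            simp [ZMod.card]
          linarith
        · rw [zero_add]
          exact hR _ (sub_ne_zero.2 hbb)
      have h9 : ‖β b‖ * ‖β b'‖ ≤ 1 := by
        have := norm_nonneg (β b)
        have := norm_nonneg (β b')
        nlinarith
      calc ‖β b‖ * ‖β b'‖ * ‖∑ x, G x * (starRingEnd ℂ) (G (x + (b' - b)))‖ ≤
          1 * ‖∑ x, G x * (starRingEnd ℂ) (G (x + (b' - b)))‖ :=
            mul_le_mul_of_nonneg_right h9 (norm_nonneg _)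
        _ ≤ _ := by rw [one_mul]; exact h8
    rw [Complex.norm_real, Real.norm_of_nonneg (sum_nonneg fun _ _ => by positivity)] at h7
    refine h7.trans (le_of_eq ?_)
    have h8 : ∀ b ∈ B, ∑ b' ∈ B, ((if b' = b then (p : ℝ) else 0) + R) = p + B.card * R := by
      intro b hb
      rw [sum_add_distrib, sum_ite_eq' B b (fun _ => (p : ℝ)), if_pos hb, sum_const, nsmul_eq_mul]
    rw [sum_congr rfl h8, sum_const, nsmul_eq_mul]
    ring
  have h7 : (∑ a ∈ A, ‖T a‖) ^ 2 ≤ A.card * (B.card * p + (B.card : ℝ) ^ 2 * R) :=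
    h3.trans (mul_le_mul_of_nonneg_left (h4.trans h6) (Nat.cast_nonneg _))
  exact h2.trans (Real.le_sqrt_of_sq_le h7)

/-- the degree of a difference -/
lemma deg_diff (f : (ZMod p)[X]) (hd : 2 ≤ f.natDegree) (hp : f.natDegree < p) {c : ZMod p} (hc : c ≠ 0) :
    (taylor c f - f).natDegree = f.natDegree - 1 := by
  set d := f.natDegree with hdd
  have hf0 : f ≠ 0 := by
    intro h
    rw [h, natDegree_zero] at hdd
    omega
  have h1 : (taylor c f - f).natDegree ≤ d - 1 := by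
    have h2 : (taylor c f - f).degree < f.degree := by
      have h3 := degree_sub_lt (p := taylor c f) (q := f) ?_ ?_ ?_
      · rwa [degree_taylor] at h3
      · rw [degree_taylor]
      · intro h
        apply hf0
        exact (taylor_injective c) (by rw [h, map_zero])
      · rw [leadingCoeff_taylor]
    by_cases h0 : taylor c f - f = 0
    · rw [h0, natDegree_zero]
      omega
    · have h3 := natDegree_lt_natDegree h0 h2
      omega
  refine le_antisymm h1 ?_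
  apply le_natDegree_of_ne_zero
  rw [coeff_sub, taylor_coeff]
  have h2 : (hasseDeriv (d - 1) f).natDegree ≤ 1 := (natDegree_hasseDeriv_le f (d - 1)).trans (by omega)
  rw [eval_eq_sum_range' (lt_of_le_of_lt h2 (show 1 < 2 by norm_num)), sum_range_succ, sum_range_one,
    hasseDeriv_coeff, hasseDeriv_coeff]
  have h3 : 1 + (d - 1) = d := by omega
  have h4 : 0 + (d - 1) = d - 1 := by omega
  rw [h3, h4, Nat.choose_self]
  have h5 : d.choose (d - 1) = d := by
    rw [Nat.choose_symm_of_eq_add (show d = (d - 1) + 1 by omega)]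
    exact Nat.choose_one_right d
  rw [h5]
  have h6 : ((1 : ℕ) : ZMod p) * f.coeff (d - 1) * c ^ 0 + (d : ZMod p) * f.coeff d * c ^ 1 - f.coeff (d - 1) =
      (d : ZMod p) * f.coeff d * c := by
    push_cast
    ring
  rw [h6]
  have h7 : (d : ZMod p) ≠ 0 := by
    intro h
    rw [ZMod.natCast_eq_zero_iff] at h
    exact absurd (Nat.le_of_dvd (by omega) h) (by omega)
  have h8 : f.coeff d ≠ 0 := by
    rw [hdd, coeff_natDegree]
    exact leadingCoeff_ne_zero.2 hf0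
  exact mul_ne_zero (mul_ne_zero h7 h8) hc

lemma corr_poly (f : (ZMod p)[X]) (hd : 2 ≤ f.natDegree) (hp : f.natDegree < p) {k : ZMod p} (hk : k ≠ 0)
    {c : ZMod p} (hc : c ≠ 0) :
    ‖∑ x, (ZMod.stdAddChar (k * f.eval x) : ℂ) * (starRingEnd ℂ) (ZMod.stdAddChar (k * f.eval (x + c)) : ℂ)‖ ≤
      f.natDegree * Real.sqrt p := by
  have h1 : ∀ x : ZMod p, (ZMod.stdAddChar (k * f.eval x) : ℂ) *
      (starRingEnd ℂ) (ZMod.stdAddChar (k * f.eval (x + c)) : ℂ) =
      (ZMod.stdAddChar ((C (-k) * (taylor c f - f)).eval x) : ℂ) := by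
    intro x
    rw [conj_char', ← AddChar.map_add_eq_mul, eval_mul, eval_C, eval_sub, taylor_eval]
    congr 1
    ring
  rw [sum_congr rfl fun x _ => h1 x]
  have h2 : (C (-k) * (taylor c f - f)).natDegree = f.natDegree - 1 := by
    rw [natDegree_C_mul (neg_ne_zero.2 hk), deg_diff f hd hp hc]
  have h3 := Pool.Agent.Y951.WP.weil_le p (C (-k) * (taylor c f - f))
    (by
      rw [h2]
      intro hdv
      exact absurd (Nat.le_of_dvd (by omega) hdv) (by omega))
    (ZMod.isPrimitive_stdAddChar p)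
  rw [h2] at h3
  refine h3.trans (mul_le_mul_of_nonneg_right ?_ (Real.sqrt_nonneg _))
  exact_mod_cast (by omega : f.natDegree - 1 - 1 ≤ f.natDegree)

open Classical in
/-- the function `ψ(k / x)` -/
noncomputable def Ginv (k x : ZMod p) : ℂ := if x = 0 then 0 else (ZMod.stdAddChar (k * x⁻¹) : ℂ)

lemma corr_inv {k : ZMod p} (hk : k ≠ 0) {c : ZMod p} (hc : c ≠ 0) :
    ‖∑ x, Ginv k x * (starRingEnd ℂ) (Ginv k (x + c))‖ ≤ 4 * Real.sqrt p := by
  classical
  have h1 := Pool.Agent.Y807.WB.weil_le p k c 0 hk hc (ZMod.isPrimitive_stdAddChar p)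
  refine le_trans (le_of_eq ?_) h1
  congr 1
  refine sum_congr rfl fun x _ => ?_
  unfold Ginv
  by_cases hx : x = 0
  · simp [hx]
  · by_cases hxc : x + c = 0
    · simp [hxc]
    · rw [if_neg hx, if_neg hxc, if_neg (by tauto), conj_char', ← AddChar.map_add_eq_mul]
      congr 1
      ring

end chars

/-- the general form -/
theorem sumset_gen (D : ℝ) (hD : 1 ≤ D) (ε : ℝ) (hε : 0 < ε) (hε1 : ε ≤ 1) : ∃ κ : ℝ, 0 < κ ∧ ∃ p₀ : ℕ,
    ∀ p : ℕ, p₀ ≤ p → ∀ [Fact p.Prime], ∀ (A B : Finset (ZMod p)) (Ω : Finset (ZMod p × ZMod p))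
    (F : ZMod p × ZMod p → ZMod p), (∀ k : ZMod p, k ≠ 0 → ‖∑ z ∈ Ω, (ZMod.stdAddChar (k * F z) : ℂ)‖ ≤
      Real.sqrt (A.card * (B.card * p + (B.card : ℝ) ^ 2 * (D * Real.sqrt p)))) →
    (A.card : ℝ) * B.card ≤ 2 * Ω.card →
    ∀ s N : ℕ, s + N ≤ p → (p : ℝ) ^ (3 + ε) ≤ (N : ℝ) ^ 2 * A.card * B.card →
      (p : ℝ) ^ (5 / 2 + ε) ≤ (N : ℝ) ^ 2 * A.card →
      (N : ℝ) * A.card * B.card / p * (p : ℝ) ^ (-ε) ≤ (good1 (κ * ff p) Ω (fun z => (F z).val) s N).card := by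
  classical
  obtain ⟨κ, hκ, hg⟩ := graph1 (ε / 4) (by positivity) (by linarith)
  have e1 := (tendsto_natCast_atTop_atTop (R := ℝ)).eventually hg
  have e2 := (tendsto_natCast_atTop_atTop (R := ℝ)).eventually
    ((tendsto_rpow_atTop (show (0 : ℝ) < ε / 2 by positivity)).eventually_ge_atTop (8 * D))
  obtain ⟨p₀, hp₀⟩ := (e1.and (e2.and (eventually_ge_atTop 2))).exists_forall_of_atTop
  refine ⟨κ, hκ, p₀, ?_⟩
  intro p hp0 hp A B Ω F hsum hΩ s N hs hN1 hN2
  obtain ⟨g1, g2, g3⟩ := hp₀ p hp0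
  have hpp : p.Prime := hp.out
  have hpr : (2 : ℝ) ≤ p := by exact_mod_cast g3
  have hp0' : (0 : ℝ) < p := by linarith
  have hmono : ∀ x y : ℝ, x ≤ y → (p : ℝ) ^ x ≤ (p : ℝ) ^ y := fun x y h =>
    Real.rpow_le_rpow_of_exponent_le (by linarith) h
  set a : ℝ := (A.card : ℝ) with ha
  set b : ℝ := (B.card : ℝ) with hb
  set w : ℝ := (Ω.card : ℝ) with hw
  have ha0 : 0 ≤ a := Nat.cast_nonneg _
  have hb0 : 0 ≤ b := Nat.cast_nonneg _
  have hw0 : 0 ≤ w := Nat.cast_nonneg _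
  have hN0 : (0 : ℝ) ≤ N := Nat.cast_nonneg _
  have hap : a ≤ p := by
    have h1 : A.card ≤ p := by
      have := card_le_univ A
      rwa [ZMod.card] at this
    rw [ha]
    exact_mod_cast h1
  have hbp : b ≤ p := by
    have h1 : B.card ≤ p := by
      have := card_le_univ B
      rwa [ZMod.card] at this
    rw [hb]
    exact_mod_cast h1
  have hNe : (p : ℝ) ^ (ε / 4) ≤ N := by
    have h1 : (p : ℝ) ^ (3 + ε) ≤ (N : ℝ) ^ 2 * ((p : ℝ) * p) := by
      refine hN1.trans ?_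
      rw [mul_assoc]
      exact mul_le_mul_of_nonneg_left (mul_le_mul hap hbp hb0 hp0'.le) (by positivity)
    have h2 : (p : ℝ) ^ (3 + ε) = (p : ℝ) ^ (1 + ε) * ((p : ℝ) * p) := by
      have : (3 + ε) = (1 + ε) + 2 := by ring
      rw [this, Real.rpow_add hp0', Real.rpow_two]
      ring
    rw [h2] at h1
    have h3 : (p : ℝ) ^ (1 + ε) ≤ (N : ℝ) ^ 2 := le_of_mul_le_mul_right h1 (by positivity)
    have h4 : ((p : ℝ) ^ (ε / 4)) ^ 2 ≤ (N : ℝ) ^ 2 := by
      refine le_trans ?_ h3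
      rw [← Real.rpow_natCast, ← Real.rpow_mul hp0'.le]
      apply hmono
      push_cast
      linarith
    exact (pow_le_pow_iff_left₀ (by positivity) hN0 (by norm_num)).1 h4
  have hbound : Real.sqrt (a * (b * p + b ^ 2 * (D * Real.sqrt p))) * (p : ℝ) ^ (ε / 4) ≤ (N : ℝ) * w / p := by
    rw [le_div_iff₀ hp0']
    have h1 : Real.sqrt (a * (b * p + b ^ 2 * (D * Real.sqrt p))) * (p : ℝ) ^ (ε / 4) * p =
        Real.sqrt (a * (b * p + b ^ 2 * (D * Real.sqrt p)) * ((p : ℝ) ^ (ε / 2) * p ^ 2)) := by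
      rw [Real.sqrt_mul (show 0 ≤ a * (b * p + b ^ 2 * (D * Real.sqrt p)) by positivity),
        Real.sqrt_mul (show (0 : ℝ) ≤ (p : ℝ) ^ (ε / 2) by positivity) ((p : ℝ) ^ 2),
        Real.sqrt_sq hp0'.le, Real.sqrt_eq_rpow ((p : ℝ) ^ (ε / 2)), ← Real.rpow_mul hp0'.le]
      have : ε / 2 * (1 / 2) = ε / 4 := by ring
      rw [this]
      ring
    rw [h1]
    apply Real.sqrt_le_iff.2
    refine ⟨by positivity, ?_⟩
    have h2 : (a * b) ^ 2 * (N : ℝ) ^ 2 ≤ 4 * ((N : ℝ) * w) ^ 2 := by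
      have h3 : (a * b) ^ 2 ≤ (2 * w) ^ 2 := pow_le_pow_left₀ (by positivity) hΩ 2
      have h4 := mul_le_mul_of_nonneg_right h3 (show 0 ≤ (N : ℝ) ^ 2 by positivity)
      nlinarith
    have h5 : 8 * D * ((p : ℝ) ^ (ε / 2) * p ^ 2 * p) ≤ (N : ℝ) ^ 2 * a * b := by
      refine le_trans ?_ hN1
      have h6 : (p : ℝ) ^ (3 + ε) = (p : ℝ) ^ (ε / 2) * ((p : ℝ) ^ (ε / 2) * p ^ 2 * p) := by
        have : (3 + ε) = ε / 2 + (ε / 2 + 3) := by ring
        rw [this, Real.rpow_add hp0', Real.rpow_add hp0']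
        have : (p : ℝ) ^ (3 : ℝ) = p ^ 3 := by
          rw [← Real.rpow_natCast]
          norm_num
        rw [this]
        ring
      rw [h6]
      exact mul_le_mul_of_nonneg_right g2 (by positivity)
    have h7 : 8 * D * ((p : ℝ) ^ (ε / 2) * p ^ 2 * Real.sqrt p) ≤ (N : ℝ) ^ 2 * a := by
      refine le_trans ?_ hN2
      have h6 : (p : ℝ) ^ (5 / 2 + ε) = (p : ℝ) ^ (ε / 2) * ((p : ℝ) ^ (ε / 2) * p ^ 2 * Real.sqrt p) := by
        have : (5 / 2 + ε) = ε / 2 + (ε / 2 + (2 + 1 / 2)) := by ring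
        rw [this, Real.rpow_add hp0', Real.rpow_add hp0', Real.rpow_add hp0', Real.rpow_two, Real.sqrt_eq_rpow]
        ring
      rw [h6]
      exact mul_le_mul_of_nonneg_right g2 (by positivity)
    have h8 : 4 * (a * (b * p + b ^ 2 * (D * Real.sqrt p)) * ((p : ℝ) ^ (ε / 2) * p ^ 2)) ≤
        (a * b) ^ 2 * (N : ℝ) ^ 2 := by
      have h9 : 8 * ((p : ℝ) ^ (ε / 2) * p ^ 2 * p) ≤ (N : ℝ) ^ 2 * a * b := by
        refine le_trans ?_ h5
        have : 0 ≤ (p : ℝ) ^ (ε / 2) * p ^ 2 * p := by positivity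
        nlinarith
      have h10 := mul_le_mul_of_nonneg_left h9 (show 0 ≤ a * b by positivity)
      have h11 := mul_le_mul_of_nonneg_left h7 (show 0 ≤ a * b ^ 2 by positivity)
      nlinarith
    linarith
  have key := g1 p hpp.one_lt.le le_rfl (ZMod p × ZMod p) Ω (fun z => (F z).val) (fun z _ => ZMod.val_lt _)
    (Real.sqrt (a * (b * p + b ^ 2 * (D * Real.sqrt p)))) (Real.sqrt_nonneg _)
    (by
      intro h hh h0
      have hz : (h : ZMod p) ≠ 0 := by
        intro h1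
        rw [ZMod.natCast_eq_zero_iff] at h1
        exact absurd (Nat.le_of_dvd (by omega) h1) (by omega)
      have h1 := hsum h hz
      refine le_trans (le_of_eq ?_) h1
      congr 1
      refine sum_congr rfl fun z _ => ?_
      rw [e_val]) s N hs hNe hbound
  refine le_trans ?_ key
  have h1 : (p : ℝ) ^ (-ε) * 2 ≤ (p : ℝ) ^ (-(ε / 4)) := by
    have h2 : (p : ℝ) ^ (-(ε / 4)) = (p : ℝ) ^ (-ε) * (p : ℝ) ^ (3 * ε / 4) := by
      rw [← Real.rpow_add hp0']
      congr 1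
      ring
    rw [h2]
    apply mul_le_mul_of_nonneg_left _ (by positivity)
    have h3 : (p : ℝ) ^ (ε / 2) ≤ (p : ℝ) ^ (3 * ε / 4) := hmono _ _ (by linarith)
    linarith
  calc (N : ℝ) * a * b / p * (p : ℝ) ^ (-ε) = (N : ℝ) * (a * b) / (2 * p) * ((p : ℝ) ^ (-ε) * 2) := by
        field_simp
    _ ≤ (N : ℝ) * (2 * w) / (2 * p) * ((p : ℝ) ^ (-ε) * 2) := by
        apply mul_le_mul_of_nonneg_right _ (by positivity)
        apply div_le_div_of_nonneg_right _ (by positivity)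
        exact mul_le_mul_of_nonneg_left hΩ hN0
    _ = (N : ℝ) * w / p * ((p : ℝ) ^ (-ε) * 2) := by
        field_simp
    _ ≤ _ := mul_le_mul_of_nonneg_left h1 (by positivity)

/-- **polynomials on sumsets** -/
theorem sumset_poly (d : ℕ) (hd : 2 ≤ d) (ε : ℝ) (hε : 0 < ε) (hε1 : ε ≤ 1) : ∃ κ : ℝ, 0 < κ ∧ ∃ p₀ : ℕ,
    ∀ p : ℕ, p₀ ≤ p → p.Prime → ∀ (A B : Finset (ZMod p)) (f : (ZMod p)[X]), f.natDegree = d →
    ∀ (u v : ZMod p → ZMod p) (s N : ℕ), s + N ≤ p → (p : ℝ) ^ (3 + ε) ≤ (N : ℝ) ^ 2 * A.card * B.card →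
      (p : ℝ) ^ (5 / 2 + ε) ≤ (N : ℝ) ^ 2 * A.card →
      (N : ℝ) * A.card * B.card / p * (p : ℝ) ^ (-ε) ≤ (good1 (κ * ff p) (A ×ˢ B)
        (fun z => (f.eval (z.1 + z.2) + u z.1 + v z.2).val) s N).card := by
  classical
  obtain ⟨κ, hκ, p₀, h⟩ := sumset_gen d (by exact_mod_cast (by omega : 1 ≤ d)) ε hε hε1
  refine ⟨κ, hκ, max p₀ (d + 1), ?_⟩
  intro p hp hpp A B f hf u v s N hs h1 h2
  have : Fact p.Prime := ⟨hpp⟩
  have hpd : d < p := by
    have := (le_max_right _ _).trans hp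
    omega
  refine h p ((le_max_left _ _).trans hp) A B (A ×ˢ B) (fun z => f.eval (z.1 + z.2) + u z.1 + v z.2) ?_ ?_ s N hs h1 h2
  · intro k hk
    have h3 := bil_gen A B (fun x => (ZMod.stdAddChar (k * f.eval x) : ℂ)) (fun x => (norm_char _).le)
      (d * Real.sqrt p) (by positivity)
      (fun c hc => by
        have h4 := corr_poly f (by omega) (by omega) hk hc
        rwa [hf] at h4)
      (fun a => (ZMod.stdAddChar (k * u a) : ℂ)) (fun b => (ZMod.stdAddChar (k * v b) : ℂ))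
      (fun a => (norm_char _).le) (fun b => (norm_char _).le)
    refine le_trans (le_of_eq ?_) h3
    congr 1
    refine sum_congr rfl fun z _ => ?_
    rw [← AddChar.map_add_eq_mul, ← AddChar.map_add_eq_mul]
    congr 1
    ring
  · rw [card_product]
    push_cast
    have : 0 ≤ (A.card : ℝ) * B.card := by positivity
    linarith

/-- **inverses on sumsets** -/
theorem sumset_inv (ε : ℝ) (hε : 0 < ε) (hε1 : ε ≤ 1) : ∃ κ : ℝ, 0 < κ ∧ ∃ p₀ : ℕ,
    ∀ p : ℕ, p₀ ≤ p → p.Prime → ∀ (A B : Finset (ZMod p)) (c : ZMod p), c ≠ 0 →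
    ∀ (u v : ZMod p → ZMod p) (s N : ℕ), s + N ≤ p → (p : ℝ) ^ (3 + ε) ≤ (N : ℝ) ^ 2 * A.card * B.card →
      (p : ℝ) ^ (5 / 2 + ε) ≤ (N : ℝ) ^ 2 * A.card →
      (N : ℝ) * A.card * B.card / p * (p : ℝ) ^ (-ε) ≤
        (good1 (κ * ff p) ((A ×ˢ B).filter (fun z => z.1 + z.2 ≠ 0))
        (fun z => (c * (z.1 + z.2)⁻¹ + u z.1 + v z.2).val) s N).card := by
  classical
  obtain ⟨κ, hκ, p₀, h⟩ := sumset_gen 4 (by norm_num) ε hε hε1
  refine ⟨κ, hκ, max p₀ 2, ?_⟩
  intro p hp hpp A B c hc u v s N hs h1 h2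
  have : Fact p.Prime := ⟨hpp⟩
  have hp2 : 2 ≤ p := (le_max_right _ _).trans hp
  have hpr : (2 : ℝ) ≤ p := by exact_mod_cast hp2
  refine h p ((le_max_left _ _).trans hp) A B _ (fun z => c * (z.1 + z.2)⁻¹ + u z.1 + v z.2) ?_ ?_ s N hs h1 h2
  · intro k hk
    have h3 := bil_gen A B (Ginv (k * c)) (fun x => by
        unfold Ginv
        split_ifs
        · simp
        · exact (norm_char _).le)
      (4 * Real.sqrt p) (by positivity)
      (fun c' hc' => corr_inv (mul_ne_zero hk hc) hc')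
      (fun a => (ZMod.stdAddChar (k * u a) : ℂ)) (fun b => (ZMod.stdAddChar (k * v b) : ℂ))
      (fun a => (norm_char _).le) (fun b => (norm_char _).le)
    refine le_trans (le_of_eq ?_) h3
    congr 1
    rw [sum_filter]
    refine sum_congr rfl fun z _ => ?_
    unfold Ginv
    by_cases hz : z.1 + z.2 = 0
    · simp [hz]
    · rw [if_pos hz, if_neg hz, ← AddChar.map_add_eq_mul, ← AddChar.map_add_eq_mul]
      congr 1
      ring
  · -- the number of pairs
    have h3 : ((A ×ˢ B).filter (fun z => ¬ (z.1 + z.2 ≠ 0))).card ≤ B.card := by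
      refine card_le_card_of_injOn (fun z => z.2) ?_ ?_
      · intro z hz
        rw [mem_coe, mem_filter, mem_product] at hz
        exact hz.1.2
      · intro z hz w hw hzw
        rw [mem_coe, mem_filter, not_not] at hz hw
        simp only at hzw
        refine Prod.ext ?_ hzw
        have h4 := hz.2
        have h5 := hw.2
        rw [hzw] at h4
        exact add_right_cancel (h4.trans h5.symm)
    have h4 := card_filter_add_card_filter_not (s := A ×ˢ B) (fun z => z.1 + z.2 ≠ 0)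
    rw [card_product] at h4
    have hA2 : 2 ≤ A.card := by
      by_contra h5
      have h6 : (A.card : ℝ) ≤ 1 := by exact_mod_cast (by omega : A.card ≤ 1)
      have hNp : (N : ℝ) ≤ p := by exact_mod_cast (by omega : N ≤ p)
      have h7 : (N : ℝ) ^ 2 * A.card ≤ (p : ℝ) ^ 2 * 1 :=
        mul_le_mul (pow_le_pow_left₀ (Nat.cast_nonneg _) hNp 2) h6 (Nat.cast_nonneg _) (by positivity)
      have h8 : (p : ℝ) ^ (2 : ℝ) < (p : ℝ) ^ (5 / 2 + ε) :=
        Real.rpow_lt_rpow_of_exponent_lt (by linarith) (by linarith)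
      rw [Real.rpow_two] at h8
      linarith
    have h5 : A.card * B.card ≤ 2 * ((A ×ˢ B).filter (fun z => z.1 + z.2 ≠ 0)).card := by
      have h6 : 2 * B.card ≤ A.card * B.card := Nat.mul_le_mul_right _ hA2
      omega
    exact_mod_cast h5

end Pool.Agent.Q46.MH
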