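import Pool.Agent.Q46.MH.Graph

set_option autoImplicit false

/-! # Exponents of the solutions of `a g^i + b g^j = c` -/

namespace Pool.Agent.Q46.MH

open Finset Filter
open Pool.Agent.H469R2.NK (e norm_e e_add)
open Pool.Agent.TH915.PW (e_int sum_char)
open Pool.Agent.W147.PS (ff ff_compare ev_pow)

lemma jac_norm {L : Type} [Field L] [Fintype L] {ψ χ : MulChar L ℂ} (hψ : ψ ≠ 1) (hχ : χ ≠ 1) (h : ψ * χ ≠ 1) :
    ‖jacobiSum ψ χ‖ ≤ Real.sqrt (Fintype.card L) := by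
  classical
  have hchar : ringChar ℂ ≠ ringChar L := by
    obtain ⟨c, hc⟩ := CharP.exists L
    rw [ringChar.eq_zero]
    intro h0
    have h1 : (Fintype.card L : L) = 0 := Nat.cast_card_eq_zero L
    haveI : CharP L 0 := by rw [h0]; exact ringChar.charP L
    rw [CharP.cast_eq_zero_iff L 0] at h1
    exact Fintype.card_ne_zero (zero_dvd_iff.1 h1)
  have h1 := jacobiSum_mul_jacobiSum_inv hchar hψ hχ h
  have h2 : jacobiSum ψ⁻¹ χ⁻¹ = (starRingEnd ℂ) (jacobiSum ψ χ) := by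
    unfold jacobiSum
    rw [map_sum]
    refine Finset.sum_congr rfl fun x _ => ?_
    rw [map_mul, ← MulChar.star_apply' ψ, ← MulChar.star_apply' χ]
    rfl
  rw [h2, Complex.mul_conj] at h1
  have h3 : Complex.normSq (jacobiSum ψ χ) = (Fintype.card L : ℝ) := by exact_mod_cast h1
  rw [← h3, ← Complex.norm_def]

lemma e_nat_mul (n : ℕ) (t : ℝ) : e (n * t) = e t ^ n := by
  induction n with
  | zero =>
    have := e_int 0
    simpa using this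
  | succ n ih =>
    rw [pow_succ, ← ih, ← e_add]
    congr 1
    push_cast
    ring

lemma e_ne_one {k T : ℕ} (hk : 0 < k) (hkT : k < T) : e ((k : ℝ) / T) ≠ 1 := by
  intro h
  have hT0 : 0 < T := by omega
  have h1 := sum_char T hT0 (k : ℤ) (by
    intro hd
    have := Int.le_of_dvd (by omega) hd
    omega)
  have h2 : ∀ r ∈ range T, e (((k : ℤ) : ℝ) * ((r : ℝ) / T)) = 1 := by
    intro r _
    have : ((k : ℤ) : ℝ) * ((r : ℝ) / T) = (r : ℕ) * ((k : ℝ) / T) := by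
      push_cast
      ring
    rw [this, e_nat_mul, h, one_pow]
  rw [sum_congr rfl h2, sum_const, card_range, nsmul_eq_mul, mul_one] at h1
  have : T = 0 := by exact_mod_cast h1
  omega

section chars

variable {p : ℕ} [hp : Fact p.Prime]

lemma root_mem : (Units.mk0 (e ((1 : ℝ) / (p - 1 : ℕ))) (by
    intro h
    have := norm_e ((1 : ℝ) / (p - 1 : ℕ))
    rw [h, norm_zero] at this
    exact zero_ne_one this) : ℂˣ) ∈ rootsOfUnity (Fintype.card (ZMod p)ˣ) ℂ := by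
  rw [mem_rootsOfUnity, ZMod.card_units_eq_totient, Nat.totient_prime hp.out]
  apply Units.ext
  rw [Units.val_pow_eq_pow_val, Units.val_mk0, ← e_nat_mul, Units.val_one]
  have hT : ((p - 1 : ℕ) : ℝ) ≠ 0 := by
    have := hp.out.one_lt
    exact_mod_cast (by omega : p - 1 ≠ 0)
  have : ((p - 1 : ℕ) : ℝ) * (1 / ((p - 1 : ℕ) : ℝ)) = ((1 : ℤ) : ℝ) := by
    field_simp
    norm_num
  rw [this, e_int]

/-- the character with `g ↦ e(1 / (p - 1))` -/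
noncomputable def chg {g : (ZMod p)ˣ} (hg : ∀ x, x ∈ Subgroup.zpowers g) : MulChar (ZMod p) ℂ :=
  MulChar.ofRootOfUnity root_mem hg

lemma chg_pow {g : (ZMod p)ˣ} (hg : ∀ x, x ∈ Subgroup.zpowers g) (h i : ℕ) :
    (chg hg ^ h) ((g ^ i : (ZMod p)ˣ) : ZMod p) = e ((h : ℝ) * i / (p - 1 : ℕ)) := by
  rw [MulChar.pow_apply_coe, Units.val_pow_eq_pow_val, map_pow]
  have h1 : chg hg (g : ZMod p) = e ((1 : ℝ) / (p - 1 : ℕ)) := MulChar.ofRootOfUnity_spec root_mem hg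
  rw [h1, ← pow_mul, ← e_nat_mul]
  congr 1
  push_cast
  ring

lemma chg_ne {g : (ZMod p)ˣ} (hg : ∀ x, x ∈ Subgroup.zpowers g) {h : ℕ} (h0 : h ≠ 0) (hh : h < p - 1) :
    chg hg ^ h ≠ 1 := by
  intro h1
  have h2 := chg_pow hg h 1
  rw [h1, MulChar.one_apply_coe] at h2
  refine e_ne_one (Nat.pos_of_ne_zero h0) hh ?_
  rw [h2]
  congr 1
  push_cast
  ring

lemma J_bound {g : (ZMod p)ˣ} (hg : ∀ x, x ∈ Subgroup.zpowers g) (h k : ℕ) (hh : h < p - 1) (hk : k < p - 1)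
    (h0 : h ≠ 0 ∨ k ≠ 0) : ‖jacobiSum (chg hg ^ h) (chg hg ^ k)‖ ≤ Real.sqrt p := by
  have h1 : (1 : ℝ) ≤ Real.sqrt p := by
    rw [Real.one_le_sqrt]
    exact_mod_cast hp.out.one_lt.le
  by_cases hh0 : h = 0
  · have hk0 : k ≠ 0 := by tauto
    rw [hh0, pow_zero, jacobiSum_one_nontrivial (chg_ne hg hk0 hk)]
    simpa using h1
  by_cases hk0 : k = 0
  · rw [hk0, pow_zero, jacobiSum_comm, jacobiSum_one_nontrivial (chg_ne hg hh0 hh)]
    simpa using h1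
  by_cases hp1 : chg hg ^ h * chg hg ^ k = 1
  · have h2 : chg hg ^ k = (chg hg ^ h)⁻¹ := eq_inv_of_mul_eq_one_right hp1
    rw [h2, jacobiSum_nontrivial_inv (chg_ne hg hh0 hh), norm_neg]
    refine le_trans ?_ h1
    have h3 : ((-1 : (ZMod p)ˣ) : ZMod p) = -1 := by simp
    obtain ⟨m, hm⟩ : ∃ m : ℕ, g ^ m = (-1 : (ZMod p)ˣ) := by
      obtain ⟨m, hm⟩ := mem_powers_iff_mem_zpowers.2 (hg (-1))
      exact ⟨m, hm⟩
    rw [← h3, ← hm, chg_pow, norm_e]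
  · have h2 := jac_norm (chg_ne hg hh0 hh) (chg_ne hg hk0 hk) hp1
    rwa [ZMod.card] at h2

/-- the pairs of exponents of the solutions -/
noncomputable def sol (g a b c : (ZMod p)ˣ) : Finset (ℕ × ℕ) :=
  open Classical in
  ((range (p - 1)) ×ˢ (range (p - 1))).filter (fun z =>
    (a : ZMod p) * ((g ^ z.1 : (ZMod p)ˣ) : ZMod p) + (b : ZMod p) * ((g ^ z.2 : (ZMod p)ˣ) : ZMod p) = c)

lemma sol_sum {g : (ZMod p)ˣ} (hg : ∀ x, x ∈ Subgroup.zpowers g) (a b c : (ZMod p)ˣ) (h k : ℕ) :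
    ∑ z ∈ sol g a b c, e ((h : ℝ) * z.1 / (p - 1 : ℕ)) * e ((k : ℝ) * z.2 / (p - 1 : ℕ)) =
      (chg hg ^ h) ((c * a⁻¹ : (ZMod p)ˣ) : ZMod p) * (chg hg ^ k) ((c * b⁻¹ : (ZMod p)ˣ) : ZMod p) *
        jacobiSum (chg hg ^ h) (chg hg ^ k) := by
  classical
  have hord : orderOf g = p - 1 := by
    rw [orderOf_eq_card_of_forall_mem_zpowers hg, Nat.card_eq_fintype_card, ZMod.card_units_eq_totient,
      Nat.totient_prime hp.out]
  have hT0 : 0 < p - 1 := by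
    have := hp.out.one_lt
    omega
  have hex : ∀ u : (ZMod p)ˣ, ∃ m, m < p - 1 ∧ g ^ m = u := by
    intro u
    obtain ⟨m, hm⟩ := mem_powers_iff_mem_zpowers.2 (hg u)
    refine ⟨m % (p - 1), Nat.mod_lt _ hT0, ?_⟩
    rw [← hord, pow_mod_orderOf]
    exact hm
  unfold jacobiSum
  rw [mul_sum]
  have h1 : ∀ x : ZMod p, (chg hg ^ h) ((c * a⁻¹ : (ZMod p)ˣ) : ZMod p) * (chg hg ^ k) ((c * b⁻¹ : (ZMod p)ˣ) : ZMod p) *
      ((chg hg ^ h) x * (chg hg ^ k) (1 - x)) =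
      (chg hg ^ h) (((c * a⁻¹ : (ZMod p)ˣ) : ZMod p) * x) * (chg hg ^ k) (((c * b⁻¹ : (ZMod p)ˣ) : ZMod p) * (1 - x)) := by
    intro x
    rw [map_mul, map_mul]
    ring
  rw [sum_congr rfl fun x _ => h1 x]
  have h2 : ∑ x : ZMod p, (chg hg ^ h) (((c * a⁻¹ : (ZMod p)ˣ) : ZMod p) * x) *
      (chg hg ^ k) (((c * b⁻¹ : (ZMod p)ˣ) : ZMod p) * (1 - x)) =
      ∑ x ∈ univ.filter (fun x : ZMod p => x ≠ 0 ∧ 1 - x ≠ 0), (chg hg ^ h) (((c * a⁻¹ : (ZMod p)ˣ) : ZMod p) * x) *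
      (chg hg ^ k) (((c * b⁻¹ : (ZMod p)ˣ) : ZMod p) * (1 - x)) := by
    rw [sum_filter_of_ne]
    intro x _ hx
    constructor
    · rintro rfl
      apply hx
      rw [mul_zero, MulChar.map_zero, zero_mul]
    · intro h3
      apply hx
      rw [h3, mul_zero, MulChar.map_zero, mul_zero]
  rw [h2]
  refine sum_bij (fun z _ => ((a * c⁻¹ * g ^ z.1 : (ZMod p)ˣ) : ZMod p)) ?_ ?_ ?_ ?_
  · intro z hz
    unfold sol at hz
    rw [mem_filter] at hz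
    rw [mem_filter]
    refine ⟨mem_univ _, Units.ne_zero _, ?_⟩
    have h3 : (1 : ZMod p) - ((a * c⁻¹ * g ^ z.1 : (ZMod p)ˣ) : ZMod p) =
        ((b * c⁻¹ * g ^ z.2 : (ZMod p)ˣ) : ZMod p) := by
      rw [Units.val_mul, Units.val_mul, Units.val_mul, Units.val_mul]
      have h4 := hz.2
      have h5 : (c : ZMod p) * ((c⁻¹ : (ZMod p)ˣ) : ZMod p) = 1 := Units.mul_inv c
      linear_combination (-1 : ZMod p) * h5 - ((c⁻¹ : (ZMod p)ˣ) : ZMod p) * h4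
    rw [h3]
    exact Units.ne_zero _
  · intro z hz w hw hzw
    unfold sol at hz hw
    rw [mem_filter, mem_product, mem_range, mem_range] at hz hw
    have h3 : g ^ z.1 = g ^ w.1 := mul_left_cancel (Units.ext hzw)
    have h4 : z.1 = w.1 := pow_injOn_Iio_orderOf (by rw [Set.mem_Iio, hord]; exact hz.1.1)
      (by rw [Set.mem_Iio, hord]; exact hw.1.1) h3
    have h5 : (b : ZMod p) * ((g ^ z.2 : (ZMod p)ˣ) : ZMod p) = (b : ZMod p) * ((g ^ w.2 : (ZMod p)ˣ) : ZMod p) := by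
      have h6 := hz.2
      have h7 := hw.2
      rw [h3] at h6
      exact add_left_cancel (h6.trans h7.symm)
    have h6 : g ^ z.2 = g ^ w.2 := by
      apply mul_left_cancel (a := b)
      apply Units.ext
      rw [Units.val_mul, Units.val_mul]
      exact h5
    have h7 : z.2 = w.2 := pow_injOn_Iio_orderOf (by rw [Set.mem_Iio, hord]; exact hz.1.2)
      (by rw [Set.mem_Iio, hord]; exact hw.1.2) h6
    exact Prod.ext h4 h7
  · intro x hx
    rw [mem_filter] at hx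
    obtain ⟨i, hi, hi2⟩ := hex (c * a⁻¹ * Units.mk0 x hx.2.1)
    obtain ⟨j, hj, hj2⟩ := hex (c * b⁻¹ * Units.mk0 (1 - x) hx.2.2)
    refine ⟨(i, j), ?_, ?_⟩
    · unfold sol
      rw [mem_filter, mem_product, mem_range, mem_range]
      refine ⟨⟨hi, hj⟩, ?_⟩
      simp only
      rw [hi2, hj2]
      have h5 : (a : ZMod p) * ((a⁻¹ : (ZMod p)ˣ) : ZMod p) = 1 := Units.mul_inv a
      have h6 : (b : ZMod p) * ((b⁻¹ : (ZMod p)ˣ) : ZMod p) = 1 := Units.mul_inv b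
      rw [Units.val_mul, Units.val_mul, Units.val_mul, Units.val_mul, Units.val_mk0, Units.val_mk0]
      linear_combination (c : ZMod p) * x * h5 + (c : ZMod p) * (1 - x) * h6
    · simp only
      rw [hi2]
      have h3 : a * c⁻¹ * (c * a⁻¹ * Units.mk0 x hx.2.1) = Units.mk0 x hx.2.1 := by group
      rw [h3, Units.val_mk0]
  · intro z hz
    unfold sol at hz
    rw [mem_filter] at hz
    have h3 : (1 : ZMod p) - ((a * c⁻¹ * g ^ z.1 : (ZMod p)ˣ) : ZMod p) =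
        ((b * c⁻¹ * g ^ z.2 : (ZMod p)ˣ) : ZMod p) := by
      rw [Units.val_mul, Units.val_mul, Units.val_mul, Units.val_mul]
      have h4 := hz.2
      have h5 : (c : ZMod p) * ((c⁻¹ : (ZMod p)ˣ) : ZMod p) = 1 := Units.mul_inv c
      linear_combination (-1 : ZMod p) * h5 - ((c⁻¹ : (ZMod p)ˣ) : ZMod p) * h4
    rw [h3, ← Units.val_mul, ← Units.val_mul]
    have h4 : c * a⁻¹ * (a * c⁻¹ * g ^ z.1) = g ^ z.1 := by group
    have h5 : c * b⁻¹ * (b * c⁻¹ * g ^ z.2) = g ^ z.2 := by group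
    rw [h4, h5, chg_pow, chg_pow]

lemma sol_card {g : (ZMod p)ˣ} (hg : ∀ x, x ∈ Subgroup.zpowers g) (a b c : (ZMod p)ˣ) :
    ((sol g a b c).card : ℝ) = p - 2 := by
  have h1 := sol_sum hg a b c 0 0
  have h2 : ∀ z ∈ sol g a b c, e (((0 : ℕ) : ℝ) * z.1 / (p - 1 : ℕ)) * e (((0 : ℕ) : ℝ) * z.2 / (p - 1 : ℕ)) = 1 := by
    intro z _
    have h3 := e_int 0
    have e1 : ((0 : ℕ) : ℝ) * z.1 / (p - 1 : ℕ) = ((0 : ℤ) : ℝ) := by simp
    have e2 : ((0 : ℕ) : ℝ) * z.2 / (p - 1 : ℕ) = ((0 : ℤ) : ℝ) := by simp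
    rw [e1, e2, h3, one_mul]
  rw [sum_congr rfl h2, pow_zero, jacobiSum_one_one, MulChar.one_apply_coe, MulChar.one_apply_coe, one_mul,
    one_mul, ZMod.card, sum_const, nsmul_eq_mul, mul_one] at h1
  have h3 : (((sol g a b c).card : ℝ) : ℂ) = ((p - 2 : ℝ) : ℂ) := by
    push_cast
    exact h1
  exact_mod_cast h3

lemma sol_bound {g : (ZMod p)ˣ} (hg : ∀ x, x ∈ Subgroup.zpowers g) (a b c : (ZMod p)ˣ) (h k : ℕ)
    (hh : h < p - 1) (hk : k < p - 1) (h0 : h ≠ 0 ∨ k ≠ 0) :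
    ‖∑ z ∈ sol g a b c, e ((h : ℝ) * z.1 / (p - 1 : ℕ)) * e ((k : ℝ) * z.2 / (p - 1 : ℕ))‖ ≤ Real.sqrt p := by
  rw [sol_sum hg]
  have hex : ∀ u : (ZMod p)ˣ, ∃ m : ℕ, g ^ m = u := by
    intro u
    obtain ⟨m, hm⟩ := mem_powers_iff_mem_zpowers.2 (hg u)
    exact ⟨m, hm⟩
  have h1 : ∀ (l : ℕ) (u : (ZMod p)ˣ), ‖(chg hg ^ l) (u : ZMod p)‖ = 1 := by
    intro l u
    obtain ⟨m, rfl⟩ := hex u
    rw [chg_pow, norm_e]
  rw [norm_mul, norm_mul, h1, h1, one_mul, one_mul]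
  exact J_bound hg h k hh hk h0

end chars

/-- **exponents of the solutions of linear equations** -/
theorem zech (ε : ℝ) (hε : 0 < ε) (hε1 : ε ≤ 1) : ∃ κ : ℝ, 0 < κ ∧ ∃ p₀ : ℕ, ∀ p : ℕ, p₀ ≤ p →
    p.Prime → ∀ g a b c : ℤ, orderOf (g : ZMod p) = p - 1 → ¬ (p : ℤ) ∣ a → ¬ (p : ℤ) ∣ b → ¬ (p : ℤ) ∣ c →
    ∀ A1 N1 A2 N2 : ℕ, A1 + N1 ≤ p - 1 → A2 + N2 ≤ p - 1 → (p : ℝ) ^ (3 / 2 + ε) ≤ (N1 : ℝ) * N2 →
      ∃ G : Finset (ℕ × ℕ), (N1 : ℝ) * N2 / p * (p : ℝ) ^ (-ε) ≤ G.card ∧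
        ∀ z ∈ G, (A1 ≤ z.1 ∧ z.1 < A1 + N1) ∧ (A2 ≤ z.2 ∧ z.2 < A2 + N2) ∧
          (p : ℤ) ∣ a * g ^ z.1 + b * g ^ z.2 - c ∧
          (∀ q : ℕ, q.Prime → κ * ff p < |(q : ℝ) - z.1|) ∧ ∀ q : ℕ, q.Prime → κ * ff p < |(q : ℝ) - z.2| := by
  classical
  obtain ⟨κ, hκ, hg⟩ := graph (ε / 2) (by positivity) (by linarith)
  have e1 := (tendsto_natCast_atTop_atTop (R := ℝ)).eventually hg
  have e2 := (tendsto_natCast_atTop_atTop (R := ℝ)).eventually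
    ((tendsto_rpow_atTop (show (0 : ℝ) < ε / 2 by positivity)).eventually_ge_atTop 2)
  obtain ⟨p₀, hp₀⟩ := (e1.and (e2.and (eventually_ge_atTop 4))).exists_forall_of_atTop
  refine ⟨κ, hκ, p₀, ?_⟩
  intro p hp0 hp g a b c hgo ha hb hc A1 N1 A2 N2 hA1 hA2 hN
  obtain ⟨g1, g2, g3⟩ := hp₀ p hp0
  have : Fact p.Prime := ⟨hp⟩
  have hpr : (4 : ℝ) ≤ p := by exact_mod_cast g3
  have hp0' : (0 : ℝ) < p := by linarith
  have hunit : ∀ t : ℤ, ¬ (p : ℤ) ∣ t → (t : ZMod p) ≠ 0 := by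
    intro t ht
    rw [Ne, ZMod.intCast_zmod_eq_zero_iff_dvd]
    exact ht
  have hgne : (g : ZMod p) ≠ 0 := by
    intro h0
    rw [h0] at hgo
    have h1 : orderOf (0 : ZMod p) = 0 := by
      rw [orderOf_eq_zero_iff']
      intro n hn
      rw [zero_pow hn.ne']
      exact zero_ne_one
    omega
  set gu : (ZMod p)ˣ := Units.mk0 (g : ZMod p) hgne with hgud
  set au : (ZMod p)ˣ := Units.mk0 (a : ZMod p) (hunit a ha) with haud
  set bu : (ZMod p)ˣ := Units.mk0 (b : ZMod p) (hunit b hb) with hbud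
  set cu : (ZMod p)ˣ := Units.mk0 (c : ZMod p) (hunit c hc) with hcud
  have hgen : ∀ x : (ZMod p)ˣ, x ∈ Subgroup.zpowers gu := by
    have h1 : orderOf gu = Nat.card (ZMod p)ˣ := by
      rw [← orderOf_units, hgud, Units.val_mk0, hgo, Nat.card_eq_fintype_card, ZMod.card_units_eq_totient,
        Nat.totient_prime hp]
    have h2 : Subgroup.zpowers gu = ⊤ := by
      apply Subgroup.eq_top_of_card_eq
      rw [Nat.card_zpowers, h1]
    intro x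
    rw [h2]
    exact Subgroup.mem_top x
  have hN2p : (N2 : ℝ) ≤ p := by exact_mod_cast (by omega : N2 ≤ p)
  have hN1p : (N1 : ℝ) ≤ p := by exact_mod_cast (by omega : N1 ≤ p)
  have hN10 : (0 : ℝ) ≤ N1 := Nat.cast_nonneg _
  have hN20 : (0 : ℝ) ≤ N2 := Nat.cast_nonneg _
  have hmono : ∀ x y : ℝ, x ≤ y → (p : ℝ) ^ x ≤ (p : ℝ) ^ y := fun x y h =>
    Real.rpow_le_rpow_of_exponent_le (by linarith) h
  have hsplit : (p : ℝ) ^ (3 / 2 + ε) = (p : ℝ) ^ (1 / 2 + ε) * p := by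
    have : (3 / 2 + ε) = (1 / 2 + ε) + 1 := by ring
    rw [this, Real.rpow_add_one hp0'.ne']
  have hN1 : (p : ℝ) ^ (1 / 2 + ε) ≤ N1 := by
    rw [hsplit] at hN
    have : (N1 : ℝ) * N2 ≤ N1 * p := mul_le_mul_of_nonneg_left hN2p hN10
    exact le_of_mul_le_mul_right (hN.trans this) hp0'
  have hN2 : (p : ℝ) ^ (1 / 2 + ε) ≤ N2 := by
    rw [hsplit] at hN
    have : (N1 : ℝ) * N2 ≤ N2 * p := by
      rw [mul_comm]
      exact mul_le_mul_of_nonneg_left hN1p hN20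
    exact le_of_mul_le_mul_right (hN.trans this) hp0'
  have hcard : ((sol gu au bu cu).card : ℝ) = (p : ℝ) - 2 := sol_card hgen au bu cu
  have hT : ((p - 1 : ℕ) : ℝ) = (p : ℝ) - 1 := by
    rw [Nat.cast_sub hp.one_lt.le]
    simp
  have hW : (N1 : ℝ) * N2 / (2 * p) ≤
      (N1 : ℝ) * N2 * (sol gu au bu cu).card / (((p - 1 : ℕ) : ℝ) * ((p - 1 : ℕ) : ℝ)) := by
    rw [hcard, hT, div_le_div_iff₀ (by positivity) (by nlinarith)]
    have h1 : ((p : ℝ) - 1) * (p - 1) ≤ (p - 2) * (2 * p) := by nlinarith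
    have h2 : 0 ≤ (N1 : ℝ) * N2 := by positivity
    calc (N1 : ℝ) * N2 * (((p : ℝ) - 1) * (p - 1)) ≤ (N1 : ℝ) * N2 * ((p - 2) * (2 * p)) :=
          mul_le_mul_of_nonneg_left h1 h2
      _ = (N1 : ℝ) * N2 * (p - 2) * (2 * p) := by ring
  have hBW : Real.sqrt p * (p : ℝ) ^ (ε / 2) ≤
      (N1 : ℝ) * N2 * (sol gu au bu cu).card / (((p - 1 : ℕ) : ℝ) * ((p - 1 : ℕ) : ℝ)) := by
    refine le_trans ?_ hW
    rw [le_div_iff₀ (by positivity)]
    refine le_trans ?_ hN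
    rw [hsplit]
    have h5 : (p : ℝ) ^ (1 / 2 + ε) = (p : ℝ) ^ (ε / 2) * (Real.sqrt p * (p : ℝ) ^ (ε / 2)) := by
      rw [Real.sqrt_eq_rpow, ← Real.rpow_add hp0', ← Real.rpow_add hp0']
      congr 1
      ring
    rw [h5]
    have h6 : 0 ≤ Real.sqrt p * (p : ℝ) ^ (ε / 2) := by positivity
    have h7 := mul_le_mul_of_nonneg_right g2 h6
    nlinarith
  have q1 := g1 (p - 1) (p - 1) (by omega) (by omega) (by rw [hT]; linarith) (by rw [hT]; linarith)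
    (ℕ × ℕ) (sol gu au bu cu) (fun z => z.1) (fun z => z.2)
    (fun z hz => by
      unfold sol at hz
      rw [mem_filter, mem_product, mem_range, mem_range] at hz
      exact hz.1.1)
    (fun z hz => by
      unfold sol at hz
      rw [mem_filter, mem_product, mem_range, mem_range] at hz
      exact hz.1.2) (Real.sqrt p) (Real.sqrt_nonneg _)
    (fun h hh k hk h0 => sol_bound hgen au bu cu h k hh hk h0) A1 N1 A2 N2 hA1 hA2
    ((hmono _ _ (by linarith)).trans hN1) ((hmono _ _ (by linarith)).trans hN2) hBW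
  refine ⟨good (κ * ff p) (sol gu au bu cu) (fun z => z.1) (fun z => z.2) A1 N1 A2 N2, ?_, ?_⟩
  · refine le_trans ?_ q1
    have h1 : (p : ℝ) ^ (-ε) * 2 ≤ (p : ℝ) ^ (-(ε / 2)) := by
      have : (p : ℝ) ^ (-(ε / 2)) = (p : ℝ) ^ (-ε) * (p : ℝ) ^ (ε / 2) := by
        rw [← Real.rpow_add hp0']
        congr 1
        ring
      rw [this]
      exact mul_le_mul_of_nonneg_left g2 (by positivity)
    calc (N1 : ℝ) * N2 / p * (p : ℝ) ^ (-ε) = (N1 : ℝ) * N2 / (2 * p) * ((p : ℝ) ^ (-ε) * 2) := by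
          field_simp
      _ ≤ _ := mul_le_mul hW h1 (by positivity) (by positivity)
  · intro z hz
    unfold good sol at hz
    rw [mem_filter, mem_filter, mem_Ico, mem_Ico] at hz
    obtain ⟨⟨-, h0⟩, h1, h2, h3, h4⟩ := hz
    refine ⟨h1, h2, ?_, h3, h4⟩
    rw [← ZMod.intCast_zmod_eq_zero_iff_dvd]
    push_cast
    rw [sub_eq_zero]
    rw [Units.val_pow_eq_pow_val, Units.val_pow_eq_pow_val, hgud, haud, hbud, hcud, Units.val_mk0,
      Units.val_mk0, Units.val_mk0, Units.val_mk0] at h0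
    exact h0

end Pool.Agent.Q46.MH
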