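import Pool.Agent.TH915.PW.IntCrit

set_option autoImplicit false

/-! # Completing the sum: points in boxes from complete exponential sums -/

namespace Pool.Agent.Q46.MH

open Finset Filter
open Pool.Agent.H469R2.NK (e norm_e e_add)
open Pool.Agent.TH915.PW (e_int sum_char)

/-- the exponential sum over `[A, A + N)` -/
noncomputable def FF (A N : ℕ) (t : ℝ) : ℂ := ∑ n ∈ Ico A (A + N), e (t * n)

lemma norm_FF_le (A N : ℕ) (t : ℝ) : ‖FF A N t‖ ≤ N := by
  unfold FF
  refine (norm_sum_le _ _).trans ?_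
  simp [norm_e]

lemma FF_add_int (A N : ℕ) (t : ℝ) (k : ℤ) : FF A N (t + k) = FF A N t := by
  unfold FF
  refine sum_congr rfl fun n _ => ?_
  have h1 : (t + k) * n = t * n + ((k * n : ℤ) : ℝ) := by push_cast; ring
  rw [h1, e_add, e_int, mul_one]

lemma norm_one_sub_e (t : ℝ) : ‖1 - e t‖ = 2 * |Real.sin (Real.pi * t)| := by
  have h1 : ‖1 - e t‖ ^ 2 = (2 * |Real.sin (Real.pi * t)|) ^ 2 := by
    have h2 : e t = Complex.exp (((2 * Real.pi * t : ℝ) : ℂ) * Complex.I) := rfl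
    rw [h2, Complex.exp_mul_I, ← Complex.ofReal_cos, ← Complex.ofReal_sin, ← Complex.normSq_eq_norm_sq,
      Complex.normSq_apply]
    simp only [Complex.sub_re, Complex.one_re, Complex.add_re, Complex.ofReal_re, Complex.mul_re,
      Complex.I_re, Complex.ofReal_im, Complex.I_im, Complex.sub_im, Complex.one_im, Complex.add_im,
      Complex.mul_im]
    rw [mul_pow, sq_abs]
    have h3 : 2 * Real.pi * t = 2 * (Real.pi * t) := by ring
    rw [h3, Real.cos_two_mul, Real.sin_two_mul]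
    have h4 := Real.sin_sq_add_cos_sq (Real.pi * t)
    have h5 : Real.cos (Real.pi * t) ^ 2 = 1 - Real.sin (Real.pi * t) ^ 2 := by linarith
    nlinarith [h5, sq_nonneg (Real.sin (Real.pi * t))]
  exact (sq_eq_sq₀ (norm_nonneg _) (by positivity)).1 h1

/-- the geometric sum -/
lemma norm_FF_sin (A N : ℕ) (t : ℝ) : ‖FF A N t‖ * |Real.sin (Real.pi * t)| ≤ 1 := by
  have h1 : FF A N t * (1 - e t) = e (t * A) - e (t * (A + N : ℕ)) := by
    unfold FF
    rw [sum_mul]
    have h2 : ∀ n ∈ Ico A (A + N), e (t * n) * (1 - e t) = e (t * n) - e (t * (n + 1 : ℕ)) := by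
      intro n _
      rw [mul_sub, mul_one, ← e_add]
      congr 2
      push_cast
      ring
    rw [sum_congr rfl h2]
    have h3 := Finset.sum_Ico_sub (fun n : ℕ => -e (t * n)) (Nat.le_add_right A N)
    have h4 : ∀ n ∈ Ico A (A + N), e (t * n) - e (t * (n + 1 : ℕ)) =
        -e (t * ((n + 1 : ℕ) : ℝ)) - -e (t * (n : ℝ)) := by
      intro n _
      ring
    rw [sum_congr rfl h4, h3]
    ring
  have h2 : ‖FF A N t‖ * ‖1 - e t‖ ≤ 2 := by
    rw [← norm_mul, h1]
    refine (norm_sub_le _ _).trans ?_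
    rw [norm_e, norm_e]
    norm_num
  rw [norm_one_sub_e] at h2
  linarith

lemma norm_FF_bound (A N : ℕ) (t : ℝ) (h0 : 0 < t) (h1 : t < 1) :
    ‖FF A N t‖ ≤ 1 / (2 * t) + 1 / (2 * (1 - t)) := by
  have hb := norm_FF_sin A N t
  have hn : 0 ≤ ‖FF A N t‖ := norm_nonneg _
  have hpos : 0 < Real.pi := Real.pi_pos
  have h1t : 0 < 1 - t := by linarith
  rcases le_total t (1 / 2) with h | h
  · have hs : 2 * t ≤ Real.sin (Real.pi * t) := by
      have := Real.mul_le_sin (x := Real.pi * t) (by positivity) (by nlinarith)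
      have e : 2 / Real.pi * (Real.pi * t) = 2 * t := by field_simp
      linarith
    have hs2 := hs.trans (le_abs_self _)
    have h3 : ‖FF A N t‖ * (2 * t) ≤ 1 := le_trans (mul_le_mul_of_nonneg_left hs2 hn) hb
    have h4 : ‖FF A N t‖ ≤ 1 / (2 * t) := by
      rw [le_div_iff₀ (by positivity)]
      exact h3
    have h5 : 0 ≤ 1 / (2 * (1 - t)) := by positivity
    linarith
  · have hs : 2 * (1 - t) ≤ Real.sin (Real.pi * t) := by
      have := Real.mul_le_sin (x := Real.pi * (1 - t))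
        (mul_nonneg hpos.le (by linarith)) (by nlinarith)
      have e : 2 / Real.pi * (Real.pi * (1 - t)) = 2 * (1 - t) := by field_simp
      have e2 : Real.sin (Real.pi * (1 - t)) = Real.sin (Real.pi * t) := by
        rw [show Real.pi * (1 - t) = Real.pi - Real.pi * t by ring, Real.sin_pi_sub]
      linarith
    have hs2 := hs.trans (le_abs_self _)
    have h3 : ‖FF A N t‖ * (2 * (1 - t)) ≤ 1 := le_trans (mul_le_mul_of_nonneg_left hs2 hn) hb
    have h4 : ‖FF A N t‖ ≤ 1 / (2 * (1 - t)) := by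
      rw [le_div_iff₀ (by positivity)]
      exact h3
    have h5 : 0 ≤ 1 / (2 * t) := by positivity
    linarith

lemma harm_le (n : ℕ) : ∑ b ∈ Ico 1 n, 1 / (b : ℝ) ≤ 1 + Real.log n := by
  rcases Nat.eq_zero_or_pos n with rfl | hn
  · simp
  have h := harmonic_le_one_add_log n
  have h1 : ∑ b ∈ Ico 1 n, 1 / (b : ℝ) ≤ (harmonic n : ℝ) := by
    rw [harmonic_eq_sum_Icc]
    push_cast
    have : ∀ b ∈ Ico 1 n, 1 / (b : ℝ) = ((b : ℝ))⁻¹ := fun b _ => one_div _
    rw [sum_congr rfl this]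
    apply sum_le_sum_of_subset_of_nonneg
    · intro b hb
      rw [mem_Ico] at hb
      rw [mem_Icc]
      omega
    · intro b _ _
      positivity
  exact h1.trans h

/-- the mean of the absolute values of the exponential sums -/
theorem L1_bound (A N m : ℕ) (hm : 1 ≤ m) (hN : N ≤ m) (θ : ℝ) :
    ∑ h ∈ range m, ‖FF A N (θ - h / m)‖ ≤ m * (3 + Real.log m) := by
  have hm0 : (0 : ℝ) < m := by exact_mod_cast hm
  have hmi : (0 : ℤ) < m := by exact_mod_cast hm
  set K : ℤ := ⌊(m : ℝ) * θ⌋ with hK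
  set u : ℝ := Int.fract ((m : ℝ) * θ) with hu
  have hu0 : 0 ≤ u := Int.fract_nonneg _
  have hu1 : u < 1 := Int.fract_lt_one _
  have hθ : θ = (K + u) / m := by
    rw [eq_div_iff hm0.ne', hK, hu, Int.floor_add_fract]
    ring
  set f : ℕ → ℕ := fun h => ((K - h) % (m : ℤ)).toNat with hf
  have hfm : ∀ h, f h < m := by
    intro h
    have h1 := Int.emod_lt_of_pos (K - h) hmi
    have h2 := Int.emod_nonneg (K - h) hmi.ne'
    simp only [hf]
    omega
  have hfe : ∀ h : ℕ, ((f h : ℕ) : ℤ) = (K - h) % (m : ℤ) := by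
    intro h
    simp only [hf]
    exact Int.toNat_of_nonneg (Int.emod_nonneg _ hmi.ne')
  have hval : ∀ h : ℕ, ‖FF A N (θ - h / m)‖ = ‖FF A N (((f h : ℕ) + u) / m)‖ := by
    intro h
    have h1 : θ - h / m = ((f h : ℕ) + u) / m + (((K - h) / (m : ℤ) : ℤ) : ℝ) := by
      have h2 : ((K - h : ℤ) : ℝ) = (m : ℝ) * (((K - h) / (m : ℤ) : ℤ) : ℝ) + ((f h : ℕ) : ℝ) := by
        have h3 := Int.mul_ediv_add_emod (K - h) (m : ℤ)
        rw [← hfe h] at h3
        exact_mod_cast h3.symm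
      push_cast at h2
      rw [hθ]
      field_simp
      linarith
    rw [h1, FF_add_int]
  have hinj : Set.InjOn f (range m : Finset ℕ) := by
    intro a ha b hb hab
    rw [mem_coe, mem_range] at ha hb
    have h1 : (K - a) % (m : ℤ) = (K - b) % (m : ℤ) := by
      rw [← hfe a, ← hfe b, hab]
    have h2 : (m : ℤ) ∣ (K - a) - (K - b) := Int.ModEq.dvd (show (K - b) ≡ (K - a) [ZMOD m] from h1.symm)
    have h3 : (m : ℤ) ∣ (b : ℤ) - a := by
      have : (K - a) - (K - b) = (b : ℤ) - a := by ring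
      rwa [this] at h2
    have h4 : |(b : ℤ) - a| < m := by
      rw [abs_lt]
      omega
    have h5 := Int.eq_zero_of_abs_lt_dvd h3 h4
    omega
  have himg : (range m).image f = range m := by
    apply eq_of_subset_of_card_le
    · intro j hj
      obtain ⟨h, -, rfl⟩ := mem_image.1 hj
      exact mem_range.2 (hfm h)
    · rw [card_image_of_injOn hinj]
  have h1 : ∑ h ∈ range m, ‖FF A N (θ - h / m)‖ = ∑ j ∈ range m, ‖FF A N (((j : ℕ) + u) / m)‖ := by
    conv_rhs => rw [← himg]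
    rw [sum_image hinj]
    exact sum_congr rfl fun h _ => hval h
  rw [h1]
  have hNr : (N : ℝ) ≤ m := by exact_mod_cast hN
  have hlog : 0 ≤ Real.log m := Real.log_natCast_nonneg m
  -- the term bounds
  have h2 : ∀ j ∈ range m, ‖FF A N (((j : ℕ) + u) / m)‖ ≤
      (if j = 0 then (m : ℝ) else 0) + (if j = m - 1 then (m : ℝ) else 0) +
      (if j ∈ Ico 1 (m - 1) then (m : ℝ) / 2 * (1 / j) else 0) +
      (if j ∈ Ico 1 (m - 1) then (m : ℝ) / 2 * (1 / ((m - 1 - j : ℕ) : ℝ)) else 0) := by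
    intro j hj
    rw [mem_range] at hj
    by_cases hj0 : j = 0
    · have h3 := (norm_FF_le A N (((j : ℕ) + u) / m)).trans hNr
      rw [if_pos hj0]
      have e1 : (0 : ℝ) ≤ (if j = m - 1 then (m : ℝ) else 0) := by split_ifs <;> positivity
      have e2 : (0 : ℝ) ≤ (if j ∈ Ico 1 (m - 1) then (m : ℝ) / 2 * (1 / j) else 0) := by
        split_ifs <;> positivity
      have e3 : (0 : ℝ) ≤ (if j ∈ Ico 1 (m - 1) then (m : ℝ) / 2 * (1 / ((m - 1 - j : ℕ) : ℝ)) else 0) := by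
        split_ifs <;> positivity
      linarith
    by_cases hj1 : j = m - 1
    · have h3 := (norm_FF_le A N (((j : ℕ) + u) / m)).trans hNr
      rw [if_pos hj1]
      have e1 : (0 : ℝ) ≤ (if j = 0 then (m : ℝ) else 0) := by split_ifs <;> positivity
      have e2 : (0 : ℝ) ≤ (if j ∈ Ico 1 (m - 1) then (m : ℝ) / 2 * (1 / j) else 0) := by
        split_ifs <;> positivity
      have e3 : (0 : ℝ) ≤ (if j ∈ Ico 1 (m - 1) then (m : ℝ) / 2 * (1 / ((m - 1 - j : ℕ) : ℝ)) else 0) := by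
        split_ifs <;> positivity
      linarith
    have hmem : j ∈ Ico 1 (m - 1) := by
      rw [mem_Ico]
      omega
    rw [if_neg hj0, if_neg hj1, if_pos hmem, if_pos hmem]
    have hjr : (1 : ℝ) ≤ j := by exact_mod_cast (by omega : 1 ≤ j)
    have hjm : ((m - 1 - j : ℕ) : ℝ) = m - 1 - j := by
      rw [Nat.cast_sub (by omega), Nat.cast_sub hm]
      push_cast
      ring
    have hjm1 : (1 : ℝ) ≤ (m : ℝ) - 1 - j := by
      rw [← hjm]
      exact_mod_cast (by omega : 1 ≤ m - 1 - j)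
    have ht0 : 0 < ((j : ℝ) + u) / m := by positivity
    have ht1 : ((j : ℝ) + u) / m < 1 := by
      rw [div_lt_one hm0]
      linarith
    have h3 := norm_FF_bound A N (((j : ℝ) + u) / m) ht0 ht1
    have h4 : 1 / (2 * (((j : ℝ) + u) / m)) ≤ (m : ℝ) / 2 * (1 / j) := by
      have e1 : 1 / (2 * (((j : ℝ) + u) / m)) = (m : ℝ) / 2 * (1 / (j + u)) := by
        field_simp
      rw [e1]
      apply mul_le_mul_of_nonneg_left _ (by positivity)
      apply one_div_le_one_div_of_le (by linarith)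
      linarith
    have h5 : 1 / (2 * (1 - ((j : ℝ) + u) / m)) ≤ (m : ℝ) / 2 * (1 / ((m - 1 - j : ℕ) : ℝ)) := by
      have hne : (m : ℝ) - (j + u) ≠ 0 := by
        have : 0 < (m : ℝ) - (j + u) := by linarith
        exact this.ne'
      have e1 : 1 / (2 * (1 - ((j : ℝ) + u) / m)) = (m : ℝ) / 2 * (1 / (m - (j + u))) := by
        have e2 : 1 - ((j : ℝ) + u) / m = (m - (j + u)) / m := by field_simp
        rw [e2]
        field_simp
      rw [e1, hjm]
      apply mul_le_mul_of_nonneg_left _ (by positivity)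
      apply one_div_le_one_div_of_le (by linarith)
      linarith
    linarith
  refine (sum_le_sum h2).trans ?_
  rw [sum_add_distrib, sum_add_distrib, sum_add_distrib]
  have s1 : ∑ j ∈ range m, (if j = 0 then (m : ℝ) else 0) ≤ m := by
    rw [sum_ite_eq' (range m) 0 (fun _ => (m : ℝ))]
    split_ifs <;> linarith
  have s2 : ∑ j ∈ range m, (if j = m - 1 then (m : ℝ) else 0) ≤ m := by
    rw [sum_ite_eq' (range m) (m - 1) (fun _ => (m : ℝ))]
    split_ifs <;> linarith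
  have hsub : (range m).filter (fun j => j ∈ Ico 1 (m - 1)) = Ico 1 (m - 1) := by
    ext j
    rw [mem_filter, mem_range, mem_Ico]
    omega
  have hlogm : Real.log ((m - 1 : ℕ) : ℝ) ≤ Real.log m := by
    rcases Nat.eq_zero_or_pos (m - 1) with h0 | h0
    · rw [h0]; simpa using hlog
    · apply Real.log_le_log (by exact_mod_cast h0)
      exact_mod_cast Nat.sub_le m 1
  have hH : ∑ j ∈ Ico 1 (m - 1), 1 / (j : ℝ) ≤ 1 + Real.log m := (harm_le (m - 1)).trans (by linarith)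
  have s3 : ∑ j ∈ range m, (if j ∈ Ico 1 (m - 1) then (m : ℝ) / 2 * (1 / j) else 0) ≤
      (m : ℝ) / 2 * (1 + Real.log m) := by
    rw [← sum_filter, hsub, ← mul_sum]
    exact mul_le_mul_of_nonneg_left hH (by positivity)
  have s4 : ∑ j ∈ range m, (if j ∈ Ico 1 (m - 1) then (m : ℝ) / 2 * (1 / ((m - 1 - j : ℕ) : ℝ)) else 0) ≤
      (m : ℝ) / 2 * (1 + Real.log m) := by
    rw [← sum_filter, hsub, ← mul_sum]
    apply mul_le_mul_of_nonneg_left _ (by positivity)
    refine le_trans (le_of_eq ?_) hH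
    apply sum_bij (fun (b : ℕ) _ => m - 1 - b)
    · intro b hb; rw [mem_Ico] at hb ⊢; omega
    · intro a ha b hb h; rw [mem_Ico] at ha hb; omega
    · intro b hb; rw [mem_Ico] at hb; exact ⟨m - 1 - b, by rw [mem_Ico]; omega, by omega⟩
    · intro b _; rfl
  nlinarith

/-- completion of one indicator function -/
lemma complete1 (A N m : ℕ) (hm : 1 ≤ m) (hAN : A + N ≤ m) (θ : ℝ) (x : ℕ) (hx : x < m) :
    (if x ∈ Ico A (A + N) then e (θ * x) else 0) =
      (1 / (m : ℂ)) * ∑ h ∈ range m, FF A N (θ - h / m) * e ((h : ℝ) * x / m) := by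
  have hm0 : (m : ℂ) ≠ 0 := by exact_mod_cast (by omega : m ≠ 0)
  have hmr : (m : ℝ) ≠ 0 := by exact_mod_cast (by omega : m ≠ 0)
  have h1 : ∑ h ∈ range m, FF A N (θ - h / m) * e ((h : ℝ) * x / m) =
      ∑ n ∈ Ico A (A + N), e (θ * n) * ∑ h ∈ range m, e ((((x : ℤ) - n : ℤ) : ℝ) * ((h : ℝ) / m)) := by
    unfold FF
    simp_rw [sum_mul]
    rw [sum_comm]
    refine sum_congr rfl fun n _ => ?_
    rw [mul_sum]
    refine sum_congr rfl fun h _ => ?_
    rw [← e_add, ← e_add]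
    congr 1
    push_cast
    field_simp
    ring
  have h2 : ∀ n ∈ Ico A (A + N), e (θ * n) * ∑ h ∈ range m, e ((((x : ℤ) - n : ℤ) : ℝ) * ((h : ℝ) / m)) =
      if n = x then e (θ * x) * m else 0 := by
    intro n hn
    rw [mem_Ico] at hn
    split_ifs with hnx
    · subst hnx
      have : ∀ h ∈ range m, e ((((n : ℤ) - n : ℤ) : ℝ) * ((h : ℝ) / m)) = 1 := by
        intro h _
        rw [sub_self]
        have := e_int 0
        simpa using this
      rw [sum_congr rfl this]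
      simp
    · rw [sum_char m hm _ _, mul_zero]
      intro hd
      have h4 : |(x : ℤ) - n| < m := by
        rw [abs_lt]
        omega
      have h5 := Int.eq_zero_of_abs_lt_dvd hd h4
      omega
  rw [h1, sum_congr rfl h2, sum_ite_eq']
  split_ifs with hx2
  · field_simp
  · simp

/-- **points in boxes** -/
theorem complete2 {ι : Type*} (Ω : Finset ι) (x y : ι → ℕ) (m1 m2 : ℕ) (hm1 : 1 ≤ m1) (hm2 : 1 ≤ m2)
    (hx : ∀ i ∈ Ω, x i < m1) (hy : ∀ i ∈ Ω, y i < m2) (B : ℝ) (hB : 0 ≤ B)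
    (hS : ∀ h < m1, ∀ k < m2, (h ≠ 0 ∨ k ≠ 0) →
      ‖∑ i ∈ Ω, e ((h : ℝ) * x i / m1) * e ((k : ℝ) * y i / m2)‖ ≤ B)
    (A1 N1 A2 N2 : ℕ) (h1 : A1 + N1 ≤ m1) (h2 : A2 + N2 ≤ m2) (θ1 θ2 : ℝ) :
    ‖∑ i ∈ Ω.filter (fun i => x i ∈ Ico A1 (A1 + N1) ∧ y i ∈ Ico A2 (A2 + N2)),
        e (θ1 * x i) * e (θ2 * y i) -
      FF A1 N1 θ1 * FF A2 N2 θ2 * Ω.card / (m1 * m2)‖ ≤
      B * ((3 + Real.log m1) * (3 + Real.log m2)) := by
  have hm1c : (m1 : ℂ) ≠ 0 := by exact_mod_cast (by omega : m1 ≠ 0)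
  have hm2c : (m2 : ℂ) ≠ 0 := by exact_mod_cast (by omega : m2 ≠ 0)
  have hm1r : (0 : ℝ) < m1 := by exact_mod_cast hm1
  have hm2r : (0 : ℝ) < m2 := by exact_mod_cast hm2
  set S : ℕ → ℕ → ℂ := fun h k => ∑ i ∈ Ω, e ((h : ℝ) * x i / m1) * e ((k : ℝ) * y i / m2) with hSd
  set a : ℕ → ℂ := fun h => FF A1 N1 (θ1 - h / m1) with ha
  set b : ℕ → ℂ := fun k => FF A2 N2 (θ2 - k / m2) with hb
  have e1 : ∑ i ∈ Ω.filter (fun i => x i ∈ Ico A1 (A1 + N1) ∧ y i ∈ Ico A2 (A2 + N2)),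
      e (θ1 * x i) * e (θ2 * y i) =
      (1 / ((m1 : ℂ) * m2)) * ∑ h ∈ range m1, ∑ k ∈ range m2, a h * b k * S h k := by
    rw [sum_filter]
    have e2 : ∀ i ∈ Ω, (if x i ∈ Ico A1 (A1 + N1) ∧ y i ∈ Ico A2 (A2 + N2) then
        e (θ1 * x i) * e (θ2 * y i) else 0) =
        (1 / ((m1 : ℂ) * m2)) * ∑ h ∈ range m1, ∑ k ∈ range m2,
          a h * b k * (e ((h : ℝ) * x i / m1) * e ((k : ℝ) * y i / m2)) := by
      intro i hi
      have e3 : (if x i ∈ Ico A1 (A1 + N1) ∧ y i ∈ Ico A2 (A2 + N2) then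
        e (θ1 * x i) * e (θ2 * y i) else 0) =
        (if x i ∈ Ico A1 (A1 + N1) then e (θ1 * x i) else 0) *
        (if y i ∈ Ico A2 (A2 + N2) then e (θ2 * y i) else 0) := by
        by_cases c1 : x i ∈ Ico A1 (A1 + N1) <;> by_cases c2 : y i ∈ Ico A2 (A2 + N2) <;>
          simp [c1, c2]
      rw [e3, complete1 A1 N1 m1 hm1 h1 θ1 (x i) (hx i hi), complete1 A2 N2 m2 hm2 h2 θ2 (y i) (hy i hi)]
      have e4 : ∀ u v : ℂ, (1 / (m1 : ℂ)) * u * ((1 / (m2 : ℂ)) * v) = (1 / ((m1 : ℂ) * m2)) * (u * v) := by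
        intro u v
        field_simp
      rw [e4, sum_mul_sum]
      congr 1
      refine sum_congr rfl fun h _ => sum_congr rfl fun k _ => ?_
      ring
    rw [sum_congr rfl e2, ← mul_sum]
    congr 1
    rw [sum_comm]
    refine sum_congr rfl fun h _ => ?_
    rw [sum_comm]
    refine sum_congr rfl fun k _ => ?_
    rw [hSd, mul_sum]
  -- separate the main term
  have h00 : S 0 0 = Ω.card := by
    have h0 : e 0 = 1 := by simpa using e_int 0
    simp [hSd, h0]
  have ha0 : a 0 = FF A1 N1 θ1 := by simp [ha]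
  have hb0 : b 0 = FF A2 N2 θ2 := by simp [hb]
  have e5 : ∑ h ∈ range m1, ∑ k ∈ range m2, a h * b k * S h k - a 0 * b 0 * S 0 0 =
      ∑ z ∈ (range m1 ×ˢ range m2).erase (0, 0), a z.1 * b z.2 * S z.1 z.2 := by
    rw [← sum_product', ← add_sum_erase (range m1 ×ˢ range m2) _
      (mem_product.2 ⟨mem_range.2 hm1, mem_range.2 hm2⟩ : ((0 : ℕ), (0 : ℕ)) ∈ range m1 ×ˢ range m2)]
    ring
  have e6 : ‖∑ z ∈ (range m1 ×ˢ range m2).erase (0, 0), a z.1 * b z.2 * S z.1 z.2‖ ≤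
      B * ((m1 * (3 + Real.log m1)) * (m2 * (3 + Real.log m2))) := by
    refine (norm_sum_le _ _).trans ?_
    have e7 : ∀ z ∈ (range m1 ×ˢ range m2).erase (0, 0), ‖a z.1 * b z.2 * S z.1 z.2‖ ≤
        B * (‖a z.1‖ * ‖b z.2‖) := by
      intro z hz
      rw [mem_erase, mem_product, mem_range, mem_range] at hz
      rw [norm_mul, norm_mul, mul_comm B]
      apply mul_le_mul_of_nonneg_left _ (by positivity)
      apply hS z.1 hz.2.1 z.2 hz.2.2
      by_contra hcon
      push Not at hcon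
      exact hz.1 (Prod.ext hcon.1 hcon.2)
    refine (sum_le_sum e7).trans ?_
    refine (sum_le_sum_of_subset_of_nonneg (erase_subset _ _) (fun _ _ _ => by positivity)).trans ?_
    rw [← mul_sum, sum_product' (range m1) (range m2) (fun h k => ‖a h‖ * ‖b k‖), ← sum_mul_sum]
    apply mul_le_mul_of_nonneg_left _ hB
    have b1 := L1_bound A1 N1 m1 hm1 (by omega) θ1
    have b2 := L1_bound A2 N2 m2 hm2 (by omega) θ2
    exact mul_le_mul b1 b2 (sum_nonneg fun _ _ => norm_nonneg _)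
      (mul_nonneg hm1r.le (by have := Real.log_natCast_nonneg m1; linarith))
  have e8 : ∑ i ∈ Ω.filter (fun i => x i ∈ Ico A1 (A1 + N1) ∧ y i ∈ Ico A2 (A2 + N2)),
        e (θ1 * x i) * e (θ2 * y i) -
      FF A1 N1 θ1 * FF A2 N2 θ2 * Ω.card / (m1 * m2) =
      (1 / ((m1 : ℂ) * m2)) * ∑ z ∈ (range m1 ×ˢ range m2).erase (0, 0), a z.1 * b z.2 * S z.1 z.2 := by
    rw [← e5, e1, h00, ha0, hb0]
    field_simp
  rw [e8, norm_mul, norm_div, norm_one, norm_mul, Complex.norm_natCast, Complex.norm_natCast]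
  have hmm : (0 : ℝ) < (m1 : ℝ) * m2 := by positivity
  calc 1 / ((m1 : ℝ) * m2) * _ ≤ 1 / ((m1 : ℝ) * m2) *
        (B * ((m1 * (3 + Real.log m1)) * (m2 * (3 + Real.log m2)))) :=
        mul_le_mul_of_nonneg_left e6 (by positivity)
    _ = _ := by field_simp

end Pool.Agent.Q46.MH
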